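import Mathlib

/-!
# The notions used in the statement for MP_c82b80_an

* `Op H` : bounded operators on the complex Hilbert space `H`, with the operations `opAdd`, `opMul`,
  `opSmul`, `opOne`, `opAdj` (adjoint), the operator norm `opNorm` and the matrix coefficients
  `opCoeff ξ x η = ⟪ξ, x η⟫`.
* `IsHyperfinite R` : the von Neumann algebra `R` on `H` is the hyperfinite II_1 factor in its standard
  representation: it is the double commutant of an infinite sequence of pairwise commuting unital copies of
  the `2 x 2` matrices, and there is a unit vector `Ω`, cyclic for `R`, whose vector state is a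
  trace on `R`.  (So `H` is `L^2(R)`.)
* `MasaOf R` : the maximal abelian self-adjoint subalgebras of `R`, with the Effros Borel structure.
* `Conjugate R A B` : `A` is mapped onto `B` by a star automorphism of `R`.
* `ClassifiableByCountableStructures E`.
-/

open scoped InnerProductSpace

namespace MP_c82b80_an

universe u

section operators

/-- bounded operators on `H` -/
abbrev Op (H : Type u) [NormedAddCommGroup H] [InnerProductSpace ℂ H] : Type u := H →L[ℂ] H

variable {H : Type u} [NormedAddCommGroup H] [InnerProductSpace ℂ H]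

/-- sum of two operators -/
def opAdd (x y : Op H) : Op H := x + y

/-- product (composition) of two operators -/
def opMul (x y : Op H) : Op H := x * y

/-- multiple of an operator -/
def opSmul (c : ℂ) (x : Op H) : Op H := c • x

/-- the identity operator -/
def opOne : Op H := 1

/-- the value of an operator at a vector -/
def opApp (x : Op H) (ξ : H) : H := x ξ

/-- the operator norm -/
noncomputable def opNorm (x : Op H) : ℝ := ‖x‖

/-- the matrix coefficient `⟪ξ, x η⟫` -/
noncomputable def opCoeff (ξ : H) (x : Op H) (η : H) : ℂ := ⟪ξ, opApp x η⟫_ℂ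

/-- the commutant of a set of operators -/
def opCommutant (S : Set (Op H)) : Set (Op H) := {y | ∀ x ∈ S, opMul x y = opMul y x}

variable [CompleteSpace H]

/-- the adjoint of an operator -/
noncomputable def opAdj (x : Op H) : Op H := star x

/-- the set of the elements of a von Neumann algebra -/
def vnSet (R : VonNeumannAlgebra H) : Set (Op H) := {x | x ∈ R}

/-- the unital star homomorphisms from the `2 x 2` matrices to the operators on `H` -/
noncomputable def M2Rep (H : Type u) [NormedAddCommGroup H] [InnerProductSpace ℂ H] [CompleteSpace H] :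
    Type u := Matrix (Fin 2) (Fin 2) ℂ →⋆ₐ[ℂ] (H →L[ℂ] H)

/-- the image of a matrix -/
noncomputable def M2Rep.app (φ : M2Rep H) (a : Matrix (Fin 2) (Fin 2) ℂ) : Op H :=
  @DFunLike.coe (Matrix (Fin 2) (Fin 2) ℂ →⋆ₐ[ℂ] (H →L[ℂ] H)) _ _ _ φ a

/-- `R` is the hyperfinite II_1 factor acting standardly. -/
def IsHyperfinite (R : VonNeumannAlgebra H) : Prop :=
  ∃ (ι : ℕ → M2Rep H) (Ω : H),
    (∀ i j, i ≠ j → ∀ a b,
      opMul ((ι i).app a) ((ι j).app b) = opMul ((ι j).app b) ((ι i).app a)) ∧
    vnSet R = opCommutant (opCommutant {x | ∃ i a, x = (ι i).app a}) ∧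
    ‖Ω‖ = 1 ∧
    (∀ x ∈ vnSet R, ∀ y ∈ vnSet R, opCoeff Ω (opMul x y) Ω = opCoeff Ω (opMul y x) Ω) ∧
    Dense {ξ : H | ∃ x ∈ vnSet R, ξ = opApp x Ω}

/-- `S` is a self-adjoint algebra of operators containing the identity. -/
structure IsStarAlg (S : Set (Op H)) : Prop where
  one : opOne ∈ S
  add : ∀ x ∈ S, ∀ y ∈ S, opAdd x y ∈ S
  mul : ∀ x ∈ S, ∀ y ∈ S, opMul x y ∈ S
  smul : ∀ c : ℂ, ∀ x ∈ S, opSmul c x ∈ S
  adj : ∀ x ∈ S, opAdj x ∈ S

/-- Maximal abelian self-adjoint subalgebras of `R`. -/
structure MasaOf (R : VonNeumannAlgebra H) where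
  /-- the set of the elements of the subalgebra -/
  carrier : Set (Op H)
  starAlg : IsStarAlg carrier
  sub : carrier ⊆ vnSet R
  comm : ∀ x ∈ carrier, ∀ y ∈ carrier, opMul x y = opMul y x
  maximal : ∀ B : Set (Op H), IsStarAlg B → B ⊆ vnSet R →
    (∀ x ∈ B, ∀ y ∈ B, opMul x y = opMul y x) → carrier ⊆ B → B = carrier

/-- The set of all `A` whose unit ball meets the basic weakly open set of all `a` with
`|⟪ξ i, a (η i)⟫ - c i| < r` for `i < n`. -/
def hitSet (R : VonNeumannAlgebra H) (n : ℕ) (ξ η : Fin n → H) (c : Fin n → ℂ) (r : ℝ) :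
    Set (MasaOf R) :=
  {A | ∃ a ∈ A.carrier, opNorm a ≤ 1 ∧ ∀ i, ‖opCoeff (ξ i) a (η i) - c i‖ < r}

/-- The Effros Borel structure on the masas of `R`: it is generated by the sets `hitSet`. -/
instance effrosBorel (R : VonNeumannAlgebra H) : MeasurableSpace (MasaOf R) :=
  MeasurableSpace.generateFrom {S | ∃ n ξ η c r, S = hitSet R n ξ η c r}

/-- `θ` is (on `R`) a star automorphism of `R`. -/
structure IsAut (R : VonNeumannAlgebra H) (θ : Op H → Op H) : Prop where
  bij : Set.BijOn θ (vnSet R) (vnSet R)
  add : ∀ x ∈ vnSet R, ∀ y ∈ vnSet R, θ (opAdd x y) = opAdd (θ x) (θ y)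
  mul : ∀ x ∈ vnSet R, ∀ y ∈ vnSet R, θ (opMul x y) = opMul (θ x) (θ y)
  smul : ∀ c : ℂ, ∀ x ∈ vnSet R, θ (opSmul c x) = opSmul c (θ x)
  adj : ∀ x ∈ vnSet R, θ (opAdj x) = opAdj (θ x)

/-- Conjugacy by an automorphism of `R`. -/
def Conjugate (R : VonNeumannAlgebra H) (A B : MasaOf R) : Prop :=
  ∃ θ : Op H → Op H, IsAut R θ ∧ θ '' A.carrier = B.carrier

end operators

section structures

/-- The Borel structure of the space of `L`-structures with universe `ℕ`: generated by the sets
`{M | M ⊨ P(a)}` and `{M | F^M(a) = b}`. -/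
def structMeasurableSpace (L : FirstOrder.Language.{0, 0}) : MeasurableSpace (L.Structure ℕ) :=
  MeasurableSpace.generateFrom
    ({S | ∃ (n : ℕ) (P : L.Relations n) (a : Fin n → ℕ), S = {M : L.Structure ℕ | M.RelMap P a}} ∪
     {S | ∃ (n : ℕ) (F : L.Functions n) (a : Fin n → ℕ) (b : ℕ),
       S = {M : L.Structure ℕ | M.funMap F a = b}})

/-- Isomorphism of `L`-structures with universe `ℕ`. -/
def StructIso (L : FirstOrder.Language.{0, 0}) (M N : L.Structure ℕ) : Prop :=
  Nonempty (@FirstOrder.Language.Equiv L ℕ ℕ M N)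

/-- `E` is classifiable by countable structures: there are a countable first-order language `L`
and a Borel map `f` to the space of `L`-structures with universe `ℕ` such that `x E y` if and only
if `f x ≅ f y`. -/
def ClassifiableByCountableStructures {X : Type u} [MeasurableSpace X] (E : X → X → Prop) : Prop :=
  ∃ (L : FirstOrder.Language.{0, 0}) (_ : Countable L.Symbols) (f : X → L.Structure ℕ),
    @Measurable X (L.Structure ℕ) _ (structMeasurableSpace L) f ∧
    ∀ x y, E x y ↔ StructIso L (f x) (f y)

end structures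

end MP_c82b80_an
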