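import Mathlib
import Pool.Agent.Lib.MP_c82b80_an.Stmt

/-!
# Definitions for MP_c82b80_an

* `IsHyperfiniteII1 R` : the von Neumann algebra `R` on the Hilbert space `H` is the hyperfinite
  II_1 factor in its standard representation: it is generated by an infinite sequence of pairwise
  commuting unital copies of the `2 x 2` matrices, and there is a unit vector `Ω`, cyclic for `R`,
  whose vector state is a trace on `R`.  (So `H` is `L^2(R)`.)
* `Masa R` : the maximal abelian self-adjoint subalgebras of `R`, with the (restriction of the)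
  Effros Borel structure.
* `MasaConj R` : conjugacy by an automorphism of `R`.
These are working forms of the notions of `Stmt.lean`.
-/

open scoped InnerProductSpace

namespace MP_c82b80_an

universe u

section vN

variable {H : Type u} [NormedAddCommGroup H] [InnerProductSpace ℂ H] [CompleteSpace H]

/-- `R` is the hyperfinite II_1 factor acting standardly. -/
def IsHyperfiniteII1 (R : VonNeumannAlgebra H) : Prop :=
  ∃ (ι : ℕ → Matrix (Fin 2) (Fin 2) ℂ →⋆ₐ[ℂ] (H →L[ℂ] H)) (Ω : H),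
    (∀ i j, i ≠ j → ∀ a b, Commute (ι i a) (ι j b)) ∧
    (R : Set (H →L[ℂ] H)) =
      Set.centralizer (Set.centralizer (⋃ i, Set.range (ι i))) ∧
    ‖Ω‖ = 1 ∧
    (∀ x ∈ R, ∀ y ∈ R, ⟪Ω, (x * y) Ω⟫_ℂ = ⟪Ω, (y * x) Ω⟫_ℂ) ∧
    Dense {ξ : H | ∃ x ∈ R, x Ω = ξ}

/-- Maximal abelian self-adjoint subalgebras of `R`. -/
structure Masa (R : VonNeumannAlgebra H) where
  /-- the subalgebra -/
  alg : StarSubalgebra ℂ (H →L[ℂ] H)
  le : alg ≤ R.toStarSubalgebra
  comm : ∀ x ∈ alg, ∀ y ∈ alg, x * y = y * x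
  maximal : ∀ B : StarSubalgebra ℂ (H →L[ℂ] H), B ≤ R.toStarSubalgebra →
    (∀ x ∈ B, ∀ y ∈ B, x * y = y * x) → alg ≤ B → B = alg

/-- The generators of the Effros Borel structure: for a basic weakly open set `U` of operators,
the set of all `A` whose unit ball meets `U`. -/
def effrosGen (R : VonNeumannAlgebra H) : Set (Set (Masa R)) :=
  {S | ∃ (n : ℕ) (ξ η : Fin n → H) (c : Fin n → ℂ) (r : ℝ),
    S = {A : Masa R | ∃ a ∈ A.alg, ‖a‖ ≤ 1 ∧ ∀ i, ‖⟪ξ i, a (η i)⟫_ℂ - c i‖ < r}}

/-- The Effros Borel structure on the masas of `R`. -/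
instance effrosMeasurableSpace (R : VonNeumannAlgebra H) : MeasurableSpace (Masa R) :=
  MeasurableSpace.generateFrom (effrosGen R)

/-- Conjugacy by an automorphism of `R`. -/
def MasaConj (R : VonNeumannAlgebra H) (A B : Masa R) : Prop :=
  ∃ θ : R.toStarSubalgebra ≃⋆ₐ[ℂ] R.toStarSubalgebra,
    ∀ x : R.toStarSubalgebra, (x : H →L[ℂ] H) ∈ A.alg ↔ (θ x : H →L[ℂ] H) ∈ B.alg

end vN



end MP_c82b80_an
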