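import Mathlib

/-!
# JOB PI : commuting matrix algebras generate the matrix algebra over the product index set

* `tens m` is the tensor product of the matrices `m i`, a matrix over `∀ i, A i`.
* `exists_piHom`: for commuting unital star homomorphisms `φ i : M_{A i} → B` there is a unital star
  homomorphism `ρ : M_{∀ i, A i} → B` with `ρ (tens m) = φ 0 (m 0) * φ 1 (m 1) * ...`.
* `kr a b` is the tensor product of two matrices, a matrix over `A × B`.
* `exists_prodHom`: for commuting unital star homomorphisms `α : M_A → C`, `β : M_B → C` there is a unital star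
  homomorphism `γ : M_{A × B} → C` with `γ (kr a b) = α a * β b`.

Proof of `exists_prodHom`:
`γ X = ∑ b, ∑ b', α (fun a a' => X (a, b) (a', b')) * β (single b b' 1)`; it is multiplicative since
`single b b' 1 * single c c' 1 = [b' = c] single b c' 1`.
Proof of `exists_piHom` by induction on `N` with `exists_prodHom` (`Fin.consEquiv`, `Fin.snocEquiv`), or
directly: `ρ X = ∑ y, ∑ z, X y z • (List.ofFn fun i => φ i (single (y i) (z i) 1)).prod`.
-/

namespace MP_c82b80_an

/-- tensor product of matrices -/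
def tens {N : ℕ} {A : Fin N → Type} (m : ∀ i, Matrix (A i) (A i) ℂ) :
    Matrix (∀ i, A i) (∀ i, A i) ℂ :=
  fun y z => ∏ i, m i (y i) (z i)

theorem tens_one {N : ℕ} {A : Fin N → Type} [∀ i, DecidableEq (A i)] :
    tens (fun i => (1 : Matrix (A i) (A i) ℂ)) = 1 := by
  ext y z
  simp only [tens, Matrix.one_apply]
  by_cases h : y = z
  · subst h
    simp
  · rw [if_neg h]
    obtain ⟨i, hi⟩ := Function.ne_iff.1 h
    exact Finset.prod_eq_zero (Finset.mem_univ i) (if_neg hi)

theorem tens_mul {N : ℕ} {A : Fin N → Type} [∀ i, Fintype (A i)]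
    (m m' : ∀ i, Matrix (A i) (A i) ℂ) :
    tens m * tens m' = tens (fun i => m i * m' i) := by
  ext y z
  simp only [tens, Matrix.mul_apply]
  rw [Finset.prod_univ_sum, Fintype.piFinset_univ]
  exact Finset.sum_congr rfl fun w _ => Finset.prod_mul_distrib.symm

theorem tens_conjTranspose {N : ℕ} {A : Fin N → Type} (m : ∀ i, Matrix (A i) (A i) ℂ) :
    (tens m).conjTranspose = tens (fun i => (m i).conjTranspose) := by
  ext y z
  simp only [tens, Matrix.conjTranspose_apply, star_prod]

theorem tens_trace {N : ℕ} {A : Fin N → Type} [∀ i, Fintype (A i)]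
    (m : ∀ i, Matrix (A i) (A i) ℂ) :
    (tens m).trace = ∏ i, (m i).trace := by
  simp only [tens, Matrix.trace, Matrix.diag_apply]
  rw [Finset.prod_univ_sum, Fintype.piFinset_univ]

theorem tens_single {N : ℕ} {A : Fin N → Type} [∀ i, DecidableEq (A i)] (y z : ∀ i, A i) :
    tens (fun i => Matrix.single (y i) (z i) (1 : ℂ)) = Matrix.single y z 1 := by
  ext u v
  simp only [tens, Matrix.single_apply]
  by_cases h : y = u ∧ z = v
  · obtain ⟨h1, h2⟩ := h
    subst h1 h2
    simp
  · rw [if_neg h]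
    by_cases h1 : y = u
    · have h2 : ¬ z = v := fun h2 => h ⟨h1, h2⟩
      obtain ⟨i, hi⟩ := Function.ne_iff.1 h2
      exact Finset.prod_eq_zero (Finset.mem_univ i) (if_neg fun hh => hi hh.2)
    · obtain ⟨i, hi⟩ := Function.ne_iff.1 h1
      exact Finset.prod_eq_zero (Finset.mem_univ i) (if_neg fun hh => hi hh.1)

/-- tensor product of two matrices -/
def kr {A B : Type} (a : Matrix A A ℂ) (b : Matrix B B ℂ) : Matrix (A × B) (A × B) ℂ :=
  fun p q => a p.1 q.1 * b p.2 q.2

theorem kr_one {A B : Type} [DecidableEq A] [DecidableEq B] :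
    kr (1 : Matrix A A ℂ) (1 : Matrix B B ℂ) = 1 := by
  ext p q
  obtain ⟨p1, p2⟩ := p
  obtain ⟨q1, q2⟩ := q
  simp only [kr, Matrix.one_apply, Prod.mk.injEq]
  by_cases h1 : p1 = q1 <;> by_cases h2 : p2 = q2 <;> simp [h1, h2]

theorem kr_mul {A B : Type} [Fintype A] [Fintype B] (a a' : Matrix A A ℂ) (b b' : Matrix B B ℂ) :
    kr a b * kr a' b' = kr (a * a') (b * b') := by
  ext p q
  simp only [kr, Matrix.mul_apply, Fintype.sum_prod_type, Finset.sum_mul_sum]
  exact Finset.sum_congr rfl fun x _ => Finset.sum_congr rfl fun y _ => by ring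

theorem kr_conjTranspose {A B : Type} (a : Matrix A A ℂ) (b : Matrix B B ℂ) :
    (kr a b).conjTranspose = kr a.conjTranspose b.conjTranspose := by
  ext p q
  simp only [kr, Matrix.conjTranspose_apply, star_mul']

theorem kr_trace {A B : Type} [Fintype A] [Fintype B] (a : Matrix A A ℂ) (b : Matrix B B ℂ) :
    (kr a b).trace = a.trace * b.trace := by
  simp only [kr, Matrix.trace, Matrix.diag_apply, Fintype.sum_prod_type, Finset.sum_mul_sum]

theorem kr_single {A B : Type} [DecidableEq A] [DecidableEq B] (p q : A × B) :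
    kr (Matrix.single p.1 q.1 (1 : ℂ)) (Matrix.single p.2 q.2 1) = Matrix.single p q 1 := by
  ext u v
  obtain ⟨p1, p2⟩ := p
  obtain ⟨q1, q2⟩ := q
  obtain ⟨u1, u2⟩ := u
  obtain ⟨v1, v2⟩ := v
  simp only [kr, Matrix.single_apply, Prod.mk.injEq]
  by_cases h1 : p1 = u1 <;> by_cases h2 : p2 = u2 <;> by_cases h3 : q1 = v1 <;>
    by_cases h4 : q2 = v2 <;> simp [h1, h2, h3, h4]

/-- block of a matrix over a product -/
private def PiBlk {A B : Type} (X : Matrix (A × B) (A × B) ℂ) (b b' : B) : Matrix A A ℂ :=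
  fun a a' => X (a, b) (a', b')

private theorem PiBlk_mul {A B : Type} [Fintype A] [Fintype B] (X Y : Matrix (A × B) (A × B) ℂ)
    (b b' : B) : PiBlk (X * Y) b b' = ∑ c, PiBlk X b c * PiBlk Y c b' := by
  ext a a'
  simp only [PiBlk, Matrix.mul_apply, Matrix.sum_apply, Fintype.sum_prod_type]
  rw [Finset.sum_comm]

private theorem PiBlk_add {A B : Type} (X Y : Matrix (A × B) (A × B) ℂ)
    (b b' : B) : PiBlk (X + Y) b b' = PiBlk X b b' + PiBlk Y b b' := rfl

private theorem PiBlk_smul {A B : Type} (r : ℂ) (X : Matrix (A × B) (A × B) ℂ)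
    (b b' : B) : PiBlk (r • X) b b' = r • PiBlk X b b' := rfl

private theorem PiBlk_star {A B : Type} (X : Matrix (A × B) (A × B) ℂ)
    (b b' : B) : PiBlk (star X) b b' = star (PiBlk X b' b) := rfl

private theorem PiBlk_one {A B : Type} [DecidableEq A] [DecidableEq B]
    (b b' : B) : PiBlk (1 : Matrix (A × B) (A × B) ℂ) b b' =
      if b = b' then (1 : Matrix A A ℂ) else 0 := by
  ext a a'
  by_cases h : b = b'
  · rw [if_pos h]
    simp only [PiBlk, Matrix.one_apply, Prod.mk.injEq, h, and_true]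
  · rw [if_neg h]
    simp [PiBlk, Prod.mk.injEq, h]

private theorem PiBlk_kr {A B : Type} (a : Matrix A A ℂ) (b : Matrix B B ℂ)
    (i j : B) : PiBlk (kr a b) i j = b i j • a := by
  ext x y
  simp only [PiBlk, kr, Matrix.smul_apply, smul_eq_mul, mul_comm]

private theorem Pi_expand {B : Type} [Fintype B] [DecidableEq B] (b : Matrix B B ℂ) :
    b = ∑ i, ∑ j, b i j • Matrix.single i j (1 : ℂ) := by
  conv_lhs => rw [Matrix.matrix_eq_sum_single b]
  refine Finset.sum_congr rfl fun i _ => Finset.sum_congr rfl fun j _ => ?_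
  rw [Matrix.smul_single, smul_eq_mul, mul_one]

theorem exists_prodHom {C : Type*} [Ring C] [Algebra ℂ C] [StarRing C] [StarModule ℂ C]
    {A B : Type} [Fintype A] [Fintype B] [DecidableEq A] [DecidableEq B]
    (α : Matrix A A ℂ →⋆ₐ[ℂ] C) (β : Matrix B B ℂ →⋆ₐ[ℂ] C)
    (hc : ∀ a b, Commute (α a) (β b)) :
    ∃ γ : Matrix (A × B) (A × B) ℂ →⋆ₐ[ℂ] C, ∀ a b, γ (kr a b) = α a * β b := by
  classical
  set f : Matrix (A × B) (A × B) ℂ → C :=
    fun X => ∑ b, ∑ b', α (PiBlk X b b') * β (Matrix.single b b' 1) with hf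
  have hone : f 1 = 1 := by
    simp only [hf, PiBlk_one]
    have h1 : ∀ b : B, (∑ b', α (if b = b' then (1 : Matrix A A ℂ) else 0) *
        β (Matrix.single b b' 1)) = β (Matrix.single b b 1) := by
      intro b
      rw [Finset.sum_eq_single b]
      · simp
      · intro c _ hcb
        rw [if_neg (Ne.symm hcb), map_zero, zero_mul]
      · intro h
        exact absurd (Finset.mem_univ b) h
    rw [Finset.sum_congr rfl fun b _ => h1 b, ← map_sum]
    have h2 : (∑ b : B, Matrix.single b b (1 : ℂ)) = 1 := by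
      ext i j
      simp only [Matrix.sum_apply, Matrix.single_apply, Matrix.one_apply]
      by_cases hij : i = j
      · subst hij
        simp
      · rw [if_neg hij]
        refine Finset.sum_eq_zero fun b _ => if_neg fun hb => hij (hb.1.symm.trans hb.2)
    rw [h2, map_one]
  have hadd : ∀ X Y, f (X + Y) = f X + f Y := by
    intro X Y
    simp only [hf, PiBlk_add, map_add, add_mul, Finset.sum_add_distrib]
  have hsmul : ∀ (r : ℂ) X, f (r • X) = r • f X := by
    intro r X
    simp only [hf, PiBlk_smul, map_smul, smul_mul_assoc, Finset.smul_sum]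
  have hstar : ∀ X, f (star X) = star (f X) := by
    intro X
    simp only [hf, PiBlk_star, star_sum, star_mul]
    rw [Finset.sum_comm]
    refine Finset.sum_congr rfl fun b _ => Finset.sum_congr rfl fun b' _ => ?_
    rw [← map_star, ← map_star, (hc _ _).eq]
    congr 2
    rw [Matrix.star_eq_conjTranspose, Matrix.conjTranspose_single, star_one]
  have hmul : ∀ X Y, f (X * Y) = f X * f Y := by
    intro X Y
    have key : ∀ b b' : B, α (PiBlk X b b') * β (Matrix.single b b' 1) * f Y =
        ∑ c', α (PiBlk X b b') * α (PiBlk Y b' c') * β (Matrix.single b c' 1) := by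
      intro b b'
      simp only [hf, Finset.mul_sum]
      rw [Finset.sum_eq_single b']
      · refine Finset.sum_congr rfl fun c' _ => ?_
        rw [mul_assoc (α (PiBlk X b b')), ← mul_assoc (β _) (α _) (β _), ← (hc _ _).eq,
          mul_assoc (α (PiBlk Y b' c')), ← map_mul β, Matrix.single_mul_single_same, mul_one,
          ← mul_assoc]
      · intro c _ hcb
        refine Finset.sum_eq_zero fun c' _ => ?_
        rw [mul_assoc (α (PiBlk X b b')), ← mul_assoc (β _) (α _) (β _), ← (hc _ _).eq,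
          mul_assoc (α (PiBlk Y c c')), ← map_mul β,
          Matrix.single_mul_single_of_ne _ _ _ _ (Ne.symm hcb),
          map_zero, mul_zero, mul_zero]
      · intro h
        exact absurd (Finset.mem_univ b') h
    calc f (X * Y) = ∑ b, ∑ c', ∑ b', α (PiBlk X b b') * α (PiBlk Y b' c') *
          β (Matrix.single b c' 1) := by
          simp only [hf, PiBlk_mul, map_sum, map_mul, Finset.sum_mul]
      _ = ∑ b, ∑ b', ∑ c', α (PiBlk X b b') * α (PiBlk Y b' c') *
          β (Matrix.single b c' 1) :=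
          Finset.sum_congr rfl fun b _ => Finset.sum_comm
      _ = ∑ b, ∑ b', α (PiBlk X b b') * β (Matrix.single b b' 1) * f Y :=
          Finset.sum_congr rfl fun b _ => Finset.sum_congr rfl fun b' _ => (key b b').symm
      _ = f X * f Y := by
          simp only [hf, Finset.sum_mul]
  have hzero : f 0 = 0 := by
    have := hsmul 0 0
    simpa using this
  refine ⟨{ toFun := f
            map_one' := hone
            map_mul' := hmul
            map_zero' := hzero
            map_add' := hadd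
            commutes' := ?_
            map_star' := hstar }, ?_⟩
  · intro r
    rw [Algebra.algebraMap_eq_smul_one, hsmul, hone, Algebra.algebraMap_eq_smul_one]
  · intro a b
    change f (kr a b) = α a * β b
    simp only [hf, PiBlk_kr]
    conv_rhs => rw [Pi_expand b]
    simp only [map_sum, map_smul, Finset.mul_sum, mul_smul_comm, smul_mul_assoc]

/-- reindexing as a star homomorphism -/
private def PiReindex {I J : Type} [Fintype I] [Fintype J] [DecidableEq I] [DecidableEq J]
    (e : I ≃ J) : Matrix J J ℂ →⋆ₐ[ℂ] Matrix I I ℂ where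
  toFun X := X.submatrix e e
  map_one' := Matrix.submatrix_one_equiv e
  map_mul' X Y := (Matrix.submatrix_mul_equiv X Y e e e).symm
  map_zero' := rfl
  map_add' _ _ := rfl
  commutes' r := by
    rw [Algebra.algebraMap_eq_smul_one, Algebra.algebraMap_eq_smul_one]
    change (r • (1 : Matrix J J ℂ)).submatrix e e = _
    rw [Matrix.submatrix_smul, Pi.smul_apply, Pi.smul_apply, Matrix.submatrix_one_equiv]
  map_star' _ := rfl

private theorem Pi_commute_list {B : Type*} [Ring B] (x : B) (l : List B)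
    (h : ∀ y ∈ l, Commute x y) : Commute x l.prod := by
  induction l with
  | nil => simp
  | cons a l ih =>
    rw [List.prod_cons]
    exact (h a (List.mem_cons_self ..)).mul_right (ih fun y hy => h y (List.mem_cons_of_mem _ hy))

private theorem Pi_commute_ρ {B : Type*} [Ring B] [Algebra ℂ B] [StarRing B] [StarModule ℂ B]
    {N : ℕ} (A : Fin N → Type) [∀ i, Fintype (A i)] [∀ i, DecidableEq (A i)]
    (φ : ∀ i, Matrix (A i) (A i) ℂ →⋆ₐ[ℂ] B)
    (ρ : Matrix (∀ i, A i) (∀ i, A i) ℂ →⋆ₐ[ℂ] B)
    (hρ : ∀ m : ∀ i, Matrix (A i) (A i) ℂ, ρ (tens m) = (List.ofFn fun i => φ i (m i)).prod)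
    (x : B) (hx : ∀ i a, Commute x (φ i a)) (X : Matrix (∀ i, A i) (∀ i, A i) ℂ) :
    Commute x (ρ X) := by
  rw [Pi_expand X]
  simp only [map_sum, map_smul]
  refine Commute.sum_right _ _ _ fun y _ => Commute.sum_right _ _ _ fun z _ => ?_
  refine Commute.smul_right ?_ _
  rw [← tens_single y z, hρ]
  refine Pi_commute_list _ _ fun w hw => ?_
  rw [List.mem_ofFn] at hw
  obtain ⟨i, rfl⟩ := hw
  exact hx i _

theorem exists_piHom {B : Type*} [Ring B] [Algebra ℂ B] [StarRing B] [StarModule ℂ B]
    {N : ℕ} (A : Fin N → Type) [∀ i, Fintype (A i)] [∀ i, DecidableEq (A i)]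
    (φ : ∀ i, Matrix (A i) (A i) ℂ →⋆ₐ[ℂ] B)
    (hc : ∀ i j, i ≠ j → ∀ a b, Commute (φ i a) (φ j b)) :
    ∃ ρ : Matrix (∀ i, A i) (∀ i, A i) ℂ →⋆ₐ[ℂ] B,
      ∀ m : ∀ i, Matrix (A i) (A i) ℂ, ρ (tens m) = (List.ofFn fun i => φ i (m i)).prod := by
  induction N with
  | zero =>
    refine ⟨{ toFun := fun X => algebraMap ℂ B (X (fun i => Fin.elim0 i) (fun i => Fin.elim0 i))
              map_one' := ?_
              map_mul' := ?_
              map_zero' := ?_
              map_add' := ?_
              commutes' := ?_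
              map_star' := ?_ }, ?_⟩
    · rw [Matrix.one_apply_eq, map_one]
    · intro X Y
      rw [Matrix.mul_apply, Fintype.sum_subsingleton _ (fun i => Fin.elim0 i), map_mul]
    · rw [Matrix.zero_apply, map_zero]
    · intro X Y
      change algebraMap ℂ B ((X + Y) _ _) = algebraMap ℂ B (X _ _) + algebraMap ℂ B (Y _ _)
      rw [Matrix.add_apply, map_add]
    · intro r
      change algebraMap ℂ B ((algebraMap ℂ (Matrix _ _ ℂ) r) _ _) = algebraMap ℂ B r
      rw [Matrix.algebraMap_matrix_apply, if_pos rfl]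
      rfl
    · intro X
      rw [Matrix.star_apply, algebraMap_star_comm]
    · intro m
      change algebraMap ℂ B (tens m _ _) = _
      simp [tens]
  | succ N ih =>
    obtain ⟨ρ', hρ'⟩ := ih (fun i => A i.succ) (fun i => φ i.succ)
      (fun i j hij a b => hc i.succ j.succ (fun h => hij (Fin.succ_injective _ h)) a b)
    have hcom : ∀ a X, Commute (φ 0 a) (ρ' X) := fun a X =>
      Pi_commute_ρ (fun i => A i.succ) (fun i => φ i.succ) ρ' hρ' (φ 0 a)
        (fun i b => hc 0 i.succ (Fin.succ_ne_zero i).symm a b) X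
    obtain ⟨γ, hγ⟩ := exists_prodHom (φ 0) ρ' hcom
    refine ⟨γ.comp (PiReindex (Fin.consEquiv A)), fun m => ?_⟩
    have h1 : PiReindex (Fin.consEquiv A) (tens m) = kr (m 0) (tens fun i => m i.succ) := by
      ext p q
      change ∏ i, m i (Fin.consEquiv A p i) (Fin.consEquiv A q i) = _
      rw [Fin.prod_univ_succ]
      rfl
    rw [StarAlgHom.comp_apply, h1, hγ, hρ', List.ofFn_succ, List.prod_cons]

theorem exists_stageHom {B : Type*} [Ring B] [Algebra ℂ B] [StarRing B] [StarModule ℂ B]
    {C : Type} [Fintype C] [DecidableEq C]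
    {N : ℕ} (A : Fin N → Type) [∀ i, Fintype (A i)] [∀ i, DecidableEq (A i)]
    (α : Matrix C C ℂ →⋆ₐ[ℂ] B) (φ : ∀ i, Matrix (A i) (A i) ℂ →⋆ₐ[ℂ] B)
    (hα : ∀ i a b, Commute (α a) (φ i b))
    (hc : ∀ i j, i ≠ j → ∀ a b, Commute (φ i a) (φ j b)) :
    ∃ ρ : Matrix (C × (∀ i, A i)) (C × (∀ i, A i)) ℂ →⋆ₐ[ℂ] B,
      ∀ (c : Matrix C C ℂ) (m : ∀ i, Matrix (A i) (A i) ℂ),
        ρ (kr c (tens m)) = α c * (List.ofFn fun i => φ i (m i)).prod := by
  obtain ⟨ρ', hρ'⟩ := exists_piHom A φ hc
  obtain ⟨γ, hγ⟩ := exists_prodHom α ρ'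
    (fun a X => Pi_commute_ρ A φ ρ' hρ' (α a) (fun i b => hα i a b) X)
  exact ⟨γ, fun c m => by rw [hγ, hρ']⟩

end MP_c82b80_an
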