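import Mathlib
import Pool.Agent.Lib.MP_c82b80_an.Defs
import Pool.Agent.Lib.MP_c82b80_an.Pi

/-!
# The matrix tower of the hyperfinite II_1 factor: definitions

* `G n = Fin (n + 1) → Fin 2` : index set of the block `n`, with `2 ^ (n + 1)` elements;
  `Y N = ∀ i : Fin N, G i`, `I N = Fin 2 × Y N`.
* `BlockTower R` : `R` is generated by commuting copies: `φc` of the `2 x 2` matrices (the corner),
  and `φ n` of the matrix algebras over `G n`, `n = 0, 1, 2, ...`.
* `T.ρ N : Matrix (I N) (I N) ℂ →⋆ₐ[ℂ] (H →L[ℂ] H)` : the finite stages (corner and blocks `n < N`).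
* `T.τ x = ⟪Ω, x Ω⟫`, `T.n2 x = ‖x Ω‖`.
* `T.E N x` : conditional expectation of `x` on the stage `N`, `T.coef N x` its matrix.
-/

open scoped InnerProductSpace
open Filter Topology

namespace MP_c82b80_an

universe u

/-- index set of the block `n` -/
abbrev G (n : ℕ) : Type := Fin (n + 1) → Fin 2

/-- index set of the blocks below `N` -/
abbrev Y (N : ℕ) : Type := ∀ i : Fin N, G i

/-- index set of the stage `N` -/
abbrev I (N : ℕ) : Type := Fin 2 × Y N

variable {H : Type u} [NormedAddCommGroup H] [InnerProductSpace ℂ H] [CompleteSpace H]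

/-- `R` is generated by commuting copies of the `2 x 2` matrices and of the matrix algebras over `G n`,
with a cyclic trace vector. -/
structure BlockTower (R : VonNeumannAlgebra H) where
  Ω : H
  φc : Matrix (Fin 2) (Fin 2) ℂ →⋆ₐ[ℂ] (H →L[ℂ] H)
  φ : ∀ n : ℕ, Matrix (G n) (G n) ℂ →⋆ₐ[ℂ] (H →L[ℂ] H)
  commc : ∀ n a b, Commute (φc a) (φ n b)
  comm : ∀ m n, m ≠ n → ∀ a b, Commute (φ m a) (φ n b)
  gen : (R : Set (H →L[ℂ] H)) =
    Set.centralizer (Set.centralizer (Set.range φc ∪ ⋃ n, Set.range (φ n)))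
  norm_Ω : ‖Ω‖ = 1
  trace : ∀ x ∈ R, ∀ y ∈ R, ⟪Ω, (x * y) Ω⟫_ℂ = ⟪Ω, (y * x) Ω⟫_ℂ
  cyclic : Dense {ξ : H | ∃ x ∈ R, x Ω = ξ}

/-- the embedding of the stage `N` in the stage `N + 1` -/
def extd {N : ℕ} (x : Matrix (I N) (I N) ℂ) : Matrix (I (N + 1)) (I (N + 1)) ℂ :=
  fun p q => if p.2 (Fin.last N) = q.2 (Fin.last N) then
    x (p.1, fun i => p.2 i.castSucc) (q.1, fun i => q.2 i.castSucc) else 0

/-- the embedding of the corner in the stage `N` -/
def cor {N : ℕ} (c : Matrix (Fin 2) (Fin 2) ℂ) : Matrix (I N) (I N) ℂ := kr c 1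

/-- the embedding of the block `n` in the stage `N` -/
def blk {N : ℕ} (n : Fin N) (a : Matrix (G n) (G n) ℂ) : Matrix (I N) (I N) ℂ :=
  kr 1 (fun y z => if (∀ i, i ≠ n → y i = z i) then a (y n) (z n) else 0)

namespace BlockTower

variable {R : VonNeumannAlgebra H} (T : BlockTower R)

/-- the finite stages -/
noncomputable def ρ (N : ℕ) : Matrix (I N) (I N) ℂ →⋆ₐ[ℂ] (H →L[ℂ] H) :=
  (exists_stageHom (fun i : Fin N => G i) T.φc (fun i => T.φ i) (fun i => T.commc i)
    (fun i j hij => T.comm i j (fun h => hij (Fin.ext h)))).choose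

theorem ρ_kr (N : ℕ) (c : Matrix (Fin 2) (Fin 2) ℂ) (m : ∀ i : Fin N, Matrix (G i) (G i) ℂ) :
    T.ρ N (kr c (tens m)) = T.φc c * (List.ofFn fun i : Fin N => T.φ i (m i)).prod :=
  (exists_stageHom (fun i : Fin N => G i) T.φc (fun i => T.φ i) (fun i => T.commc i)
    (fun i j hij => T.comm i j (fun h => hij (Fin.ext h)))).choose_spec c m

/-- the trace -/
noncomputable def τ (x : H →L[ℂ] H) : ℂ := ⟪T.Ω, x T.Ω⟫_ℂ

/-- the 2-norm -/
noncomputable def n2 (x : H →L[ℂ] H) : ℝ := ‖x T.Ω‖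

/-- the matrix of the conditional expectation of `x` on the stage `N` -/
noncomputable def coef (N : ℕ) (x : H →L[ℂ] H) : Matrix (I N) (I N) ℂ :=
  fun p q => (Fintype.card (I N) : ℂ) * T.τ (x * T.ρ N (Matrix.single q p 1))

/-- the conditional expectation of `x` on the stage `N` -/
noncomputable def E (N : ℕ) (x : H →L[ℂ] H) : H →L[ℂ] H := T.ρ N (T.coef N x)

end BlockTower

end MP_c82b80_an
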