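import Mathlib
import Pool.Agent.Lib.MP_c82b80_an.Tower0

/-!
# JOB NORM2 : basic facts on the trace and the 2-norm

Everything follows from `T.trace`, `T.cyclic` and the definitions `T.τ x = ⟪Ω, x Ω⟫`, `T.n2 x = ‖x Ω‖`.
* `n2_mul_le` : `‖x (y Ω)‖ ≤ ‖x‖ ‖y Ω‖`.  `n2_star` : `τ (x* x) = τ (x x*)`.
  `n2_mul_le'` : `‖x y Ω‖ = ‖y* x* Ω‖ ≤ ‖y*‖ ‖x* Ω‖ = ‖y‖ ‖x Ω‖` by `n2_star`.
* `eq_zero_of_n2` : `x (y Ω) = 0` for all `y ∈ R` by `n2_mul_le'`, and `{y Ω}` is dense.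
* `tendsto_of_n2` : bounded sequences which converge in the 2-norm converge strongly (density of
  `{y Ω | y ∈ R}`, and `‖(x n - y) z Ω‖ ≤ n2 (x n - y) * ‖z‖`).
* `exists_limit` : bounded 2-norm Cauchy sequences in `R` converge strongly to an element
  of `R` (pointwise Cauchy on the dense set `{z Ω}`, uniformly bounded, hence pointwise convergent to a
  bounded operator; `R` is strongly closed as it is a commutant: `VonNeumannAlgebra.centralizer_centralizer`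
  or `T.gen`).
-/

open scoped InnerProductSpace
open Filter Topology

namespace MP_c82b80_an

universe u

variable {H : Type u} [NormedAddCommGroup H] [InnerProductSpace ℂ H] [CompleteSpace H]

namespace BlockTower

variable {R : VonNeumannAlgebra H} (T : BlockTower R)

theorem τ_comm {x y : H →L[ℂ] H} (hx : x ∈ R) (hy : y ∈ R) : T.τ (x * y) = T.τ (y * x) :=
  T.trace x hx y hy

theorem τ_add (x y : H →L[ℂ] H) : T.τ (x + y) = T.τ x + T.τ y := by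
  simp only [τ, add_apply, inner_add_right]

theorem τ_smul (c : ℂ) (x : H →L[ℂ] H) : T.τ (c • x) = c * T.τ x := by
  simp only [τ, smul_apply, inner_smul_right]

theorem τ_sub (x y : H →L[ℂ] H) : T.τ (x - y) = T.τ x - T.τ y := by
  simp only [τ, sub_apply, inner_sub_right]

theorem τ_sum {α : Type*} (s : Finset α) (x : α → H →L[ℂ] H) :
    T.τ (∑ i ∈ s, x i) = ∑ i ∈ s, T.τ (x i) := by
  simp only [τ, sum_apply, inner_sum]

theorem τ_zero : T.τ 0 = 0 := by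
  simp only [τ, zero_apply, inner_zero_right]

theorem τ_one : T.τ 1 = 1 := by
  simp only [τ, one_apply_eq_self]
  rw [inner_self_eq_norm_sq_to_K, T.norm_Ω]
  simp

private theorem Norm2_inner_star (x : H →L[ℂ] H) (a b : H) : ⟪a, (star x) b⟫_ℂ = ⟪x a, b⟫_ℂ := by
  rw [ContinuousLinearMap.star_eq_adjoint, ContinuousLinearMap.adjoint_inner_right]

theorem τ_star (x : H →L[ℂ] H) : T.τ (star x) = (starRingEnd ℂ) (T.τ x) := by
  simp only [τ]
  rw [Norm2_inner_star, inner_conj_symm]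

theorem τ_star_mul_self (x : H →L[ℂ] H) : T.τ (star x * x) = ((T.n2 x ^ 2 : ℝ) : ℂ) := by
  simp only [τ, n2, mul_apply_eq_comp]
  rw [Norm2_inner_star, inner_self_eq_norm_sq_to_K]
  simp

theorem norm_τ_star_mul_le (x y : H →L[ℂ] H) : ‖T.τ (star x * y)‖ ≤ T.n2 x * T.n2 y := by
  simp only [τ, n2, mul_apply_eq_comp]
  rw [Norm2_inner_star]
  exact norm_inner_le_norm _ _

theorem norm_τ_le (x : H →L[ℂ] H) : ‖T.τ x‖ ≤ T.n2 x := by
  simp only [τ, n2]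
  refine (norm_inner_le_norm _ _).trans ?_
  rw [T.norm_Ω, one_mul]

theorem n2_nonneg (x : H →L[ℂ] H) : 0 ≤ T.n2 x := norm_nonneg _

theorem n2_zero : T.n2 0 = 0 := by
  simp only [n2, zero_apply, norm_zero]

theorem n2_neg (x : H →L[ℂ] H) : T.n2 (-x) = T.n2 x := by
  simp only [n2, neg_apply, norm_neg]

theorem n2_smul (c : ℂ) (x : H →L[ℂ] H) : T.n2 (c • x) = ‖c‖ * T.n2 x := by
  simp only [n2, smul_apply, norm_smul]

theorem n2_le_norm (x : H →L[ℂ] H) : T.n2 x ≤ ‖x‖ := by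
  simp only [n2]
  refine (x.le_opNorm _).trans ?_
  rw [T.norm_Ω, mul_one]

theorem n2_add_le (x y : H →L[ℂ] H) : T.n2 (x + y) ≤ T.n2 x + T.n2 y := by
  simp only [n2, add_apply]
  exact norm_add_le _ _

theorem n2_sub_le (x y z : H →L[ℂ] H) : T.n2 (x - z) ≤ T.n2 (x - y) + T.n2 (y - z) := by
  have h : x - z = (x - y) + (y - z) := by abel
  rw [h]
  exact T.n2_add_le _ _

theorem n2_sub_comm (x y : H →L[ℂ] H) : T.n2 (x - y) = T.n2 (y - x) := by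
  rw [← T.n2_neg, neg_sub]

theorem n2_mul_le (x y : H →L[ℂ] H) : T.n2 (x * y) ≤ ‖x‖ * T.n2 y := by
  simp only [n2, mul_apply_eq_comp]
  exact x.le_opNorm _

theorem n2_star {x : H →L[ℂ] H} (hx : x ∈ R) : T.n2 (star x) = T.n2 x := by
  have h1 : ((T.n2 (star x) ^ 2 : ℝ) : ℂ) = ((T.n2 x ^ 2 : ℝ) : ℂ) := by
    rw [← T.τ_star_mul_self, ← T.τ_star_mul_self, star_star]
    exact T.τ_comm hx (star_mem hx)
  have h2 : T.n2 (star x) ^ 2 = T.n2 x ^ 2 := by exact_mod_cast h1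
  exact (pow_left_inj₀ (T.n2_nonneg _) (T.n2_nonneg _) two_ne_zero).1 h2

theorem n2_mul_le' {x y : H →L[ℂ] H} (hx : x ∈ R) (hy : y ∈ R) :
    T.n2 (x * y) ≤ T.n2 x * ‖y‖ := by
  rw [← T.n2_star (mul_mem hx hy), star_mul]
  refine (T.n2_mul_le _ _).trans ?_
  rw [T.n2_star hx, norm_star, mul_comm]

/-- multiplication by a unitary on the left preserves the 2-norm -/
theorem n2_unitary_mul {u : H →L[ℂ] H} (hu : star u * u = 1) (x : H →L[ℂ] H) :
    T.n2 (u * x) = T.n2 x := by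
  have h1 : ((T.n2 (u * x) ^ 2 : ℝ) : ℂ) = ((T.n2 x ^ 2 : ℝ) : ℂ) := by
    rw [← T.τ_star_mul_self, ← T.τ_star_mul_self, star_mul]
    have h3 : star x * star u * (u * x) = star x * (star u * u) * x := by
      simp only [mul_assoc]
    rw [h3, hu, mul_one]
  have h2 : T.n2 (u * x) ^ 2 = T.n2 x ^ 2 := by exact_mod_cast h1
  exact (pow_left_inj₀ (T.n2_nonneg _) (T.n2_nonneg _) two_ne_zero).1 h2

/-- multiplication by a unitary of `R` on the right preserves the 2-norm -/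
theorem n2_mul_unitary {x u : H →L[ℂ] H} (hx : x ∈ R) (hu : u ∈ R) (h : u * star u = 1) :
    T.n2 (x * u) = T.n2 x := by
  rw [← T.n2_star (mul_mem hx hu), star_mul, T.n2_unitary_mul (by rw [star_star]; exact h),
    T.n2_star hx]

theorem eq_zero_of_n2 {x : H →L[ℂ] H} (hx : x ∈ R) (h : T.n2 x = 0) : x = 0 := by
  have h1 : Set.EqOn (fun ξ : H => x ξ) (fun ξ : H => (0 : H →L[ℂ] H) ξ)
      {ξ : H | ∃ y ∈ R, y T.Ω = ξ} := by
    rintro _ ⟨y, hy, rfl⟩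
    have h2 := T.n2_mul_le' hx hy
    rw [h, zero_mul] at h2
    have h3 : ‖x (y T.Ω)‖ ≤ 0 := h2
    simpa using h3
  have h4 := Continuous.ext_on T.cyclic x.continuous (0 : H →L[ℂ] H).continuous h1
  ext ξ
  exact congrFun h4 ξ

private theorem Norm2_est {x y : H →L[ℂ] H} (hx : x ∈ R) (hy : y ∈ R) {z : H →L[ℂ] H} (hz : z ∈ R)
    (ξ : H) : ‖x ξ - y ξ‖ ≤ (‖x‖ + ‖y‖) * ‖ξ - z T.Ω‖ + T.n2 (x - y) * ‖z‖ := by
  have h1 : x ξ - y ξ = (x - y) (ξ - z T.Ω) + ((x - y) * z) T.Ω := by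
    simp only [sub_apply, mul_apply_eq_comp, map_sub]
    abel
  rw [h1]
  refine (norm_add_le _ _).trans ?_
  refine add_le_add ?_ ?_
  · refine ((x - y).le_opNorm _).trans ?_
    exact mul_le_mul_of_nonneg_right (norm_sub_le _ _) (norm_nonneg _)
  · exact T.n2_mul_le' (sub_mem hx hy) hz

private theorem Norm2_dense (ξ : H) {ε : ℝ} (hε : 0 < ε) : ∃ z ∈ R, ‖ξ - z T.Ω‖ < ε := by
  obtain ⟨η, h, ⟨z, hz, rfl⟩⟩ := Metric.dense_iff.1 T.cyclic ξ ε hε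
  refine ⟨z, hz, ?_⟩
  rw [Metric.mem_ball, dist_comm, dist_eq_norm] at h
  exact h

/-- the basic epsilon estimate -/
private theorem Norm2_eps {C : ℝ} (hC0 : 0 ≤ C) (ξ : H) {ε : ℝ} (hε : 0 < ε) :
    ∃ δ > 0, ∀ x ∈ R, ∀ y ∈ R, ‖x‖ ≤ C → ‖y‖ ≤ C → T.n2 (x - y) < δ → ‖x ξ - y ξ‖ < ε := by
  obtain ⟨z, hz, hzε⟩ := T.Norm2_dense ξ (show (0 : ℝ) < ε / (2 * (C + C + 1)) by positivity)
  refine ⟨ε / (2 * (‖z‖ + 1)), by positivity, fun x hx y hy hxC hyC hxy => ?_⟩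
  refine lt_of_le_of_lt (T.Norm2_est hx hy hz ξ) ?_
  have h1 : (‖x‖ + ‖y‖) * ‖ξ - z T.Ω‖ ≤ (C + C) * (ε / (2 * (C + C + 1))) :=
    mul_le_mul (add_le_add hxC hyC) hzε.le (norm_nonneg _) (by positivity)
  have h2 : T.n2 (x - y) * ‖z‖ ≤ (ε / (2 * (‖z‖ + 1))) * ‖z‖ :=
    mul_le_mul_of_nonneg_right hxy.le (norm_nonneg _)
  have h3 : (C + C) * (ε / (2 * (C + C + 1))) < ε / 2 := by
    rw [mul_div_assoc', div_lt_div_iff₀ (by positivity) (by positivity)]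
    nlinarith
  have h4 : (ε / (2 * (‖z‖ + 1))) * ‖z‖ < ε / 2 := by
    have := norm_nonneg z
    rw [div_mul_eq_mul_div, div_lt_div_iff₀ (by positivity) (by positivity)]
    nlinarith
  linarith

theorem tendsto_of_n2 {x : ℕ → H →L[ℂ] H} {y : H →L[ℂ] H} (hx : ∀ n, x n ∈ R) (hy : y ∈ R)
    {C : ℝ} (hC : ∀ n, ‖x n‖ ≤ C) (h : Tendsto (fun n => T.n2 (x n - y)) atTop (𝓝 0)) (ξ : H) :
    Tendsto (fun n => x n ξ) atTop (𝓝 (y ξ)) := by
  rw [Metric.tendsto_atTop]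
  intro ε hε
  have hC0 : 0 ≤ max C ‖y‖ := le_max_of_le_right (norm_nonneg _)
  obtain ⟨δ, hδ, hh⟩ := T.Norm2_eps hC0 ξ hε
  obtain ⟨N, hN⟩ := (Metric.tendsto_atTop.1 h) δ hδ
  refine ⟨N, fun n hn => ?_⟩
  rw [dist_eq_norm]
  refine hh _ (hx n) _ hy ((hC n).trans (le_max_left _ _)) (le_max_right _ _) ?_
  have h1 := hN n hn
  rw [Real.dist_eq, sub_zero] at h1
  exact lt_of_le_of_lt (le_abs_self _) h1

theorem exists_limit {x : ℕ → H →L[ℂ] H} (hx : ∀ n, x n ∈ R) {C : ℝ} (hC : ∀ n, ‖x n‖ ≤ C)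
    (h : ∀ ε > 0, ∃ N, ∀ m ≥ N, ∀ n ≥ N, T.n2 (x m - x n) < ε) :
    ∃ y ∈ R, (∀ ξ, Tendsto (fun n => x n ξ) atTop (𝓝 (y ξ))) ∧
      Tendsto (fun n => T.n2 (x n - y)) atTop (𝓝 0) := by
  have hC0 : 0 ≤ C := (norm_nonneg _).trans (hC 0)
  have hcau : ∀ ξ : H, CauchySeq fun n => x n ξ := by
    intro ξ
    rw [Metric.cauchySeq_iff]
    intro ε hε
    obtain ⟨δ, hδ, hh⟩ := T.Norm2_eps hC0 ξ hε
    obtain ⟨N, hN⟩ := h δ hδ
    refine ⟨N, fun m hm n hn => ?_⟩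
    rw [dist_eq_norm]
    exact hh _ (hx m) _ (hx n) (hC m) (hC n) (hN m hm n hn)
  choose g hg using fun ξ => cauchySeq_tendsto_of_complete (hcau ξ)
  have hg' : Tendsto (fun n ξ => x n ξ) atTop (𝓝 g) := tendsto_pi_nhds.2 hg
  set y : H →L[ℂ] H := continuousLinearMapOfTendsto x hg' with hy
  have hyg : ∀ ξ, y ξ = g ξ := fun ξ => rfl
  have hlim : ∀ ξ, Tendsto (fun n => x n ξ) atTop (𝓝 (y ξ)) := fun ξ => by
    rw [hyg]
    exact hg ξ
  refine ⟨y, ?_, hlim, ?_⟩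
  · have h1 : y ∈ (R : Set (H →L[ℂ] H)) := by
      rw [← R.centralizer_centralizer, Set.mem_centralizer_iff]
      intro m hm
      ext ξ
      have h2 : Tendsto (fun n => m (x n ξ)) atTop (𝓝 (m (y ξ))) :=
        (m.continuous.tendsto _).comp (hlim ξ)
      have h3 : Tendsto (fun n => x n (m ξ)) atTop (𝓝 (y (m ξ))) := hlim (m ξ)
      have h4 : (fun n => m (x n ξ)) = fun n => x n (m ξ) := by
        funext n
        have h5 := Set.mem_centralizer_iff.1 hm (x n) (hx n)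
        exact (congrArg (fun a : H →L[ℂ] H => a ξ) h5).symm
      rw [h4] at h2
      exact tendsto_nhds_unique h2 h3
    exact h1
  · have h1 : Tendsto (fun n => x n T.Ω - y T.Ω) atTop (𝓝 (y T.Ω - y T.Ω)) :=
      (hlim T.Ω).sub_const _
    rw [sub_self] at h1
    have h2 := h1.norm
    rw [norm_zero] at h2
    exact h2

end BlockTower

end MP_c82b80_an
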