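import Mathlib
import Pool.Agent.Lib.MP_c82b80_an.Tower0

/-!
# JOB TOWER-1 : basic facts on the finite stages

Everything follows from `T.ρ_kr`, `T.gen`, `T.trace`, `T.comm`, `T.commc`.
* `mem_R_iff` : `x ∈ R` iff `x` commutes with everything that commutes with all `φc c` and `φ n a`.
* `ρ_blk` : `blk n a = kr 1 (tens m)` with `m i = a` at `i = n` and `1` elsewhere.
* `ρ_extd` : for `x = kr c (tens m)`, `extd x = kr c (tens m')`, `m'` is `m` with an identity added;
  the matrix units `single p q 1` are of this form (`kr_single`, `tens_single`) and span.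
* `comm_tail` : on `x = kr c (tens m)`, then linearity.
* `τ_ρ` : the trace property gives `τ (ρ (single y z 1)) = 0` for `y ≠ z`
  (`single y z = single y y * single y z`) and `τ (ρ (single y y 1))` independent of `y`
  (`single y z * single z y`), and they sum to `τ 1 = 1`.
* `τ_mul_φ` : for `x ∈ R` commuting with the block `n`: `a ↦ τ (x * φ n a)` is a trace on the
  matrices over `G n` (use `trace`), so it is `a.trace / card * τ x`.
-/

open scoped InnerProductSpace
open Filter Topology

namespace MP_c82b80_an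

universe u

variable {H : Type u} [NormedAddCommGroup H] [InnerProductSpace ℂ H] [CompleteSpace H]

namespace BlockTower

/-- a matrix algebra has a unique trace -/
private theorem tower1_trace_unique {A : Type} [Fintype A] [DecidableEq A]
    (f : Matrix A A ℂ →ₗ[ℂ] ℂ) (hf : ∀ a b, f (a * b) = f (b * a)) (a : Matrix A A ℂ) :
    f a = f 1 * (a.trace / Fintype.card A) := by
  have h1 : ∀ p q : A, p ≠ q → f (Matrix.single p q 1) = 0 := by
    intro p q hpq
    have e1 : (Matrix.single p q 1 : Matrix A A ℂ) = Matrix.single p p 1 * Matrix.single p q 1 := by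
      rw [Matrix.single_mul_single_same, one_mul]
    rw [e1, hf, Matrix.single_mul_single_of_ne _ _ _ _ (Ne.symm hpq), map_zero]
  have h2 : ∀ p q : A, f (Matrix.single p p 1) = f (Matrix.single q q 1) := by
    intro p q
    have e1 : (Matrix.single p p 1 : Matrix A A ℂ) = Matrix.single p q 1 * Matrix.single q p 1 := by
      rw [Matrix.single_mul_single_same, one_mul]
    rw [e1, hf, Matrix.single_mul_single_same, one_mul]
  have h3 : ∀ p : A, f 1 = Fintype.card A * f (Matrix.single p p 1) := by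
    intro p
    have e1 : (1 : Matrix A A ℂ) = ∑ q : A, Matrix.single q q 1 := by
      ext i j
      simp only [Matrix.sum_apply, Matrix.one_apply, Matrix.single_apply]
      by_cases h : i = j
      · subst h
        simp
      · rw [if_neg h]
        symm
        apply Finset.sum_eq_zero
        intro q _
        rw [if_neg]
        rintro ⟨h1, h2⟩
        exact h (h1.symm.trans h2)
    rw [e1, map_sum, Finset.sum_congr rfl fun q _ => h2 q p]
    simp
  have h4 : a = ∑ p, ∑ q, a p q • (Matrix.single p q (1 : ℂ)) := by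
    conv_lhs => rw [Matrix.matrix_eq_sum_single a]
    refine Finset.sum_congr rfl fun p _ => Finset.sum_congr rfl fun q _ => ?_
    rw [Matrix.smul_single, smul_eq_mul, mul_one]
  rw [h4]
  simp only [map_sum, map_smul, smul_eq_mul]
  rw [← h4]
  have h5 : ∀ p, ∑ q, a p q * f (Matrix.single p q 1) = a p p * f (Matrix.single p p 1) := by
    intro p
    rw [Finset.sum_eq_single p]
    · intro q _ hq
      rw [h1 p q (Ne.symm hq), mul_zero]
    · intro h
      exact absurd (Finset.mem_univ p) h
  rw [Finset.sum_congr rfl fun p _ => h5 p]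
  unfold Matrix.trace
  rw [← mul_div_assoc, Finset.mul_sum, Finset.sum_div]
  refine Finset.sum_congr rfl fun p _ => ?_
  rw [h3 p, Matrix.diag_apply]
  have hc : (Fintype.card A : ℂ) ≠ 0 := by
    have : Nonempty A := ⟨p⟩
    exact_mod_cast Fintype.card_ne_zero
  field_simp

private theorem tower1_ofFn_prod {B : Type*} [Monoid B] :
    ∀ (N : ℕ) (f : Fin N → B) (n : Fin N), (∀ i, i ≠ n → f i = 1) → (List.ofFn f).prod = f n := by
  intro N
  induction N with
  | zero => intro f n; exact n.elim0
  | succ N ih =>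
    intro f n
    refine Fin.cases ?_ ?_ n
    · intro h
      rw [List.ofFn_succ, List.prod_cons]
      have : (List.ofFn fun i : Fin N => f i.succ).prod = 1 := by
        apply List.prod_eq_one
        intro x hx
        rw [List.mem_ofFn] at hx
        obtain ⟨i, rfl⟩ := hx
        exact h _ (Fin.succ_ne_zero i)
      rw [this, mul_one]
    · intro m h
      rw [List.ofFn_succ, List.prod_cons, h 0 (Fin.succ_ne_zero m).symm, one_mul]
      exact ih (fun i => f i.succ) m fun i hi => h _ fun h' => hi (Fin.succ_injective _ h')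

private theorem tower1_induction {N : ℕ} {p : Matrix (I N) (I N) ℂ → Prop}
    (hadd : ∀ x y, p x → p y → p (x + y)) (hsmul : ∀ (c : ℂ) x, p x → p (c • x))
    (hkr : ∀ c (m : ∀ i : Fin N, Matrix (G i) (G i) ℂ), p (kr c (tens m)))
    (x : Matrix (I N) (I N) ℂ) : p x := by
  have h0 : p 0 := by
    have := hsmul 0 _ (hkr 1 fun _ => 1)
    rwa [zero_smul] at this
  have h4 : x = ∑ a, ∑ b, x a b • (Matrix.single a b (1 : ℂ)) := by
    conv_lhs => rw [Matrix.matrix_eq_sum_single x]
    refine Finset.sum_congr rfl fun a _ => Finset.sum_congr rfl fun b _ => ?_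
    rw [Matrix.smul_single, smul_eq_mul, mul_one]
  rw [h4]
  refine Finset.sum_induction _ p hadd h0 fun a _ => Finset.sum_induction _ p hadd h0 fun b _ => ?_
  apply hsmul
  rw [← kr_single, ← tens_single]
  exact hkr _ _

variable {R : VonNeumannAlgebra H} (T : BlockTower R)

theorem mem_R_iff (x : H →L[ℂ] H) :
    x ∈ R ↔ ∀ y : H →L[ℂ] H, (∀ c, y * T.φc c = T.φc c * y) →
      (∀ n a, y * T.φ n a = T.φ n a * y) → x * y = y * x := by
  rw [← SetLike.mem_coe, T.gen, Set.mem_centralizer_iff]
  constructor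
  · intro h y h1 h2
    refine (h y ?_).symm
    rw [Set.mem_centralizer_iff]
    rintro m (⟨c, rfl⟩ | hm)
    · exact (h1 c).symm
    · obtain ⟨n, a, rfl⟩ := Set.mem_iUnion.1 hm
      exact (h2 n a).symm
  · intro h y hy
    rw [Set.mem_centralizer_iff] at hy
    exact (h y (fun c => (hy _ (Or.inl ⟨c, rfl⟩)).symm)
      fun n a => (hy _ (Or.inr (Set.mem_iUnion.2 ⟨n, a, rfl⟩))).symm).symm


theorem φc_mem (a : Matrix (Fin 2) (Fin 2) ℂ) : T.φc a ∈ R := by
  rw [T.mem_R_iff]
  intro y h1 _
  exact (h1 a).symm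

theorem φ_mem (n : ℕ) (a : Matrix (G n) (G n) ℂ) : T.φ n a ∈ R := by
  rw [T.mem_R_iff]
  intro y _ h2
  exact (h2 n a).symm

private theorem tower1_comm_ρ {y : H →L[ℂ] H} (h1 : ∀ c, y * T.φc c = T.φc c * y)
    (N : ℕ) (h2 : ∀ n < N, ∀ a, y * T.φ n a = T.φ n a * y) (x : Matrix (I N) (I N) ℂ) :
    Commute y (T.ρ N x) := by
  induction x using tower1_induction with
  | hadd x z hx hz => rw [map_add]; exact hx.add_right hz
  | hsmul c x hx => rw [map_smul]; exact hx.smul_right c
  | hkr c m =>
    rw [T.ρ_kr]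
    refine Commute.mul_right (h1 c) ?_
    apply Commute.list_prod_right
    intro b hb
    rw [List.mem_ofFn] at hb
    obtain ⟨i, rfl⟩ := hb
    exact h2 i i.2 _

theorem ρ_mem (N : ℕ) (x : Matrix (I N) (I N) ℂ) : T.ρ N x ∈ R := by
  rw [T.mem_R_iff]
  intro y h1 h2
  exact (T.tower1_comm_ρ h1 N (fun n _ => h2 n) x).symm

theorem ρ_cor {N : ℕ} (a : Matrix (Fin 2) (Fin 2) ℂ) : T.ρ N (cor a) = T.φc a := by
  unfold cor
  rw [← tens_one, T.ρ_kr]
  have : (List.ofFn fun i : Fin N => T.φ i 1).prod = 1 := by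
    apply List.prod_eq_one
    intro x hx
    rw [List.mem_ofFn] at hx
    obtain ⟨i, rfl⟩ := hx
    exact map_one _
  rw [this, mul_one]

theorem ρ_blk {N : ℕ} (n : Fin N) (a : Matrix (G n) (G n) ℂ) : T.ρ N (blk n a) = T.φ n a := by
  classical
  have e : (fun y z : Y N => if (∀ i, i ≠ n → y i = z i) then a (y n) (z n) else 0) =
      tens (Function.update (fun i : Fin N => (1 : Matrix (G i) (G i) ℂ)) n a) := by
    funext y z
    unfold tens
    rw [← Finset.mul_prod_erase Finset.univ _ (Finset.mem_univ n), Function.update_self]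
    split_ifs with h
    · rw [Finset.prod_eq_one, mul_one]
      intro i hi
      rw [Function.update_of_ne (Finset.ne_of_mem_erase hi), h i (Finset.ne_of_mem_erase hi),
        Matrix.one_apply_eq]
    · push Not at h
      obtain ⟨i, hi, h⟩ := h
      rw [Finset.prod_eq_zero (Finset.mem_erase.2 ⟨hi, Finset.mem_univ i⟩), mul_zero]
      rw [Function.update_of_ne hi, Matrix.one_apply_ne h]
  unfold blk
  rw [e, T.ρ_kr, map_one, one_mul]
  have h := tower1_ofFn_prod N (fun i : Fin N =>
    T.φ i (Function.update (fun i : Fin N => (1 : Matrix (G i) (G i) ℂ)) n a i)) n (by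
      intro i hi
      rw [Function.update_of_ne hi, map_one])
  simp only [Function.update_self] at h
  exact h

theorem ρ_extd (N : ℕ) (x : Matrix (I N) (I N) ℂ) : T.ρ (N + 1) (extd x) = T.ρ N x := by
  induction x using tower1_induction with
  | hadd x z hx hz =>
    have e : extd (x + z) = extd x + extd z := by
      ext p q
      simp only [extd, Matrix.add_apply]
      split_ifs <;> simp
    rw [e, map_add, map_add, hx, hz]
  | hsmul c x hx =>
    have e : extd (c • x) = c • extd x := by
      ext p q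
      simp only [extd, Matrix.smul_apply]
      split_ifs <;> simp
    rw [e, map_smul, map_smul, hx]
  | hkr c m =>
    have e : extd (kr c (tens m)) = kr c (tens
        (Fin.snoc (α := fun i : Fin (N + 1) => Matrix (G i) (G i) ℂ) m 1)) := by
      ext p q
      simp only [extd, kr, tens]
      rw [Fin.prod_univ_castSucc]
      simp only [Fin.snoc_castSucc, Fin.snoc_last]
      by_cases h : p.2 (Fin.last N) = q.2 (Fin.last N)
      · rw [if_pos h, h, Matrix.one_apply_eq, mul_one]
      · rw [if_neg h, Matrix.one_apply_ne h, mul_zero, mul_zero]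
    rw [e, T.ρ_kr, T.ρ_kr, List.ofFn_succ', List.concat_eq_append, List.prod_append,
      List.prod_singleton]
    simp only [Fin.snoc_castSucc, Fin.snoc_last, map_one, mul_one]
    rfl

theorem range_ρ_mono {N M : ℕ} (h : N ≤ M) (x : Matrix (I N) (I N) ℂ) :
    ∃ y : Matrix (I M) (I M) ℂ, T.ρ M y = T.ρ N x := by
  induction M, h using Nat.le_induction with
  | base => exact ⟨x, rfl⟩
  | succ M _ ih =>
    obtain ⟨y, hy⟩ := ih
    exact ⟨extd y, by rw [T.ρ_extd, hy]⟩

theorem comm_tail {N n : ℕ} (h : N ≤ n) (x : Matrix (I N) (I N) ℂ) (a : Matrix (G n) (G n) ℂ) :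
    Commute (T.ρ N x) (T.φ n a) :=
  (T.tower1_comm_ρ (fun c => (T.commc n c a).symm) N
    (fun k hk b => T.comm n k (by omega) a b) x).symm

theorem comm_of_comm_ρ {y : H →L[ℂ] H} (h : ∀ N x, y * T.ρ N x = T.ρ N x * y) :
    ∀ r ∈ R, y * r = r * y := by
  intro r hr
  refine ((T.mem_R_iff r).1 hr y (fun c => ?_) fun n a => ?_).symm
  · have := h 0 (cor c)
    rwa [T.ρ_cor] at this
  · have := h (n + 1) (blk (Fin.last n) a)
    rw [T.ρ_blk] at this
    exact this

private theorem tower1_τ_one : T.τ 1 = 1 := by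
  unfold τ
  rw [one_apply_eq_self, inner_self_eq_norm_sq_to_K, T.norm_Ω]
  simp

/-- `a ↦ τ (x * ψ a)` is a linear map -/
private noncomputable def tower1_lin {A : Type} [Fintype A] [DecidableEq A]
    (ψ : Matrix A A ℂ →⋆ₐ[ℂ] (H →L[ℂ] H)) (x : H →L[ℂ] H) : Matrix A A ℂ →ₗ[ℂ] ℂ where
  toFun a := T.τ (x * ψ a)
  map_add' a b := by
    unfold τ
    rw [map_add, mul_add, add_apply, inner_add_right]
  map_smul' c a := by
    unfold τ
    rw [map_smul, mul_smul_comm, smul_apply, inner_smul_right]
    rfl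

private theorem tower1_τ {A : Type} [Fintype A] [DecidableEq A]
    (ψ : Matrix A A ℂ →⋆ₐ[ℂ] (H →L[ℂ] H)) (hψ : ∀ a, ψ a ∈ R) {x : H →L[ℂ] H} (hx : x ∈ R)
    (h : ∀ a, Commute x (ψ a)) (a : Matrix A A ℂ) :
    T.τ (x * ψ a) = T.τ x * (a.trace / Fintype.card A) := by
  have h1 := tower1_trace_unique (T.tower1_lin ψ x) (by
    intro a b
    change T.τ (x * ψ (a * b)) = T.τ (x * ψ (b * a))
    have e1 : x * ψ (a * b) = (x * ψ a) * ψ b := by rw [map_mul, mul_assoc]
    have e2 : x * ψ (b * a) = ψ b * (x * ψ a) := by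
      rw [map_mul, ← mul_assoc, (h b).eq, mul_assoc]
    rw [e1, e2]
    exact T.trace _ (mul_mem hx (hψ a)) _ (hψ b)) a
  have h2 : T.tower1_lin ψ x a = T.τ (x * ψ a) := rfl
  have h3 : T.tower1_lin ψ x 1 = T.τ x := by
    change T.τ (x * ψ 1) = T.τ x
    rw [map_one, mul_one]
  rw [h2, h3] at h1
  exact h1

theorem τ_ρ (N : ℕ) (x : Matrix (I N) (I N) ℂ) :
    T.τ (T.ρ N x) = x.trace / Fintype.card (I N) := by
  have h := T.tower1_τ (T.ρ N) (T.ρ_mem N) (one_mem R) (fun a => Commute.one_left _) x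
  rwa [one_mul, T.tower1_τ_one, one_mul] at h

theorem τ_φ (n : ℕ) (a : Matrix (G n) (G n) ℂ) :
    T.τ (T.φ n a) = a.trace / Fintype.card (G n) := by
  have h := T.tower1_τ (T.φ n) (T.φ_mem n) (one_mem R) (fun a => Commute.one_left _) a
  rwa [one_mul, T.tower1_τ_one, one_mul] at h

theorem τ_mul_φ {n : ℕ} {x : H →L[ℂ] H} (hx : x ∈ R) (h : ∀ a, Commute x (T.φ n a))
    (a : Matrix (G n) (G n) ℂ) :
    T.τ (x * T.φ n a) = T.τ x * (a.trace / Fintype.card (G n)) :=
  T.tower1_τ (T.φ n) (T.φ_mem n) hx h a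

theorem τ_mul_tail {N n : ℕ} (h : N ≤ n) (x : Matrix (I N) (I N) ℂ)
    (a : Matrix (G n) (G n) ℂ) :
    T.τ (T.ρ N x * T.φ n a) = T.τ (T.ρ N x) * (a.trace / Fintype.card (G n)) :=
  T.τ_mul_φ (T.ρ_mem N x) (T.comm_tail h x) a

end BlockTower

end MP_c82b80_an
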