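import Mathlib
import Pool.Agent.Lib.MP_c82b80_an.Tower1
import Pool.Agent.Lib.MP_c82b80_an.Norm2

/-!
# JOB TOWER-2 : the conditional expectations on the finite stages

`T.coef N x p q = card (I N) * τ (x * ρ N (single q p 1))`, `T.E N x = ρ N (T.coef N x)`.
* `coef_mul_ρ`, `coef_ρ_mul` : expand `single q p 1 * a` and `a * single q p 1` in matrix units; `trace`.
* `coef_star` : `(single q p 1)ᴴ = single p q 1`, `τ_star`, `trace`.
* `coef_psd` : `star v * coef (x* x) * v = card * τ (x* x ρ (m mᴴ)) = card * ‖x ρ(m) Ω‖² ≥ 0` where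
  `m` is the matrix with one column `v` (`m p q = v p * [q = q₀]`, so `m mᴴ = v vᴴ`).
* `norm_E_le` : `n2 (ρ (coef x * a)) = n2 (E (x * ρ a)) ≤ n2 (x * ρ a) ≤ ‖x‖ n2 (ρ a)`; with `a` of one column `v` this
  says `‖c v‖ ≤ ‖x‖ ‖v‖` (`c = coef x`), so `‖x‖² - cᴴ c` is positive semidefinite, `= dᴴ d`, and
  `‖ρ c ξ‖² = ‖x‖² ‖ξ‖² - ‖ρ d ξ‖²`.
* `tendsto_E` : let `V` be the closure of `{ρ N a Ω}`; the orthogonal projection on `V` commutes with all
  `φc c`, `φ n a` (`V` is invariant), so with `R` (`comm_of_comm_ρ`), and fixes `Ω`; so `x Ω ∈ V` for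
  `x ∈ R`.  Given `ε` take `ρ N a` with `n2 (x - ρ N a) < ε`; `n2_sub_E_le` and `range_ρ_mono`.
* `eq_of_comm` (factor) : if `x ∈ R` commutes with all `ρ N a` then `coef N x` is scalar for all `N`, so
  `E N x = τ x • 1`; limit.
* `n2_comm_tail` : `E N x` commutes with `φ n a`, so the commutator is that of `x - E N x`.
-/

open scoped InnerProductSpace ComplexOrder
open Filter Topology

namespace MP_c82b80_an

universe u

variable {H : Type u} [NormedAddCommGroup H] [InnerProductSpace ℂ H] [CompleteSpace H]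

namespace BlockTower

variable {R : VonNeumannAlgebra H} (T : BlockTower R)

theorem coef_add (N : ℕ) (x y : H →L[ℂ] H) : T.coef N (x + y) = T.coef N x + T.coef N y := by
  ext p q
  simp only [coef, Matrix.add_apply, add_mul, τ_add, mul_add]

theorem coef_sub (N : ℕ) (x y : H →L[ℂ] H) : T.coef N (x - y) = T.coef N x - T.coef N y := by
  ext p q
  simp only [coef, Matrix.sub_apply, sub_mul, τ_sub, mul_sub]

theorem coef_smul (N : ℕ) (c : ℂ) (x : H →L[ℂ] H) : T.coef N (c • x) = c • T.coef N x := by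
  ext p q
  simp only [coef, Matrix.smul_apply, smul_mul_assoc, τ_smul, smul_eq_mul]
  ring

theorem coef_sum {α : Type*} (N : ℕ) (s : Finset α) (x : α → H →L[ℂ] H) :
    T.coef N (∑ i ∈ s, x i) = ∑ i ∈ s, T.coef N (x i) := by
  ext p q
  simp only [coef, Matrix.sum_apply, Finset.sum_mul, τ_sum, Finset.mul_sum]

private theorem tower2_card_ne (N : ℕ) : (Fintype.card (I N) : ℂ) ≠ 0 := by
  have : 0 < Fintype.card (I N) := Fintype.card_pos
  exact_mod_cast this.ne'

theorem coef_ρ (N : ℕ) (a : Matrix (I N) (I N) ℂ) : T.coef N (T.ρ N a) = a := by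
  ext p q
  simp only [coef]
  rw [← map_mul, τ_ρ, Matrix.trace_mul_single]
  have := tower2_card_ne N
  simp only [MulOpposite.op_one, one_smul]
  field_simp

theorem coef_one (N : ℕ) : T.coef N 1 = 1 := by
  rw [← map_one (T.ρ N), coef_ρ]

private theorem tower2_single_conj (N : ℕ) (p q : I N) :
    star (Matrix.single p q (1 : ℂ)) = Matrix.single q p 1 := by
  rw [Matrix.star_eq_conjTranspose, Matrix.conjTranspose_single, star_one]

theorem coef_star (N : ℕ) {x : H →L[ℂ] H} (hx : x ∈ R) :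
    T.coef N (star x) = (T.coef N x).conjTranspose := by
  ext p q
  simp only [coef, Matrix.conjTranspose_apply]
  rw [T.τ_comm (star_mem hx) (T.ρ_mem N _)]
  have h1 : T.ρ N (Matrix.single q p 1) * star x = star (x * T.ρ N (Matrix.single p q 1)) := by
    rw [star_mul, ← map_star, tower2_single_conj]
  rw [h1, τ_star]
  simp

theorem coef_mul_ρ (N : ℕ) {x : H →L[ℂ] H} (_hx : x ∈ R) (a : Matrix (I N) (I N) ℂ) :
    T.coef N (x * T.ρ N a) = T.coef N x * a := by
  ext p q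
  simp only [coef, Matrix.mul_apply]
  have h1 : a * Matrix.single q p (1 : ℂ) = ∑ r, a r q • Matrix.single r p (1 : ℂ) := by
    ext i j
    rw [Matrix.sum_apply]
    simp only [Matrix.smul_apply, smul_eq_mul]
    rw [Finset.sum_eq_single i]
    · by_cases hj : p = j
      · subst hj; simp
      · rw [Matrix.mul_single_apply_of_ne _ _ _ _ _ (Ne.symm hj)]
        simp [Matrix.single, hj]
    · intro r _ hr
      simp [Matrix.single, hr]
    · intro h
      exact absurd (Finset.mem_univ _) h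
  rw [mul_assoc, ← map_mul, h1, map_sum, Finset.mul_sum, τ_sum, Finset.mul_sum]
  refine Finset.sum_congr rfl (fun r _ => ?_)
  rw [map_smul, mul_smul_comm, τ_smul]
  ring

theorem coef_ρ_mul (N : ℕ) {x : H →L[ℂ] H} (hx : x ∈ R) (a : Matrix (I N) (I N) ℂ) :
    T.coef N (T.ρ N a * x) = a * T.coef N x := by
  ext p q
  simp only [coef, Matrix.mul_apply]
  have h1 : Matrix.single q p (1 : ℂ) * a = ∑ r, a p r • Matrix.single q r (1 : ℂ) := by
    ext i j
    rw [Matrix.sum_apply]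
    simp only [Matrix.smul_apply, smul_eq_mul]
    rw [Finset.sum_eq_single j]
    · by_cases hi : q = i
      · subst hi; simp
      · rw [Matrix.single_mul_apply_of_ne _ _ _ _ _ (Ne.symm hi)]
        simp [Matrix.single, hi]
    · intro r _ hr
      simp [Matrix.single, hr]
    · intro h
      exact absurd (Finset.mem_univ _) h
  rw [mul_assoc, T.τ_comm (T.ρ_mem N a) (mul_mem hx (T.ρ_mem N _)), mul_assoc, ← map_mul, h1,
    map_sum, Finset.mul_sum, τ_sum, Finset.mul_sum]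
  refine Finset.sum_congr rfl (fun r _ => ?_)
  rw [map_smul, mul_smul_comm, τ_smul]
  ring

theorem coef_trace (N : ℕ) (x : H →L[ℂ] H) :
    (T.coef N x).trace = Fintype.card (I N) * T.τ x := by
  simp only [Matrix.trace, Matrix.diag_apply, coef]
  rw [← Finset.mul_sum, ← τ_sum, ← Finset.mul_sum, ← map_sum]
  have h1 : ∑ p : I N, Matrix.single p p (1 : ℂ) = 1 := by
    ext i j
    rw [Matrix.sum_apply, Finset.sum_eq_single i]
    · by_cases hj : i = j
      · subst hj; simp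
      · simp [Matrix.single, hj]
    · intro r _ hr
      simp [Matrix.single, hr]
    · intro h
      exact absurd (Finset.mem_univ _) h
  rw [h1, map_one, mul_one]

/-- the matrix with all columns zero except one column `v` -/
private def tower2_col {N : ℕ} (q₀ : I N) (v : I N → ℂ) : Matrix (I N) (I N) ℂ :=
  fun p q => if q = q₀ then v p else 0

private theorem tower2_col_mul {N : ℕ} (q₀ : I N) (v : I N → ℂ) (c : Matrix (I N) (I N) ℂ) :
    c * tower2_col q₀ v = tower2_col q₀ (c.mulVec v) := by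
  ext p q
  simp only [Matrix.mul_apply, tower2_col, Matrix.mulVec, dotProduct]
  by_cases h : q = q₀
  · simp [h]
  · simp [h]

private theorem tower2_col_trace {N : ℕ} (q₀ : I N) (v w : I N → ℂ) :
    (star (tower2_col q₀ v) * tower2_col q₀ w).trace = star v ⬝ᵥ w := by
  rw [Matrix.star_eq_conjTranspose, tower2_col_mul, Matrix.trace, Finset.sum_eq_single q₀]
  · simp only [Matrix.diag_apply, tower2_col, if_true, Matrix.mulVec, dotProduct,
      Matrix.conjTranspose_apply, Pi.star_apply]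
  · intro r _ hr
    simp [tower2_col, hr]
  · intro h
    exact absurd (Finset.mem_univ _) h

theorem coef_psd (N : ℕ) {x : H →L[ℂ] H} (hx : x ∈ R) :
    (T.coef N (star x * x)).PosSemidef := by
  classical
  have hxx : star x * x ∈ R := mul_mem (star_mem hx) hx
  refine Matrix.PosSemidef.of_dotProduct_mulVec_nonneg ?_ ?_
  · unfold Matrix.IsHermitian
    rw [← T.coef_star N hxx, star_mul, star_star]
  · intro v
    obtain ⟨q₀⟩ : Nonempty (I N) := inferInstance
    have h1 : star v ⬝ᵥ (T.coef N (star x * x)).mulVec v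
        = Fintype.card (I N) * T.τ (star (x * T.ρ N (tower2_col q₀ v)) *
          (x * T.ρ N (tower2_col q₀ v))) := by
      rw [← tower2_col_trace q₀, ← tower2_col_mul, ← T.coef_mul_ρ N hxx,
        ← T.coef_ρ_mul N (mul_mem hxx (T.ρ_mem N _)), coef_trace]
      congr 2
      rw [star_mul, ← map_star]
      simp only [mul_assoc]
    rw [h1, τ_star_mul_self]
    have h2 : (0 : ℂ) ≤ (((Fintype.card (I N) : ℝ) * T.n2 (x * T.ρ N (tower2_col q₀ v)) ^ 2 : ℝ) : ℂ) := by
      rw [Complex.zero_le_real]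
      positivity
    push_cast at h2 ⊢
    exact h2

theorem E_mem (N : ℕ) (x : H →L[ℂ] H) : T.E N x ∈ R := T.ρ_mem N _

theorem E_add (N : ℕ) (x y : H →L[ℂ] H) : T.E N (x + y) = T.E N x + T.E N y := by
  unfold E; rw [coef_add, map_add]

theorem E_sub (N : ℕ) (x y : H →L[ℂ] H) : T.E N (x - y) = T.E N x - T.E N y := by
  unfold E; rw [coef_sub, map_sub]

theorem E_smul (N : ℕ) (c : ℂ) (x : H →L[ℂ] H) : T.E N (c • x) = c • T.E N x := by
  unfold E; rw [coef_smul, map_smul]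

theorem E_sum {α : Type*} (N : ℕ) (s : Finset α) (x : α → H →L[ℂ] H) :
    T.E N (∑ i ∈ s, x i) = ∑ i ∈ s, T.E N (x i) := by
  unfold E; rw [coef_sum, map_sum]

theorem E_one (N : ℕ) : T.E N 1 = 1 := by
  unfold E; rw [coef_one, map_one]

theorem E_star (N : ℕ) {x : H →L[ℂ] H} (hx : x ∈ R) : T.E N (star x) = star (T.E N x) := by
  unfold E; rw [T.coef_star N hx, ← map_star, Matrix.star_eq_conjTranspose]

theorem E_ρ (N : ℕ) (a : Matrix (I N) (I N) ℂ) : T.E N (T.ρ N a) = T.ρ N a := by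
  unfold E; rw [coef_ρ]

theorem E_ρ_of_le {N M : ℕ} (h : N ≤ M) (a : Matrix (I N) (I N) ℂ) :
    T.E M (T.ρ N a) = T.ρ N a := by
  obtain ⟨y, hy⟩ := T.range_ρ_mono h a
  rw [← hy, E_ρ]

theorem E_mul_ρ (N : ℕ) {x : H →L[ℂ] H} (hx : x ∈ R) (a : Matrix (I N) (I N) ℂ) :
    T.E N (x * T.ρ N a) = T.E N x * T.ρ N a := by
  unfold E; rw [T.coef_mul_ρ N hx, map_mul]

theorem E_ρ_mul (N : ℕ) {x : H →L[ℂ] H} (hx : x ∈ R) (a : Matrix (I N) (I N) ℂ) :
    T.E N (T.ρ N a * x) = T.ρ N a * T.E N x := by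
  unfold E; rw [T.coef_ρ_mul N hx, map_mul]

theorem τ_E (N : ℕ) (x : H →L[ℂ] H) : T.τ (T.E N x) = T.τ x := by
  unfold E
  rw [τ_ρ, coef_trace]
  have := tower2_card_ne N
  field_simp

theorem τ_E_mul (N : ℕ) {x : H →L[ℂ] H} (hx : x ∈ R) (a : Matrix (I N) (I N) ℂ) :
    T.τ (T.E N x * T.ρ N a) = T.τ (x * T.ρ N a) := by
  rw [← T.E_mul_ρ N hx, τ_E]

theorem n2_sq_eq (N : ℕ) {x : H →L[ℂ] H} (hx : x ∈ R) :
    T.n2 x ^ 2 = T.n2 (T.E N x) ^ 2 + T.n2 (x - T.E N x) ^ 2 := by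
  have h0 : T.τ (star (T.E N x) * (x - T.E N x)) = 0 := by
    have h1 : star (T.E N x) = T.ρ N (star (T.coef N x)) := by
      unfold E; rw [map_star]
    rw [h1, T.τ_comm (T.ρ_mem N _) (sub_mem hx (T.E_mem N x)), sub_mul, τ_sub, T.τ_E_mul N hx,
      sub_self]
  have h2 : ⟪(T.E N x) T.Ω, (x - T.E N x) T.Ω⟫_ℂ = 0 := by
    rw [← h0]
    unfold τ
    rw [ContinuousLinearMap.mul_apply, ContinuousLinearMap.star_eq_adjoint,
      ContinuousLinearMap.adjoint_inner_right]
  have h3 := norm_add_sq_eq_norm_sq_add_norm_sq_of_inner_eq_zero _ _ h2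
  have h4 : (T.E N x) T.Ω + (x - T.E N x) T.Ω = x T.Ω := by
    simp
  rw [h4] at h3
  unfold n2
  nlinarith [h3]

theorem n2_E_le (N : ℕ) {x : H →L[ℂ] H} (hx : x ∈ R) : T.n2 (T.E N x) ≤ T.n2 x := by
  have h := T.n2_sq_eq N hx
  have h1 := T.n2_nonneg x
  have h2 := T.n2_nonneg (T.E N x)
  nlinarith [sq_nonneg (T.n2 (x - T.E N x))]

theorem n2_sub_E_le (N : ℕ) {x : H →L[ℂ] H} (hx : x ∈ R) (a : Matrix (I N) (I N) ℂ) :
    T.n2 (x - T.E N x) ≤ T.n2 (x - T.ρ N a) := by
  have h := T.n2_sq_eq N (sub_mem hx (T.ρ_mem N a))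
  rw [E_sub, E_ρ] at h
  have e : x - T.ρ N a - (T.E N x - T.ρ N a) = x - T.E N x := by abel
  rw [e] at h
  have h1 := T.n2_nonneg (x - T.ρ N a)
  have h2 := T.n2_nonneg (x - T.E N x)
  nlinarith [sq_nonneg (T.n2 (T.E N x - T.ρ N a))]

private theorem tower2_n2_col (N : ℕ) (q₀ : I N) (v : I N → ℂ) :
    T.n2 (T.ρ N (tower2_col q₀ v)) ^ 2 =
      ‖(WithLp.toLp 2 v : EuclideanSpace ℂ (I N))‖ ^ 2 / Fintype.card (I N) := by
  have h1 : (((T.n2 (T.ρ N (tower2_col q₀ v)) ^ 2 : ℝ)) : ℂ)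
      = ((‖(WithLp.toLp 2 v : EuclideanSpace ℂ (I N))‖ ^ 2 / Fintype.card (I N) : ℝ) : ℂ) := by
    rw [← τ_star_mul_self, ← map_star, ← map_mul, τ_ρ, tower2_col_trace,
      EuclideanSpace.norm_sq_eq]
    push_cast
    congr 1
    simp only [dotProduct, Pi.star_apply]
    push_cast
    refine Finset.sum_congr rfl (fun i _ => ?_)
    rw [← Complex.conj_mul']
    rfl
  exact_mod_cast h1

open scoped Matrix.Norms.L2Operator in
theorem norm_E_le (N : ℕ) {x : H →L[ℂ] H} (hx : x ∈ R) : ‖T.E N x‖ ≤ ‖x‖ := by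
  have h1 : ‖T.E N x‖ ≤ ‖T.coef N x‖ := NonUnitalStarAlgHom.norm_apply_le (T.ρ N) (T.coef N x)
  refine h1.trans ?_
  rw [Matrix.cstar_norm_def]
  refine ContinuousLinearMap.opNorm_le_bound _ (norm_nonneg _) (fun v => ?_)
  obtain ⟨q₀⟩ : Nonempty (I N) := inferInstance
  have hc : (0 : ℝ) < Fintype.card (I N) := by
    have : 0 < Fintype.card (I N) := Fintype.card_pos
    exact_mod_cast this
  have h2 : T.n2 (T.ρ N (T.coef N x * tower2_col q₀ (WithLp.ofLp v)))
      ≤ ‖x‖ * T.n2 (T.ρ N (tower2_col q₀ (WithLp.ofLp v))) := by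
    rw [← T.coef_mul_ρ N hx]
    exact (T.n2_E_le N (mul_mem hx (T.ρ_mem N _))).trans (T.n2_mul_le _ _)
  rw [tower2_col_mul] at h2
  have h3 := T.tower2_n2_col N q₀ ((T.coef N x).mulVec (WithLp.ofLp v))
  have h4 := T.tower2_n2_col N q₀ (WithLp.ofLp v)
  have h5 : T.n2 (T.ρ N (tower2_col q₀ ((T.coef N x).mulVec (WithLp.ofLp v)))) ^ 2
      ≤ (‖x‖ * T.n2 (T.ρ N (tower2_col q₀ (WithLp.ofLp v)))) ^ 2 :=
    pow_le_pow_left₀ (T.n2_nonneg _) h2 2
  rw [mul_pow, h3, h4, ← mul_div_assoc, div_le_div_iff_of_pos_right hc, ← mul_pow] at h5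
  have h6 := abs_le_of_sq_le_sq h5 (by positivity)
  have h7 : (Matrix.toEuclideanCLM (n := I N) (𝕜 := ℂ) (T.coef N x)) v
      = WithLp.toLp 2 ((T.coef N x).mulVec (WithLp.ofLp v)) := rfl
  rw [h7]
  exact (le_abs_self _).trans h6

/-- the subspace of the vectors `ρ N a Ω` -/
private def tower2_W : Submodule ℂ H where
  carrier := {ξ | ∃ (N : ℕ) (a : Matrix (I N) (I N) ℂ), T.ρ N a T.Ω = ξ}
  add_mem' := by
    rintro _ _ ⟨N, a, rfl⟩ ⟨M, b, rfl⟩
    obtain ⟨a', ha⟩ := T.range_ρ_mono (le_max_left N M) a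
    obtain ⟨b', hb⟩ := T.range_ρ_mono (le_max_right N M) b
    refine ⟨max N M, a' + b', ?_⟩
    rw [map_add, ha, hb]
    rfl
  zero_mem' := ⟨0, 0, by simp⟩
  smul_mem' := by
    rintro c _ ⟨N, a, rfl⟩
    exact ⟨N, c • a, by rw [map_smul]; rfl⟩

private theorem tower2_inv (N : ℕ) (b : Matrix (I N) (I N) ℂ) {ξ : H}
    (hξ : ξ ∈ T.tower2_W.topologicalClosure) : T.ρ N b ξ ∈ T.tower2_W.topologicalClosure := by
  have h1 : ∀ η ∈ T.tower2_W, T.ρ N b η ∈ T.tower2_W := by
    rintro _ ⟨M, a, rfl⟩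
    obtain ⟨a', ha⟩ := T.range_ρ_mono (le_max_left M N) a
    obtain ⟨b', hb⟩ := T.range_ρ_mono (le_max_right M N) b
    refine ⟨max M N, b' * a', ?_⟩
    rw [map_mul, ha, hb]
    rfl
  exact map_mem_closure (T.ρ N b).continuous hξ h1

private theorem tower2_mem_closure {x : H →L[ℂ] H} (hx : x ∈ R) :
    x T.Ω ∈ T.tower2_W.topologicalClosure := by
  set V := T.tower2_W.topologicalClosure with hV
  haveI : CompleteSpace V := (Submodule.isClosed_topologicalClosure _).completeSpace_coe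
  have hcomm : ∀ N b, V.starProjection * T.ρ N b = T.ρ N b * V.starProjection := by
    intro N b
    ext ξ
    show V.starProjection (T.ρ N b ξ) = T.ρ N b (V.starProjection ξ)
    refine (Submodule.eq_starProjection_of_mem_of_inner_eq_zero ?_ ?_)
    · exact T.tower2_inv N b (Submodule.starProjection_apply_mem _ _)
    · intro w hw
      rw [← map_sub]
      have h1 : ⟪(T.ρ N b) (ξ - V.starProjection ξ), w⟫_ℂ
          = ⟪ξ - V.starProjection ξ, (T.ρ N (star b)) w⟫_ℂ := by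
        rw [map_star, ContinuousLinearMap.star_eq_adjoint,
          ContinuousLinearMap.adjoint_inner_right]
      rw [h1]
      exact Submodule.starProjection_inner_eq_zero _ _ (T.tower2_inv N (star b) hw)
  have h2 := T.comm_of_comm_ρ hcomm x hx
  have hΩ : T.Ω ∈ V := Submodule.le_topologicalClosure _ ⟨0, 1, by simp⟩
  have h3 : V.starProjection (x T.Ω) = x (V.starProjection T.Ω) :=
    congrArg (fun f : H →L[ℂ] H => f T.Ω) h2
  rw [Submodule.starProjection_eq_self_iff.2 hΩ] at h3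
  exact Submodule.starProjection_eq_self_iff.1 h3

theorem tendsto_E {x : H →L[ℂ] H} (hx : x ∈ R) :
    Tendsto (fun N => T.n2 (T.E N x - x)) atTop (𝓝 0) := by
  rw [Metric.tendsto_atTop]
  intro ε hε
  have h1 := T.tower2_mem_closure hx
  obtain ⟨_, ⟨N, a, rfl⟩, hd⟩ := Metric.mem_closure_iff.1 h1 ε hε
  refine ⟨N, fun n hn => ?_⟩
  obtain ⟨b, hb⟩ := T.range_ρ_mono hn a
  have h2 := T.n2_sub_E_le n hx b
  rw [hb] at h2
  have h3 : T.n2 (x - T.ρ N a) < ε := by
    rw [dist_eq_norm] at hd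
    exact hd
  rw [Real.dist_eq, sub_zero, abs_of_nonneg (T.n2_nonneg _), T.n2_sub_comm]
  exact lt_of_le_of_lt h2 h3

theorem tendsto_E_apply {x : H →L[ℂ] H} (hx : x ∈ R) (ξ : H) :
    Tendsto (fun N => T.E N x ξ) atTop (𝓝 (x ξ)) :=
  T.tendsto_of_n2 (fun n => T.E_mem n x) hx (fun n => T.norm_E_le n hx) (T.tendsto_E hx) ξ

theorem eq_of_comm {x : H →L[ℂ] H} (hx : x ∈ R) (h : ∀ y ∈ R, x * y = y * x) :
    x = T.τ x • (1 : H →L[ℂ] H) := by
  have hE : ∀ N, T.E N x = T.τ x • (1 : H →L[ℂ] H) := by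
    intro N
    have hc : ∀ a : Matrix (I N) (I N) ℂ, Commute a (T.coef N x) := by
      intro a
      have := h _ (T.ρ_mem N a)
      have h2 := congrArg (T.coef N) this
      rw [T.coef_mul_ρ N hx, T.coef_ρ_mul N hx] at h2
      exact h2.symm
    obtain ⟨c, hcc⟩ : ∃ c : ℂ, T.coef N x = c • (1 : Matrix (I N) (I N) ℂ) := by
      obtain ⟨q₀⟩ : Nonempty (I N) := inferInstance
      refine ⟨T.coef N x q₀ q₀, ?_⟩
      ext i j
      have h1 := congrFun (congrFun (hc (Matrix.single q₀ i 1)).eq q₀) j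
      rw [Matrix.single_mul_apply_same] at h1
      by_cases hij : i = j
      · subst hij
        rw [Matrix.mul_single_apply_same] at h1
        simp at h1
        simp [h1]
      · rw [Matrix.mul_single_apply_of_ne _ _ _ _ _ (Ne.symm hij)] at h1
        simp at h1
        simp [h1, hij]
    have ht := T.coef_trace N x
    rw [hcc, Matrix.trace_smul, Matrix.trace_one, smul_eq_mul] at ht
    have hcard := tower2_card_ne N
    have hcτ : c = T.τ x := by
      have : c * (Fintype.card (I N) : ℂ) = T.τ x * (Fintype.card (I N) : ℂ) := by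
        rw [ht]; ring
      exact mul_right_cancel₀ hcard this
    unfold E
    rw [hcc, map_smul, map_one, hcτ]
  have h1 := T.tendsto_E hx
  simp_rw [hE] at h1
  have h2 : T.n2 (T.τ x • (1 : H →L[ℂ] H) - x) = 0 := tendsto_nhds_unique tendsto_const_nhds h1
  have h3 : T.τ x • (1 : H →L[ℂ] H) - x ∈ R := by
    rw [← hE 0]
    exact sub_mem (T.E_mem 0 x) hx
  have h4 := T.eq_zero_of_n2 h3 h2
  exact (sub_eq_zero.1 h4).symm

theorem n2_comm_tail {N n : ℕ} (h : N ≤ n) {x : H →L[ℂ] H} (hx : x ∈ R)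
    (a : Matrix (G n) (G n) ℂ) :
    T.n2 (x * T.φ n a - T.φ n a * x) ≤ 2 * ‖T.φ n a‖ * T.n2 (x - T.E N x) := by
  have hc : T.E N x * T.φ n a = T.φ n a * T.E N x := (T.comm_tail h (T.coef N x) a).eq
  have e : x * T.φ n a - T.φ n a * x
      = (x - T.E N x) * T.φ n a + -(T.φ n a * (x - T.E N x)) := by
    rw [sub_mul, mul_sub, hc]
    abel
  rw [e]
  refine (T.n2_add_le _ _).trans ?_
  rw [n2_neg]
  have h1 := T.n2_mul_le' (sub_mem hx (T.E_mem N x)) (T.φ_mem n a)
  have h2 := T.n2_mul_le (T.φ n a) (x - T.E N x)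
  linarith

end BlockTower

end MP_c82b80_an
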