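import Mathlib
import Pool.Agent.Lib.MP_c82b80_an.Tower2
import Pool.Agent.Lib.MP_eee3e4_an.Contract

/-!
# JOB AUTO : automorphisms preserve the trace

`Auto R` : an automorphism of `R` as a pair of maps of operators.
* `exists_auto` : put `fwd x = if h : x ∈ R then θ ⟨x, h⟩ else 0`.
* `τ_fwd` : `Pool.Agent.Lib.MP_eee3e4_an.dixmier` with `A = R.toStarSubalgebra` (bicommutant:
  `VonNeumannAlgebra.centralizer_centralizer'`, or `T.gen`; factor: `T.eq_of_comm`).  A tracial functional `τ'` is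
  invariant under every `Φ` with `IsAvg A Φ` (induction; `avg v x = (1/2) (x + g x g*)`, `g = swp v` a unitary of `A`).
  `x ↦ τ (θ x)` and `τ` are both tracial functionals of norm at most one:
  `|τ (θ y)| ≤ ‖θ y‖ ≤ ‖y‖`; the last inequality: `‖y‖² - y* y ≥ 0` has a square root `z = z*` in `R`
  (`cfc`, `cfc_mem` of `MP_eee3e4_an.Proj`, `CFC.sqrt`), so `‖y‖² - θ(y)* θ(y) = θ(z)* θ(z) ≥ 0`.
  With `‖Φ x - c‖ ≤ ε`: `|τ x - c| ≤ ε` and `|τ (θ x) - c| ≤ ε`.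
-/

open scoped InnerProductSpace
open Filter Topology

namespace MP_c82b80_an

universe u

variable {H : Type u} [NormedAddCommGroup H] [InnerProductSpace ℂ H] [CompleteSpace H]

/-- an automorphism of `R`, as a pair of maps of operators -/
structure Auto (R : VonNeumannAlgebra H) where
  fwd : (H →L[ℂ] H) → (H →L[ℂ] H)
  bwd : (H →L[ℂ] H) → (H →L[ℂ] H)
  fwd_mem : ∀ x ∈ R, fwd x ∈ R
  bwd_mem : ∀ x ∈ R, bwd x ∈ R
  bwd_fwd : ∀ x ∈ R, bwd (fwd x) = x
  fwd_bwd : ∀ x ∈ R, fwd (bwd x) = x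
  map_add : ∀ x ∈ R, ∀ y ∈ R, fwd (x + y) = fwd x + fwd y
  map_mul : ∀ x ∈ R, ∀ y ∈ R, fwd (x * y) = fwd x * fwd y
  map_smul : ∀ (c : ℂ), ∀ x ∈ R, fwd (c • x) = c • fwd x
  map_one : fwd 1 = 1
  map_star : ∀ x ∈ R, fwd (star x) = star (fwd x)

variable {R : VonNeumannAlgebra H}

namespace Auto

/-- the inverse automorphism -/
def symm (θ : Auto R) : Auto R where
  fwd := θ.bwd
  bwd := θ.fwd
  fwd_mem := θ.bwd_mem
  bwd_mem := θ.fwd_mem
  bwd_fwd := θ.fwd_bwd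
  fwd_bwd := θ.bwd_fwd
  map_add x hx y hy := by
    rw [← θ.bwd_fwd (θ.bwd x + θ.bwd y) (add_mem (θ.bwd_mem x hx) (θ.bwd_mem y hy)),
      θ.map_add _ (θ.bwd_mem x hx) _ (θ.bwd_mem y hy), θ.fwd_bwd x hx, θ.fwd_bwd y hy]
  map_mul x hx y hy := by
    rw [← θ.bwd_fwd (θ.bwd x * θ.bwd y) (mul_mem (θ.bwd_mem x hx) (θ.bwd_mem y hy)),
      θ.map_mul _ (θ.bwd_mem x hx) _ (θ.bwd_mem y hy), θ.fwd_bwd x hx, θ.fwd_bwd y hy]
  map_smul c x hx := by
    rw [← θ.bwd_fwd (c • θ.bwd x) (R.toStarSubalgebra.smul_mem (θ.bwd_mem x hx) c),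
      θ.map_smul c _ (θ.bwd_mem x hx), θ.fwd_bwd x hx]
  map_one := by
    have := θ.bwd_fwd 1 (one_mem R)
    rwa [θ.map_one] at this
  map_star x hx := by
    rw [← θ.bwd_fwd (star (θ.bwd x)) (star_mem (θ.bwd_mem x hx)),
      θ.map_star _ (θ.bwd_mem x hx), θ.fwd_bwd x hx]

theorem map_zero (θ : Auto R) : θ.fwd 0 = 0 := by
  have h := θ.map_smul 0 0 (zero_mem R)
  rwa [zero_smul, zero_smul] at h

theorem map_sub (θ : Auto R) {x y : H →L[ℂ] H} (hx : x ∈ R) (hy : y ∈ R) :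
    θ.fwd (x - y) = θ.fwd x - θ.fwd y := by
  have h1 : x - y = x + (-1 : ℂ) • y := by rw [neg_one_smul, sub_eq_add_neg]
  rw [h1, θ.map_add x hx _ (R.toStarSubalgebra.smul_mem hy _), θ.map_smul _ y hy, neg_one_smul,
    sub_eq_add_neg]

theorem map_sum (θ : Auto R) {α : Type*} (S : Finset α) {x : α → H →L[ℂ] H}
    (hx : ∀ i, x i ∈ R) : θ.fwd (∑ i ∈ S, x i) = ∑ i ∈ S, θ.fwd (x i) := by
  classical
  induction S using Finset.induction_on with
  | empty => simpa using θ.map_zero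
  | insert a S ha ih =>
    rw [Finset.sum_insert ha, Finset.sum_insert ha,
      θ.map_add _ (hx a) _ (sum_mem fun i _ => hx i), ih]

theorem injOn (θ : Auto R) {x y : H →L[ℂ] H} (hx : x ∈ R) (hy : y ∈ R)
    (h : θ.fwd x = θ.fwd y) : x = y := by
  rw [← θ.bwd_fwd x hx, h, θ.bwd_fwd y hy]

private theorem Auto_bicomm (R : VonNeumannAlgebra H) :
    Set.centralizer (Set.centralizer (R.toStarSubalgebra : Set (H →L[ℂ] H))) =
      (R.toStarSubalgebra : Set (H →L[ℂ] H)) :=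
  VonNeumannAlgebra.centralizer_centralizer' R

theorem norm_fwd_le (θ : Auto R) {x : H →L[ℂ] H} (hx : x ∈ R) : ‖θ.fwd x‖ ≤ ‖x‖ := by
  have hsx : star x ∈ R := star_mem hx
  have hsxx : star x * x ∈ R := mul_mem hsx hx
  set w : H →L[ℂ] H := algebraMap ℝ _ (‖x‖ ^ 2) - star x * x with hw
  have hone : algebraMap ℝ (H →L[ℂ] H) (‖x‖ ^ 2) = ((‖x‖ ^ 2 : ℝ) : ℂ) • 1 := by
    rw [Algebra.algebraMap_eq_smul_one, Complex.coe_smul]
  have hwR : w ∈ R := by
    rw [hw, hone]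
    exact sub_mem (R.toStarSubalgebra.smul_mem (one_mem R) _) hsxx
  have hw0 : 0 ≤ w := by
    rw [hw, sub_nonneg]
    have h1 := (IsSelfAdjoint.star_mul_self x).le_algebraMap_norm_self
    rwa [CStarRing.norm_star_mul_self, ← pow_two] at h1
  have hwsa : IsSelfAdjoint w := IsSelfAdjoint.of_nonneg hw0
  set z : H →L[ℂ] H := cfc Real.sqrt w with hz
  have hzR : z ∈ R :=
    Pool.Agent.Lib.MP_eee3e4_an.cfc_mem (A := R.toStarSubalgebra) (Auto_bicomm R) hwR _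
  have hzs : star z = z := (IsSelfAdjoint.cfc (f := Real.sqrt) (a := w)).star_eq
  have hzz : z * z = w := by
    rw [hz, ← cfc_mul Real.sqrt Real.sqrt w (by fun_prop) (by fun_prop)]
    conv_rhs => rw [← cfc_id' ℝ w]
    refine cfc_congr fun t ht => ?_
    exact Real.mul_self_sqrt (spectrum_nonneg_of_nonneg hw0 ht)
  have h1 : star (θ.fwd z) * θ.fwd z = algebraMap ℝ _ (‖x‖ ^ 2) - star (θ.fwd x) * θ.fwd x := by
    rw [← θ.map_star z hzR, hzs, ← θ.map_mul z hzR z hzR, hzz, hw, hone,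
      θ.map_sub (R.toStarSubalgebra.smul_mem (one_mem R) _) hsxx, θ.map_smul _ _ (one_mem R),
      θ.map_one, θ.map_mul _ hsx _ hx, θ.map_star x hx]
  have h2 : 0 ≤ star (θ.fwd z) * θ.fwd z := star_mul_self_nonneg _
  rw [h1, sub_nonneg] at h2
  have h3 : ‖star (θ.fwd x) * θ.fwd x‖ ≤ ‖x‖ ^ 2 :=
    (CStarAlgebra.norm_le_iff_le_algebraMap _ (by positivity) (star_mul_self_nonneg _)).2 h2
  rw [CStarRing.norm_star_mul_self, ← pow_two] at h3
  exact le_of_sq_le_sq h3 (norm_nonneg _)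

private theorem Auto_star_swp_mul {A : StarSubalgebra ℂ (H →L[ℂ] H)} {v : H →L[ℂ] H}
    (h : Pool.Agent.Lib.MP_eee3e4_an.Good A v) :
    star (Pool.Agent.Lib.MP_eee3e4_an.swp v) * Pool.Agent.Lib.MP_eee3e4_an.swp v = 1 := by
  rw [h.star_swp_eq, h.swp_eq]
  have h1 : (1 - star v) * (1 + star v) = 1 := by
    have : (1 - star v) * (1 + star v) = 1 - star v * star v := by noncomm_ring
    rw [this, h.star_sq, sub_zero]
  have h2 : (1 + v) * (1 - v) = 1 := by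
    have : (1 + v) * (1 - v) = 1 - v * v := by noncomm_ring
    rw [this, h.sq, sub_zero]
  calc (1 - star v) * (1 + v) * (1 - star v) * ((1 + star v) * (1 - v) * (1 + star v)) =
      (1 - star v) * (1 + v) * ((1 - star v) * (1 + star v)) * (1 - v) * (1 + star v) := by
        simp only [mul_assoc]
    _ = (1 - star v) * ((1 + v) * (1 - v)) * (1 + star v) := by
        rw [h1, mul_one]
        simp only [mul_assoc]
    _ = 1 := by rw [h2, mul_one, h1]

private theorem Auto_swp_mem {A : StarSubalgebra ℂ (H →L[ℂ] H)} {v : H →L[ℂ] H}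
    (h : Pool.Agent.Lib.MP_eee3e4_an.Good A v) : Pool.Agent.Lib.MP_eee3e4_an.swp v ∈ A := by
  unfold Pool.Agent.Lib.MP_eee3e4_an.swp
  have h1 := h.mem
  have h2 : star v ∈ A := star_mem h1
  exact sub_mem (add_mem (sub_mem (sub_mem (one_mem A) (mul_mem h2 h1)) (mul_mem h1 h2)) h2) h1

/-- A tracial functional is invariant under averages. -/
private theorem Auto_trace_avg (R : VonNeumannAlgebra H) (g : (H →L[ℂ] H) → ℂ)
    (hadd : ∀ x ∈ R, ∀ y ∈ R, g (x + y) = g x + g y)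
    (hsmul : ∀ (c : ℂ), ∀ x ∈ R, g (c • x) = c * g x)
    (htr : ∀ x ∈ R, ∀ y ∈ R, g (x * y) = g (y * x))
    {Φ : (H →L[ℂ] H) → (H →L[ℂ] H)}
    (hΦ : Pool.Agent.Lib.MP_eee3e4_an.IsAvg R.toStarSubalgebra Φ) {x : H →L[ℂ] H} (hx : x ∈ R) :
    g (Φ x) = g x := by
  induction hΦ with
  | refl => rfl
  | step v Φ hv h ih =>
    have hy : Φ x ∈ R := h.mem hx
    have hu : Pool.Agent.Lib.MP_eee3e4_an.swp v ∈ R := Auto_swp_mem hv
    have hus := Auto_star_swp_mul hv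
    change g (Pool.Agent.Lib.MP_eee3e4_an.avg v (Φ x)) = g x
    rw [← ih]
    generalize Φ x = y at hy
    unfold Pool.Agent.Lib.MP_eee3e4_an.avg
    generalize Pool.Agent.Lib.MP_eee3e4_an.swp v = u at hu hus
    have hsu : star u ∈ R := star_mem hu
    have h1 : g (u * y * star u) = g y := by
      rw [mul_assoc, htr u hu _ (mul_mem hy hsu), mul_assoc, hus, mul_one]
    have h2 : ((1 / 2 : ℝ) • (y + u * y * star u) : H →L[ℂ] H) =
        (((1 / 2 : ℝ) : ℂ)) • (y + u * y * star u) := by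
      rw [Complex.coe_smul]
    rw [h2, hsmul _ _ (add_mem hy (mul_mem (mul_mem hu hy) hsu)),
      hadd y hy _ (mul_mem (mul_mem hu hy) hsu), h1]
    push_cast
    ring

theorem τ_fwd (T : BlockTower R) (θ : Auto R) {x : H →L[ℂ] H} (hx : x ∈ R) :
    T.τ (θ.fwd x) = T.τ x := by
  have hfac : ∀ z ∈ R.toStarSubalgebra, (∀ a ∈ R.toStarSubalgebra, z * a = a * z) →
      ∃ c : ℂ, z = c • (1 : H →L[ℂ] H) := fun z hz h => ⟨_, T.eq_of_comm hz h⟩
  obtain ⟨M, hM⟩ := Pool.Agent.Lib.MP_eee3e4_an.dixmier (A := R.toStarSubalgebra)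
    (Auto_bicomm R) hfac hx
  have key : ∀ ε > 0, ‖T.τ (θ.fwd x) - T.τ x‖ ≤ 2 * ε := by
    intro ε hε
    obtain ⟨Φ, hΦ, c, -, hc⟩ := hM ε hε
    have hΦx : Φ x ∈ R := hΦ.mem hx
    have hc1 : c • (1 : H →L[ℂ] H) ∈ R := R.toStarSubalgebra.smul_mem (one_mem R) _
    have hd : Φ x - c • 1 ∈ R := sub_mem hΦx hc1
    have h1 : T.τ (Φ x) = T.τ x :=
      Auto_trace_avg R T.τ (fun x _ y _ => T.τ_add x y) (fun c x _ => T.τ_smul c x)
        (fun x hx y hy => T.τ_comm hx hy) hΦ hx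
    have h2 : T.τ (θ.fwd (Φ x)) = T.τ (θ.fwd x) :=
      Auto_trace_avg R (fun x => T.τ (θ.fwd x))
        (fun x hx y hy => by rw [θ.map_add x hx y hy, T.τ_add])
        (fun c x hx => by rw [θ.map_smul c x hx, T.τ_smul])
        (fun x hx y hy => by
          rw [θ.map_mul x hx y hy, θ.map_mul y hy x hx,
            T.τ_comm (θ.fwd_mem x hx) (θ.fwd_mem y hy)]) hΦ hx
    have h3 : T.τ x - c = T.τ (Φ x - c • 1) := by
      rw [T.τ_sub, T.τ_smul, T.τ_one, mul_one, h1]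
    have h4 : T.τ (θ.fwd x) - c = T.τ (θ.fwd (Φ x - c • 1)) := by
      rw [θ.map_sub hΦx hc1, θ.map_smul _ _ (one_mem R), θ.map_one, T.τ_sub, T.τ_smul, T.τ_one,
        mul_one, h2]
    have h5 : ‖T.τ x - c‖ ≤ ε := by
      rw [h3]
      exact (T.norm_τ_le _).trans ((T.n2_le_norm _).trans hc)
    have h6 : ‖T.τ (θ.fwd x) - c‖ ≤ ε := by
      rw [h4]
      exact (T.norm_τ_le _).trans ((T.n2_le_norm _).trans ((θ.norm_fwd_le hd).trans hc))
    have h7 : T.τ (θ.fwd x) - T.τ x = (T.τ (θ.fwd x) - c) - (T.τ x - c) := by ring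
    rw [h7]
    exact (norm_sub_le _ _).trans (by linarith)
  have h0 : ‖T.τ (θ.fwd x) - T.τ x‖ ≤ 0 := by
    refine le_of_forall_pos_le_add fun ε hε => ?_
    have := key (ε / 2) (by positivity)
    linarith
  exact sub_eq_zero.1 (norm_le_zero_iff.1 h0)

theorem n2_fwd (T : BlockTower R) (θ : Auto R) {x : H →L[ℂ] H} (hx : x ∈ R) :
    T.n2 (θ.fwd x) = T.n2 x := by
  have h1 : ((T.n2 (θ.fwd x) ^ 2 : ℝ) : ℂ) = ((T.n2 x ^ 2 : ℝ) : ℂ) := by
    rw [← T.τ_star_mul_self, ← T.τ_star_mul_self, ← θ.map_star x hx,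
      ← θ.map_mul _ (star_mem hx) x hx, τ_fwd T θ (mul_mem (star_mem hx) hx)]
  have h2 : T.n2 (θ.fwd x) ^ 2 = T.n2 x ^ 2 := by exact_mod_cast h1
  exact (pow_left_inj₀ (T.n2_nonneg _) (T.n2_nonneg _) two_ne_zero).1 h2

end Auto

theorem exists_auto {A B : Masa R} (h : MasaConj R A B) :
    ∃ θ : Auto R, ∀ x ∈ R, x ∈ A.alg ↔ θ.fwd x ∈ B.alg := by
  classical
  obtain ⟨θ, hθ⟩ := h
  have key : ∀ (η : R.toStarSubalgebra ≃⋆ₐ[ℂ] R.toStarSubalgebra) (x : H →L[ℂ] H) (hx : x ∈ R),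
      (if h : x ∈ R then ((η ⟨x, h⟩ : R.toStarSubalgebra) : H →L[ℂ] H) else 0) =
        ((η ⟨x, hx⟩ : R.toStarSubalgebra) : H →L[ℂ] H) := fun η x hx => dif_pos hx
  have hmem : ∀ (η : R.toStarSubalgebra ≃⋆ₐ[ℂ] R.toStarSubalgebra) (x : H →L[ℂ] H) (hx : x ∈ R),
      ((η ⟨x, hx⟩ : R.toStarSubalgebra) : H →L[ℂ] H) ∈ R := fun η x hx => (η ⟨x, hx⟩).2
  refine ⟨
    { fwd := fun x => if h : x ∈ R then ((θ ⟨x, h⟩ : R.toStarSubalgebra) : H →L[ℂ] H) else 0
      bwd := fun x => if h : x ∈ R then ((θ.symm ⟨x, h⟩ : R.toStarSubalgebra) : H →L[ℂ] H) else 0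
      fwd_mem := fun x hx => by rw [key θ x hx]; exact hmem θ x hx
      bwd_mem := fun x hx => by rw [key θ.symm x hx]; exact hmem θ.symm x hx
      bwd_fwd := fun x hx => by
        rw [key θ x hx, key θ.symm _ (hmem θ x hx)]
        exact congrArg Subtype.val (θ.symm_apply_apply ⟨x, hx⟩)
      fwd_bwd := fun x hx => by
        rw [key θ.symm x hx, key θ _ (hmem θ.symm x hx)]
        exact congrArg Subtype.val (θ.apply_symm_apply ⟨x, hx⟩)
      map_add := fun x hx y hy => by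
        rw [key θ _ (add_mem hx hy), key θ x hx, key θ y hy]
        exact congrArg Subtype.val (_root_.map_add θ (⟨x, hx⟩ : R.toStarSubalgebra) ⟨y, hy⟩)
      map_mul := fun x hx y hy => by
        rw [key θ _ (mul_mem hx hy), key θ x hx, key θ y hy]
        exact congrArg Subtype.val (_root_.map_mul θ (⟨x, hx⟩ : R.toStarSubalgebra) ⟨y, hy⟩)
      map_smul := fun c x hx => by
        rw [key θ _ (R.toStarSubalgebra.smul_mem hx c), key θ x hx]
        exact congrArg Subtype.val (_root_.map_smul θ c (⟨x, hx⟩ : R.toStarSubalgebra))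
      map_one := by
        rw [key θ _ (one_mem R)]
        exact congrArg Subtype.val (_root_.map_one θ)
      map_star := fun x hx => by
        rw [key θ _ (star_mem hx), key θ x hx]
        exact congrArg Subtype.val (StarHomClass.map_star θ (⟨x, hx⟩ : R.toStarSubalgebra)) },
    fun x hx => ?_⟩
  change x ∈ A.alg ↔ (if h : x ∈ R then ((θ ⟨x, h⟩ : R.toStarSubalgebra) : H →L[ℂ] H) else 0) ∈ B.alg
  rw [key θ x hx]
  exact hθ ⟨x, hx⟩

end MP_c82b80_an
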