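import Mathlib

/-!
# Finitary actions of the infinite symmetric group (definitions)

`SAct ι` : an action of `Perm ℕ` on a (countable) type `ι` such that every point has finite
support.  `S.IsoK k p q` : the points `p q : ι → Prop` are related by a permutation fixing
`0, ..., k - 1`.
-/

namespace MP_c82b80_an

/-- A finitary action of the infinite symmetric group. -/
structure SAct (ι : Type) where
  act : Equiv.Perm ℕ →* Equiv.Perm ι
  fin : ∀ i : ι, ∃ k : ℕ, ∀ g : Equiv.Perm ℕ, (∀ j < k, g j = j) → act g i = i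

namespace SAct

variable {ι : Type}

/-- `q = g • p` for some permutation `g` fixing `0, ..., k - 1`. -/
def IsoK (S : SAct ι) (k : ℕ) (p q : ι → Prop) : Prop :=
  ∃ g : Equiv.Perm ℕ, (∀ j < k, g j = j) ∧ ∀ i, q (S.act g i) ↔ p i

/-- `q = g • p` for some permutation `g`. -/
def Iso (S : SAct ι) (p q : ι → Prop) : Prop :=
  ∃ g : Equiv.Perm ℕ, ∀ i, q (S.act g i) ↔ p i

theorem isoK_zero (S : SAct ι) (p q : ι → Prop) : S.IsoK 0 p q ↔ S.Iso p q := by
  constructor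
  · rintro ⟨g, -, h⟩; exact ⟨g, h⟩
  · rintro ⟨g, h⟩; exact ⟨g, fun j hj => absurd hj (Nat.not_lt_zero j), h⟩

theorem IsoK.refl (S : SAct ι) (k : ℕ) (p : ι → Prop) : S.IsoK k p p :=
  ⟨1, fun _ _ => rfl, fun i => by rw [map_one]; rfl⟩

theorem IsoK.symm {S : SAct ι} {k : ℕ} {p q : ι → Prop} (h : S.IsoK k p q) : S.IsoK k q p := by
  obtain ⟨g, hg, h⟩ := h
  refine ⟨g⁻¹, fun j hj => ?_, fun i => ?_⟩
  · rw [Equiv.Perm.inv_eq_iff_eq, hg j hj]
  · rw [← h, ← Equiv.Perm.mul_apply, ← map_mul, mul_inv_cancel, map_one]; rfl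

theorem IsoK.trans {S : SAct ι} {k : ℕ} {p q r : ι → Prop} (h : S.IsoK k p q)
    (h' : S.IsoK k q r) : S.IsoK k p r := by
  obtain ⟨g, hg, h⟩ := h
  obtain ⟨g', hg', h'⟩ := h'
  refine ⟨g' * g, fun j hj => ?_, fun i => ?_⟩
  · rw [Equiv.Perm.mul_apply, hg j hj, hg' j hj]
  · rw [map_mul, Equiv.Perm.mul_apply, h', h]

theorem Iso.symm {S : SAct ι} {p q : ι → Prop} (h : S.Iso p q) : S.Iso q p :=
  (S.isoK_zero q p).1 ((S.isoK_zero p q).2 h).symm

theorem Iso.trans {S : SAct ι} {p q r : ι → Prop} (h : S.Iso p q) (h' : S.Iso q r) : S.Iso p r :=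
  (S.isoK_zero p r).1 (((S.isoK_zero p q).2 h).trans ((S.isoK_zero q r).2 h'))

end SAct

end MP_c82b80_an
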