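import Mathlib
import Pool.Agent.Lib.MP_c82b80_an.Defs
import Pool.Agent.Lib.MP_c82b80_an.Turb0

/-!
# JOB CODE : coding of countable structures by points of `ι → Prop`

Take `ι = (Σ n, L.Relations n × (Fin n → ℕ)) ⊕ (Σ n, L.Functions n × (Fin n → ℕ) × ℕ)` (countable,
as `L.Symbols = (Σ n, L.Functions n) ⊕ (Σ n, L.Relations n)` is countable),
`code M (inl ⟨n, P, a⟩) = M.RelMap P a`, `code M (inr ⟨n, F, a, b⟩) = (M.funMap F a = b)`;
`act g (inl ⟨n, P, a⟩) = inl ⟨n, P, g ∘ a⟩`, `act g (inr ⟨n, F, a, b⟩) = inr ⟨n, F, g ∘ a, g b⟩`.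
`S.Iso (code M) (code N)` says that some permutation `g` of `ℕ` is an isomorphism `M ≃[L] N`.
-/

namespace MP_c82b80_an

/-- the index set of the coding -/
private abbrev CodeIdx (L : FirstOrder.Language.{0, 0}) : Type :=
  (Σ n, L.Relations n × (Fin n → ℕ)) ⊕ (Σ n, L.Functions n × (Fin n → ℕ) × ℕ)

/-- the action on the index set -/
private def codeAct {L : FirstOrder.Language.{0, 0}} (g : Equiv.Perm ℕ) : CodeIdx L → CodeIdx L
  | Sum.inl ⟨n, P, a⟩ => Sum.inl ⟨n, P, g ∘ a⟩
  | Sum.inr ⟨n, F, a, b⟩ => Sum.inr ⟨n, F, g ∘ a, g b⟩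

private theorem codeAct_mul {L : FirstOrder.Language.{0, 0}} (g h : Equiv.Perm ℕ) (i : CodeIdx L) :
    codeAct (g * h) i = codeAct g (codeAct h i) := by
  rcases i with ⟨n, P, a⟩ | ⟨n, F, a, b⟩ <;> rfl

private theorem codeAct_one {L : FirstOrder.Language.{0, 0}} (i : CodeIdx L) :
    codeAct 1 i = i := by
  rcases i with ⟨n, P, a⟩ | ⟨n, F, a, b⟩ <;> rfl

private theorem code_fin_bound {n : ℕ} (a : Fin n → ℕ) : ∃ k, ∀ j, a j < k :=
  ⟨(Finset.univ.sup a) + 1, fun j => Nat.lt_succ_of_le (Finset.le_sup (Finset.mem_univ j))⟩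

/-- the action as an `SAct` -/
private def codeSAct (L : FirstOrder.Language.{0, 0}) : SAct (CodeIdx L) where
  act :=
    { toFun := fun g =>
        { toFun := codeAct g
          invFun := codeAct g⁻¹
          left_inv := fun i => by rw [← codeAct_mul, inv_mul_cancel, codeAct_one]
          right_inv := fun i => by rw [← codeAct_mul, mul_inv_cancel, codeAct_one] }
      map_one' := by
        ext i
        exact codeAct_one i
      map_mul' := fun g h => by
        ext i
        exact codeAct_mul g h i }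
  fin := by
    rintro (⟨n, P, a⟩ | ⟨n, F, a, b⟩)
    · obtain ⟨k, hk⟩ := code_fin_bound a
      refine ⟨k, fun g hg => ?_⟩
      have : g ∘ a = a := funext fun j => hg _ (hk j)
      change (Sum.inl ⟨n, P, g ∘ a⟩ : CodeIdx L) = _
      rw [this]
    · obtain ⟨k, hk⟩ := code_fin_bound a
      refine ⟨max k (b + 1), fun g hg => ?_⟩
      have h1 : g ∘ a = a := funext fun j => hg _ (lt_max_of_lt_left (hk j))
      have h2 : g b = b := hg _ (lt_max_of_lt_right (Nat.lt_succ_self b))
      change (Sum.inr ⟨n, F, g ∘ a, g b⟩ : CodeIdx L) = _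
      rw [h1, h2]

/-- the code of a structure -/
private def codeOf {L : FirstOrder.Language.{0, 0}} (M : L.Structure ℕ) : CodeIdx L → Prop
  | Sum.inl ⟨_, P, a⟩ => M.RelMap P a
  | Sum.inr ⟨_, F, a, b⟩ => M.funMap F a = b

theorem exists_code (L : FirstOrder.Language.{0, 0}) [Countable L.Symbols] :
    ∃ (ι : Type) (_ : Countable ι) (S : SAct ι) (code : L.Structure ℕ → ι → Prop),
      (∀ i, @MeasurableSet _ (structMeasurableSpace L) {M | code M i}) ∧
      ∀ M N, S.Iso (code M) (code N) ↔ StructIso L M N := by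
  have hF : Countable (Σ n, L.Functions n) :=
    (Sum.inl_injective (α := Σ n, L.Functions n) (β := Σ n, L.Relations n)).countable
  have hR : Countable (Σ n, L.Relations n) :=
    (Sum.inr_injective (α := Σ n, L.Functions n) (β := Σ n, L.Relations n)).countable
  have hF' : ∀ n, Countable (L.Functions n) := fun n =>
    (sigma_mk_injective (β := fun n => L.Functions n) (i := n)).countable
  have hR' : ∀ n, Countable (L.Relations n) := fun n =>
    (sigma_mk_injective (β := fun n => L.Relations n) (i := n)).countable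
  refine ⟨CodeIdx L, inferInstance, codeSAct L, codeOf, ?_, ?_⟩
  · rintro (⟨n, P, a⟩ | ⟨n, F, a, b⟩)
    · exact MeasurableSpace.measurableSet_generateFrom (Or.inl ⟨n, P, a, rfl⟩)
    · exact MeasurableSpace.measurableSet_generateFrom (Or.inr ⟨n, F, a, b, rfl⟩)
  · intro M N
    constructor
    · rintro ⟨g, hg⟩
      refine ⟨@FirstOrder.Language.Equiv.mk L ℕ ℕ M N g ?_ ?_⟩
      · intro n F a
        have h := (hg (Sum.inr ⟨n, F, a, M.funMap F a⟩)).2 rfl
        exact Eq.symm h
      · intro n P a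
        exact hg (Sum.inl ⟨n, P, a⟩)
    · rintro ⟨e⟩
      obtain ⟨g, hf, hr⟩ : ∃ g : Equiv.Perm ℕ,
          (∀ {n} (F : L.Functions n) (a : Fin n → ℕ), g (M.funMap F a) = N.funMap F (g ∘ a)) ∧
          (∀ {n} (P : L.Relations n) (a : Fin n → ℕ), N.RelMap P (g ∘ a) ↔ M.RelMap P a) :=
        ⟨@FirstOrder.Language.Equiv.toEquiv L ℕ ℕ M N e,
          @FirstOrder.Language.Equiv.map_fun' L ℕ ℕ M N e,
          @FirstOrder.Language.Equiv.map_rel' L ℕ ℕ M N e⟩
      refine ⟨g, ?_⟩
      rintro (⟨n, P, a⟩ | ⟨n, F, a, b⟩)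
      · exact hr P a
      · change N.funMap F (g ∘ a) = g b ↔ M.funMap F a = b
        rw [← hf F a, g.injective.eq_iff]

end MP_c82b80_an
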