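import Mathlib

/-!
# Noise stability on finite product spaces: definitions

`Y = ∀ i : Fin N, A i` with the uniform probability.
* `prob P` : probability of `P`.
* `ker lam y z = ∏ i, (lam i * [y i = z i] + (1 - lam i) / card (A i))` : the noise kernel.
* `stab lam J K = P(J y = K y')`, `y` uniform, `y'` obtained from `y` by the noise kernel.
* `mix S y z` : coordinates in `S` from `y`, the others from `z`.
* `col S K = P(K y = K (mix S y z))`, `y, z` independent uniform (`col ∅ K = P(K y = K z)`).
-/

namespace MP_c82b80_an

open scoped Classical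

/-- uniform probability of an event on a finite set -/
noncomputable def prob {Y : Type} [Fintype Y] (P : Y → Prop) : ℝ :=
  (∑ y, if P y then (1 : ℝ) else 0) / Fintype.card Y

variable {N : ℕ} {A : Fin N → Type} [∀ i, Fintype (A i)]

/-- the noise kernel -/
noncomputable def ker (lam : Fin N → ℝ) (y z : ∀ i, A i) : ℝ :=
  ∏ i, (lam i * (if y i = z i then 1 else 0) + (1 - lam i) / Fintype.card (A i))

/-- `P(J y = K y')`, `y` uniform, `y'` obtained from `y` by the noise kernel. -/
noncomputable def stab {V : Type} (lam : Fin N → ℝ) (J K : (∀ i, A i) → V) : ℝ :=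
  (∑ y, ∑ z, ker lam y z * (if J y = K z then 1 else 0)) / Fintype.card (∀ i, A i)

/-- coordinates in `S` from `y`, the others from `z` -/
noncomputable def mix (S : Set (Fin N)) (y z : ∀ i, A i) : ∀ i, A i :=
  fun i => if i ∈ S then y i else z i

/-- collision probability when the coordinates in `S` are shared -/
noncomputable def col {V : Type} (S : Set (Fin N)) (K : (∀ i, A i) → V) : ℝ :=
  (∑ y, ∑ z, if K y = K (mix S y z) then (1 : ℝ) else 0) / (Fintype.card (∀ i, A i)) ^ 2

end MP_c82b80_an
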