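import Mathlib

/-!
# JOB COMB-1 : the four-cycle lemma

`K : YA → YB → V` on finite sets.  Probabilities over independent uniform `a a' : YA`, `b b' : YB`:
`pA = P(K a b = K a b')`, `pB = P(K a b = K a' b)`, `p0 = P(K a b = K a' b')`.
Claim: `pA (1 - pA) ≤ 3 p0 + 16 w`, `w = 1 - pA - pB + p0`.

Proof.  Write `K₀₀ = K a b`, `K₀₁ = K a b'`, `K₁₀ = K a' b`, `K₁₁ = K a' b'`, and `E v` for the unit vectors of
`ℝ^V`.  The vector `D = E K₀₀ - E K₀₁ - E K₁₀ + E K₁₁` has `E‖D‖² = 4 w` (expand the square:
16 inner products, `E⟨E K₀₀, E K₀₁⟩ = pA`, etc., so `E‖D‖² = 4 - 4 pA - 4 pB + 4 p0 = 4w`).  If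
`D ≠ 0` then `‖D‖² ≥ 2` (integer coordinates with sum 0), so `P(D ≠ 0) ≤ 2 w`.  If `D = 0`, then
`{K₀₀, K₁₁} = {K₀₁, K₁₀}` as multisets: either `K₀₀ = K₀₁ ∧ K₁₁ = K₁₀` or `K₀₀ = K₁₀ ∧ K₁₁ = K₀₁`.
Let `u = [K₀₀ ≠ K₀₁]`, `u' = [K₁₀ ≠ K₁₁]` (functions of `(a; b, b')` and `(a'; b, b')`): `u = u'` if `D = 0`,
so `P(u ≠ u') ≤ 2 w`, so with `ub = E(u | b, b')`: `E (u - ub)² = P(u ≠ u') / 2 ≤ w`.
Same for `v = [K₀₀ ≠ K₁₀]`, `vb = E(v | a, a')`: `E (v - vb)² ≤ w`.
`P(u = v = 1) ≤ 2 w` (impossible if `D = 0`), `P(u = v = 0) = 1 - P(u=1) - P(v=1) + P(u=v=1)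
≤ pA + pB - 1 + 2 w = p0 + w`.  So `E (u + v - 1)² ≤ p0 + 3 w`.
`ub + vb - 1 = (ub - u) + (vb - v) + (u + v - 1)` so `E (ub + vb - 1)² ≤ 3 (w + w + p0 + 3 w)
= 3 p0 + 15 w`; `ub`, `vb` are independent, so `Var ub ≤ Var (ub + vb) ≤ 3 p0 + 15 w`; and
`pA (1 - pA) = Var u = Var ub + E (u - ub)² ≤ 3 p0 + 16 w`.
-/

namespace MP_c82b80_an

open scoped Classical


section
variable {YA YB V : Type} [Fintype YA] [Fintype YB]

/-- average over the four variables -/
private noncomputable def combE (f : YA → YA → YB → YB → ℝ) : ℝ :=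
  (∑ a, ∑ a', ∑ b, ∑ b', f a a' b b') / ((Fintype.card YA : ℝ) ^ 2 * (Fintype.card YB : ℝ) ^ 2)

private theorem combE_add (f g : YA → YA → YB → YB → ℝ) :
    combE (fun a a' b b' => f a a' b b' + g a a' b b') = combE f + combE g := by
  simp only [combE, Finset.sum_add_distrib, add_div]

private theorem combE_smul (c : ℝ) (f : YA → YA → YB → YB → ℝ) :
    combE (fun a a' b b' => c * f a a' b b') = c * combE f := by
  simp only [combE, ← Finset.mul_sum, mul_div_assoc]

private theorem combE_mono {f g : YA → YA → YB → YB → ℝ}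
    (h : ∀ a a' b b', f a a' b b' ≤ g a a' b b') : combE f ≤ combE g := by
  unfold combE
  apply div_le_div_of_nonneg_right _ (by positivity)
  exact Finset.sum_le_sum fun a _ => Finset.sum_le_sum fun a' _ => Finset.sum_le_sum fun b _ =>
    Finset.sum_le_sum fun b' _ => h a a' b b'

private theorem combE_congr {f g : YA → YA → YB → YB → ℝ}
    (h : ∀ a a' b b', f a a' b b' = g a a' b b') : combE f = combE g := by
  have : f = g := by
    funext a a' b b'
    exact h a a' b b'
  rw [this]

private theorem combE_const [Nonempty YA] [Nonempty YB] (c : ℝ) :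
    combE (fun (_ _ : YA) (_ _ : YB) => c) = c := by
  unfold combE
  have h1 : (Fintype.card YA : ℝ) ≠ 0 := by
    exact_mod_cast Fintype.card_ne_zero
  have h2 : (Fintype.card YB : ℝ) ≠ 0 := by
    exact_mod_cast Fintype.card_ne_zero
  simp only [Finset.sum_const, Finset.card_univ, nsmul_eq_mul]
  field_simp

private theorem combE_swap (f : YA → YA → YB → YB → ℝ) :
    combE f = (∑ b, ∑ b', ∑ a, ∑ a', f a a' b b') /
      ((Fintype.card YA : ℝ) ^ 2 * (Fintype.card YB : ℝ) ^ 2) := by
  unfold combE
  congr 1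
  calc ∑ a, ∑ a', ∑ b, ∑ b', f a a' b b'
      = ∑ a, ∑ b, ∑ a', ∑ b', f a a' b b' := Finset.sum_congr rfl fun a _ => Finset.sum_comm
    _ = ∑ b, ∑ a, ∑ a', ∑ b', f a a' b b' := Finset.sum_comm
    _ = ∑ b, ∑ a, ∑ b', ∑ a', f a a' b b' :=
        Finset.sum_congr rfl fun b _ => Finset.sum_congr rfl fun a _ => Finset.sum_comm
    _ = ∑ b, ∑ b', ∑ a, ∑ a', f a a' b b' := Finset.sum_congr rfl fun b _ => Finset.sum_comm

/-- variance and the mean square difference of two independent copies -/
private theorem comb_var_pair {Z : Type} [Fintype Z] [Nonempty Z] (f : Z → ℝ) :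
    ∑ z, ∑ _z' : Z, (f z - (∑ x, f x) / Fintype.card Z) ^ 2 =
      (1 / 2) * ∑ z, ∑ z', (f z - f z') ^ 2 := by
  have h1 : (Fintype.card Z : ℝ) ≠ 0 := by
    exact_mod_cast Fintype.card_ne_zero
  set n : ℝ := (Fintype.card Z : ℝ) with hn
  set S : ℝ := ∑ x, f x with hS
  have e1 : ∀ z, ∑ _z' : Z, (f z - S / n) ^ 2 = n * (f z - S / n) ^ 2 := by
    intro z
    rw [Finset.sum_const, Finset.card_univ, nsmul_eq_mul]
  have e2 : ∀ z, ∑ z', (f z - f z') ^ 2 = n * f z ^ 2 - 2 * f z * S + ∑ z', f z' ^ 2 := by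
    intro z
    have : ∀ z', (f z - f z') ^ 2 = f z ^ 2 - 2 * f z * f z' + f z' ^ 2 := by
      intro z'; ring
    simp only [this, Finset.sum_add_distrib, Finset.sum_sub_distrib, Finset.sum_const,
      Finset.card_univ, nsmul_eq_mul, ← Finset.mul_sum]
    rw [← hS, ← hn]
  simp only [e1, e2]
  have e3 : ∀ z, n * (f z - S / n) ^ 2 = n * f z ^ 2 - 2 * f z * S + S ^ 2 / n := by
    intro z
    field_simp
    ring
  simp only [e3, Finset.sum_add_distrib, Finset.sum_sub_distrib, Finset.sum_const,
      Finset.card_univ, nsmul_eq_mul, ← Finset.mul_sum, ← Finset.sum_mul]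
  rw [← hS, ← hn]
  field_simp
  ring

private theorem comb_four_pt (x0 x1 x2 x3 : V) :
    let i01 : ℝ := if x0 = x1 then 1 else 0
    let i02 : ℝ := if x0 = x2 then 1 else 0
    let i03 : ℝ := if x0 = x3 then 1 else 0
    let i12 : ℝ := if x1 = x2 then 1 else 0
    let i13 : ℝ := if x1 = x3 then 1 else 0
    let i23 : ℝ := if x2 = x3 then 1 else 0
    (((1 - i01) - (1 - i23)) ^ 2 ≤ 2 - i01 - i02 + i03 + i12 - i13 - i23) ∧
    (((1 - i02) - (1 - i13)) ^ 2 ≤ 2 - i01 - i02 + i03 + i12 - i13 - i23) ∧
    ((1 - i01) * (1 - i02) ≤ 2 - i01 - i02 + i03 + i12 - i13 - i23) := by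
  intro i01 i02 i03 i12 i13 i23
  by_cases h01 : x0 = x1
  · subst h01
    by_cases h02 : x0 = x2
    · subst h02
      by_cases h03 : x0 = x3
      · subst h03
        norm_num [i01, i02, i03, i12, i13, i23]
      · norm_num [i01, i02, i03, i12, i13, i23, h03]
    · by_cases h03 : x0 = x3
      · subst h03
        norm_num [i01, i02, i03, i12, i13, i23, h02, Ne.symm h02]
      · by_cases h23 : x2 = x3
        · subst h23
          norm_num [i01, i02, i03, i12, i13, i23, h02]
        · norm_num [i01, i02, i03, i12, i13, i23, h02, h03, h23]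
  · by_cases h02 : x0 = x2
    · subst h02
      by_cases h03 : x0 = x3
      · subst h03
        norm_num [i01, i02, i03, i12, i13, i23, h01, Ne.symm h01]
      · by_cases h13 : x1 = x3
        · subst h13
          norm_num [i01, i02, i03, i12, i13, i23, h01, Ne.symm h01]
        · norm_num [i01, i02, i03, i12, i13, i23, h01, Ne.symm h01, h03, h13]
    · by_cases h03 : x0 = x3
      · subst h03
        by_cases h12 : x1 = x2
        · subst h12
          norm_num [i01, i02, i03, i12, i13, i23, h01, Ne.symm h01]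
        · norm_num [i01, i02, i03, i12, i13, i23, h01, h02, Ne.symm h01, Ne.symm h02, h12]
      · by_cases h12 : x1 = x2
        · subst h12
          by_cases h13 : x1 = x3
          · subst h13
            norm_num [i01, i02, i03, i12, i13, i23, h01]
          · norm_num [i01, i02, i03, i12, i13, i23, h01, h03, h13]
        · by_cases h13 : x1 = x3
          · subst h13
            norm_num [i01, i02, i03, i12, i13, i23, h01, h02, h12, Ne.symm h12]
          · by_cases h23 : x2 = x3
            · subst h23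
              norm_num [i01, i02, i03, i12, i13, i23, h01, h02, h12]
            · norm_num [i01, i02, i03, i12, i13, i23, h01, h02, h03, h12, h13, h23]

end

theorem four_cycle {YA YB V : Type} [Fintype YA] [Fintype YB] [Nonempty YA] [Nonempty YB]
    (K : YA → YB → V) (pA pB p0 : ℝ)
    (hA : pA = (∑ a : YA, ∑ b : YB, ∑ b' : YB, if K a b = K a b' then (1 : ℝ) else 0) /
      (Fintype.card YA * Fintype.card YB ^ 2))
    (hB : pB = (∑ a : YA, ∑ a' : YA, ∑ b : YB, if K a b = K a' b then (1 : ℝ) else 0) /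
      (Fintype.card YA ^ 2 * Fintype.card YB))
    (h0 : p0 = (∑ a : YA, ∑ a' : YA, ∑ b : YB, ∑ b' : YB,
      if K a b = K a' b' then (1 : ℝ) else 0) / (Fintype.card YA ^ 2 * Fintype.card YB ^ 2)) :
    pA * (1 - pA) ≤ 3 * p0 + 16 * (1 - pA - pB + p0) := by
  have hcA : (Fintype.card YA : ℝ) ≠ 0 := by
    exact_mod_cast Fintype.card_ne_zero
  have hcB : (Fintype.card YB : ℝ) ≠ 0 := by
    exact_mod_cast Fintype.card_ne_zero
  set nA : ℝ := (Fintype.card YA : ℝ) with hnA
  set nB : ℝ := (Fintype.card YB : ℝ) with hnB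
  -- the six indicators
  let i01 : YA → YA → YB → YB → ℝ := fun a _ b b' => if K a b = K a b' then 1 else 0
  let i02 : YA → YA → YB → YB → ℝ := fun a a' b _ => if K a b = K a' b then 1 else 0
  let i03 : YA → YA → YB → YB → ℝ := fun a a' b b' => if K a b = K a' b' then 1 else 0
  let i12 : YA → YA → YB → YB → ℝ := fun a a' b b' => if K a b' = K a' b then 1 else 0
  let i13 : YA → YA → YB → YB → ℝ := fun a a' _ b' => if K a b' = K a' b' then 1 else 0
  let i23 : YA → YA → YB → YB → ℝ := fun _ a' b b' => if K a' b = K a' b' then 1 else 0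
  have E01 : combE i01 = pA := by
    rw [hA]
    unfold combE
    simp only [i01, Finset.sum_const, Finset.card_univ, nsmul_eq_mul, ← Finset.mul_sum]
    rw [← hnA, ← hnB]
    field_simp
  have E23 : combE i23 = pA := by
    rw [hA]
    unfold combE
    simp only [i23, Finset.sum_const, Finset.card_univ, nsmul_eq_mul]
    rw [← hnA, ← hnB]
    field_simp
  have E02 : combE i02 = pB := by
    rw [hB]
    unfold combE
    simp only [i02, Finset.sum_const, Finset.card_univ, nsmul_eq_mul, ← Finset.mul_sum]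
    rw [← hnA, ← hnB]
    field_simp
  have E13 : combE i13 = pB := by
    rw [hB]
    unfold combE
    simp only [i13, Finset.sum_const, Finset.card_univ, nsmul_eq_mul, ← Finset.mul_sum]
    rw [← hnA, ← hnB]
    field_simp
  have E03 : combE i03 = p0 := by
    rw [h0]
    rfl
  have E12 : combE i12 = p0 := by
    rw [h0]
    unfold combE
    simp only [i12]
    congr 1
    exact Finset.sum_congr rfl fun a _ => Finset.sum_congr rfl fun a' _ => Finset.sum_comm
  set w : ℝ := 1 - pA - pB + p0 with hw
  -- linear functional on combinations of the indicators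
  let q : YA → YA → YB → YB → ℝ := fun a a' b b' =>
    2 - i01 a a' b b' - i02 a a' b b' + i03 a a' b b' + i12 a a' b b' - i13 a a' b b' - i23 a a' b b'
  have Eq : combE q = 2 * w := by
    have e : combE q = combE (fun a a' b b' => (fun (_ _ : YA) (_ _ : YB) => (2 : ℝ)) a a' b b' +
        (fun a a' b b' => (-1) * i01 a a' b b' + (fun a a' b b' => (-1) * i02 a a' b b' +
        (fun a a' b b' => i03 a a' b b' + (fun a a' b b' => i12 a a' b b' +
        (fun a a' b b' => (-1) * i13 a a' b b' + (-1) * i23 a a' b b') a a' b b') a a' b b')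
          a a' b b') a a' b b') a a' b b') := by
      apply combE_congr
      intro a a' b b'
      simp only [q]
      ring
    rw [e, combE_add, combE_add, combE_add, combE_add, combE_add, combE_add, combE_smul, combE_smul,
      combE_smul, combE_smul, combE_const, E01, E02, E03, E12, E13, E23]
    rw [hw]
    ring
  -- `u`, `v`
  let u : YA → YB → YB → ℝ := fun a b b' => 1 - (if K a b = K a b' then 1 else 0)
  let v : YA → YA → YB → ℝ := fun a a' b => 1 - (if K a b = K a' b then 1 else 0)
  let ub : YB → YB → ℝ := fun b b' => (∑ a, u a b b') / nA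
  let vb : YA → YA → ℝ := fun a a' => (∑ b, v a a' b) / nB
  have hpt : ∀ a a' b b',
      (u a b b' - u a' b b') ^ 2 ≤ q a a' b b' ∧ (v a a' b - v a a' b') ^ 2 ≤ q a a' b b' ∧
      u a b b' * v a a' b ≤ q a a' b b' :=
    fun a a' b b' => comb_four_pt (K a b) (K a b') (K a' b) (K a' b')
  have hu2 : ∀ a b b', u a b b' ^ 2 = u a b b' := by
    intro a b b'
    simp only [u]
    split_ifs <;> norm_num
  have hv2 : ∀ a a' b, v a a' b ^ 2 = v a a' b := by
    intro a a' b
    simp only [v]
    split_ifs <;> norm_num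
  -- (A)
  have hA1 : combE (fun a _ b b' => (u a b b' - ub b b') ^ 2) ≤ w := by
    have e1 : combE (fun a (_ : YA) b b' => (u a b b' - ub b b') ^ 2) =
        (1 / 2) * combE (fun a a' b b' => (u a b b' - u a' b b') ^ 2) := by
      rw [combE_swap, combE_swap, ← mul_div_assoc, Finset.mul_sum]
      congr 1
      refine Finset.sum_congr rfl fun b _ => ?_
      rw [Finset.mul_sum]
      refine Finset.sum_congr rfl fun b' _ => ?_
      exact comb_var_pair (fun a => u a b b')
    have e2 : combE (fun a a' b b' => (u a b b' - u a' b b') ^ 2) ≤ combE q :=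
      combE_mono fun a a' b b' => (hpt a a' b b').1
    rw [e1]
    linarith
  -- (B)
  have hB1 : combE (fun a a' b (_ : YB) => (v a a' b - vb a a') ^ 2) ≤ w := by
    have e1 : combE (fun a a' b (_ : YB) => (v a a' b - vb a a') ^ 2) =
        (1 / 2) * combE (fun a a' b b' => (v a a' b - v a a' b') ^ 2) := by
      unfold combE
      rw [← mul_div_assoc, Finset.mul_sum]
      congr 1
      refine Finset.sum_congr rfl fun a _ => ?_
      rw [Finset.mul_sum]
      refine Finset.sum_congr rfl fun a' _ => ?_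
      exact comb_var_pair (fun b => v a a' b)
    have e2 : combE (fun a a' b b' => (v a a' b - v a a' b') ^ 2) ≤ combE q :=
      combE_mono fun a a' b b' => (hpt a a' b b').2.1
    rw [e1]
    linarith
  -- (C)
  have hC : combE (fun a a' b b' => (u a b b' + v a a' b - 1) ^ 2) ≤ p0 + 3 * w := by
    have e2 : combE (fun a a' b b' => u a b b' * v a a' b) ≤ combE q :=
      combE_mono fun a a' b b' => (hpt a a' b b').2.2
    have e1 : combE (fun a a' b b' => (u a b b' + v a a' b - 1) ^ 2) =
        combE (fun a a' b b' => (fun (_ _ : YA) (_ _ : YB) => (-1 : ℝ)) a a' b b' +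
        (fun a a' b b' => i01 a a' b b' + (fun a a' b b' => i02 a a' b b' +
          2 * (u a b b' * v a a' b)) a a' b b') a a' b b') := by
      apply combE_congr
      intro a a' b b'
      have h1 := hu2 a b b'
      have h2 := hv2 a a' b
      have h3 : u a b b' = 1 - i01 a a' b b' := rfl
      have h4 : v a a' b = 1 - i02 a a' b b' := rfl
      have : (u a b b' + v a a' b - 1) ^ 2 =
        u a b b' ^ 2 + v a a' b ^ 2 + 1 + 2 * (u a b b' * v a a' b) - 2 * u a b b' - 2 * v a a' b := by
        ring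
      rw [this, h1, h2]
      simp only
      linarith
    rw [e1, combE_add, combE_add, combE_add, combE_smul, combE_const, E01, E02]
    linarith
  -- (D) independence
  set m : ℝ := 1 - pA with hm
  have hsumub : ∑ b, ∑ b', (ub b b' - m) = 0 := by
    have e1 : ∑ b, ∑ b', ub b b' = nB ^ 2 * m := by
      simp only [ub, ← Finset.sum_div]
      have e2 : ∑ b, ∑ b', ∑ a, u a b b' = ∑ a, ∑ b, ∑ b', u a b b' := by
        calc ∑ b, ∑ b', ∑ a, u a b b' = ∑ b, ∑ a, ∑ b', u a b b' :=
              Finset.sum_congr rfl fun b _ => Finset.sum_comm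
          _ = ∑ a, ∑ b, ∑ b', u a b b' := Finset.sum_comm
      rw [e2]
      simp only [u, Finset.sum_sub_distrib, Finset.sum_const, Finset.card_univ, nsmul_eq_mul]
      rw [← hnA, ← hnB, hm, hA]
      field_simp
    simp only [Finset.sum_sub_distrib, Finset.sum_const, Finset.card_univ, nsmul_eq_mul]
    rw [e1, ← hnB]
    ring
  have hD : combE (fun (_ _ : YA) b b' => (ub b b' - m) ^ 2) ≤
      combE (fun a a' b b' => (ub b b' + vb a a' - 1) ^ 2) := by
    have e0 : combE (fun a a' b b' => (ub b b' - m) * (vb a a' - 1 + m)) = 0 := by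
      unfold combE
      have : ∀ a a', ∑ b, ∑ b', (ub b b' - m) * (vb a a' - 1 + m) = 0 := by
        intro a a'
        simp only [← Finset.sum_mul]
        rw [hsumub, zero_mul]
      simp only [this, Finset.sum_const_zero, zero_div]
    have e1 : combE (fun a a' b b' => (ub b b' - m) ^ 2 +
        2 * ((ub b b' - m) * (vb a a' - 1 + m))) ≤
        combE (fun a a' b b' => (ub b b' + vb a a' - 1) ^ 2) := by
      apply combE_mono
      intro a a' b b'
      nlinarith [sq_nonneg (vb a a' - 1 + m)]
    rw [combE_add, combE_smul, e0] at e1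
    linarith
  -- (E)
  have hE0 : combE (fun a _ b b' => (u a b b' - ub b b') * (ub b b' - m)) = 0 := by
    rw [combE_swap]
    have : ∀ b b', ∑ a : YA, ∑ _a' : YA, (u a b b' - ub b b') * (ub b b' - m) = 0 := by
      intro b b'
      have h1 : ∑ a : YA, (u a b b' - ub b b') = 0 := by
        simp only [Finset.sum_sub_distrib, Finset.sum_const, Finset.card_univ, nsmul_eq_mul, ub]
        rw [← hnA]
        field_simp
        ring
      simp only [Finset.sum_const, Finset.card_univ, nsmul_eq_mul, ← Finset.mul_sum,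
        ← Finset.sum_mul]
      rw [h1]
      ring
    simp only [this, Finset.sum_const_zero, zero_div]
  have hE1 : combE (fun a (_ : YA) b b' => (u a b b' - m) ^ 2) =
      combE (fun a _ b b' => (u a b b' - ub b b') ^ 2) +
      combE (fun (_ _ : YA) b b' => (ub b b' - m) ^ 2) := by
    have e1 : combE (fun a (_ : YA) b b' => (u a b b' - m) ^ 2) =
        combE (fun a a' b b' => (u a b b' - ub b b') ^ 2 + (fun a (_ : YA) b b' =>
          (ub b b' - m) ^ 2 + 2 * ((u a b b' - ub b b') * (ub b b' - m))) a a' b b') := by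
      apply combE_congr
      intro a a' b b'
      ring
    rw [e1, combE_add, combE_add, combE_smul, hE0]
    ring
  have hE2 : combE (fun a (_ : YA) b b' => (u a b b' - m) ^ 2) = pA * (1 - pA) := by
    have e1 : combE (fun a (_ : YA) b b' => (u a b b' - m) ^ 2) =
        combE (fun a a' b b' => (fun (_ _ : YA) (_ _ : YB) => (1 - 2 * m + m ^ 2 : ℝ)) a a' b b' +
          (2 * m - 1) * i01 a a' b b') := by
      apply combE_congr
      intro a a' b b'
      have h1 := hu2 a b b'
      have h3 : u a b b' = 1 - i01 a a' b b' := rfl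
      have : (u a b b' - m) ^ 2 = u a b b' ^ 2 - 2 * m * u a b b' + m ^ 2 := by ring
      rw [this, h1]
      simp only
      rw [h3]
      ring
    rw [e1, combE_add, combE_smul, combE_const, E01, hm]
    ring
  -- (F)
  have hF : combE (fun a a' b b' => (ub b b' + vb a a' - 1) ^ 2) ≤
      3 * (w + w + (p0 + 3 * w)) := by
    have e1 : combE (fun a a' b b' => (ub b b' + vb a a' - 1) ^ 2) ≤
        combE (fun a a' b b' => 3 * ((u a b b' - ub b b') ^ 2 + (fun a a' b (b' : YB) =>
          (v a a' b - vb a a') ^ 2 + (u a b b' + v a a' b - 1) ^ 2) a a' b b')) := by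
      apply combE_mono
      intro a a' b b'
      simp only
      nlinarith [sq_nonneg ((u a b b' - ub b b') - (v a a' b - vb a a')),
        sq_nonneg ((u a b b' - ub b b') + (u a b b' + v a a' b - 1)),
        sq_nonneg ((v a a' b - vb a a') + (u a b b' + v a a' b - 1))]
    rw [combE_smul, combE_add, combE_add] at e1
    linarith
  linarith [hE2, hE1, hD, hF, hA1]

end MP_c82b80_an
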