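import Mathlib
import Pool.Agent.Lib.MP_c82b80_an.Comb0

/-!
# JOB COMB-2 : upper bound for the noise stability by collision probabilities

Let `S` be a set of coordinates.  If `lam i ≤ rA` for `i ∈ S` and `lam i ≤ rB` for `i ∉ S`, then
`stab lam J K ≤ (1/2) ∑_{F = J, K} (c₀ + rA (col S F - c₀) + rB (col Sᶜ F - c₀)
      + rA rB (1 - col S F - col Sᶜ F + c₀))`, `c₀ = col ∅ F`.

Proof.  `c2p U` is the (product) kernel of the Hoeffding projection of the coordinate set `U`; it
is a symmetric idempotent kernel, and `ker lam = ∑ U, (∏ i ∈ U, lam i) c2p U`; moreover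
`col S K = stab 1_S K K`.
-/

namespace MP_c82b80_an

open scoped Classical

variable {N : ℕ} {A : Fin N → Type} [∀ i, Fintype (A i)] [∀ i, Nonempty (A i)]

/-- one coordinate kernel -/
private noncomputable def c2k (b : Prop) {X : Type} [Fintype X] (y z : X) : ℝ :=
  if b then ((if y = z then (1 : ℝ) else 0) - 1 / Fintype.card X) else 1 / Fintype.card X

/-- kernel of the Hoeffding projection -/
private noncomputable def c2p (U : Finset (Fin N)) (y z : ∀ i, A i) : ℝ :=
  ∏ i, c2k (i ∈ U) (y i) (z i)

private theorem c2k_symm (b : Prop) {X : Type} [Fintype X] (y z : X) :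
    c2k b y z = c2k b z y := by
  unfold c2k
  by_cases h : y = z
  · subst h; rfl
  · have h' : ¬ z = y := fun e => h e.symm
    simp [h, h']

private theorem c2k_idem (b : Prop) {X : Type} [Fintype X] [Nonempty X] (y z : X) :
    ∑ x, c2k b x y * c2k b x z = c2k b y z := by
  have hc : (Fintype.card X : ℝ) ≠ 0 := by
    have := Fintype.card_pos (α := X)
    positivity
  unfold c2k
  by_cases hb : b
  · simp only [hb, if_true]
    have : ∀ x : X, ((if x = y then (1 : ℝ) else 0) - 1 / Fintype.card X) *
        ((if x = z then (1 : ℝ) else 0) - 1 / Fintype.card X)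
        = (if x = y then (if y = z then (1 : ℝ) else 0) else 0)
          - 1 / Fintype.card X * (if x = y then (1 : ℝ) else 0)
          - 1 / Fintype.card X * (if x = z then (1 : ℝ) else 0)
          + 1 / Fintype.card X * (1 / Fintype.card X) := by
      intro x
      by_cases h1 : x = y
      · subst h1
        by_cases h2 : x = z
        · subst h2; simp only [if_true]; ring
        · simp only [h2, if_true, if_false]; ring
      · by_cases h2 : x = z
        · subst h2
          simp only [h1, if_true, if_false]; ring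
        · simp only [h1, h2, if_false]; ring
    rw [Finset.sum_congr rfl (fun x _ => this x)]
    rw [Finset.sum_add_distrib, Finset.sum_sub_distrib, Finset.sum_sub_distrib,
      ← Finset.mul_sum, ← Finset.mul_sum]
    simp only [Finset.sum_ite_eq', Finset.mem_univ, if_true, Finset.sum_const, Finset.card_univ,
      nsmul_eq_mul]
    field_simp
    ring
  · simp only [hb, if_false, Finset.sum_const, Finset.card_univ, nsmul_eq_mul]
    field_simp

private theorem c2p_symm (U : Finset (Fin N)) (y z : ∀ i, A i) : c2p U y z = c2p U z y := by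
  unfold c2p
  exact Finset.prod_congr rfl (fun i _ => c2k_symm _ _ _)

private theorem c2p_idem (U : Finset (Fin N)) (y z : ∀ i, A i) :
    ∑ x, c2p U x y * c2p U x z = c2p U y z := by
  unfold c2p
  simp_rw [← Finset.prod_mul_distrib]
  have := Finset.prod_univ_sum (R := ℝ) (fun i : Fin N => (Finset.univ : Finset (A i)))
    (fun i x => c2k (i ∈ U) x (y i) * c2k (i ∈ U) x (z i))
  rw [Fintype.piFinset_univ] at this
  rw [← this]
  exact Finset.prod_congr rfl (fun i _ => c2k_idem _ _ _)

private theorem c2p_pos (U : Finset (Fin N)) (f : (∀ i, A i) → ℝ) :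
    0 ≤ ∑ y, ∑ z, c2p U y z * (f y * f z) := by
  have h : ∑ y, ∑ z, c2p U y z * (f y * f z) = ∑ x, (∑ y, c2p U x y * f y) ^ 2 := by
    have h1 : ∀ x, (∑ y, c2p U x y * f y) ^ 2
        = ∑ y, ∑ z, (c2p U x y * c2p U x z) * (f y * f z) := by
      intro x
      rw [sq, Finset.sum_mul_sum]
      exact Finset.sum_congr rfl (fun y _ => Finset.sum_congr rfl (fun z _ => by ring))
    simp_rw [h1]
    symm
    rw [Finset.sum_comm]
    refine Finset.sum_congr rfl (fun y _ => ?_)
    rw [Finset.sum_comm]
    refine Finset.sum_congr rfl (fun z _ => ?_)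
    rw [← Finset.sum_mul, c2p_idem]
  rw [h]
  positivity

/-- the unnormalised weight -/
private noncomputable def c2h {V : Type} (U : Finset (Fin N)) (J K : (∀ i, A i) → V) : ℝ :=
  ∑ y, ∑ z, c2p U y z * (if J y = K z then 1 else 0)

private theorem c2_ind {V : Type} [Fintype V] (a b : V) :
    ∑ v : V, (if a = v then (1 : ℝ) else 0) * (if b = v then 1 else 0)
      = if a = b then 1 else 0 := by
  simp only [ite_mul, one_mul, zero_mul, Finset.sum_ite_eq, Finset.mem_univ, if_true]
  by_cases h : a = b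
  · simp [h]
  · have h' : ¬ b = a := fun e => h e.symm
    simp [h, h']

private theorem c2h_nonneg {V : Type} [Fintype V] (U : Finset (Fin N)) (K : (∀ i, A i) → V) :
    0 ≤ c2h U K K := by
  have h : c2h U K K = ∑ v : V, ∑ y, ∑ z, c2p U y z *
      ((if K y = v then (1 : ℝ) else 0) * (if K z = v then 1 else 0)) := by
    unfold c2h
    symm
    rw [Finset.sum_comm]
    refine Finset.sum_congr rfl (fun y _ => ?_)
    rw [Finset.sum_comm]
    refine Finset.sum_congr rfl (fun z _ => ?_)
    rw [← Finset.mul_sum, c2_ind]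
  rw [h]
  exact Finset.sum_nonneg (fun v _ => c2p_pos U (fun y => if K y = v then (1 : ℝ) else 0))

private theorem c2h_cs {V : Type} [Fintype V] (U : Finset (Fin N)) (J K : (∀ i, A i) → V) :
    2 * c2h U J K ≤ c2h U J J + c2h U K K := by
  have hs : c2h U J K = c2h U K J := by
    unfold c2h
    rw [Finset.sum_comm]
    refine Finset.sum_congr rfl (fun y _ => Finset.sum_congr rfl (fun z _ => ?_))
    rw [c2p_symm]
    by_cases h : J z = K y
    · simp [h]
    · have h' : ¬ K y = J z := fun e => h e.symm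
      simp [h, h']
  have h : c2h U J J - c2h U J K - c2h U K J + c2h U K K = ∑ v : V, ∑ y, ∑ z, c2p U y z *
      (((if J y = v then (1 : ℝ) else 0) - (if K y = v then (1 : ℝ) else 0)) *
        ((if J z = v then (1 : ℝ) else 0) - (if K z = v then (1 : ℝ) else 0))) := by
    unfold c2h
    symm
    rw [Finset.sum_comm]
    rw [← Finset.sum_sub_distrib, ← Finset.sum_sub_distrib, ← Finset.sum_add_distrib]
    refine Finset.sum_congr rfl (fun y _ => ?_)
    rw [Finset.sum_comm]
    rw [← Finset.sum_sub_distrib, ← Finset.sum_sub_distrib, ← Finset.sum_add_distrib]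
    refine Finset.sum_congr rfl (fun z _ => ?_)
    rw [← Finset.mul_sum]
    rw [← c2_ind (J y) (J z), ← c2_ind (J y) (K z), ← c2_ind (K y) (J z), ← c2_ind (K y) (K z)]
    rw [← mul_sub, ← mul_sub, ← mul_add]
    rw [← Finset.sum_sub_distrib, ← Finset.sum_sub_distrib, ← Finset.sum_add_distrib]
    congr 1
    refine Finset.sum_congr rfl (fun v _ => ?_)
    ring
  have h2 : 0 ≤ c2h U J J - c2h U J K - c2h U K J + c2h U K K := by
    rw [h]
    exact Finset.sum_nonneg (fun v _ => c2p_pos U
      (fun y => (if J y = v then (1 : ℝ) else 0) - (if K y = v then (1 : ℝ) else 0)))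
  linarith

private theorem c2_ker (lam : Fin N → ℝ) (y z : ∀ i, A i) :
    ker lam y z = ∑ U : Finset (Fin N), (∏ i ∈ U, lam i) * c2p U y z := by
  unfold ker
  have h1 : ∀ i : Fin N, (lam i * (if y i = z i then 1 else 0) + (1 - lam i) / Fintype.card (A i))
      = lam i * c2k True (y i) (z i) + c2k False (y i) (z i) := by
    intro i
    simp only [c2k, if_true, if_false]
    ring
  rw [Finset.prod_congr rfl (fun i _ => h1 i), Finset.prod_add]
  rw [Finset.powerset_univ]
  refine Finset.sum_congr rfl (fun U _ => ?_)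
  rw [Finset.prod_mul_distrib, mul_assoc]
  congr 1
  unfold c2p
  rw [← Finset.prod_mul_prod_compl U (fun i => c2k (i ∈ U) (y i) (z i))]
  congr 1
  · refine Finset.prod_congr rfl (fun i hi => ?_)
    simp [c2k, hi]
  · rw [Finset.compl_eq_univ_sdiff]
    refine Finset.prod_congr rfl (fun i hi => ?_)
    have : i ∉ U := by simpa using hi
    simp [c2k, this]

private theorem c2_stab {V : Type} (lam : Fin N → ℝ) (J K : (∀ i, A i) → V) :
    stab lam J K = (∑ U : Finset (Fin N), (∏ i ∈ U, lam i) * c2h U J K)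
      / Fintype.card (∀ i, A i) := by
  unfold stab
  congr 1
  unfold c2h
  symm
  have h1 : ∀ U : Finset (Fin N), (∏ i ∈ U, lam i) *
      ∑ y : (∀ i, A i), ∑ z : (∀ i, A i), c2p U y z * (if J y = K z then (1 : ℝ) else 0)
      = ∑ y : (∀ i, A i), ∑ z : (∀ i, A i),
        ((∏ i ∈ U, lam i) * c2p U y z) * (if J y = K z then (1 : ℝ) else 0) := by
    intro U
    rw [Finset.mul_sum]
    refine Finset.sum_congr rfl (fun y _ => ?_)
    rw [Finset.mul_sum]
    exact Finset.sum_congr rfl (fun z _ => by ring)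
  rw [Finset.sum_congr rfl (fun U _ => h1 U)]
  rw [Finset.sum_comm]
  refine Finset.sum_congr rfl (fun y _ => ?_)
  rw [Finset.sum_comm]
  refine Finset.sum_congr rfl (fun z _ => ?_)
  rw [← Finset.sum_mul, ← c2_ker]

private theorem c2_mixcard (S : Set (Fin N)) (y w : ∀ i, A i) :
    (∑ z : (∀ i, A i), if w = mix S y z then (1 : ℝ) else 0)
      = Fintype.card (∀ i, A i) * ker (fun i => if i ∈ S then 1 else 0) y w := by
  have h1 : ∀ z : (∀ i, A i), (if w = mix S y z then (1 : ℝ) else 0)
      = ∏ i, (if i ∈ S then (if y i = w i then (1 : ℝ) else 0) else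
        (if w i = z i then 1 else 0)) := by
    intro z
    by_cases h : w = mix S y z
    · rw [if_pos h, eq_comm]
      refine Finset.prod_eq_one (fun i _ => ?_)
      have hi := congrFun h i
      unfold mix at hi
      by_cases hS : i ∈ S
      · simp only [hS, if_true] at hi ⊢
        simp [hi]
      · simp only [hS, if_false] at hi ⊢
        simp [hi]
    · rw [if_neg h, eq_comm]
      have : ∃ i, w i ≠ mix S y z i := by
        by_contra hc
        push Not at hc
        exact h (funext hc)
      obtain ⟨i, hi⟩ := this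
      refine Finset.prod_eq_zero (Finset.mem_univ i) ?_
      unfold mix at hi
      by_cases hS : i ∈ S
      · simp only [hS, if_true] at hi ⊢
        rw [if_neg (fun e => hi e.symm)]
      · simp only [hS, if_false] at hi ⊢
        rw [if_neg hi]
  rw [Finset.sum_congr rfl (fun z _ => h1 z)]
  have h2 := Finset.prod_univ_sum (R := ℝ) (fun i : Fin N => (Finset.univ : Finset (A i)))
    (fun i x => (if i ∈ S then (if y i = w i then (1 : ℝ) else 0) else
        (if w i = x then 1 else 0)))
  rw [Fintype.piFinset_univ] at h2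
  rw [← h2, Fintype.card_pi]
  unfold ker
  push_cast
  rw [← Finset.prod_mul_distrib]
  refine Finset.prod_congr rfl (fun i _ => ?_)
  have hc : (Fintype.card (A i) : ℝ) ≠ 0 := by
    have := Fintype.card_pos (α := A i)
    positivity
  by_cases hS : i ∈ S
  · simp [hS]
  · simp [hS, hc]

private theorem c2_col {V : Type} (S : Set (Fin N)) (K : (∀ i, A i) → V) :
    col S K = stab (fun i => if i ∈ S then 1 else 0) K K := by
  have hc : (Fintype.card (∀ i, A i) : ℝ) ≠ 0 := by
    have := Fintype.card_pos (α := ∀ i, A i)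
    positivity
  unfold col stab
  rw [div_eq_div_iff (pow_ne_zero 2 hc) hc, Finset.sum_mul, Finset.sum_mul]
  refine Finset.sum_congr rfl (fun y _ => ?_)
  have h1 : ∀ z : (∀ i, A i), (if K y = K (mix S y z) then (1 : ℝ) else 0)
      = ∑ w : (∀ i, A i), (if w = mix S y z then (1 : ℝ) else 0) *
        (if K y = K w then 1 else 0) := by
    intro z
    rw [Finset.sum_eq_single (mix S y z)]
    · simp
    · intro w _ hw
      rw [if_neg hw, zero_mul]
    · intro h
      exact absurd (Finset.mem_univ _) h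
  rw [Finset.sum_congr rfl (fun z _ => h1 z), Finset.sum_comm]
  have h2 : ∀ w : (∀ i, A i), ∑ z : (∀ i, A i), (if w = mix S y z then (1 : ℝ) else 0) *
        (if K y = K w then 1 else 0) = Fintype.card (∀ i, A i) *
          ker (fun i => if i ∈ S then 1 else 0) y w * (if K y = K w then 1 else 0) := by
    intro w
    rw [← Finset.sum_mul, c2_mixcard]
  rw [Finset.sum_congr rfl (fun w _ => h2 w), Finset.sum_mul, Finset.sum_mul]
  refine Finset.sum_congr rfl (fun w _ => ?_)
  ring

/-- indicator of `U ⊆ S` -/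
private noncomputable def c2q (U : Finset (Fin N)) (S : Set (Fin N)) : ℝ :=
  if ∀ i ∈ U, i ∈ S then 1 else 0

private theorem c2_prod (S : Set (Fin N)) (U : Finset (Fin N)) :
    (∏ i ∈ U, (if i ∈ S then (1 : ℝ) else 0)) = c2q U S := by
  unfold c2q
  by_cases h : ∀ i ∈ U, i ∈ S
  · rw [if_pos h]
    exact Finset.prod_eq_one (fun i hi => by rw [if_pos (h i hi)])
  · rw [if_neg h]
    push Not at h
    obtain ⟨i, hi, hS⟩ := h
    exact Finset.prod_eq_zero hi (by rw [if_neg hS])

private theorem c2_one {V : Type} (K : (∀ i, A i) → V) :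
    (1 : ℝ) = (∑ U : Finset (Fin N), c2h U K K) / Fintype.card (∀ i, A i) := by
  have hc : (Fintype.card (∀ i, A i) : ℝ) ≠ 0 := by
    have := Fintype.card_pos (α := ∀ i, A i)
    positivity
  have h1 : col (Set.univ : Set (Fin N)) K = 1 := by
    unfold col
    have hm : ∀ y z : (∀ i, A i), mix (Set.univ : Set (Fin N)) y z = y := by
      intro y z; funext i; simp [mix]
    simp only [hm, if_true, Finset.sum_const, Finset.card_univ, nsmul_eq_mul]
    field_simp
  rw [← h1, c2_col, c2_stab]
  simp

private theorem c2_colsum {V : Type} (S : Set (Fin N)) (K : (∀ i, A i) → V) :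
    col S K = (∑ U : Finset (Fin N), c2q U S * c2h U K K)
      / Fintype.card (∀ i, A i) := by
  rw [c2_col, c2_stab]
  simp_rw [c2_prod]

theorem col_w_nonneg {V : Type} [Fintype V] (S : Set (Fin N)) (K : (∀ i, A i) → V) :
    0 ≤ 1 - col S K - col Sᶜ K + col ∅ K := by
  have e1 := c2_one K
  have e : 1 - col S K - col Sᶜ K + col ∅ K = (∑ U : Finset (Fin N),
      (c2h U K K - c2q U S * c2h U K K
      - c2q U Sᶜ * c2h U K K
      + c2q U ∅ * c2h U K K))
      / Fintype.card (∀ i, A i) := by
    rw [Finset.sum_add_distrib, Finset.sum_sub_distrib, Finset.sum_sub_distrib, add_div, sub_div,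
      sub_div, ← c2_colsum, ← c2_colsum, ← c2_colsum, ← e1]
  rw [e]
  refine div_nonneg (Finset.sum_nonneg (fun U _ => ?_)) (by positivity)
  have hh := c2h_nonneg U K
  have key : 0 ≤ (1 - c2q U S
      - c2q U Sᶜ
      + c2q U ∅) := by
    unfold c2q
    by_cases h0 : U = ∅
    · subst h0; simp
    · have h0' : ¬ ∀ i ∈ U, i ∈ (∅ : Set (Fin N)) := by
        intro h
        obtain ⟨i, hi⟩ := Finset.nonempty_iff_ne_empty.mpr h0
        exact h i hi
      rw [if_neg h0']
      by_cases h1 : ∀ i ∈ U, i ∈ S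
      · have h2 : ¬ ∀ i ∈ U, i ∈ Sᶜ := by
          intro h
          obtain ⟨i, hi⟩ := Finset.nonempty_iff_ne_empty.mpr h0
          exact h i hi (h1 i hi)
        rw [if_pos h1, if_neg h2]; norm_num
      · rw [if_neg h1]
        split_ifs <;> norm_num
  have := mul_nonneg key hh
  linarith

/-- the coefficient estimate -/
private theorem c2_coef (lam : Fin N → ℝ) (S : Set (Fin N)) (rA rB : ℝ) (h0 : ∀ i, 0 ≤ lam i)
    (hA : ∀ i ∈ S, lam i ≤ rA) (hB : ∀ i ∉ S, lam i ≤ rB)
    (hA0 : 0 ≤ rA) (hA1 : rA ≤ 1) (hB0 : 0 ≤ rB) (hB1 : rB ≤ 1) (U : Finset (Fin N)) :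
    ∏ i ∈ U, lam i ≤
      c2q U ∅
      + rA * (c2q U S
        - c2q U ∅)
      + rB * (c2q U Sᶜ
        - c2q U ∅)
      + rA * rB * (1 - c2q U S
      - c2q U Sᶜ
      + c2q U ∅) := by
  have h1 : ∀ i, lam i ≤ 1 := by
    intro i
    by_cases hS : i ∈ S
    · exact (hA i hS).trans hA1
    · exact (hB i hS).trans hB1
  have hsub : ∀ T : Finset (Fin N), T ⊆ U → ∏ i ∈ U, lam i ≤ ∏ i ∈ T, lam i := by
    intro T hT
    rw [← Finset.prod_sdiff hT]
    have e1 : ∏ i ∈ U \ T, lam i ≤ 1 := Finset.prod_le_one (fun i _ => h0 i) (fun i _ => h1 i)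
    have e2 : 0 ≤ ∏ i ∈ T, lam i := Finset.prod_nonneg (fun i _ => h0 i)
    nlinarith
  unfold c2q
  by_cases hU : U = ∅
  · subst hU; simp
  · have h0' : ¬ ∀ i ∈ U, i ∈ (∅ : Set (Fin N)) := by
      intro h
      obtain ⟨i, hi⟩ := Finset.nonempty_iff_ne_empty.mpr hU
      exact h i hi
    rw [if_neg h0']
    by_cases c1 : ∀ i ∈ U, i ∈ S
    · have c2 : ¬ ∀ i ∈ U, i ∈ Sᶜ := by
        intro h
        obtain ⟨i, hi⟩ := Finset.nonempty_iff_ne_empty.mpr hU
        exact h i hi (c1 i hi)
      rw [if_pos c1, if_neg c2]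
      obtain ⟨i, hi⟩ := Finset.nonempty_iff_ne_empty.mpr hU
      have e := hsub {i} (by simpa using hi)
      rw [Finset.prod_singleton] at e
      have := hA i (c1 i hi)
      linarith
    · rw [if_neg c1]
      push Not at c1
      obtain ⟨i, hi, hiS⟩ := c1
      by_cases c2 : ∀ i ∈ U, i ∈ Sᶜ
      · rw [if_pos c2]
        have e := hsub {i} (by simpa using hi)
        rw [Finset.prod_singleton] at e
        have := hB i hiS
        linarith
      · rw [if_neg c2]
        push Not at c2
        obtain ⟨j, hj, hjS⟩ := c2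
        have hjS' : j ∈ S := by simpa using hjS
        have hne : i ≠ j := fun e => hiS (e ▸ hjS')
        have e := hsub {i, j} (by
          intro x hx
          simp only [Finset.mem_insert, Finset.mem_singleton] at hx
          rcases hx with rfl | rfl
          · exact hi
          · exact hj)
        rw [Finset.prod_pair hne] at e
        have a1 := hB i hiS
        have a2 := hA j hjS'
        have a3 := mul_le_mul a1 a2 (h0 j) hB0
        linarith

theorem stab_le {V : Type} [Fintype V] (lam : Fin N → ℝ) (J K : (∀ i, A i) → V)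
    (S : Set (Fin N)) (rA rB : ℝ) (h0 : ∀ i, 0 ≤ lam i)
    (hA : ∀ i ∈ S, lam i ≤ rA) (hB : ∀ i ∉ S, lam i ≤ rB)
    (hA0 : 0 ≤ rA) (hA1 : rA ≤ 1) (hB0 : 0 ≤ rB) (hB1 : rB ≤ 1) :
    stab lam J K ≤
      (1 / 2) * (col ∅ J + rA * (col S J - col ∅ J) + rB * (col Sᶜ J - col ∅ J) +
        rA * rB * (1 - col S J - col Sᶜ J + col ∅ J)) +
      (1 / 2) * (col ∅ K + rA * (col S K - col ∅ K) + rB * (col Sᶜ K - col ∅ K) +
        rA * rB * (1 - col S K - col Sᶜ K + col ∅ K)) := by
  have hcp : (0 : ℝ) < Fintype.card (∀ i, A i) := by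
    have := Fintype.card_pos (α := ∀ i, A i)
    positivity
  have hF : ∀ F : (∀ i, A i) → V,
      (∑ U : Finset (Fin N), (∏ i ∈ U, lam i) * c2h U F F) / Fintype.card (∀ i, A i) ≤
      (col ∅ F + rA * (col S F - col ∅ F) + rB * (col Sᶜ F - col ∅ F) +
        rA * rB * (1 - col S F - col Sᶜ F + col ∅ F)) := by
    intro F
    have e : (col ∅ F + rA * (col S F - col ∅ F) + rB * (col Sᶜ F - col ∅ F) +
        rA * rB * (1 - col S F - col Sᶜ F + col ∅ F)) =
        (∑ U : Finset (Fin N), (c2q U ∅
      + rA * (c2q U S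
        - c2q U ∅)
      + rB * (c2q U Sᶜ
        - c2q U ∅)
      + rA * rB * (1 - c2q U S
      - c2q U Sᶜ
      + c2q U ∅)) * c2h U F F)
        / Fintype.card (∀ i, A i) := by
      have e1 := c2_one F
      have e2 := c2_colsum S F
      have e3 := c2_colsum Sᶜ F
      have e4 := c2_colsum ∅ F
      have e5 : (∑ U : Finset (Fin N), (c2q U ∅
        + rA * (c2q U S
          - c2q U ∅)
        + rB * (c2q U Sᶜ
          - c2q U ∅)
        + rA * rB * (1 - c2q U S
        - c2q U Sᶜ
        + c2q U ∅)) * c2h U F F)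
        = (∑ U : Finset (Fin N), c2q U ∅ * c2h U F F)
        + rA * ((∑ U : Finset (Fin N), c2q U S * c2h U F F)
          - (∑ U : Finset (Fin N), c2q U ∅ * c2h U F F))
        + rB * ((∑ U : Finset (Fin N), c2q U Sᶜ * c2h U F F)
          - (∑ U : Finset (Fin N), c2q U ∅ * c2h U F F))
        + rA * rB * ((∑ U : Finset (Fin N), c2h U F F)
          - (∑ U : Finset (Fin N), c2q U S * c2h U F F)
          - (∑ U : Finset (Fin N), c2q U Sᶜ * c2h U F F)
          + (∑ U : Finset (Fin N),
            c2q U ∅ * c2h U F F)) := by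
        simp only [← Finset.sum_sub_distrib, Finset.mul_sum, ← Finset.sum_add_distrib]
        refine Finset.sum_congr rfl (fun U _ => ?_)
        ring
      rw [e5, add_div, add_div, add_div, mul_div_assoc, mul_div_assoc, mul_div_assoc, add_div,
        sub_div, sub_div, sub_div, sub_div, ← e2, ← e3, ← e4, ← e1]
    rw [e]
    refine div_le_div_of_nonneg_right (Finset.sum_le_sum (fun U _ => ?_)) hcp.le
    exact mul_le_mul_of_nonneg_right (c2_coef lam S rA rB h0 hA hB hA0 hA1 hB0 hB1 U)
      (c2h_nonneg U F)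
  have hJK : stab lam J K ≤
      (1 / 2) * ((∑ U : Finset (Fin N), (∏ i ∈ U, lam i) * c2h U J J)
        / Fintype.card (∀ i, A i)) +
      (1 / 2) * ((∑ U : Finset (Fin N), (∏ i ∈ U, lam i) * c2h U K K)
        / Fintype.card (∀ i, A i)) := by
    rw [c2_stab, ← mul_div_assoc, ← mul_div_assoc, ← add_div, Finset.mul_sum, Finset.mul_sum,
      ← Finset.sum_add_distrib]
    refine div_le_div_of_nonneg_right (Finset.sum_le_sum (fun U _ => ?_)) hcp.le
    have e1 := c2h_cs U J K
    have e2 : 0 ≤ ∏ i ∈ U, lam i := Finset.prod_nonneg (fun i _ => h0 i)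
    nlinarith
  have := hF J
  have := hF K
  linarith

end MP_c82b80_an
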