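import Mathlib
import Pool.Agent.Lib.MP_c82b80_an.Comb0
import Pool.Agent.Lib.MP_c82b80_an.Comb1
import Pool.Agent.Lib.MP_c82b80_an.Comb2

/-!
# JOB COMB-3 : the dictator lemmas

`col_mul_le` : transfer of `four_cycle` to `Y = ∀ i, A i ≃ (∀ i ∈ S, A i) × (∀ i ∉ S, A i)`
(`Equiv.piEquivPiSubtypeProd`).

`dictator`.  Let `w_F(S) = 1 - col S F - col Sᶜ F + col ∅ F`.  By `stab_le` with `rA = rB = 1/2`,
`stab ≤ (1/2) ∑_F (1/2 + (1/2) c₀ - (1/4) w_F(S))`, so `w_J(S) + w_K(S) ≤ 8.84e-4`, and by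
`col_mul_le` `p (1 - p) ≤ 0.0142` for `p = col S F`, so `p ≤ 0.015` or `p ≥ 0.985`
(both for `F = J, K`; every `S`).
Take `S_m = {i | i < m}`, `m = 0, ..., N`: `col S_0 F = c₀ ≤ 1e-6`, `col S_N F = 1`; let `m` be the first
index with `col S_{m+1} F ≥ 0.985`, `i = m`: `col {j ≤ i} F ≥ 0.985` and `col {j < i} F ≤ 0.015`, so
`col {j ≥ i} F = 1 + c₀ - w - col {j < i} F ≥ 0.98`.
Gluing: `F` is determined up to probability `0.015` by the coordinates `≤ i` (fix the other
coordinates at a value for which the agreement probability is at least the average), and up to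
probability `0.02` by the coordinates `≥ i`: `F y = m₁ (y_{<i}, y_i) = m₂ (y_i, y_{>i})` with
probability `≥ 0.965`; fix `y_{>i}` at a best value: `m₁ (y_{<i}, y_i) = m₂ (y_i, c) =: m (y_i)` with
probability `≥ 0.965`; so `P(F y ≠ m (y_i)) ≤ 0.015 + 0.035 = 0.05`.
This gives `i_J, m_J` and `i_K, m_K`.  If `i_J ≠ i_K` then, as the noise kernel has uniform marginals
and `y_{i_J}`, `y'_{i_K}` are independent, `stab ≤ 0.1 + P(m_J (y_{i_J}) = m_K (y'_{i_K}))
≤ 0.1 + max_v P(m_J = v) ≤ 0.1 + 0.05 + max_v P(J = v) ≤ 0.15 + 0.001`, contradiction.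

`dictator_bound`.  `stab_le` with `S = {i}`, `rA = lam i`, `rB = 1/2`:
`stab ≤ (1/2) ∑_F (1/2 + (1/2) c₀ - (1/2 - lam i) X_F)`, `X_F = col {i} F - c₀`, and
`col {i} F ≥ 1 - 2 P(F ≠ m_F (y_i)) ≥ 0.9`.
-/

namespace MP_c82b80_an

open scoped Classical

section probAPI

variable {Y Z : Type} [Fintype Y] [Fintype Z]

private theorem prob_nonneg' (P : Y → Prop) : 0 ≤ prob P := by
  unfold prob
  refine div_nonneg (Finset.sum_nonneg fun y _ => ?_) (Nat.cast_nonneg _)
  split_ifs <;> norm_num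

private theorem prob_mono' {P Q : Y → Prop} (h : ∀ y, P y → Q y) : prob P ≤ prob Q := by
  unfold prob
  refine div_le_div_of_nonneg_right (Finset.sum_le_sum fun y _ => ?_) (Nat.cast_nonneg _)
  by_cases hp : P y
  · simp [hp, h y hp]
  · rw [if_neg hp]
    split_ifs <;> norm_num

private theorem prob_or_le' (P Q : Y → Prop) : prob (fun y => P y ∨ Q y) ≤ prob P + prob Q := by
  unfold prob
  rw [← add_div, ← Finset.sum_add_distrib]
  refine div_le_div_of_nonneg_right (Finset.sum_le_sum fun y _ => ?_) (Nat.cast_nonneg _)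
  by_cases hp : P y <;> by_cases hq : Q y <;> simp [hp, hq]

private theorem prob_not' [Nonempty Y] (P : Y → Prop) : prob (fun y => ¬ P y) = 1 - prob P := by
  have hc : (Fintype.card Y : ℝ) ≠ 0 := by
    exact_mod_cast Fintype.card_ne_zero
  unfold prob
  rw [eq_sub_iff_add_eq, ← add_div, ← Finset.sum_add_distrib, div_eq_one_iff_eq hc]
  have : ∀ y ∈ (Finset.univ : Finset Y),
      ((@ite ℝ (¬ P y) (Classical.propDecidable _) 1 0) + (if P y then (1 : ℝ) else 0)) = 1 := by
    intro y _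
    by_cases hp : P y <;> simp [hp]
  refine (Finset.sum_congr rfl this).trans ?_
  simp

private theorem prob_true' [Nonempty Y] (P : Y → Prop) (h : ∀ y, P y) : prob P = 1 := by
  have hc : (Fintype.card Y : ℝ) ≠ 0 := by
    exact_mod_cast Fintype.card_ne_zero
  unfold prob
  rw [div_eq_one_iff_eq hc]
  simp [h]

private theorem prob_equiv' (e : Y ≃ Z) (P : Z → Prop) : prob (fun y => P (e y)) = prob P := by
  unfold prob
  rw [Fintype.card_congr e]
  congr 1
  exact e.sum_comp (fun z => if P z then (1 : ℝ) else 0)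

private theorem prob_fst' [Nonempty Z] (P : Y → Prop) :
    prob (fun p : Y × Z => P p.1) = prob P := by
  have hc : (Fintype.card Z : ℝ) ≠ 0 := by
    exact_mod_cast Fintype.card_ne_zero
  unfold prob
  rw [Fintype.sum_prod_type, Fintype.card_prod]
  have h1 : ∀ y ∈ (Finset.univ : Finset Y), (∑ _z : Z, if P y then (1 : ℝ) else 0) =
      Fintype.card Z * (if P y then (1 : ℝ) else 0) := by
    intro y _
    simp only [Finset.sum_const, Finset.card_univ, nsmul_eq_mul]
  have h2 := (Finset.sum_congr (rfl : (Finset.univ : Finset Y) = Finset.univ) h1)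
  rw [← Finset.mul_sum] at h2
  push_cast
  rw [mul_comm (Fintype.card Y : ℝ), ← mul_div_mul_left _ (Fintype.card Y : ℝ) hc, ← h2]

private theorem prob_exists' [Nonempty Z] (P : Y → Z → Prop) {c : ℝ}
    (h : prob (fun p : Y × Z => P p.1 p.2) ≤ c) : ∃ z, prob (fun y => P y z) ≤ c := by
  by_contra hcon
  push Not at hcon
  have hc : 0 < (Fintype.card Z : ℝ) := by
    exact_mod_cast Fintype.card_pos
  have h1 : ∑ z : Z, c < ∑ z : Z, prob (fun y => P y z) :=
    Finset.sum_lt_sum_of_nonempty Finset.univ_nonempty (fun z _ => hcon z)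
  have h2 : prob (fun p : Y × Z => P p.1 p.2) = (∑ z : Z, prob (fun y => P y z)) / Fintype.card Z := by
    unfold prob
    rw [Fintype.sum_prod_type_right, Fintype.card_prod, ← Finset.sum_div, div_div]
    push_cast
    rfl
  rw [h2, div_le_iff₀ hc] at h
  simp only [Finset.sum_const, Finset.card_univ, nsmul_eq_mul] at h1
  linarith

end probAPI

variable {N : ℕ} {A : Fin N → Type} [∀ i, Fintype (A i)] [∀ i, Nonempty (A i)]

omit [∀ i, Nonempty (A i)] in
private theorem col_eq_prob {V : Type} (S : Set (Fin N)) (K : (∀ i, A i) → V) :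
    col S K = prob (fun p : (∀ i, A i) × (∀ i, A i) => K p.1 = K (mix S p.1 p.2)) := by
  unfold col prob
  rw [Fintype.sum_prod_type, Fintype.card_prod]
  push_cast
  rw [sq]

/-- the swap of the coordinates outside of `S` -/
private noncomputable def swapS (S : Set (Fin N)) :
    ((∀ i, A i) × (∀ i, A i)) ≃ ((∀ i, A i) × (∀ i, A i)) where
  toFun p := (mix S p.1 p.2, mix S p.2 p.1)
  invFun p := (mix S p.1 p.2, mix S p.2 p.1)
  left_inv p := by
    refine Prod.ext ?_ ?_ <;> funext i <;> by_cases h : i ∈ S <;> simp [mix, h]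
  right_inv p := by
    refine Prod.ext ?_ ?_ <;> funext i <;> by_cases h : i ∈ S <;> simp [mix, h]

private theorem prob_mix (S : Set (Fin N)) (Q : (∀ i, A i) → Prop) :
    prob (fun p : (∀ i, A i) × (∀ i, A i) => Q (mix S p.1 p.2)) = prob Q := by
  have h := prob_equiv' (swapS (A := A) S) (fun p : (∀ i, A i) × (∀ i, A i) => Q p.1)
  rw [prob_fst'] at h
  exact h

theorem col_mul_le {V : Type} (K : (∀ i, A i) → V) (S : Set (Fin N)) :
    col S K * (1 - col S K) ≤ 3 * col ∅ K + 16 * (1 - col S K - col Sᶜ K + col ∅ K) := by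
  let YA := ∀ i : {x : Fin N // x ∈ S}, A i
  let YB := ∀ i : {x : Fin N // x ∉ S}, A i
  let e : (∀ i, A i) ≃ YA × YB := Equiv.piEquivPiSubtypeProd (fun x => x ∈ S) A
  let K' : YA → YB → V := fun a b => K (e.symm (a, b))
  have hcard : Fintype.card (∀ i, A i) = Fintype.card YA * Fintype.card YB := by
    rw [Fintype.card_congr e, Fintype.card_prod]
  have hA0 : (Fintype.card YA : ℝ) ≠ 0 := by exact_mod_cast Fintype.card_ne_zero
  have hB0 : (Fintype.card YB : ℝ) ≠ 0 := by exact_mod_cast Fintype.card_ne_zero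
  have hmix : ∀ (T : Set (Fin N)) (a a' : YA) (b b' : YB),
      e.symm (a, b) = fun i => if h : i ∈ S then a ⟨i, h⟩ else b ⟨i, h⟩ := by
    intro T a a' b b'
    rfl
  have hm1 : ∀ (a a' : YA) (b b' : YB),
      mix S (e.symm (a, b)) (e.symm (a', b')) = e.symm (a, b') := by
    intro a a' b b'
    funext i
    by_cases h : i ∈ S <;> simp [mix, h, e, Equiv.piEquivPiSubtypeProd]
  have hm2 : ∀ (a a' : YA) (b b' : YB),
      mix Sᶜ (e.symm (a, b)) (e.symm (a', b')) = e.symm (a', b) := by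
    intro a a' b b'
    funext i
    by_cases h : i ∈ S <;> simp [mix, h, e, Equiv.piEquivPiSubtypeProd]
  have hm3 : ∀ (a a' : YA) (b b' : YB),
      mix ∅ (e.symm (a, b)) (e.symm (a', b')) = e.symm (a', b') := by
    intro a a' b b'
    funext i
    simp [mix]
  have key : ∀ T : Set (Fin N), col T K = (∑ a : YA, ∑ b : YB, ∑ a' : YA, ∑ b' : YB,
      if K (e.symm (a, b)) = K (mix T (e.symm (a, b)) (e.symm (a', b'))) then (1 : ℝ) else 0) /
        ((Fintype.card YA : ℝ) ^ 2 * (Fintype.card YB : ℝ) ^ 2) := by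
    intro T
    unfold col
    rw [hcard]
    push_cast
    rw [mul_pow]
    congr 1
    rw [← e.symm.sum_comp, Fintype.sum_prod_type]
    refine Finset.sum_congr rfl fun a _ => Finset.sum_congr rfl fun b _ => ?_
    rw [← e.symm.sum_comp, Fintype.sum_prod_type]
  have h1 : col S K = (∑ a : YA, ∑ b : YB, ∑ b' : YB, if K' a b = K' a b' then (1 : ℝ) else 0) /
      (Fintype.card YA * Fintype.card YB ^ 2) := by
    rw [key S]
    simp only [hm1, Finset.sum_const, Finset.card_univ, nsmul_eq_mul, ← Finset.mul_sum]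
    rw [pow_two (Fintype.card YA : ℝ), mul_assoc, mul_div_mul_left _ _ hA0]
  have h2 : col Sᶜ K = (∑ a : YA, ∑ a' : YA, ∑ b : YB, if K' a b = K' a' b then (1 : ℝ) else 0) /
      (Fintype.card YA ^ 2 * Fintype.card YB) := by
    rw [key Sᶜ]
    simp only [hm2, Finset.sum_const, Finset.card_univ, nsmul_eq_mul, ← Finset.mul_sum]
    rw [pow_two (Fintype.card YB : ℝ), ← mul_assoc,
      mul_comm ((Fintype.card YA : ℝ) ^ 2 * (Fintype.card YB : ℝ)), mul_div_mul_left _ _ hB0]
    congr 1
    refine Finset.sum_congr rfl fun a _ => ?_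
    rw [Finset.sum_comm]
  have h3 : col ∅ K = (∑ a : YA, ∑ a' : YA, ∑ b : YB, ∑ b' : YB,
      if K' a b = K' a' b' then (1 : ℝ) else 0) / (Fintype.card YA ^ 2 * Fintype.card YB ^ 2) := by
    rw [key ∅]
    simp only [hm3]
    congr 1
    refine Finset.sum_congr rfl fun a _ => ?_
    rw [Finset.sum_comm]
  exact four_cycle K' (col S K) (col Sᶜ K) (col ∅ K) h1 h2 h3

/-- the dichotomy and the bound of `w` for one function -/
private theorem w_le {V : Type} [Fintype V] (lam : Fin N → ℝ) (h0 : ∀ i, 0 ≤ lam i)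
    (h1 : ∀ i, lam i ≤ 1 / 2) (J K : (∀ i, A i) → V)
    (hs : 1 / 2 - 11 / 100000 ≤ stab lam J K)
    (hJ : col ∅ J ≤ 1 / 1000000) (hK : col ∅ K ≤ 1 / 1000000) (S : Set (Fin N)) :
    1 - col S J - col Sᶜ J + col ∅ J ≤ 884 / 1000000 ∧
      1 - col S K - col Sᶜ K + col ∅ K ≤ 884 / 1000000 := by
  have h := stab_le lam J K S (1 / 2) (1 / 2) h0 (fun i _ => h1 i) (fun i _ => h1 i)
    (by norm_num) (by norm_num) (by norm_num) (by norm_num)
  have hJ0 := col_w_nonneg S J
  have hK0 := col_w_nonneg S K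
  constructor <;> linarith

omit [∀ i, Nonempty (A i)] in
private theorem col_nonneg {V : Type} (S : Set (Fin N)) (K : (∀ i, A i) → V) : 0 ≤ col S K := by
  rw [col_eq_prob]
  exact prob_nonneg' _

private theorem dichotomy {V : Type} (K : (∀ i, A i) → V) (hK : col ∅ K ≤ 1 / 1000000)
    (hw : ∀ S, 1 - col S K - col Sᶜ K + col ∅ K ≤ 884 / 1000000) (S : Set (Fin N)) :
    col S K ≤ 15 / 1000 ∨ 985 / 1000 ≤ col S K := by
  have h := col_mul_le K S
  have h' := hw S
  by_contra hcon
  push Not at hcon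
  obtain ⟨h1, h2⟩ := hcon
  nlinarith [mul_pos (sub_pos.mpr h1) (sub_pos.mpr h2)]

/-- the critical coordinate -/
private theorem jump {V : Type} (K : (∀ i, A i) → V) (hK : col ∅ K ≤ 1 / 1000000)
    (hw : ∀ S, 1 - col S K - col Sᶜ K + col ∅ K ≤ 884 / 1000000) :
    ∃ i : Fin N, 985 / 1000 ≤ col {j | j ≤ i} K ∧ 98 / 100 ≤ col {j | i ≤ j} K := by
  have hN : col {j : Fin N | (j : ℕ) < N} K = 1 := by
    have : {j : Fin N | (j : ℕ) < N} = Set.univ := by
      ext j
      simp
    rw [this, col_eq_prob]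
    refine prob_true' _ fun p => ?_
    congr 1
    funext j
    simp [mix]
  have hex : ∃ m : ℕ, m ≤ N ∧ 985 / 1000 ≤ col {j : Fin N | (j : ℕ) < m} K :=
    ⟨N, le_rfl, by rw [hN]; norm_num⟩
  have h1 := Nat.find_spec hex
  have h2 := fun k => Nat.find_min (H := hex) (m := k)
  set m := Nat.find hex with hm
  have hm0 : m ≠ 0 := by
    intro h0
    have h3 := h1.2
    rw [h0] at h3
    have : {j : Fin N | (j : ℕ) < 0} = ∅ := by
      ext j
      simp
    rw [this] at h3
    linarith
  obtain ⟨k, hk⟩ := Nat.exists_eq_succ_of_ne_zero hm0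
  have hkN : k < N := by omega
  refine ⟨⟨k, hkN⟩, ?_, ?_⟩
  · have h3 := h1.2
    have : {j : Fin N | (j : ℕ) < m} = {j | j ≤ ⟨k, hkN⟩} := by
      ext j
      simp only [Set.mem_ofPred_eq, Fin.le_def]
      omega
    rw [this] at h3
    exact h3
  · have h3 := h2 k (by omega)
    have h4 : ¬ (985 / 1000 ≤ col {j : Fin N | (j : ℕ) < k} K) := fun h => h3 ⟨by omega, h⟩
    have h5 := (dichotomy K hK hw {j : Fin N | (j : ℕ) < k}).resolve_right h4
    have h6 := hw {j : Fin N | (j : ℕ) < k}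
    have h7 : {j : Fin N | (j : ℕ) < k}ᶜ = {j | ⟨k, hkN⟩ ≤ j} := by
      ext j
      simp only [Set.mem_compl_iff, Set.mem_ofPred_eq, Fin.le_def, not_lt]
    rw [h7] at h6
    have h8 := col_nonneg ∅ K
    linarith

/-- agreement with a function of the coordinates in `S` -/
private theorem best {V : Type} (K L : (∀ i, A i) → V) (S : Set (Fin N)) {c : ℝ}
    (h : prob (fun p : (∀ i, A i) × (∀ i, A i) => K p.1 ≠ L (mix S p.1 p.2)) ≤ c) :
    ∃ z : ∀ i, A i, prob (fun y => K y ≠ L (mix S y z)) ≤ c :=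
  prob_exists' (fun y z => K y ≠ L (mix S y z)) h

private theorem glue {V : Type} (K : (∀ i, A i) → V) (i : Fin N)
    (h1 : 985 / 1000 ≤ col {j | j ≤ i} K) (h2 : 98 / 100 ≤ col {j | i ≤ j} K) :
    ∃ m : A i → V, prob (fun y : ∀ i, A i => K y ≠ m (y i)) ≤ 1 / 20 := by
  rw [col_eq_prob] at h1 h2
  have g1 : prob (fun p : (∀ i, A i) × (∀ i, A i) => K p.1 ≠ K (mix {j | j ≤ i} p.1 p.2)) ≤
      15 / 1000 := by
    have := prob_not' (fun p : (∀ i, A i) × (∀ i, A i) => K p.1 = K (mix {j | j ≤ i} p.1 p.2))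
    simp only [ne_eq]
    linarith
  have g2 : prob (fun p : (∀ i, A i) × (∀ i, A i) => K p.1 ≠ K (mix {j | i ≤ j} p.1 p.2)) ≤
      2 / 100 := by
    have := prob_not' (fun p : (∀ i, A i) × (∀ i, A i) => K p.1 = K (mix {j | i ≤ j} p.1 p.2))
    simp only [ne_eq]
    linarith
  obtain ⟨z0, hz0⟩ := best K K _ g1
  obtain ⟨z1, hz1⟩ := best K K _ g2
  have g3 : prob (fun y => K (mix {j | j ≤ i} y z0) ≠ K (mix {j | i ≤ j} y z1)) ≤ 35 / 1000 := by
    refine (prob_mono' (Q := fun y => K y ≠ K (mix {j | j ≤ i} y z0) ∨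
      K y ≠ K (mix {j | i ≤ j} y z1)) ?_).trans ((prob_or_le' _ _).trans (by linarith))
    intro y hy
    by_contra hcon
    push Not at hcon
    exact hy (hcon.1.symm.trans hcon.2)
  have g4 : prob (fun p : (∀ i, A i) × (∀ i, A i) => K (mix {j | j ≤ i} p.1 z0) ≠
      K (mix {j | i ≤ j} (mix {j | j ≤ i} p.1 p.2) z1)) ≤ 35 / 1000 := by
    refine le_trans (le_of_eq ?_) g3
    rw [← prob_mix {j | j ≤ i}
      (fun y => K (mix {j | j ≤ i} y z0) ≠ K (mix {j | i ≤ j} y z1))]
    congr 1
    funext p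
    have : mix {j | j ≤ i} (mix {j | j ≤ i} p.1 p.2) z0 = mix {j | j ≤ i} p.1 z0 := by
      funext j
      by_cases h : j ≤ i <;> simp [mix, h]
    rw [this]
  obtain ⟨z2, hz2⟩ := prob_exists' (fun y z => K (mix {j | j ≤ i} y z0) ≠
      K (mix {j | i ≤ j} (mix {j | j ≤ i} y z) z1)) g4
  refine ⟨fun a => K (mix {j | i ≤ j} (Function.update z2 i a) z1), ?_⟩
  refine (prob_mono' (Q := fun y => K y ≠ K (mix {j | j ≤ i} y z0) ∨
      K (mix {j | j ≤ i} y z0) ≠ K (mix {j | i ≤ j} (mix {j | j ≤ i} y z2) z1)) ?_).trans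
      ((prob_or_le' _ _).trans (by linarith))
  intro y hy
  by_contra hcon
  push Not at hcon
  refine hy ((hcon.1.trans hcon.2).trans ?_)
  congr 1
  funext j
  rcases lt_trichotomy j i with h | h | h
  · have h' : ¬ i ≤ j := not_le.mpr h
    simp [mix, h']
  · subst h
    simp [mix]
  · have h' : ¬ j ≤ i := not_le.mpr h
    have h'' : j ≠ i := ne_of_gt h
    simp [mix, h', h.le, h'']

/-! ### the noise kernel -/

omit [∀ i, Nonempty (A i)] in
private theorem ker_nonneg (lam : Fin N → ℝ) (h0 : ∀ i, 0 ≤ lam i) (h1 : ∀ i, lam i ≤ 1 / 2)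
    (y z : ∀ i, A i) : 0 ≤ ker lam y z := by
  unfold ker
  refine Finset.prod_nonneg fun i _ => add_nonneg (mul_nonneg (h0 i) ?_)
    (div_nonneg (by have := h1 i; linarith) (Nat.cast_nonneg _))
  split_ifs <;> norm_num

/-- the one-coordinate kernel -/
private noncomputable def ker1 (l : ℝ) {B : Type} [Fintype B] (a b : B) : ℝ :=
  l * (if a = b then 1 else 0) + (1 - l) / Fintype.card B

private theorem ker1_sum_right (l : ℝ) {B : Type} [Fintype B] [Nonempty B] (a : B) :
    ∑ b, ker1 l a b = 1 := by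
  have hc : (Fintype.card B : ℝ) ≠ 0 := by exact_mod_cast Fintype.card_ne_zero
  unfold ker1
  rw [Finset.sum_add_distrib, ← Finset.mul_sum]
  simp only [Finset.sum_ite_eq, Finset.mem_univ, if_true, Finset.sum_const, Finset.card_univ,
    nsmul_eq_mul]
  field_simp
  ring

private theorem ker1_sum_left (l : ℝ) {B : Type} [Fintype B] [Nonempty B] (b : B) :
    ∑ a, ker1 l a b = 1 := by
  rw [← ker1_sum_right l b]
  refine Finset.sum_congr rfl fun a _ => ?_
  unfold ker1
  by_cases h : a = b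
  · subst h
    rfl
  · rw [if_neg h, if_neg (Ne.symm h)]

omit [∀ i, Nonempty (A i)] in
private theorem sum_sum_prod (G : ∀ k, A k → A k → ℝ) :
    ∑ y : ∀ i, A i, ∑ z : ∀ i, A i, ∏ k, G k (y k) (z k) = ∏ k, ∑ a, ∑ b, G k a b := by
  have h1 : ∀ y : ∀ i, A i, ∑ z : ∀ i, A i, ∏ k, G k (y k) (z k) = ∏ k, ∑ b, G k (y k) b := by
    intro y
    rw [Finset.prod_univ_sum, Fintype.piFinset_univ]
  simp only [h1]
  rw [Finset.prod_univ_sum (fun _ => Finset.univ) (fun k a => ∑ b, G k a b),
    Fintype.piFinset_univ]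

/-- the law of `(y, y')` on a function of `y` times a function of `y'`, products -/
private theorem ker_prod (lam : Fin N → ℝ) (F G : ∀ k, A k → ℝ)
    (h : ∀ k, (∀ a, F k a = 1) ∨ (∀ a, G k a = 1)) :
    (∑ y : ∀ i, A i, ∑ z : ∀ i, A i, ker lam y z * ((∏ k, F k (y k)) * ∏ k, G k (z k))) =
      Fintype.card (∀ i, A i) * ((∏ k, (∑ a, F k a) / Fintype.card (A k)) *
        ∏ k, (∑ a, G k a) / Fintype.card (A k)) := by
  have h1 : ∀ y z : ∀ i, A i, ker lam y z * ((∏ k, F k (y k)) * ∏ k, G k (z k)) =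
      ∏ k, (ker1 (lam k) (y k) (z k) * (F k (y k) * G k (z k))) := by
    intro y z
    rw [Finset.prod_mul_distrib, Finset.prod_mul_distrib]
    rfl
  simp only [h1]
  rw [sum_sum_prod (fun k a b => ker1 (lam k) a b * (F k a * G k b)), ← Finset.prod_mul_distrib]
  rw [Fintype.card_pi]
  push_cast
  rw [← Finset.prod_mul_distrib]
  refine Finset.prod_congr rfl fun k _ => ?_
  have hc : (Fintype.card (A k) : ℝ) ≠ 0 := by exact_mod_cast Fintype.card_ne_zero
  rcases h k with h | h
  · simp only [h, one_mul, Finset.sum_const, Finset.card_univ, nsmul_eq_mul, mul_one]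
    rw [Finset.sum_comm]
    simp only [← Finset.sum_mul, ker1_sum_left, one_mul]
    field_simp
  · simp only [h, mul_one, Finset.sum_const, Finset.card_univ, nsmul_eq_mul]
    simp only [← Finset.sum_mul, ker1_sum_right, one_mul]
    field_simp

omit [∀ i, Fintype (A i)] [∀ i, Nonempty (A i)] in
private theorem prod_update (i : Fin N) (f : A i → ℝ) (y : ∀ i, A i) :
    ∏ k, (Function.update (fun k (_ : A k) => (1 : ℝ)) i f) k (y k) = f (y i) := by
  rw [Finset.prod_eq_single i]
  · simp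
  · intro k _ hk
    simp [Function.update_of_ne hk]
  · intro h
    exact absurd (Finset.mem_univ i) h

private theorem prod_update_avg (i : Fin N) (f : A i → ℝ) :
    ∏ k, (∑ a, (Function.update (fun k (_ : A k) => (1 : ℝ)) i f) k a) / (Fintype.card (A k) : ℝ) =
      (∑ a, f a) / Fintype.card (A i) := by
  rw [Finset.prod_eq_single i]
  · simp
  · intro k _ hk
    have hc : (Fintype.card (A k) : ℝ) ≠ 0 := by exact_mod_cast Fintype.card_ne_zero
    simp [Function.update_of_ne hk, hc]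
  · intro h
    exact absurd (Finset.mem_univ i) h

private theorem ker_two (lam : Fin N → ℝ) (i j : Fin N) (hij : i ≠ j) (f : A i → ℝ) (g : A j → ℝ) :
    (∑ y : ∀ i, A i, ∑ z : ∀ i, A i, ker lam y z * (f (y i) * g (z j))) =
      Fintype.card (∀ i, A i) * ((∑ a, f a) / Fintype.card (A i) *
        ((∑ a, g a) / Fintype.card (A j))) := by
  have h := ker_prod lam (Function.update (fun k (_ : A k) => (1 : ℝ)) i f)
    (Function.update (fun k (_ : A k) => (1 : ℝ)) j g) (by
      intro k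
      by_cases hk : k = i
      · right
        intro a
        have : k ≠ j := fun h => hij (hk.symm.trans h)
        simp [Function.update_of_ne this]
      · left
        intro a
        simp [Function.update_of_ne hk])
  simp only [prod_update] at h
  rw [prod_update_avg, prod_update_avg] at h
  exact h

private theorem ker_sum_right (lam : Fin N → ℝ) (y : ∀ i, A i) :
    ∑ z, ker lam y z = 1 := by
  have h1 : ∀ z : ∀ i, A i, ker lam y z = ∏ k, ker1 (lam k) (y k) (z k) := fun z => rfl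
  simp only [h1]
  have := (Finset.prod_univ_sum (fun k => (Finset.univ : Finset (A k)))
    (fun k b => ker1 (lam k) (y k) b)).symm
  rw [Fintype.piFinset_univ] at this
  rw [this]
  simp [ker1_sum_right]

private theorem ker_sum_left (lam : Fin N → ℝ) (z : ∀ i, A i) :
    ∑ y, ker lam y z = 1 := by
  have h1 : ∀ y : ∀ i, A i, ker lam y z = ∏ k, ker1 (lam k) (y k) (z k) := fun y => rfl
  simp only [h1]
  have := (Finset.prod_univ_sum (fun k => (Finset.univ : Finset (A k)))
    (fun k a => ker1 (lam k) a (z k))).symm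
  rw [Fintype.piFinset_univ] at this
  rw [this]
  simp [ker1_sum_left]

private theorem prob_coord (i : Fin N) (P : A i → Prop) :
    prob (fun y : ∀ i, A i => P (y i)) =
      (∑ a, if P a then (1 : ℝ) else 0) / Fintype.card (A i) := by
  have hc : (Fintype.card (∀ i, A i) : ℝ) ≠ 0 := by exact_mod_cast Fintype.card_ne_zero
  have h := prod_update_avg i (fun a => if P a then (1 : ℝ) else 0)
  rw [← h, Finset.prod_div_distrib]
  unfold prob
  rw [Fintype.card_pi]
  push_cast
  congr 1
  rw [Finset.prod_univ_sum, Fintype.piFinset_univ]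
  refine Finset.sum_congr rfl fun y _ => ?_
  rw [prod_update i (fun a => if P a then (1 : ℝ) else 0)]

private theorem stab_far {V : Type} [Fintype V] (lam : Fin N → ℝ) (h0 : ∀ i, 0 ≤ lam i)
    (h1 : ∀ i, lam i ≤ 1 / 2) (J K : (∀ i, A i) → V) (hJ : col ∅ J ≤ 1 / 1000000)
    (i j : Fin N) (hij : i ≠ j) (mJ : A i → V) (mK : A j → V)
    (hmJ : prob (fun y : ∀ i, A i => J y ≠ mJ (y i)) ≤ 1 / 20)
    (hmK : prob (fun y : ∀ i, A i => K y ≠ mK (y j)) ≤ 1 / 20) :
    stab lam J K ≤ 1 / 5 := by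
  have hc : 0 < (Fintype.card (∀ i, A i) : ℝ) := by exact_mod_cast Fintype.card_pos
  -- the mass of a value
  have hv : ∀ v : V, prob (fun y : ∀ i, A i => mJ (y i) = v) ≤ 1 / 20 + 1 / 1000 := by
    intro v
    have hJv : prob (fun y : ∀ i, A i => J y = v) ≤ 1 / 1000 := by
      have h2 : prob (fun y : ∀ i, A i => J y = v) ^ 2 ≤ col ∅ J := by
        unfold col prob
        rw [div_pow]
        refine div_le_div_of_nonneg_right ?_ (by positivity)
        rw [sq, Finset.sum_mul_sum]
        refine Finset.sum_le_sum fun y _ => Finset.sum_le_sum fun z _ => ?_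
        have hm : mix (∅ : Set (Fin N)) y z = z := by
          funext k
          simp [mix]
        rw [hm]
        by_cases hy : J y = v
        · by_cases hz : J z = v
          · simp [hy, hz]
          · simp only [hy, hz, if_true, if_false, mul_zero]
            split_ifs <;> norm_num
        · simp only [hy, if_false, zero_mul]
          split_ifs <;> norm_num
      have h3 := prob_nonneg' (fun y : ∀ i, A i => J y = v)
      nlinarith
    refine (prob_mono' (Q := fun y : ∀ i, A i => J y ≠ mJ (y i) ∨ J y = v) ?_).trans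
      ((prob_or_le' _ _).trans (by linarith))
    intro y hy
    by_cases h : J y = mJ (y i)
    · right
      rw [h, hy]
    · left
      exact h
  unfold stab
  rw [div_le_iff₀ hc]
  have hstep : ∀ y z : ∀ i, A i, ker lam y z * (if J y = K z then (1 : ℝ) else 0) ≤
      ker lam y z * (if J y ≠ mJ (y i) then 1 else 0) +
      ker lam y z * (if K z ≠ mK (z j) then 1 else 0) +
      ∑ v : V, ker lam y z * ((if mJ (y i) = v then 1 else 0) * (if mK (z j) = v then 1 else 0)) := by
    intro y z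
    have hk := ker_nonneg lam h0 h1 y z
    rw [← Finset.mul_sum, ← mul_add, ← mul_add]
    refine mul_le_mul_of_nonneg_left ?_ hk
    have hsum : (∑ v : V, (if mJ (y i) = v then (1 : ℝ) else 0) *
        (if mK (z j) = v then 1 else 0)) = if mJ (y i) = mK (z j) then 1 else 0 := by
      by_cases h : mJ (y i) = mK (z j)
      · rw [if_pos h, Finset.sum_eq_single (mJ (y i))]
        · simp [h]
        · intro v _ hv
          simp [Ne.symm hv]
        · intro hn
          exact absurd (Finset.mem_univ _) hn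
      · rw [if_neg h]
        refine Finset.sum_eq_zero fun v _ => ?_
        by_cases h2 : mJ (y i) = v
        · have : mK (z j) ≠ v := fun h3 => h (h2.trans h3.symm)
          simp [this]
        · simp [h2]
    rw [hsum]
    by_cases a1 : J y = K z
    · by_cases a2 : J y = mJ (y i)
      · by_cases a3 : K z = mK (z j)
        · have : mJ (y i) = mK (z j) := by rw [← a2, ← a3, a1]
          simp [this]
          split_ifs <;> norm_num
        · have a3' : K z ≠ mK (z j) := a3
          rw [if_pos a3']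
          split_ifs <;> norm_num
      · have a2' : J y ≠ mJ (y i) := a2
        rw [if_pos a2']
        split_ifs <;> norm_num
    · rw [if_neg a1]
      split_ifs <;> norm_num
  refine (Finset.sum_le_sum fun y _ => Finset.sum_le_sum fun z _ => hstep y z).trans ?_
  simp only [Finset.sum_add_distrib]
  have e1 : (∑ y : ∀ i, A i, ∑ z : ∀ i, A i, ker lam y z * (if J y ≠ mJ (y i) then (1 : ℝ) else 0)) ≤
      1 / 20 * Fintype.card (∀ i, A i) := by
    simp only [← Finset.sum_mul, ker_sum_right, one_mul]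
    have := hmJ
    unfold prob at this
    rw [div_le_iff₀ hc] at this
    refine le_trans (le_of_eq (Finset.sum_congr rfl fun y _ => ?_)) this
    by_cases hy : J y = mJ (y i) <;> simp [hy]
  have e2 : (∑ y : ∀ i, A i, ∑ z : ∀ i, A i, ker lam y z * (if K z ≠ mK (z j) then (1 : ℝ) else 0)) ≤
      1 / 20 * Fintype.card (∀ i, A i) := by
    rw [Finset.sum_comm]
    simp only [← Finset.sum_mul, ker_sum_left, one_mul]
    have := hmK
    unfold prob at this
    rw [div_le_iff₀ hc] at this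
    refine le_trans (le_of_eq (Finset.sum_congr rfl fun y _ => ?_)) this
    by_cases hy : K y = mK (y j) <;> simp [hy]
  have e3 : (∑ y : ∀ i, A i, ∑ z : ∀ i, A i, ∑ v : V, ker lam y z *
      ((if mJ (y i) = v then (1 : ℝ) else 0) * (if mK (z j) = v then 1 else 0))) ≤
      (1 / 20 + 1 / 1000) * Fintype.card (∀ i, A i) := by
    have e4 : (∑ y : ∀ i, A i, ∑ z : ∀ i, A i, ∑ v : V, ker lam y z *
      ((if mJ (y i) = v then (1 : ℝ) else 0) * (if mK (z j) = v then 1 else 0))) =
        ∑ v : V, Fintype.card (∀ i, A i) * (prob (fun y : ∀ i, A i => mJ (y i) = v) *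
          prob (fun y : ∀ i, A i => mK (y j) = v)) := by
      have : ∀ y : ∀ i, A i, (∑ z : ∀ i, A i, ∑ v : V, ker lam y z *
          ((if mJ (y i) = v then (1 : ℝ) else 0) * (if mK (z j) = v then 1 else 0))) =
          ∑ v : V, ∑ z : ∀ i, A i, ker lam y z *
          ((if mJ (y i) = v then (1 : ℝ) else 0) * (if mK (z j) = v then 1 else 0)) :=
        fun y => Finset.sum_comm
      simp only [this]
      rw [Finset.sum_comm]
      refine Finset.sum_congr rfl fun v _ => ?_
      rw [ker_two lam i j hij (fun a => if mJ a = v then (1 : ℝ) else 0)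
        (fun a => if mK a = v then (1 : ℝ) else 0), prob_coord i (fun a => mJ a = v),
        prob_coord j (fun a => mK a = v)]
    rw [e4, ← Finset.mul_sum, mul_comm]
    refine mul_le_mul_of_nonneg_right ?_ hc.le
    have e5 : ∑ v : V, prob (fun y : ∀ i, A i => mK (y j) = v) = 1 := by
      unfold prob
      rw [← Finset.sum_div, Finset.sum_comm]
      rw [div_eq_one_iff_eq hc.ne']
      simp
    calc (∑ v : V, prob (fun y : ∀ i, A i => mJ (y i) = v) *
          prob (fun y : ∀ i, A i => mK (y j) = v))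
        ≤ ∑ v : V, (1 / 20 + 1 / 1000) * prob (fun y : ∀ i, A i => mK (y j) = v) :=
          Finset.sum_le_sum fun v _ => mul_le_mul_of_nonneg_right (hv v) (prob_nonneg' _)
      _ = 1 / 20 + 1 / 1000 := by rw [← Finset.mul_sum, e5, mul_one]
  nlinarith

theorem dictator {V : Type} [Fintype V] (lam : Fin N → ℝ) (h0 : ∀ i, 0 ≤ lam i)
    (h1 : ∀ i, lam i ≤ 1 / 2) (J K : (∀ i, A i) → V)
    (hs : 1 / 2 - 11 / 100000 ≤ stab lam J K)
    (hJ : col ∅ J ≤ 1 / 1000000) (hK : col ∅ K ≤ 1 / 1000000) :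
    ∃ (i : Fin N) (mJ mK : A i → V),
      prob (fun y : ∀ i, A i => J y ≠ mJ (y i)) ≤ 1 / 20 ∧
      prob (fun y : ∀ i, A i => K y ≠ mK (y i)) ≤ 1 / 20 := by
  have hw := w_le lam h0 h1 J K hs hJ hK
  obtain ⟨i, hi1, hi2⟩ := jump J hJ (fun S => (hw S).1)
  obtain ⟨j, hj1, hj2⟩ := jump K hK (fun S => (hw S).2)
  obtain ⟨mJ, hmJ⟩ := glue J i hi1 hi2
  obtain ⟨mK, hmK⟩ := glue K j hj1 hj2
  by_cases hij : i = j
  · subst hij
    exact ⟨i, mJ, mK, hmJ, hmK⟩
  · have := stab_far lam h0 h1 J K hJ i j hij mJ mK hmJ hmK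
    linarith

private theorem col_single_ge {V : Type} (K : (∀ i, A i) → V) (i : Fin N) (m : A i → V)
    (h : prob (fun y : ∀ i, A i => K y ≠ m (y i)) ≤ 1 / 20) : 9 / 10 ≤ col {i} K := by
  rw [col_eq_prob]
  have h1 : prob (fun p : (∀ i, A i) × (∀ i, A i) => ¬ (K p.1 = K (mix {i} p.1 p.2))) ≤ 1 / 10 := by
    refine (prob_mono' (Q := fun p : (∀ i, A i) × (∀ i, A i) => K p.1 ≠ m (p.1 i) ∨
      K (mix {i} p.1 p.2) ≠ m ((mix {i} p.1 p.2) i)) ?_).trans ((prob_or_le' _ _).trans ?_)
    · intro p hp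
      by_contra hcon
      push Not at hcon
      refine hp (hcon.1.trans ?_)
      rw [hcon.2]
      simp [mix]
    · have e1 := prob_fst' (Z := ∀ i, A i) (fun y : ∀ i, A i => K y ≠ m (y i))
      have e2 := prob_mix {i} (fun y : ∀ i, A i => K y ≠ m (y i))
      rw [e1, e2]
      linarith
  rw [prob_not'] at h1
  linarith

theorem dictator_bound {V : Type} [Fintype V] (lam : Fin N → ℝ) (h0 : ∀ i, 0 ≤ lam i)
    (h1 : ∀ i, lam i ≤ 1 / 2) (J K : (∀ i, A i) → V) {c : ℝ} (hc : c ≤ 1 / 1000)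
    (hJ : col ∅ J ≤ c) (hK : col ∅ K ≤ c) (i : Fin N) (mJ mK : A i → V)
    (hJi : prob (fun y : ∀ i, A i => J y ≠ mJ (y i)) ≤ 1 / 20)
    (hKi : prob (fun y : ∀ i, A i => K y ≠ mK (y i)) ≤ 1 / 20) :
    9 / 10 * (1 / 2 - lam i) ≤ 1 / 2 - stab lam J K + c := by
  have _hc' := hc
  have h := stab_le lam J K {i} (lam i) (1 / 2) h0
    (fun k hk => by rw [Set.mem_singleton_iff.mp hk]) (fun k _ => h1 k)
    (h0 i) (by have := h1 i; linarith) (by norm_num) (by norm_num)
  have a1 := col_single_ge J i mJ hJi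
  have a2 := col_single_ge K i mK hKi
  have b1 := col_w_nonneg {i} J
  have b2 := col_w_nonneg {i} K
  have c1 := col_nonneg ∅ J
  have c2 := col_nonneg ∅ K
  have l0 := h0 i
  have l1 := h1 i
  set l := lam i
  set pJ := col {i} J
  set pK := col {i} K
  set qJ := col {i}ᶜ J
  set qK := col {i}ᶜ K
  set cJ := col ∅ J
  set cK := col ∅ K
  nlinarith [mul_nonneg (sub_nonneg.mpr l1) (sub_nonneg.mpr a1),
    mul_nonneg (sub_nonneg.mpr l1) (sub_nonneg.mpr a2), mul_nonneg (sub_nonneg.mpr l1) b1,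
    mul_nonneg (sub_nonneg.mpr l1) b2, mul_nonneg l0 b1, mul_nonneg l0 b2,
    mul_nonneg l0 c1, mul_nonneg l0 c2, mul_nonneg (sub_nonneg.mpr l1) c1,
    mul_nonneg (sub_nonneg.mpr l1) c2]

end MP_c82b80_an
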