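import Mathlib
import Pool.Agent.Lib.MP_c82b80_an.Comb0
import Pool.Agent.Lib.MP_c82b80_an.Tower0

/-!
# JOB HAD : Hadamard matrices and the rotations `w n t`

`had n` is the `(n + 1)`-fold tensor power of `(1/√2) [[1, 1], [1, -1]]`, a real symmetric matrix of
square `1`, trace `0` and entries `± 1/√(2^(n+1))`.
`w n t = cos t • 1 + i sin t • had n` is a one parameter group of unitaries,
`|w n t u v|² = cos² t [u = v] + sin² t / card (G n)`.
`W a N` is the tensor product of the `w i (a i)`, `i < N`: `|W a N y z|² = ker lam y z`,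
`lam i = cos² (a i)`.
Use `tens_mul`, `tens_one`, `tens_conjTranspose`, `tens_trace`.
-/

namespace MP_c82b80_an

open scoped Classical in
/-- the `2 x 2` Hadamard matrix -/
noncomputable def h2 : Matrix (Fin 2) (Fin 2) ℂ :=
  fun i j => if i = 1 ∧ j = 1 then -((Real.sqrt 2)⁻¹ : ℝ) else ((Real.sqrt 2)⁻¹ : ℝ)

/-- the Hadamard matrix on the block `n` -/
noncomputable def had (n : ℕ) : Matrix (G n) (G n) ℂ := tens (fun _ : Fin (n + 1) => h2)

/-- the rotation on the block `n` -/
noncomputable def w (n : ℕ) (t : ℝ) : Matrix (G n) (G n) ℂ :=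
  (Real.cos t : ℂ) • (1 : Matrix (G n) (G n) ℂ) + (Complex.I * (Real.sin t : ℂ)) • had n

/-- the tensor product of the rotations `w i (a i)`, `i < N` -/
noncomputable def W (a : ℕ → ℝ) (N : ℕ) : Matrix (Y N) (Y N) ℂ :=
  tens (fun i : Fin N => w i (a i))

/-- the real entries of `h2` -/
private noncomputable def had_h2r (i j : Fin 2) : ℝ :=
  if i = 1 ∧ j = 1 then -(Real.sqrt 2)⁻¹ else (Real.sqrt 2)⁻¹

private theorem had_h2_eq (i j : Fin 2) : h2 i j = ((had_h2r i j : ℝ) : ℂ) := by
  unfold h2 had_h2r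
  by_cases h : i = 1 ∧ j = 1
  · rw [if_pos h, if_pos h, Complex.ofReal_neg]
  · rw [if_neg h, if_neg h]

private theorem had_h2r_sq (i j : Fin 2) : had_h2r i j * had_h2r i j = 1 / 2 := by
  have h0 : Real.sqrt 2 * Real.sqrt 2 = 2 := Real.mul_self_sqrt (by norm_num)
  have h1 : (Real.sqrt 2)⁻¹ * (Real.sqrt 2)⁻¹ = 1 / 2 := by
    rw [← mul_inv, h0]; norm_num
  unfold had_h2r
  split_ifs
  · rw [neg_mul_neg, h1]
  · exact h1

private theorem had_h2r_symm (i j : Fin 2) : had_h2r i j = had_h2r j i := by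
  unfold had_h2r
  by_cases h : i = 1 ∧ j = 1
  · rw [if_pos h, if_pos h.symm]
  · rw [if_neg h, if_neg fun h' => h h'.symm]

private theorem had_h2_conjTranspose : h2.conjTranspose = h2 := by
  ext i j
  rw [Matrix.conjTranspose_apply, had_h2_eq, had_h2_eq, had_h2r_symm, ← Complex.conj_ofReal]
  simp

private theorem had_h2_mul : h2 * h2 = 1 := by
  ext i j
  rw [Matrix.mul_apply, Fin.sum_univ_two, had_h2_eq, had_h2_eq, had_h2_eq, had_h2_eq]
  by_cases hij : i = j
  · subst hij
    rw [Matrix.one_apply_eq, had_h2r_symm 0 i, had_h2r_symm 1 i]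
    have h1 := had_h2r_sq i 0
    have h2 := had_h2r_sq i 1
    have h3 : had_h2r i 0 * had_h2r i 0 + had_h2r i 1 * had_h2r i 1 = 1 := by
      rw [h1, h2]; norm_num
    exact_mod_cast h3
  · rw [Matrix.one_apply_ne hij]
    have h3 : had_h2r i 0 * had_h2r 0 j + had_h2r i 1 * had_h2r 1 j = 0 := by
      fin_cases i <;> fin_cases j <;> simp_all [had_h2r]
    exact_mod_cast h3

private theorem had_h2_trace : h2.trace = 0 := by
  rw [Matrix.trace, Fin.sum_univ_two, Matrix.diag_apply, Matrix.diag_apply, had_h2_eq, had_h2_eq]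
  have h3 : had_h2r 0 0 + had_h2r 1 1 = 0 := by simp [had_h2r]
  exact_mod_cast h3

private theorem had_eq_real (n : ℕ) (u v : G n) :
    had n u v = ((∏ i, had_h2r (u i) (v i) : ℝ) : ℂ) := by
  show ∏ i, h2 (u i) (v i) = _
  rw [Complex.ofReal_prod]
  exact Finset.prod_congr rfl fun i _ => had_h2_eq _ _

theorem card_G (n : ℕ) : Fintype.card (G n) = 2 ^ (n + 1) := by
  simp [G]

theorem card_I (N : ℕ) : Fintype.card (I N) = 2 * Fintype.card (Y N) := by
  rw [Fintype.card_prod, Fintype.card_fin]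

theorem had_conjTranspose (n : ℕ) : (had n).conjTranspose = had n := by
  unfold had
  rw [tens_conjTranspose]
  congr 1
  funext i
  exact had_h2_conjTranspose

theorem had_mul_self (n : ℕ) : had n * had n = 1 := by
  unfold had
  rw [tens_mul]
  have h : (fun _ : Fin (n + 1) => h2 * h2) =
      fun _ : Fin (n + 1) => (1 : Matrix (Fin 2) (Fin 2) ℂ) := by
    funext i
    exact had_h2_mul
  rw [h]
  exact tens_one

theorem had_trace (n : ℕ) : (had n).trace = 0 := by
  unfold had
  rw [tens_trace]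
  exact Finset.prod_eq_zero (Finset.mem_univ 0) had_h2_trace

theorem had_real (n : ℕ) (u v : G n) : (had n u v).im = 0 := by
  rw [had_eq_real]
  exact Complex.ofReal_im _

theorem had_norm_sq (n : ℕ) (u v : G n) : ‖had n u v‖ ^ 2 = 1 / Fintype.card (G n) := by
  rw [had_eq_real, Complex.norm_real, Real.norm_eq_abs, sq_abs, sq, ← Finset.prod_mul_distrib,
    Finset.prod_congr rfl fun i _ => had_h2r_sq (u i) (v i), Finset.prod_const, Finset.card_univ,
    Fintype.card_fin, card_G]
  push_cast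
  rw [div_pow, one_pow]

theorem w_zero (n : ℕ) : w n 0 = 1 := by
  unfold w
  simp

theorem w_mul (n : ℕ) (s t : ℝ) : w n s * w n t = w n (s + t) := by
  unfold w
  rw [add_mul, mul_add, mul_add, smul_mul_smul_comm, smul_mul_smul_comm, smul_mul_smul_comm,
    smul_mul_smul_comm, had_mul_self, one_mul, mul_one, one_mul, Real.cos_add, Real.sin_add]
  have e : ∀ a b c d : ℂ, a • (1 : Matrix (G n) (G n) ℂ) + b • had n + (c • had n + d • 1) =
      (a + d) • 1 + (b + c) • had n := by
    intro a b c d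
    rw [add_smul, add_smul]
    abel
  rw [e]
  congr 2
  · push_cast
    linear_combination Complex.sin s * Complex.sin t * Complex.I_mul_I
  · push_cast
    ring

theorem w_conjTranspose (n : ℕ) (t : ℝ) : (w n t).conjTranspose = w n (-t) := by
  unfold w
  rw [Matrix.conjTranspose_add, Matrix.conjTranspose_smul, Matrix.conjTranspose_smul,
    Matrix.conjTranspose_one, had_conjTranspose, Real.cos_neg, Real.sin_neg]
  have h1 : star (Real.cos t : ℂ) = (Real.cos t : ℂ) := by
    rw [Complex.star_def, Complex.conj_ofReal]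
  have h2 : star (Complex.I * (Real.sin t : ℂ)) = Complex.I * ((-Real.sin t : ℝ) : ℂ) := by
    rw [Complex.star_def, map_mul, Complex.conj_ofReal, Complex.conj_I, Complex.ofReal_neg]
    ring
  rw [h1, h2]

theorem w_mul_star (n : ℕ) (t : ℝ) : w n t * (w n t).conjTranspose = 1 := by
  rw [w_conjTranspose, w_mul, add_neg_cancel, w_zero]

theorem star_mul_w (n : ℕ) (t : ℝ) : (w n t).conjTranspose * w n t = 1 := by
  rw [w_conjTranspose, w_mul, neg_add_cancel, w_zero]

theorem w_trace (n : ℕ) (t : ℝ) : (w n t).trace = Fintype.card (G n) * (Real.cos t : ℂ) := by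
  unfold w
  rw [Matrix.trace_add, Matrix.trace_smul, Matrix.trace_smul, had_trace, Matrix.trace_one,
    smul_zero, add_zero, smul_eq_mul, mul_comm]

private theorem had_w_apply (n : ℕ) (t : ℝ) (u v : G n) :
    w n t u v = (Real.cos t : ℂ) * (if u = v then 1 else 0) +
      (Complex.I * (Real.sin t : ℂ)) * had n u v := by
  unfold w
  rw [Matrix.add_apply, Matrix.smul_apply, Matrix.smul_apply, smul_eq_mul, smul_eq_mul,
    Matrix.one_apply]

theorem w_norm_sq (n : ℕ) (t : ℝ) (u v : G n) :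
    ‖w n t u v‖ ^ 2 = Real.cos t ^ 2 * (if u = v then 1 else 0) +
      (1 - Real.cos t ^ 2) / Fintype.card (G n) := by
  have h1 := had_norm_sq n u v
  rw [had_eq_real, Complex.norm_real, Real.norm_eq_abs, sq_abs] at h1
  set r : ℝ := ∏ i, had_h2r (u i) (v i) with hr
  have h2 : w n t u v = ((Real.cos t * (if u = v then 1 else 0) : ℝ) : ℂ) +
      ((Real.sin t * r : ℝ) : ℂ) * Complex.I := by
    rw [had_w_apply, had_eq_real, ← hr]
    split_ifs
    · push_cast
      ring
    · push_cast
      ring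
  rw [h2, ← Complex.normSq_eq_norm_sq, Complex.normSq_add_mul_I, mul_pow, mul_pow, h1,
    Real.sin_sq]
  split_ifs <;> ring

/-- the diagonal of `w d w*` -/
theorem w_diag (n : ℕ) (t : ℝ) (d : G n → ℂ) (u : G n) :
    (w n t * Matrix.diagonal d * (w n t).conjTranspose) u u =
      (Real.cos t ^ 2 : ℝ) * d u + ((1 - Real.cos t ^ 2 : ℝ) / Fintype.card (G n)) * ∑ v, d v := by
  rw [Matrix.mul_apply]
  have h1 : ∀ v, (w n t * Matrix.diagonal d) u v * (w n t).conjTranspose v u =
      ((‖w n t u v‖ ^ 2 : ℝ) : ℂ) * d v := by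
    intro v
    rw [Matrix.mul_diagonal, Matrix.conjTranspose_apply, Complex.star_def]
    have := Complex.mul_conj (w n t u v)
    rw [Complex.normSq_eq_norm_sq] at this
    rw [← this]
    ring
  rw [Finset.sum_congr rfl fun v _ => h1 v]
  have h2 : ∀ v, ((‖w n t u v‖ ^ 2 : ℝ) : ℂ) * d v =
      (if u = v then ((Real.cos t ^ 2 : ℝ) : ℂ) * d v else 0) +
        (((1 - Real.cos t ^ 2 : ℝ) : ℂ) / Fintype.card (G n)) * d v := by
    intro v
    rw [w_norm_sq]
    split_ifs with h
    · push_cast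
      ring
    · push_cast
      ring
  rw [Finset.sum_congr rfl fun v _ => h2 v, Finset.sum_add_distrib, Finset.sum_ite_eq,
    if_pos (Finset.mem_univ u), ← Finset.mul_sum]

theorem w_continuous (n : ℕ) (u v : G n) : Continuous (fun t : ℝ => w n t u v) := by
  simp_rw [had_w_apply]
  fun_prop

theorem W_mul (a b : ℕ → ℝ) (N : ℕ) : W a N * W b N = W (fun n => a n + b n) N := by
  unfold W
  rw [tens_mul]
  congr 1
  funext i
  exact w_mul _ _ _

theorem W_zero (N : ℕ) : W (fun _ => 0) N = 1 := by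
  unfold W
  have h : (fun i : Fin N => w i ((fun _ : ℕ => (0 : ℝ)) i)) =
      fun i : Fin N => (1 : Matrix (G i) (G i) ℂ) := by
    funext i
    exact w_zero _
  rw [h]
  exact tens_one

theorem W_conjTranspose (a : ℕ → ℝ) (N : ℕ) : (W a N).conjTranspose = W (fun n => -a n) N := by
  unfold W
  rw [tens_conjTranspose]
  congr 1
  funext i
  exact w_conjTranspose _ _

theorem W_mul_star (a : ℕ → ℝ) (N : ℕ) : W a N * (W a N).conjTranspose = 1 := by
  rw [W_conjTranspose, W_mul]
  simp only [add_neg_cancel]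
  exact W_zero N

theorem star_mul_W (a : ℕ → ℝ) (N : ℕ) : (W a N).conjTranspose * W a N = 1 := by
  rw [W_conjTranspose, W_mul]
  simp only [neg_add_cancel]
  exact W_zero N

theorem W_trace (a : ℕ → ℝ) (N : ℕ) :
    (W a N).trace = Fintype.card (Y N) * ∏ i : Fin N, (Real.cos (a i) : ℂ) := by
  unfold W
  rw [tens_trace, Finset.prod_congr rfl fun (i : Fin N) _ => w_trace (i : ℕ) (a (i : ℕ)),
    Finset.prod_mul_distrib, Fintype.card_pi]
  congr 1
  exact (Nat.cast_prod _ _).symm

theorem W_norm_sq (a : ℕ → ℝ) (N : ℕ) (y z : Y N) :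
    ‖W a N y z‖ ^ 2 = ker (A := fun i : Fin N => G i) (fun i => Real.cos (a i) ^ 2) y z := by
  show ‖∏ i : Fin N, w i (a i) (y i) (z i)‖ ^ 2 = _
  unfold ker
  rw [norm_prod, ← Finset.prod_pow]
  refine Finset.prod_congr rfl fun i _ => ?_
  rw [w_norm_sq]
  congr

theorem W_continuous (N : ℕ) (y z : Y N) : Continuous (fun a : ℕ → ℝ => W a N y z) := by
  show Continuous fun a : ℕ → ℝ => ∏ i : Fin N, w i (a i) (y i) (z i)
  exact continuous_finsetProd _ fun i _ =>
    (w_continuous (i : ℕ) (y i) (z i)).comp (continuous_apply (i : ℕ))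

end MP_c82b80_an
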