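import Mathlib
import Pool.Agent.Lib.MP_c82b80_an.Tower2
import Pool.Agent.Lib.MP_c82b80_an.Had

/-!
# The masas: definitions

* `T.e`, `T.f`, `T.s` : matrix units of the corner, `s s* = e`, `s* s = f`.
* `Umat a N` : the unitary `e + f ⊗ w_0 (a_0) ⊗ ... ⊗ w_{N-1} (a_{N-1})` of the stage `N`.
* `T.dg a N χ = ρ (U diag(χ) U*)`, `χ : I N → ℂ`.
* `T.q a n d = e φ_n (d) + f φ_n (w d w*)`, `d : G n → ℂ` diagonal, `w = w n (a n)`.
* `T.masaAlg a` : all elements of `R` commuting with `e` and all `T.q a n d`.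
-/

open scoped InnerProductSpace ComplexOrder
open Filter Topology

namespace MP_c82b80_an

universe u

/-- the unitary `e + f ⊗ w_0 (a_0) ⊗ ... ⊗ w_{N-1} (a_{N-1})` -/
noncomputable def Umat (a : ℕ → ℝ) (N : ℕ) : Matrix (I N) (I N) ℂ :=
  kr (Matrix.single 0 0 1) 1 + kr (Matrix.single 1 1 1) (W a N)

/-- `U diag(χ) U*` -/
noncomputable def dmat (a : ℕ → ℝ) (N : ℕ) (χ : I N → ℂ) : Matrix (I N) (I N) ℂ :=
  Umat a N * Matrix.diagonal χ * (Umat a N).conjTranspose

variable {H : Type u} [NormedAddCommGroup H] [InnerProductSpace ℂ H] [CompleteSpace H]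

namespace BlockTower

variable {R : VonNeumannAlgebra H} (T : BlockTower R)

/-- the projection `e` of the corner -/
noncomputable def e : H →L[ℂ] H := T.φc (Matrix.single 0 0 1)

/-- the projection `f = 1 - e` of the corner -/
noncomputable def f : H →L[ℂ] H := T.φc (Matrix.single 1 1 1)

/-- the partial isometry `s` of the corner, `s s* = e`, `s* s = f` -/
noncomputable def s : H →L[ℂ] H := T.φc (Matrix.single 0 1 1)

/-- the diagonal elements of the stage `N` of the masa -/
noncomputable def dg (a : ℕ → ℝ) (N : ℕ) (χ : I N → ℂ) : H →L[ℂ] H := T.ρ N (dmat a N χ)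

/-- the generators of the masa -/
noncomputable def q (a : ℕ → ℝ) (n : ℕ) (d : G n → ℂ) : H →L[ℂ] H :=
  T.e * T.φ n (Matrix.diagonal d) +
    T.f * T.φ n (w n (a n) * Matrix.diagonal d * (w n (a n)).conjTranspose)

/-- the masa, as a star algebra of operators -/
noncomputable def masaAlg (a : ℕ → ℝ) : StarSubalgebra ℂ (H →L[ℂ] H) :=
  R.toStarSubalgebra ⊓ StarSubalgebra.centralizer ℂ ({T.e} ∪ {x | ∃ n d, x = T.q a n d})

/-- the matrix of the diagonal part of `x` -/
noncomputable def chi (a : ℕ → ℝ) (N : ℕ) (x : H →L[ℂ] H) : I N → ℂ :=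
  fun p => ((Umat a N).conjTranspose * T.coef N x * Umat a N) p p

end BlockTower

end MP_c82b80_an
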