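import Mathlib
import Pool.Agent.Lib.MP_c82b80_an.Masa0

/-!
# JOB MASA-A : matrix computations for the masas

`kr_mul`, `W_mul_star`, `star_mul_W` give `Umat_mul_star`, `star_mul_Umat`.
* `dg_block` : `Umat * diagonal (fun p => d (p.2 n)) * Umatᴴ
   = kr (single 0 0) (blk d) + kr (single 1 1) (W blk(d) Wᴴ)`, and `W blk(d) Wᴴ` is the embedding of
   `w d wᴴ` in the block `n` (all tensor products: `blk n (diagonal d)`, `blk n (w d wᴴ)`, `ρ_blk`, `ρ_cor`).
* traces : `τ_ρ`, and the trace of `U diag(χ) Uᴴ` is `∑ χ`.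
-/

open scoped InnerProductSpace ComplexOrder
open Filter Topology

namespace MP_c82b80_an

universe u

private theorem kr_add_left {A B : Type} (a a' : Matrix A A ℂ) (b : Matrix B B ℂ) :
    kr (a + a') b = kr a b + kr a' b := by
  ext p q
  simp [kr, add_mul]

private theorem kr_smul_left {A B : Type} (c : ℂ) (a : Matrix A A ℂ) (b : Matrix B B ℂ) :
    kr (c • a) b = c • kr a b := by
  ext p q
  simp [kr, mul_assoc]

private theorem kr_zero_left {A B : Type} (b : Matrix B B ℂ) :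
    kr (0 : Matrix A A ℂ) b = 0 := by
  ext p q
  simp [kr]

private theorem P_conj : (Matrix.single (0 : Fin 2) (0 : Fin 2) (1 : ℂ)).conjTranspose =
    Matrix.single 0 0 1 := by
  ext i j
  fin_cases i <;> fin_cases j <;> simp [Matrix.single]

private theorem Q_conj : (Matrix.single (1 : Fin 2) (1 : Fin 2) (1 : ℂ)).conjTranspose =
    Matrix.single 1 1 1 := by
  ext i j
  fin_cases i <;> fin_cases j <;> simp [Matrix.single]

private theorem PP : Matrix.single (0 : Fin 2) (0 : Fin 2) (1 : ℂ) * Matrix.single 0 0 1 = Matrix.single 0 0 1 := by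
  simp

private theorem QQ : Matrix.single (1 : Fin 2) (1 : Fin 2) (1 : ℂ) * Matrix.single 1 1 1 = Matrix.single 1 1 1 := by
  simp

private theorem PQ : Matrix.single (0 : Fin 2) (0 : Fin 2) (1 : ℂ) * Matrix.single (1 : Fin 2) (1 : Fin 2) 1 = 0 := by
  simp

private theorem QP : Matrix.single (1 : Fin 2) (1 : Fin 2) (1 : ℂ) * Matrix.single (0 : Fin 2) (0 : Fin 2) 1 = 0 := by
  simp

private theorem PaddQ : Matrix.single (0 : Fin 2) (0 : Fin 2) (1 : ℂ) + Matrix.single 1 1 1 = 1 := by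
  ext i j
  fin_cases i <;> fin_cases j <;> simp [Matrix.single]

private theorem Umat_conj (a : ℕ → ℝ) (N : ℕ) : (Umat a N).conjTranspose =
    kr (Matrix.single 0 0 1) 1 + kr (Matrix.single 1 1 1) (W a N).conjTranspose := by
  rw [Umat, Matrix.conjTranspose_add, kr_conjTranspose, kr_conjTranspose, P_conj, Q_conj,
    Matrix.conjTranspose_one]

theorem Umat_mul_star (a : ℕ → ℝ) (N : ℕ) : Umat a N * (Umat a N).conjTranspose = 1 := by
  rw [Umat_conj, Umat]
  simp only [add_mul, mul_add, kr_mul, PP, QQ, PQ, QP, kr_zero_left, one_mul, mul_one, W_mul_star,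
    add_zero, zero_add]
  rw [← kr_add_left, PaddQ, kr_one]

theorem star_mul_Umat (a : ℕ → ℝ) (N : ℕ) : (Umat a N).conjTranspose * Umat a N = 1 := by
  rw [Umat_conj, Umat]
  simp only [add_mul, mul_add, kr_mul, PP, QQ, PQ, QP, kr_zero_left, one_mul, mul_one, star_mul_W,
    add_zero, zero_add]
  rw [← kr_add_left, PaddQ, kr_one]

theorem dmat_add (a : ℕ → ℝ) (N : ℕ) (χ χ' : I N → ℂ) :
    dmat a N (fun p => χ p + χ' p) = dmat a N χ + dmat a N χ' := by
  unfold dmat
  rw [← Matrix.diagonal_add, mul_add, add_mul]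

private theorem dmat_smul (a : ℕ → ℝ) (N : ℕ) (c : ℂ) (χ : I N → ℂ) :
    dmat a N (fun p => c * χ p) = c • dmat a N χ := by
  unfold dmat
  have h : Matrix.diagonal (fun p => c * χ p) = c • Matrix.diagonal χ := by
    rw [← Matrix.diagonal_smul]; rfl
  rw [h, Matrix.mul_smul, Matrix.smul_mul]

theorem dmat_mul (a : ℕ → ℝ) (N : ℕ) (χ χ' : I N → ℂ) :
    dmat a N χ * dmat a N χ' = dmat a N (fun p => χ p * χ' p) := by
  unfold dmat
  rw [← Matrix.diagonal_mul_diagonal]
  calc Umat a N * Matrix.diagonal χ * (Umat a N).conjTranspose *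
        (Umat a N * Matrix.diagonal χ' * (Umat a N).conjTranspose)
      = Umat a N * Matrix.diagonal χ * ((Umat a N).conjTranspose * Umat a N) *
        Matrix.diagonal χ' * (Umat a N).conjTranspose := by simp only [mul_assoc]
    _ = _ := by rw [star_mul_Umat, mul_one]; simp only [mul_assoc]

theorem dmat_trace (a : ℕ → ℝ) (N : ℕ) (χ : I N → ℂ) : (dmat a N χ).trace = ∑ p, χ p := by
  unfold dmat
  rw [Matrix.trace_mul_cycle, star_mul_Umat, one_mul, Matrix.trace_diagonal]

private theorem dmat_one (a : ℕ → ℝ) (N : ℕ) : dmat a N (fun _ => 1) = 1 := by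
  unfold dmat
  rw [show (Matrix.diagonal (fun _ : I N => (1 : ℂ))) = 1 from Matrix.diagonal_one, mul_one,
    Umat_mul_star]

private theorem dmat_conj (a : ℕ → ℝ) (N : ℕ) (χ : I N → ℂ) :
    (dmat a N χ).conjTranspose = dmat a N (fun p => (starRingEnd ℂ) (χ p)) := by
  unfold dmat
  rw [Matrix.conjTranspose_mul, Matrix.conjTranspose_mul, Matrix.conjTranspose_conjTranspose,
    Matrix.diagonal_conjTranspose, mul_assoc]
  rfl

private theorem PDP (g : Fin 2 → ℂ) : Matrix.single (0 : Fin 2) (0 : Fin 2) (1 : ℂ) *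
    Matrix.diagonal g * Matrix.single 0 0 1 = g 0 • Matrix.single 0 0 1 := by
  ext i j
  fin_cases i <;> fin_cases j <;> simp [Matrix.mul_apply, Matrix.single]

private theorem QDQ (g : Fin 2 → ℂ) : Matrix.single (1 : Fin 2) (1 : Fin 2) (1 : ℂ) *
    Matrix.diagonal g * Matrix.single 1 1 1 = g 1 • Matrix.single 1 1 1 := by
  ext i j
  fin_cases i <;> fin_cases j <;> simp [Matrix.mul_apply, Matrix.single]

private theorem PDQ (g : Fin 2 → ℂ) : Matrix.single (0 : Fin 2) (0 : Fin 2) (1 : ℂ) *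
    Matrix.diagonal g * Matrix.single 1 1 1 = 0 := by
  ext i j
  fin_cases i <;> fin_cases j <;> simp [Matrix.mul_apply, Matrix.single]

private theorem QDP (g : Fin 2 → ℂ) : Matrix.single (1 : Fin 2) (1 : Fin 2) (1 : ℂ) *
    Matrix.diagonal g * Matrix.single 0 0 1 = 0 := by
  ext i j
  fin_cases i <;> fin_cases j <;> simp [Matrix.mul_apply, Matrix.single]

private theorem dmat_corner (a : ℕ → ℝ) (N : ℕ) (g : Fin 2 → ℂ) :
    dmat a N (fun p => g p.1) =
      g 0 • cor (Matrix.single 0 0 1) + g 1 • cor (Matrix.single 1 1 1) := by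
  have h : Matrix.diagonal (fun p : I N => g p.1) = kr (Matrix.diagonal g) 1 := by
    ext p q
    by_cases h : p = q
    · subst h; simp [kr]
    · rw [Matrix.diagonal_apply_ne _ h]
      simp only [kr]
      by_cases h1 : p.1 = q.1
      · have h2 : p.2 ≠ q.2 := fun h2 => h (Prod.ext h1 h2)
        rw [Matrix.one_apply_ne h2, mul_zero]
      · rw [Matrix.diagonal_apply_ne _ h1, zero_mul]
  rw [dmat, h, Umat_conj, Umat]
  simp only [add_mul, mul_add, kr_mul, PDP, QDQ, PDQ, QDP, kr_zero_left, one_mul, mul_one,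
    W_mul_star, add_zero, zero_add, kr_smul_left, cor]

private noncomputable def upd {N : ℕ} (n : Fin N) (a : Matrix (G n) (G n) ℂ) :
    ∀ i : Fin N, Matrix (G i) (G i) ℂ :=
  Function.update (fun i : Fin N => (1 : Matrix (G i) (G i) ℂ)) n a

private theorem tens_upd {N : ℕ} (n : Fin N) (a : Matrix (G n) (G n) ℂ) :
    tens (upd n a) = fun y z => if (∀ i, i ≠ n → y i = z i) then a (y n) (z n) else 0 := by
  funext y z
  rw [tens, ← Finset.mul_prod_erase Finset.univ _ (Finset.mem_univ n)]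
  have h1 : upd n a n = a := by simp [upd]
  have h2 : ∀ i, i ≠ n → upd n a i = 1 := by
    intro i hi
    simp [upd, Function.update_of_ne hi]
  rw [h1]
  split_ifs with h
  · rw [Finset.prod_eq_one, mul_one]
    intro i hi
    rw [h2 i (Finset.ne_of_mem_erase hi), h i (Finset.ne_of_mem_erase hi), Matrix.one_apply_eq]
  · push Not at h
    obtain ⟨i, hi, hne⟩ := h
    rw [Finset.prod_eq_zero (Finset.mem_erase.2 ⟨hi, Finset.mem_univ i⟩), mul_zero]
    rw [h2 i hi, Matrix.one_apply_ne hne]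

private theorem blk_eq {N : ℕ} (n : Fin N) (a : Matrix (G n) (G n) ℂ) :
    blk n a = kr 1 (tens (upd n a)) := by
  rw [tens_upd]; rfl

private theorem W_tens_upd (a : ℕ → ℝ) {N : ℕ} (n : Fin N) (m : Matrix (G n) (G n) ℂ) :
    W a N * tens (upd n m) * (W a N).conjTranspose =
      tens (upd n (w n (a n) * m * (w n (a n)).conjTranspose)) := by
  rw [W, tens_conjTranspose, tens_mul, tens_mul]
  congr 1
  funext i
  by_cases hi : i = n
  · subst hi
    simp [upd]
  · simp only [upd, Function.update_of_ne hi, mul_one]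
    exact w_mul_star i (a i)

private theorem diagonal_blk {N : ℕ} (n : Fin N) (d : G n → ℂ) :
    Matrix.diagonal (fun p : I N => d (p.2 n)) = kr 1 (tens (upd n (Matrix.diagonal d))) := by
  rw [tens_upd]
  ext p q
  by_cases h : p = q
  · subst h; simp [kr]
  · rw [Matrix.diagonal_apply_ne _ h]
    simp only [kr]
    by_cases h1 : p.1 = q.1
    · have h2 : p.2 ≠ q.2 := fun h2 => h (Prod.ext h1 h2)
      split_ifs with h3
      · by_cases h4 : p.2 n = q.2 n
        · exfalso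
          apply h2
          funext i
          by_cases hi : i = n
          · subst hi; exact h4
          · exact h3 i hi
        · rw [Matrix.diagonal_apply_ne _ h4, mul_zero]
      · rw [mul_zero]
    · rw [Matrix.one_apply_ne h1, zero_mul]

private theorem dmat_block (a : ℕ → ℝ) {N : ℕ} (n : Fin N) (d : G n → ℂ) :
    dmat a N (fun p => d (p.2 n)) =
      cor (Matrix.single 0 0 1) * blk n (Matrix.diagonal d) +
      cor (Matrix.single 1 1 1) *
        blk n (w n (a n) * Matrix.diagonal d * (w n (a n)).conjTranspose) := by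
  rw [dmat, diagonal_blk, blk_eq, blk_eq, cor, cor, Umat_conj, Umat, kr_mul, kr_mul]
  simp only [add_mul, mul_add, kr_mul, PP, QQ, PQ, QP, kr_zero_left, one_mul, mul_one,
    add_zero, zero_add, W_tens_upd]

variable {H : Type u} [NormedAddCommGroup H] [InnerProductSpace ℂ H] [CompleteSpace H]

namespace BlockTower

variable {R : VonNeumannAlgebra H} (T : BlockTower R)

theorem e_mem : T.e ∈ R := T.φc_mem _

theorem f_mem : T.f ∈ R := T.φc_mem _

theorem s_mem : T.s ∈ R := T.φc_mem _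

theorem e_add_f : T.e + T.f = 1 := by
  rw [e, f, ← map_add, PaddQ, map_one]

theorem star_e : star T.e = T.e := by
  rw [e, ← map_star, Matrix.star_eq_conjTranspose, P_conj]

theorem star_f : star T.f = T.f := by
  rw [f, ← map_star, Matrix.star_eq_conjTranspose, Q_conj]

theorem e_mul_e : T.e * T.e = T.e := by
  rw [e, ← map_mul, PP]

theorem f_mul_f : T.f * T.f = T.f := by
  rw [f, ← map_mul, QQ]

theorem e_mul_f : T.e * T.f = 0 := by
  rw [e, f, ← map_mul, PQ, map_zero]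

theorem f_mul_e : T.f * T.e = 0 := by
  rw [e, f, ← map_mul, QP, map_zero]

private theorem S_conj : (Matrix.single (0 : Fin 2) (1 : Fin 2) (1 : ℂ)).conjTranspose =
    Matrix.single 1 0 1 := by
  ext i j
  fin_cases i <;> fin_cases j <;> simp [Matrix.single]

theorem s_mul_star : T.s * star T.s = T.e := by
  rw [s, e, ← map_star, ← map_mul, Matrix.star_eq_conjTranspose, S_conj]
  simp

theorem star_mul_s : star T.s * T.s = T.f := by
  rw [s, f, ← map_star, ← map_mul, Matrix.star_eq_conjTranspose, S_conj]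
  simp

theorem e_mul_s : T.e * T.s = T.s := by
  rw [s, e, ← map_mul]
  simp

theorem s_mul_f : T.s * T.f = T.s := by
  rw [s, f, ← map_mul]
  simp

private theorem τ_φc (c : Matrix (Fin 2) (Fin 2) ℂ) : T.τ (T.φc c) = c.trace / 2 := by
  rw [← T.ρ_cor (N := 0) c, τ_ρ, cor, kr_trace, Matrix.trace_one, card_I]
  have h : (Fintype.card (Y 0) : ℂ) ≠ 0 := by
    exact_mod_cast Fintype.card_ne_zero
  push_cast
  field_simp

theorem τ_e : T.τ T.e = 1 / 2 := by
  rw [e, τ_φc, Matrix.trace_single_eq_same]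

theorem τ_f : T.τ T.f = 1 / 2 := by
  rw [f, τ_φc, Matrix.trace_single_eq_same]

theorem dg_add (a : ℕ → ℝ) (N : ℕ) (χ χ' : I N → ℂ) :
    T.dg a N (fun p => χ p + χ' p) = T.dg a N χ + T.dg a N χ' := by
  rw [dg, dmat_add, map_add]; rfl

theorem dg_smul (a : ℕ → ℝ) (N : ℕ) (c : ℂ) (χ : I N → ℂ) :
    T.dg a N (fun p => c * χ p) = c • T.dg a N χ := by
  rw [dg, dmat_smul, map_smul]; rfl

theorem dg_sub (a : ℕ → ℝ) (N : ℕ) (χ χ' : I N → ℂ) :
    T.dg a N (fun p => χ p - χ' p) = T.dg a N χ - T.dg a N χ' := by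
  have h : (fun p => χ p - χ' p) = (fun p => χ p + (fun p => (-1 : ℂ) * χ' p) p) := by
    funext p; simp; ring
  rw [h, dg_add, dg_smul, neg_one_smul, sub_eq_add_neg]

theorem dg_sum {α : Type*} (a : ℕ → ℝ) (N : ℕ) (S : Finset α) (χ : α → I N → ℂ) :
    T.dg a N (fun p => ∑ i ∈ S, χ i p) = ∑ i ∈ S, T.dg a N (χ i) := by
  classical
  induction S using Finset.induction_on with
  | empty =>
    simp only [Finset.sum_empty]
    have h := T.dg_smul a N 0 (fun _ => 0)
    simpa using h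
  | insert x S hx ih =>
    rw [Finset.sum_insert hx, ← ih, ← dg_add]
    congr 1
    funext p
    rw [Finset.sum_insert hx]

theorem dg_mul (a : ℕ → ℝ) (N : ℕ) (χ χ' : I N → ℂ) :
    T.dg a N χ * T.dg a N χ' = T.dg a N (fun p => χ p * χ' p) := by
  rw [dg, dg, dg, ← map_mul, dmat_mul]

theorem dg_one (a : ℕ → ℝ) (N : ℕ) : T.dg a N (fun _ => 1) = 1 := by
  rw [dg, dmat_one, map_one]

theorem dg_star (a : ℕ → ℝ) (N : ℕ) (χ : I N → ℂ) :
    star (T.dg a N χ) = T.dg a N (fun p => (starRingEnd ℂ) (χ p)) := by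
  rw [dg, dg, ← map_star, Matrix.star_eq_conjTranspose, dmat_conj]

theorem dg_corner (a : ℕ → ℝ) (N : ℕ) (g : Fin 2 → ℂ) :
    T.dg a N (fun p => g p.1) = g 0 • T.e + g 1 • T.f := by
  rw [dg, dmat_corner, map_add, map_smul, map_smul, ρ_cor, ρ_cor]; rfl

theorem dg_block (a : ℕ → ℝ) (N : ℕ) (n : Fin N) (d : G n → ℂ) :
    T.dg a N (fun p => d (p.2 n)) = T.q a n d := by
  rw [dg, dmat_block, map_add, map_mul, map_mul, ρ_cor, ρ_cor, ρ_blk, ρ_blk]; rfl

theorem τ_dg (a : ℕ → ℝ) (N : ℕ) (χ : I N → ℂ) :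
    T.τ (T.dg a N χ) = (∑ p, χ p) / Fintype.card (I N) := by
  rw [dg, τ_ρ, dmat_trace]

theorem n2_dg_sq (a : ℕ → ℝ) (N : ℕ) (χ : I N → ℂ) :
    T.n2 (T.dg a N χ) ^ 2 = (∑ p, ‖χ p‖ ^ 2) / Fintype.card (I N) := by
  have h := T.τ_star_mul_self (T.dg a N χ)
  rw [dg_star, dg_mul, τ_dg] at h
  have h2 : ∀ p, (starRingEnd ℂ) (χ p) * χ p = ((‖χ p‖ ^ 2 : ℝ) : ℂ) := by
    intro p
    rw [mul_comm, Complex.mul_conj, Complex.normSq_eq_norm_sq]
  simp only [h2] at h
  rw [← Complex.ofReal_sum] at h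
  exact_mod_cast h.symm

theorem dg_mem_R (a : ℕ → ℝ) (N : ℕ) (χ : I N → ℂ) : T.dg a N χ ∈ R := T.ρ_mem N _

theorem q_mem_R (a : ℕ → ℝ) (n : ℕ) (d : G n → ℂ) : T.q a n d ∈ R := by
  have h := T.dg_block a (n + 1) (Fin.last n) d
  have h' := T.dg_mem_R a (n + 1) (fun p => d (p.2 (Fin.last n)))
  rw [h] at h'
  exact h'

theorem q_eq_dg (a : ℕ → ℝ) {n N : ℕ} (h : n < N) (d : G n → ℂ) :
    T.q a n d = T.dg a N (fun p => d (p.2 ⟨n, h⟩)) :=
  (T.dg_block a N ⟨n, h⟩ d).symm

theorem q_star (a : ℕ → ℝ) (n : ℕ) (d : G n → ℂ) :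
    star (T.q a n d) = T.q a n (fun v => (starRingEnd ℂ) (d v)) := by
  rw [T.q_eq_dg a (Nat.lt_succ_self n), T.q_eq_dg a (Nat.lt_succ_self n), dg_star]

theorem q_add (a : ℕ → ℝ) (n : ℕ) (d d' : G n → ℂ) :
    T.q a n (fun v => d v + d' v) = T.q a n d + T.q a n d' := by
  rw [T.q_eq_dg a (Nat.lt_succ_self n), T.q_eq_dg a (Nat.lt_succ_self n) d,
    T.q_eq_dg a (Nat.lt_succ_self n) d', ← dg_add]

theorem q_mul (a : ℕ → ℝ) (n : ℕ) (d d' : G n → ℂ) :
    T.q a n d * T.q a n d' = T.q a n (fun v => d v * d' v) := by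
  rw [T.q_eq_dg a (Nat.lt_succ_self n) d, T.q_eq_dg a (Nat.lt_succ_self n) d',
    T.q_eq_dg a (Nat.lt_succ_self n), dg_mul]

theorem q_one (a : ℕ → ℝ) (n : ℕ) : T.q a n (fun _ => 1) = 1 := by
  rw [T.q_eq_dg a (Nat.lt_succ_self n), dg_one]

theorem e_mul_q (a : ℕ → ℝ) (n : ℕ) (d : G n → ℂ) :
    T.e * T.q a n d = T.e * T.φ n (Matrix.diagonal d) := by
  rw [q, mul_add, ← mul_assoc, ← mul_assoc, e_mul_e, e_mul_f, zero_mul, add_zero]

theorem f_mul_q (a : ℕ → ℝ) (n : ℕ) (d : G n → ℂ) :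
    T.f * T.q a n d =
      T.f * T.φ n (w n (a n) * Matrix.diagonal d * (w n (a n)).conjTranspose) := by
  rw [q, mul_add, ← mul_assoc, ← mul_assoc, f_mul_e, f_mul_f, zero_mul, zero_add]

end BlockTower

end MP_c82b80_an
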