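import Mathlib
import Pool.Agent.Lib.MP_c82b80_an.MasaA

/-!
# JOB MASA-B : finite stages of the masas, maximality

* `dg_mem` : `dg a N χ` commutes with `e` (`dg_corner`) and with `q a n d` (`n < N`: both are `dg`, by `dg_block`;
  `n ≥ N`: `dg a N χ` is in the range of `ρ N` and commutes with `e`, `f`, and `comm_tail`).
* `coef_eq_dmat` : for `x ∈ masaAlg a` the matrix `c = coef N x` commutes with the matrices of `e` and of
  `q a n d`, `n < N` (`coef_mul_ρ`, `coef_ρ_mul`, `dg_block`, `dg_corner`), so `Umatᴴ c Umat` commutes with all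
  `diagonal (fun p => d (p.2 n))` and `diagonal (fun p => g p.1)`; these separate the points of `I N`,
  so it is diagonal.
* `masaAlg_comm` : `E N x`, `E N y` commute (both `dg`), they converge boundedly in the 2-norm.
* `masaAlg_maximal` : `B` commutes with `e` and the `q a n d`, which are in `masaAlg a ≤ B`.
* `chi_nonneg` : `coef_psd`.
-/

open scoped InnerProductSpace ComplexOrder
open Filter Topology

namespace MP_c82b80_an

universe u

variable {H : Type u} [NormedAddCommGroup H] [InnerProductSpace ℂ H] [CompleteSpace H]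

namespace BlockTower

variable {R : VonNeumannAlgebra H} (T : BlockTower R)

theorem mem_masaAlg_iff (a : ℕ → ℝ) (x : H →L[ℂ] H) :
    x ∈ T.masaAlg a ↔ x ∈ R ∧ x * T.e = T.e * x ∧ ∀ n d, x * T.q a n d = T.q a n d * x := by
  have h0 : x ∈ T.masaAlg a ↔ x ∈ R ∧ ∀ g ∈ ({T.e} ∪ {x | ∃ n d, x = T.q a n d} : Set (H →L[ℂ] H)),
      g * x = x * g ∧ star g * x = x * star g := by
    rw [masaAlg]
    constructor
    · rintro ⟨h1, h2⟩
      exact ⟨h1, (StarSubalgebra.mem_centralizer_iff ℂ).1 h2⟩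
    · rintro ⟨h1, h2⟩
      exact ⟨h1, (StarSubalgebra.mem_centralizer_iff ℂ).2 h2⟩
  rw [h0]
  constructor
  · rintro ⟨h1, h2⟩
    exact ⟨h1, (h2 T.e (Or.inl rfl)).1.symm, fun n d => (h2 _ (Or.inr ⟨n, d, rfl⟩)).1.symm⟩
  · rintro ⟨h1, h2, h3⟩
    refine ⟨h1, ?_⟩
    rintro g (hg | ⟨n, d, rfl⟩)
    · rw [Set.mem_singleton_iff] at hg
      subst hg
      rw [T.star_e]
      exact ⟨h2.symm, h2.symm⟩
    · rw [T.q_star]
      exact ⟨(h3 n d).symm, (h3 n _).symm⟩

theorem mem_R_of_masa {a : ℕ → ℝ} {x : H →L[ℂ] H} (h : x ∈ T.masaAlg a) : x ∈ R :=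
  ((T.mem_masaAlg_iff a x).1 h).1

private theorem MasaB_e_eq_dg (a : ℕ → ℝ) (N : ℕ) :
    T.e = T.dg a N (fun p => (![1, 0] : Fin 2 → ℂ) p.1) := by
  rw [T.dg_corner a N (![1, 0])]
  simp

private theorem MasaB_f_eq_dg (a : ℕ → ℝ) (N : ℕ) :
    T.f = T.dg a N (fun p => (![0, 1] : Fin 2 → ℂ) p.1) := by
  rw [T.dg_corner a N (![0, 1])]
  simp

private theorem MasaB_dg_comm (a : ℕ → ℝ) (N : ℕ) (χ χ' : I N → ℂ) :
    T.dg a N χ * T.dg a N χ' = T.dg a N χ' * T.dg a N χ := by
  rw [T.dg_mul, T.dg_mul]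
  congr 1
  funext p
  exact mul_comm _ _

private theorem MasaB_dg_e (a : ℕ → ℝ) (N : ℕ) (χ : I N → ℂ) :
    T.dg a N χ * T.e = T.e * T.dg a N χ := by
  rw [T.MasaB_e_eq_dg a N]
  exact T.MasaB_dg_comm a N _ _

private theorem MasaB_dg_f (a : ℕ → ℝ) (N : ℕ) (χ : I N → ℂ) :
    T.dg a N χ * T.f = T.f * T.dg a N χ := by
  rw [T.MasaB_f_eq_dg a N]
  exact T.MasaB_dg_comm a N _ _

theorem dg_mem (a : ℕ → ℝ) (N : ℕ) (χ : I N → ℂ) : T.dg a N χ ∈ T.masaAlg a := by
  rw [T.mem_masaAlg_iff]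
  refine ⟨T.dg_mem_R a N χ, T.MasaB_dg_e a N χ, ?_⟩
  intro n d
  by_cases h : n < N
  · rw [T.q_eq_dg a h d]
    exact T.MasaB_dg_comm a N _ _
  · have hle : N ≤ n := not_lt.1 h
    have h1 : Commute (T.dg a N χ) (T.φ n (Matrix.diagonal d)) := T.comm_tail hle _ _
    have h2 : Commute (T.dg a N χ)
        (T.φ n (w n (a n) * Matrix.diagonal d * (w n (a n)).conjTranspose)) := T.comm_tail hle _ _
    have he : Commute (T.dg a N χ) T.e := T.MasaB_dg_e a N χ
    have hf : Commute (T.dg a N χ) T.f := T.MasaB_dg_f a N χ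
    exact ((he.mul_right h1).add_right (hf.mul_right h2)).eq

theorem q_mem (a : ℕ → ℝ) (n : ℕ) (d : G n → ℂ) : T.q a n d ∈ T.masaAlg a := by
  rw [T.q_eq_dg a (Nat.lt_succ_self n) d]
  exact T.dg_mem a _ _

theorem e_mem_masa (a : ℕ → ℝ) : T.e ∈ T.masaAlg a := by
  rw [T.MasaB_e_eq_dg a 0]
  exact T.dg_mem a _ _

theorem f_mem_masa (a : ℕ → ℝ) : T.f ∈ T.masaAlg a := by
  rw [T.MasaB_f_eq_dg a 0]
  exact T.dg_mem a _ _

private theorem MasaB_coef_comm {a : ℕ → ℝ} {x : H →L[ℂ] H} (hx : x ∈ R) (N : ℕ) (χ : I N → ℂ)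
    (h : x * T.dg a N χ = T.dg a N χ * x) :
    T.coef N x * dmat a N χ = dmat a N χ * T.coef N x := by
  rw [← T.coef_mul_ρ N hx, ← T.coef_ρ_mul N hx]
  exact congrArg _ h

private theorem MasaB_conj_comm {a : ℕ → ℝ} {x : H →L[ℂ] H} (hx : x ∈ R) (N : ℕ) (χ : I N → ℂ)
    (h : x * T.dg a N χ = T.dg a N χ * x) (p q : I N) :
    ((Umat a N).conjTranspose * T.coef N x * Umat a N) p q * χ q =
      χ p * ((Umat a N).conjTranspose * T.coef N x * Umat a N) p q := by
  have h1 := T.MasaB_coef_comm hx N χ h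
  have h2 : ((Umat a N).conjTranspose * T.coef N x * Umat a N) * Matrix.diagonal χ =
      Matrix.diagonal χ * ((Umat a N).conjTranspose * T.coef N x * Umat a N) := by
    calc ((Umat a N).conjTranspose * T.coef N x * Umat a N) * Matrix.diagonal χ
        = (Umat a N).conjTranspose * (T.coef N x * dmat a N χ) * Umat a N := by
          rw [dmat]
          simp only [Matrix.mul_assoc, star_mul_Umat, Matrix.mul_one]
      _ = (Umat a N).conjTranspose * (dmat a N χ * T.coef N x) * Umat a N := by rw [h1]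
      _ = Matrix.diagonal χ * ((Umat a N).conjTranspose * T.coef N x * Umat a N) := by
          rw [dmat]
          simp only [← Matrix.mul_assoc, star_mul_Umat, Matrix.one_mul]
  have h3 := congrFun (congrFun h2 p) q
  rw [Matrix.mul_diagonal, Matrix.diagonal_mul] at h3
  exact h3

theorem coef_eq_dmat {a : ℕ → ℝ} {x : H →L[ℂ] H} (h : x ∈ T.masaAlg a) (N : ℕ) :
    T.coef N x = dmat a N (T.chi a N x) := by
  classical
  obtain ⟨hx, he, hq⟩ := (T.mem_masaAlg_iff a x).1 h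
  have hf : x * T.f = T.f * x := by
    have h1 : T.f = 1 - T.e := by
      rw [← T.e_add_f]; abel
    rw [h1, mul_sub, sub_mul, he, mul_one, one_mul]
  have hdiag : (Umat a N).conjTranspose * T.coef N x * Umat a N =
      Matrix.diagonal (T.chi a N x) := by
    ext p q
    by_cases hpq : p = q
    · subst hpq
      rw [Matrix.diagonal_apply_eq]
      rfl
    · rw [Matrix.diagonal_apply_ne _ hpq]
      by_cases h1 : p.1 = q.1
      · have h2 : p.2 ≠ q.2 := fun h2 => hpq (Prod.ext h1 h2)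
        obtain ⟨n, hn⟩ := Function.ne_iff.1 h2
        have h3 := T.MasaB_conj_comm (a := a) hx N
          (fun r => (fun v : G n => if v = p.2 n then (1 : ℂ) else 0) (r.2 n))
          (by
            have h4 := T.dg_block a N n (fun v : G n => if v = p.2 n then (1 : ℂ) else 0)
            rw [h4]
            exact hq _ _) p q
        simp only [if_neg (Ne.symm hn), mul_zero, if_true, one_mul] at h3
        exact h3.symm
      · have h3 := T.MasaB_conj_comm (a := a) hx N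
          (fun r => (fun v : Fin 2 => if v = p.1 then (1 : ℂ) else 0) r.1)
          (by
            rw [T.dg_corner a N (fun v : Fin 2 => if v = p.1 then (1 : ℂ) else 0), mul_add, add_mul,
              mul_smul_comm, mul_smul_comm, smul_mul_assoc, smul_mul_assoc, he, hf]) p q
        simp only [if_neg (Ne.symm h1), mul_zero, if_true, one_mul] at h3
        exact h3.symm
  rw [dmat, ← hdiag]
  calc T.coef N x = (Umat a N * (Umat a N).conjTranspose) * T.coef N x *
        (Umat a N * (Umat a N).conjTranspose) := by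
        rw [Umat_mul_star, Matrix.one_mul, Matrix.mul_one]
    _ = _ := by simp only [Matrix.mul_assoc]

theorem E_eq_dg {a : ℕ → ℝ} {x : H →L[ℂ] H} (h : x ∈ T.masaAlg a) (N : ℕ) :
    T.E N x = T.dg a N (T.chi a N x) := by
  rw [E, T.coef_eq_dmat h N]
  rfl

theorem chi_dg (a : ℕ → ℝ) (N : ℕ) (χ : I N → ℂ) : T.chi a N (T.dg a N χ) = χ := by
  funext p
  rw [chi, dg, T.coef_ρ, dmat]
  have h1 : (Umat a N).conjTranspose *
      (Umat a N * Matrix.diagonal χ * (Umat a N).conjTranspose) * Umat a N =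
      Matrix.diagonal χ := by
    calc _ = ((Umat a N).conjTranspose * Umat a N) * Matrix.diagonal χ *
          ((Umat a N).conjTranspose * Umat a N) := by simp only [Matrix.mul_assoc]
      _ = Matrix.diagonal χ := by rw [star_mul_Umat, Matrix.one_mul, Matrix.mul_one]
  rw [h1, Matrix.diagonal_apply_eq]

theorem chi_nonneg (a : ℕ → ℝ) (N : ℕ) {x : H →L[ℂ] H} (hx : x ∈ R) (p : I N) :
    0 ≤ T.chi a N (star x * x) p := by
  have h1 := (T.coef_psd N hx).conjTranspose_mul_mul_same (Umat a N)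
  exact h1.diag_nonneg

theorem chi_add (a : ℕ → ℝ) (N : ℕ) (x y : H →L[ℂ] H) (p : I N) :
    T.chi a N (x + y) p = T.chi a N x p + T.chi a N y p := by
  simp only [chi]
  rw [T.coef_add, Matrix.mul_add, Matrix.add_mul]
  rfl

theorem chi_sum {α : Type*} (a : ℕ → ℝ) (N : ℕ) (S : Finset α) (x : α → H →L[ℂ] H) (p : I N) :
    T.chi a N (∑ i ∈ S, x i) p = ∑ i ∈ S, T.chi a N (x i) p := by
  simp only [chi]
  rw [T.coef_sum, Matrix.mul_sum, Matrix.sum_mul, Matrix.sum_apply]

theorem chi_one (a : ℕ → ℝ) (N : ℕ) (p : I N) : T.chi a N 1 p = 1 := by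
  simp only [chi]
  rw [T.coef_one, Matrix.mul_one, star_mul_Umat, Matrix.one_apply_eq]

private theorem MasaB_tendsto_mul {x y : H →L[ℂ] H} (hx : x ∈ R) (hy : y ∈ R) (ξ : H) :
    Tendsto (fun N => (T.E N x * T.E N y) ξ) atTop (𝓝 ((x * y) ξ)) := by
  have h1 : Tendsto (fun N => T.E N x (y ξ)) atTop (𝓝 (x (y ξ))) := T.tendsto_E_apply hx (y ξ)
  have h2 : Tendsto (fun N => T.E N x (T.E N y ξ - y ξ)) atTop (𝓝 0) := by
    have h3 : Tendsto (fun N => ‖x‖ * ‖T.E N y ξ - y ξ‖) atTop (𝓝 0) := by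
      have h4 := ((T.tendsto_E_apply hy ξ).sub_const (y ξ)).norm
      rw [sub_self, norm_zero] at h4
      simpa using h4.const_mul ‖x‖
    refine squeeze_zero_norm (fun N => ?_) h3
    exact (ContinuousLinearMap.le_opNorm _ _).trans
      (mul_le_mul_of_nonneg_right (T.norm_E_le N hx) (norm_nonneg _))
  have h5 := h2.add h1
  rw [zero_add] at h5
  refine h5.congr (fun N => ?_)
  rw [map_sub, sub_add_cancel]
  rfl

theorem masaAlg_comm (a : ℕ → ℝ) :
    ∀ x ∈ T.masaAlg a, ∀ y ∈ T.masaAlg a, x * y = y * x := by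
  intro x hx y hy
  have hxR := T.mem_R_of_masa hx
  have hyR := T.mem_R_of_masa hy
  ext ξ
  refine tendsto_nhds_unique (T.MasaB_tendsto_mul hxR hyR ξ) ?_
  refine (T.MasaB_tendsto_mul hyR hxR ξ).congr (fun N => ?_)
  rw [T.E_eq_dg hx N, T.E_eq_dg hy N, T.MasaB_dg_comm]

theorem masaAlg_maximal (a : ℕ → ℝ) (B : StarSubalgebra ℂ (H →L[ℂ] H))
    (hB : B ≤ R.toStarSubalgebra) (hc : ∀ x ∈ B, ∀ y ∈ B, x * y = y * x)
    (h : T.masaAlg a ≤ B) : B = T.masaAlg a := by
  refine le_antisymm ?_ h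
  intro x hx
  rw [T.mem_masaAlg_iff]
  exact ⟨hB hx, hc x hx _ (h (T.e_mem_masa a)), fun n d => hc x hx _ (h (T.q_mem a n d))⟩

/-- the masa -/
noncomputable def masa (a : ℕ → ℝ) : Masa R where
  alg := T.masaAlg a
  le := inf_le_left
  comm := T.masaAlg_comm a
  maximal := T.masaAlg_maximal a

/-- an element of `R` commuting with the masa is in the masa -/
theorem mem_masa_of_comm {a : ℕ → ℝ} {x : H →L[ℂ] H} (hx : x ∈ R)
    (h : ∀ y ∈ T.masaAlg a, x * y = y * x) : x ∈ T.masaAlg a := by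
  rw [T.mem_masaAlg_iff]
  exact ⟨hx, h _ (T.e_mem_masa a), fun n d => h _ (T.q_mem a n d)⟩

end BlockTower

end MP_c82b80_an
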