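import Mathlib
import Pool.Agent.Lib.MP_c82b80_an.MasaB

/-!
# JOB CONJ : masas with square summable difference of angles are unitarily conjugate

Let `g n = b n - a n`, `Umat g N` the unitary `1 ⊕ w_0 (g 0) ⊗ ... ⊗ w_{N-1} (g (N-1))`, `V N = ρ (Umat g N)`, a unitary of `R`.
* `Umat g N * Umat a N = Umat b N` (`W_mul`), so `V N * dg a N χ * (V N)* = dg b N χ`, and `V N * q a n d * (V N)* = q b n d`
  for `n < N` (`q_eq_dg`).
* `(V N)` is 2-norm Cauchy: for `N ≤ M`, `n2 (V N - V M)² = 2 - 2 re τ ((V N)* V M)`, and `(V N)* V M` (as a matrix of the stage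
  `M`) has normalised trace `(1/2) (1 + ∏_{N ≤ i < M} cos (g i))`; (`W_trace`; `V N` is the image of `Umat g' M`, `g' i = g i`
  for `i < N`, `0` for `i ≥ N`).  As `∑ (g i)² < ∞`: `∏ cos (g i) ≥ 1 - ∑ (1 - cos (g i)) ≥ 1 - ∑ (g i)²/2` (once all
  `|g i| ≤ 1`).
* `exists_limit` for `V N` and for `(V N)*` : limits `V`, `V'`; `V' = V*` and `V V* = V* V = 1` (strong limits of products, or
  2-norm limits).  `V q a n d = q b n d V` (limit of `V N q a n d = q b n d V N`), `V e = e V`.
* so `V A_a V* = A_b`: `θ x = V x V*` as a `StarAlgEquiv` of `R.toStarSubalgebra`.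
-/

open scoped InnerProductSpace ComplexOrder
open Filter Topology

namespace MP_c82b80_an

universe u

private theorem Conj_Umat_mul (a b : ℕ → ℝ) (N : ℕ) :
    Umat a N * Umat b N = Umat (fun n => a n + b n) N := by
  have h01 : (Matrix.single 0 0 1 : Matrix (Fin 2) (Fin 2) ℂ) * Matrix.single 1 1 1 = 0 := by
    rw [Matrix.single_mul_single_of_ne]
    decide
  have h10 : (Matrix.single 1 1 1 : Matrix (Fin 2) (Fin 2) ℂ) * Matrix.single 0 0 1 = 0 := by
    rw [Matrix.single_mul_single_of_ne]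
    decide
  have hz : ∀ c : Matrix (Y N) (Y N) ℂ, kr (0 : Matrix (Fin 2) (Fin 2) ℂ) c = 0 := by
    intro c
    ext p q
    simp [kr]
  rw [Umat, Umat, Umat, add_mul, mul_add, mul_add, kr_mul, kr_mul, kr_mul, kr_mul, h01, h10, hz, hz,
    Matrix.single_mul_single_same, Matrix.single_mul_single_same, W_mul]
  simp

private theorem Conj_Umat_star (a : ℕ → ℝ) (N : ℕ) :
    (Umat a N).conjTranspose = Umat (fun n => - a n) N := by
  rw [Umat, Umat, Matrix.conjTranspose_add, kr_conjTranspose, kr_conjTranspose, W_conjTranspose]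
  simp

private theorem Conj_Umat_trace (a : ℕ → ℝ) (N : ℕ) :
    (Umat a N).trace =
      Fintype.card (Y N) * (1 + ∏ i ∈ Finset.range N, (Real.cos (a i) : ℂ)) := by
  rw [Umat, Matrix.trace_add, kr_trace, kr_trace, W_trace, Matrix.trace_one,
    ← Fin.prod_univ_eq_prod_range (fun i => (Real.cos (a i) : ℂ)) N]
  simp
  ring

private theorem Conj_prod_bound (c : ℕ → ℝ) (hc : ∀ i, |c i| ≤ 1) (N : ℕ) :
    |1 - ∏ i ∈ Finset.range N, c i| ≤ ∑ i ∈ Finset.range N, |1 - c i| := by
  induction N with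
  | zero => simp
  | succ N ih =>
    rw [Finset.prod_range_succ, Finset.sum_range_succ]
    have h1 : 1 - (∏ i ∈ Finset.range N, c i) * c N =
        (1 - c N) + c N * (1 - ∏ i ∈ Finset.range N, c i) := by ring
    rw [h1]
    calc |(1 - c N) + c N * (1 - ∏ i ∈ Finset.range N, c i)|
        ≤ |1 - c N| + |c N * (1 - ∏ i ∈ Finset.range N, c i)| := abs_add_le _ _
      _ ≤ |1 - c N| + 1 * |1 - ∏ i ∈ Finset.range N, c i| := by
          rw [abs_mul]
          gcongr
          exact hc N
      _ ≤ _ := by linarith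

variable {H : Type u} [NormedAddCommGroup H] [InnerProductSpace ℂ H] [CompleteSpace H]

namespace BlockTower

variable {R : VonNeumannAlgebra H} (T : BlockTower R)

/-- the unitaries of the finite stages -/
private noncomputable def ConjV (g : ℕ → ℝ) (N : ℕ) : H →L[ℂ] H := T.ρ N (Umat g N)

private theorem ConjV_mem (g : ℕ → ℝ) (N : ℕ) : T.ConjV g N ∈ R := T.ρ_mem N _

private theorem ConjV_mul_star (g : ℕ → ℝ) (N : ℕ) : T.ConjV g N * star (T.ConjV g N) = 1 := by
  rw [ConjV, ← map_star, ← map_mul, Matrix.star_eq_conjTranspose, Umat_mul_star, map_one]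

private theorem ConjV_star_mul (g : ℕ → ℝ) (N : ℕ) : star (T.ConjV g N) * T.ConjV g N = 1 := by
  rw [ConjV, ← map_star, ← map_mul, Matrix.star_eq_conjTranspose, star_mul_Umat, map_one]

private theorem Conj_norm_le {u : H →L[ℂ] H} (h : star u * u = 1) : ‖u‖ ≤ 1 := by
  refine ContinuousLinearMap.opNorm_le_bound _ zero_le_one (fun ξ => ?_)
  rw [one_mul]
  have h1 : ‖u ξ‖ ^ 2 = ‖ξ‖ ^ 2 := by
    have h2 : ⟪u ξ, u ξ⟫_ℂ = ⟪ξ, ξ⟫_ℂ := by
      rw [← ContinuousLinearMap.adjoint_inner_right, ← ContinuousLinearMap.star_eq_adjoint,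
        ← mul_apply_eq_comp, h]
      rfl
    rw [inner_self_eq_norm_sq_to_K, inner_self_eq_norm_sq_to_K] at h2
    exact_mod_cast h2
  exact le_of_eq ((sq_eq_sq₀ (norm_nonneg _) (norm_nonneg _)).1 h1)

private theorem ConjV_mul_dg (a b : ℕ → ℝ) (N : ℕ) (χ : I N → ℂ) :
    T.ConjV (fun n => b n - a n) N * T.dg a N χ = T.dg b N χ * T.ConjV (fun n => b n - a n) N := by
  have h1 : Umat (fun n => b n - a n) N * Umat a N = Umat b N := by
    rw [Conj_Umat_mul]
    simp
  rw [ConjV, dg, dg, ← map_mul, ← map_mul, dmat, dmat]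
  congr 1
  have h2 : Umat b N = Umat (fun n => b n - a n) N * Umat a N := h1.symm
  calc Umat (fun n => b n - a n) N * (Umat a N * Matrix.diagonal χ * (Umat a N).conjTranspose)
      = (Umat (fun n => b n - a n) N * Umat a N) * Matrix.diagonal χ *
          (Umat a N).conjTranspose := by simp only [Matrix.mul_assoc]
    _ = Umat b N * Matrix.diagonal χ * (Umat a N).conjTranspose := by rw [h1]
    _ = Umat b N * Matrix.diagonal χ * ((Umat b N).conjTranspose *
          Umat (fun n => b n - a n) N) := by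
        rw [h2, Matrix.conjTranspose_mul, Matrix.mul_assoc (Umat a N).conjTranspose,
          star_mul_Umat, Matrix.mul_one, Matrix.mul_assoc]
    _ = _ := by simp only [Matrix.mul_assoc]

private theorem ConjV_mul_q (a b : ℕ → ℝ) {n N : ℕ} (h : n < N) (d : G n → ℂ) :
    T.ConjV (fun n => b n - a n) N * T.q a n d = T.q b n d * T.ConjV (fun n => b n - a n) N := by
  rw [T.q_eq_dg a h d, T.q_eq_dg b h d]
  exact T.ConjV_mul_dg a b N _

private theorem ConjV_mul_e (a b : ℕ → ℝ) (N : ℕ) :
    T.ConjV (fun n => b n - a n) N * T.e = T.e * T.ConjV (fun n => b n - a n) N := by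
  have h1 := T.dg_corner a N (![1, 0])
  have h2 := T.dg_corner b N (![1, 0])
  have h3 := T.ConjV_mul_dg a b N (fun p => (![1, 0] : Fin 2 → ℂ) p.1)
  rw [h1, h2] at h3
  simpa using h3

private theorem ConjV_eq (g : ℕ → ℝ) (N : ℕ) :
    T.ConjV g N = T.e + T.f * (List.ofFn fun i : Fin N => T.φ i (w i (g i))).prod := by
  have h1 : T.ρ N (kr (Matrix.single 0 0 1) 1) = T.e := by
    have h2 := T.ρ_kr N (Matrix.single 0 0 1) (fun _ => 1)
    rw [tens_one] at h2
    rw [h2, e]
    simp [List.ofFn_const]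
  rw [ConjV, Umat, map_add, h1, W, T.ρ_kr]
  rfl

private theorem ConjV_trunc (g : ℕ → ℝ) {N M : ℕ} (h : N ≤ M) :
    T.ConjV g N = T.ConjV (fun i => if i < N then g i else 0) M := by
  rw [ConjV_eq, ConjV_eq]
  congr 2
  induction M, h using Nat.le_induction with
  | base =>
    congr 1
    congr 1
    funext i
    rw [if_pos i.2]
  | succ M hM ih =>
    rw [List.ofFn_succ', List.concat_eq_append, List.prod_append, ih]
    simp only [Fin.val_castSucc, Fin.val_last, List.prod_singleton]
    rw [if_neg (by omega), w_zero, map_one, mul_one]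

private theorem ConjV_n2_sq (g : ℕ → ℝ) {N M : ℕ} (h : N ≤ M) :
    T.n2 (T.ConjV g N - T.ConjV g M) ^ 2 =
      1 - ∏ i ∈ Finset.range M, Real.cos (if i < N then 0 else g i) := by
  have hτ : T.τ (star (T.ConjV g N) * T.ConjV g M) =
      ((1 + ∏ i ∈ Finset.range M, Real.cos (if i < N then 0 else g i)) / 2 : ℝ) := by
    rw [T.ConjV_trunc g h, ConjV, ConjV, ← map_star, ← map_mul, Matrix.star_eq_conjTranspose,
      Conj_Umat_star, Conj_Umat_mul, T.τ_ρ, Conj_Umat_trace, card_I]
    have h1 : (fun i => -(if i < N then g i else 0) + g i) = fun i => if i < N then 0 else g i := by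
      funext i
      split_ifs <;> ring
    have hY : (Fintype.card (Y M) : ℂ) ≠ 0 := Nat.cast_ne_zero.2 Fintype.card_ne_zero
    have h2 : ∀ i, (-(if i < N then g i else 0) + g i) = if i < N then 0 else g i := by
      intro i
      split_ifs <;> ring
    simp only [h2]
    push_cast
    field_simp
  have h1 : ((T.n2 (T.ConjV g N - T.ConjV g M) ^ 2 : ℝ) : ℂ) =
      ((1 - ∏ i ∈ Finset.range M, Real.cos (if i < N then 0 else g i) : ℝ) : ℂ) := by
    rw [← T.τ_star_mul_self]
    have h2 : star (T.ConjV g N - T.ConjV g M) * (T.ConjV g N - T.ConjV g M) =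
        (1 - star (T.ConjV g N) * T.ConjV g M) + (1 - star (T.ConjV g M) * T.ConjV g N) := by
      rw [star_sub, sub_mul, mul_sub, mul_sub, T.ConjV_star_mul, T.ConjV_star_mul]
      abel
    have h3 : T.τ (star (T.ConjV g M) * T.ConjV g N) =
        (starRingEnd ℂ) (T.τ (star (T.ConjV g N) * T.ConjV g M)) := by
      rw [← T.τ_star, star_mul, star_star]
    rw [h2, T.τ_add, T.τ_sub, T.τ_sub, h3, hτ, T.τ_one, Complex.conj_ofReal]
    push_cast
    ring
  exact_mod_cast h1

private theorem ConjV_n2_sq_le (g : ℕ → ℝ) {N M : ℕ} (h : N ≤ M) :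
    T.n2 (T.ConjV g N - T.ConjV g M) ^ 2 ≤
      (∑ i ∈ Finset.range M, g i ^ 2) - ∑ i ∈ Finset.range N, g i ^ 2 := by
  rw [T.ConjV_n2_sq g h]
  calc 1 - ∏ i ∈ Finset.range M, Real.cos (if i < N then 0 else g i)
      ≤ |1 - ∏ i ∈ Finset.range M, Real.cos (if i < N then 0 else g i)| := le_abs_self _
    _ ≤ ∑ i ∈ Finset.range M, |1 - Real.cos (if i < N then 0 else g i)| :=
        Conj_prod_bound _ (fun i => Real.abs_cos_le_one _) M
    _ ≤ ∑ i ∈ Finset.range M, (if i < N then 0 else g i ^ 2) := by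
        refine Finset.sum_le_sum (fun i _ => ?_)
        split_ifs with hi
        · simp
        · rw [abs_of_nonneg (by linarith [Real.cos_le_one (g i)])]
          have := Real.one_sub_sq_div_two_le_cos (x := g i)
          nlinarith [sq_nonneg (g i)]
    _ = _ := by
        have h1 : ∀ i, (if i < N then 0 else g i ^ 2) = g i ^ 2 - (if i < N then g i ^ 2 else 0) := by
          intro i
          split_ifs <;> ring
        simp only [h1]
        rw [Finset.sum_sub_distrib, ← Finset.sum_filter]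
        congr 2
        ext i
        simp only [Finset.mem_filter, Finset.mem_range]
        omega

private theorem ConjV_cauchy (g : ℕ → ℝ) (hg : Summable (fun n => g n ^ 2)) :
    ∀ ε > 0, ∃ N, ∀ m ≥ N, ∀ n ≥ N, T.n2 (T.ConjV g m - T.ConjV g n) < ε := by
  intro ε hε
  have h1 := hg.hasSum.tendsto_sum_nat.cauchySeq
  obtain ⟨N, hN⟩ := Metric.cauchySeq_iff.1 h1 (ε ^ 2) (by positivity)
  refine ⟨N, ?_⟩
  have key : ∀ m n, N ≤ m → m ≤ n → T.n2 (T.ConjV g m - T.ConjV g n) < ε := by
    intro m n hm hmn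
    have h2 := T.ConjV_n2_sq_le g hmn
    have h3 := hN n (hm.trans hmn) m hm
    rw [Real.dist_eq] at h3
    have h4 := (abs_lt.1 h3).2
    exact lt_of_pow_lt_pow_left₀ 2 hε.le (h2.trans_lt h4)
  intro m hm n hn
  rcases le_total m n with h | h
  · exact key m n hm h
  · rw [T.n2_sub_comm]
    exact key n m hn h

omit [CompleteSpace H] in
private theorem Conj_tendsto_mul {x y : ℕ → H →L[ℂ] H} {x' y' : H →L[ℂ] H}
    (hx : ∀ n, ‖x n‖ ≤ 1) (h1 : ∀ ξ, Tendsto (fun n => x n ξ) atTop (𝓝 (x' ξ)))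
    (h2 : ∀ ξ, Tendsto (fun n => y n ξ) atTop (𝓝 (y' ξ))) (ξ : H) :
    Tendsto (fun n => (x n * y n) ξ) atTop (𝓝 ((x' * y') ξ)) := by
  have h3 : Tendsto (fun n => x n (y n ξ - y' ξ)) atTop (𝓝 0) := by
    have h4 : Tendsto (fun n => ‖y n ξ - y' ξ‖) atTop (𝓝 0) := by
      have h5 := ((h2 ξ).sub_const (y' ξ)).norm
      rwa [sub_self, norm_zero] at h5
    refine squeeze_zero_norm (fun n => ?_) h4
    calc ‖x n (y n ξ - y' ξ)‖ ≤ ‖x n‖ * ‖y n ξ - y' ξ‖ := ContinuousLinearMap.le_opNorm _ _
      _ ≤ 1 * ‖y n ξ - y' ξ‖ := mul_le_mul_of_nonneg_right (hx n) (norm_nonneg _)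
      _ = _ := one_mul _
  have h5 := h3.add (h1 (y' ξ))
  rw [zero_add] at h5
  refine h5.congr (fun n => ?_)
  rw [map_sub, sub_add_cancel]
  rfl

theorem exists_unitary (a b : ℕ → ℝ) (h : Summable (fun n => (a n - b n) ^ 2)) :
    ∃ V ∈ R, V * star V = 1 ∧ star V * V = 1 ∧ V * T.e = T.e * V ∧
      ∀ n d, V * T.q a n d = T.q b n d * V := by
  have hg : Summable (fun n => (b n - a n) ^ 2) := by
    refine h.congr (fun n => ?_)
    ring
  set g : ℕ → ℝ := fun n => b n - a n with hgdef
  have hn1 : ∀ n, ‖T.ConjV g n‖ ≤ 1 := fun n => Conj_norm_le (T.ConjV_star_mul g n)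
  have hn2 : ∀ n, ‖star (T.ConjV g n)‖ ≤ 1 := fun n => by rw [norm_star]; exact hn1 n
  obtain ⟨V, hV, hV1, -⟩ := T.exists_limit (fun n => T.ConjV_mem g n) hn1 (T.ConjV_cauchy g hg)
  obtain ⟨V', hV', hV1', -⟩ := T.exists_limit (x := fun n => star (T.ConjV g n))
    (fun n => star_mem (T.ConjV_mem g n)) hn2 (by
      intro ε hε
      obtain ⟨N, hN⟩ := T.ConjV_cauchy g hg ε hε
      refine ⟨N, fun m hm n hn => ?_⟩
      rw [← star_sub, T.n2_star (sub_mem (T.ConjV_mem g m) (T.ConjV_mem g n))]
      exact hN m hm n hn)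
  have hstar : V' = star V := by
    rw [ContinuousLinearMap.star_eq_adjoint]
    rw [ContinuousLinearMap.eq_adjoint_iff]
    intro ξ η
    have t1 : Tendsto (fun n => ⟪star (T.ConjV g n) ξ, η⟫_ℂ) atTop (𝓝 ⟪V' ξ, η⟫_ℂ) :=
      (hV1' ξ).inner tendsto_const_nhds
    have t2 : Tendsto (fun n => ⟪ξ, T.ConjV g n η⟫_ℂ) atTop (𝓝 ⟪ξ, V η⟫_ℂ) :=
      tendsto_const_nhds.inner (hV1 η)
    refine tendsto_nhds_unique t1 (t2.congr (fun n => ?_))
    rw [ContinuousLinearMap.star_eq_adjoint, ContinuousLinearMap.adjoint_inner_left]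
  subst hstar
  refine ⟨V, hV, ?_, ?_, ?_, ?_⟩
  · ext ξ
    refine tendsto_nhds_unique (Conj_tendsto_mul hn1 hV1 hV1' ξ) ?_
    refine tendsto_const_nhds.congr (fun n => ?_)
    rw [T.ConjV_mul_star]
  · ext ξ
    refine tendsto_nhds_unique (Conj_tendsto_mul hn2 hV1' hV1 ξ) ?_
    refine tendsto_const_nhds.congr (fun n => ?_)
    rw [T.ConjV_star_mul]
  · ext ξ
    have t1 : Tendsto (fun n => T.ConjV g n (T.e ξ)) atTop (𝓝 (V (T.e ξ))) := hV1 _
    have t2 : Tendsto (fun n => T.e (T.ConjV g n ξ)) atTop (𝓝 (T.e (V ξ))) :=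
      (T.e.continuous.tendsto _).comp (hV1 ξ)
    refine tendsto_nhds_unique t1 (t2.congr (fun n => ?_))
    exact (DFunLike.congr_fun (T.ConjV_mul_e a b n) ξ).symm
  · intro n d
    ext ξ
    have t1 : Tendsto (fun m => T.ConjV g m (T.q a n d ξ)) atTop (𝓝 (V (T.q a n d ξ))) := hV1 _
    have t2 : Tendsto (fun m => T.q b n d (T.ConjV g m ξ)) atTop (𝓝 (T.q b n d (V ξ))) :=
      ((T.q b n d).continuous.tendsto _).comp (hV1 ξ)
    refine tendsto_nhds_unique t1 (t2.congr' ?_)
    filter_upwards [eventually_gt_atTop n] with m hm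
    exact (DFunLike.congr_fun (T.ConjV_mul_q a b hm d) ξ).symm

/-- conjugation by a unitary of `R` -/
private noncomputable def ConjHom (V : H →L[ℂ] H) (hV : V ∈ R) (h2 : star V * V = 1)
    (h1 : V * star V = 1) : R.toStarSubalgebra →⋆ₐ[ℂ] R.toStarSubalgebra where
  toFun x := ⟨V * x * star V, mul_mem (mul_mem hV x.2) (star_mem hV)⟩
  map_one' := by
    apply Subtype.ext
    change V * 1 * star V = 1
    rw [mul_one, h1]
  map_mul' x y := by
    apply Subtype.ext
    change V * (x * y : H →L[ℂ] H) * star V = (V * x * star V) * (V * y * star V)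
    calc V * (x * y : H →L[ℂ] H) * star V = V * x * 1 * y * star V := by
          rw [mul_one]; simp only [mul_assoc]
      _ = V * x * (star V * V) * y * star V := by rw [h2]
      _ = _ := by simp only [mul_assoc]
  map_zero' := by
    apply Subtype.ext
    change V * 0 * star V = 0
    rw [mul_zero, zero_mul]
  map_add' x y := by
    apply Subtype.ext
    change V * (x + y : H →L[ℂ] H) * star V = V * x * star V + V * y * star V
    rw [mul_add, add_mul]
  commutes' c := by
    apply Subtype.ext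
    change V * (algebraMap ℂ (H →L[ℂ] H) c) * star V = algebraMap ℂ (H →L[ℂ] H) c
    rw [← Algebra.commutes, mul_assoc, h1, mul_one]
  map_star' x := by
    apply Subtype.ext
    change V * star (x : H →L[ℂ] H) * star V = star (V * x * star V)
    rw [star_mul, star_mul, star_star, mul_assoc]

theorem conj_of_summable (a b : ℕ → ℝ) (h : Summable (fun n => (a n - b n) ^ 2)) :
    MasaConj R (T.masa a) (T.masa b) := by
  obtain ⟨V, hV, h1, h2, he, hq⟩ := T.exists_unitary a b h
  have h1' : star V * star (star V) = 1 := by rw [star_star]; exact h2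
  have h2' : star (star V) * star V = 1 := by rw [star_star]; exact h1
  refine ⟨StarAlgEquiv.ofStarAlgHom (ConjHom V hV h2 h1)
    (ConjHom (star V) (star_mem hV) h2' h1') ?_ ?_, ?_⟩
  · refine StarAlgHom.ext (fun x => Subtype.ext ?_)
    change star V * (V * (x : H →L[ℂ] H) * star V) * star (star V) = x
    rw [star_star]
    calc star V * (V * (x : H →L[ℂ] H) * star V) * V
        = (star V * V) * x * (star V * V) := by simp only [mul_assoc]
      _ = x := by rw [h2, one_mul, mul_one]
  · refine StarAlgHom.ext (fun x => Subtype.ext ?_)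
    change V * (star V * (x : H →L[ℂ] H) * star (star V)) * star V = x
    rw [star_star]
    calc V * (star V * (x : H →L[ℂ] H) * V) * star V
        = (V * star V) * x * (V * star V) := by simp only [mul_assoc]
      _ = x := by rw [h1, one_mul, mul_one]
  · intro x
    change (x : H →L[ℂ] H) ∈ T.masaAlg a ↔ V * (x : H →L[ℂ] H) * star V ∈ T.masaAlg b
    have key : ∀ p p' : H →L[ℂ] H, V * p = p' * V →
        ((x : H →L[ℂ] H) * p = p * x ↔ (V * x * star V) * p' = p' * (V * x * star V)) := by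
      intro p p' hp
      have hp' : p' = V * p * star V := by
        rw [hp, mul_assoc, h1, mul_one]
      have e1 : (V * x * star V) * p' = V * (x * p) * star V := by
        rw [hp']
        calc (V * x * star V) * (V * p * star V) = V * x * (star V * V) * p * star V := by
              simp only [mul_assoc]
          _ = _ := by rw [h2, mul_one]; simp only [mul_assoc]
      have e2 : p' * (V * x * star V) = V * (p * x) * star V := by
        rw [hp']
        calc (V * p * star V) * (V * x * star V) = V * p * (star V * V) * x * star V := by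
              simp only [mul_assoc]
          _ = _ := by rw [h2, mul_one]; simp only [mul_assoc]
      rw [e1, e2]
      constructor
      · intro hh; rw [hh]
      · intro hh
        have h3 : star V * (V * ((x : H →L[ℂ] H) * p) * star V) * V =
            star V * (V * (p * x) * star V) * V := by rw [hh]
        calc (x : H →L[ℂ] H) * p = (star V * V) * (x * p) * (star V * V) := by
              rw [h2, one_mul, mul_one]
          _ = star V * (V * ((x : H →L[ℂ] H) * p) * star V) * V := by simp only [mul_assoc]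
          _ = star V * (V * (p * x) * star V) * V := h3
          _ = (star V * V) * (p * x) * (star V * V) := by simp only [mul_assoc]
          _ = p * x := by rw [h2, one_mul, mul_one]
    rw [T.mem_masaAlg_iff, T.mem_masaAlg_iff]
    have hR : V * (x : H →L[ℂ] H) * star V ∈ R := mul_mem (mul_mem hV x.2) (star_mem hV)
    constructor
    · rintro ⟨-, h3, h4⟩
      exact ⟨hR, (key _ _ he).1 h3, fun n d => (key _ _ (hq n d)).1 (h4 n d)⟩
    · rintro ⟨-, h3, h4⟩
      exact ⟨x.2, (key _ _ he).2 h3, fun n d => (key _ _ (hq n d)).2 (h4 n d)⟩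

end BlockTower

end MP_c82b80_an
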