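import Mathlib

/-!
# JOB TURB-B : Kuratowski-Ulam, continuity on a comeagre set

* `kuratowski_ulam` : a comeagre subset of `X × Y` has comeagre sections over a comeagre set of `x`
  (`Y` second countable).  Proof: for an open dense `O ⊆ X × Y` and a nonempty basic open `V ⊆ Y`
  the projection of `O ∩ (X × V)` to `X` is open and dense; intersect over a countable basis and
  over the countable family of dense open sets (use `mem_residual_iff`).
* `exists_residual_continuousOn` : a Borel map to `ι → Prop` (`ι` countable, discrete coordinates)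
  is continuous on a comeagre set.  Proof: `MeasurableSet.residualEq_isOpen` for every
  `{x | f x i}` and for its complement.
-/

open Topology Filter

namespace MP_c82b80_an

/-- the sections of a dense open set are dense open, over a comeagre set -/
private theorem turbB_open {X Y : Type*} [TopologicalSpace X] [TopologicalSpace Y]
    [SecondCountableTopology Y] {O : Set (X × Y)} (hO : IsOpen O) (hd : Dense O) :
    ∀ᵇ x : X, {y | (x, y) ∈ O} ∈ residual Y := by
  obtain ⟨B, hBc, hBne, hB⟩ := TopologicalSpace.exists_countable_basis Y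
  have h1 : ∀ᵇ x : X, ∀ V ∈ B, ∃ y ∈ V, (x, y) ∈ O := by
    rw [eventually_countable_ball hBc]
    intro V hV
    have hVne : V.Nonempty := by
      rw [Set.nonempty_iff_ne_empty]
      rintro rfl
      exact hBne hV
    have hVo : IsOpen V := hB.isOpen hV
    have e : {x : X | ∃ y ∈ V, (x, y) ∈ O} = Prod.fst '' (O ∩ Set.univ ×ˢ V) := by
      ext x
      constructor
      · rintro ⟨y, hy, hxy⟩
        exact ⟨(x, y), ⟨hxy, trivial, hy⟩, rfl⟩
      · rintro ⟨⟨x', y⟩, ⟨hxy, -, hy⟩, rfl⟩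
        exact ⟨y, hy, hxy⟩
    have hPo : IsOpen {x : X | ∃ y ∈ V, (x, y) ∈ O} := by
      rw [e]
      exact isOpenMap_fst _ (hO.inter (isOpen_univ.prod hVo))
    have hPd : Dense {x : X | ∃ y ∈ V, (x, y) ∈ O} := by
      rw [dense_iff_inter_open]
      rintro U hU ⟨x, hx⟩
      obtain ⟨y, hy⟩ := hVne
      obtain ⟨⟨a, b⟩, ⟨ha, hb⟩, hab⟩ :=
        hd.inter_open_nonempty (U ×ˢ V) (hU.prod hVo) ⟨(x, y), hx, hy⟩
      exact ⟨a, ha, b, hb, hab⟩
    exact residual_of_dense_open hPo hPd
  filter_upwards [h1] with x hx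
  refine residual_of_dense_open (hO.preimage (by fun_prop)) ?_
  rw [hB.dense_iff]
  intro V hV _
  obtain ⟨y, hy, hxy⟩ := hx V hV
  exact ⟨y, hy, hxy⟩

theorem kuratowski_ulam {X Y : Type*} [TopologicalSpace X] [TopologicalSpace Y]
    [SecondCountableTopology Y] {s : Set (X × Y)} (hs : s ∈ residual (X × Y)) :
    ∀ᵇ x : X, {y | (x, y) ∈ s} ∈ residual Y := by
  obtain ⟨S, hSo, hSd, hSc, hSs⟩ := mem_residual_iff.1 hs
  have h1 : ∀ᵇ x : X, ∀ t ∈ S, {y | (x, y) ∈ t} ∈ residual Y :=
    (eventually_countable_ball hSc).2 fun t ht => turbB_open (hSo t ht) (hSd t ht)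
  filter_upwards [h1] with x hx
  have h2 : ∀ᵇ y : Y, ∀ t ∈ S, (x, y) ∈ t := (eventually_countable_ball hSc).2 hx
  filter_upwards [h2] with y hy
  exact hSs hy

theorem exists_residual_continuousOn {X ι : Type*} [TopologicalSpace X] [MeasurableSpace X]
    [BorelSpace X] [Countable ι] (f : X → ι → Prop) (hf : ∀ i, MeasurableSet {x | f x i}) :
    ∃ C ∈ residual X, ∀ x ∈ C, ∀ i, ∃ O : Set X, IsOpen O ∧ x ∈ O ∧
      ∀ y ∈ C ∩ O, (f y i ↔ f x i) := by
  choose U hUo hU using fun i => (hf i).residualEq_isOpen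
  choose U' hUo' hU' using fun i => (hf i).compl.residualEq_isOpen
  have h1 : ∀ᵇ x : X, ∀ i, (f x i ↔ x ∈ U i) ∧ (¬ f x i ↔ x ∈ U' i) := by
    rw [eventually_countable_forall]
    intro i
    filter_upwards [hU i, hU' i] with x hx hx'
    exact ⟨iff_of_eq hx, iff_of_eq hx'⟩
  refine ⟨_, h1, fun x hx i => ?_⟩
  by_cases hxi : f x i
  · exact ⟨U i, hUo i, (hx i).1.1 hxi, fun y hy => ⟨fun _ => hxi, fun _ => (hy.1 i).1.2 hy.2⟩⟩
  · exact ⟨U' i, hUo' i, (hx i).2.1 hxi,
      fun y hy => ⟨fun h => absurd h ((hy.1 i).2.2 hy.2), fun h => absurd h hxi⟩⟩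

end MP_c82b80_an
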