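import Mathlib

/-!
# JOB TURB-A : analytic sets have the property of Baire

Proof (Nikodym).  Let `X` be Polish.  For an arbitrary set `A ⊆ X` let `U(A)` be the union of all
basic open sets `V` (countable basis) with `A ∩ V` meagre; then `A ∩ U(A)` is meagre.  A *hull* of
`A` is a set `Â ⊇ A` with the property of Baire such that every Baire measurable subset of `Â \ A`
is meagre: take `Â = (complement of U(A)) ∪ F`, where `F ⊇ A ∩ U(A)` is a meagre Borel
set (or just take `F = A ∩ U(A)`, which is meagre, hence Baire measurable).  Check: if `B ⊆ Â \ A`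
is Baire measurable and not meagre there is a nonempty basic open `V` with `V \ B` meagre; so
`V ∩ A` is meagre, `V ⊆ U(A)`, so `V ∩ B ⊆ F` is meagre, `V` is meagre: contradiction (Baire).

Let `A` be analytic, `A = range f`, `f : (ℕ → ℕ) → X` continuous.  For a finite sequence `s` let
`A_s = f '' [s]` and `P_s = closure A_s`, let `H_s` be a hull of `A_s` intersected with `P_s`.
`A_s = ⋃ n, A_{s n}`, so `Q_s = H_s \ ⋃ n, H_{s n}` is Baire measurable and contained in
`H_s \ A_s`, hence meagre.  Then `H_∅ \ A ⊆ ⋃ s, Q_s`: if `x ∈ H_∅` is in no `Q_s`, build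
a branch `z` with `x ∈ H_{z|n} ⊆ P_{z|n}` for all `n`, so `x = f z` by continuity.
So `A` is Baire measurable.
-/

open Topology TopologicalSpace

namespace MP_c82b80_an

/-- Every set in a second countable Baire space has a Baire measurable hull. -/
private theorem exists_hull {X : Type*} [TopologicalSpace X] [SecondCountableTopology X]
    [BaireSpace X] (A : Set X) :
    ∃ H : Set X, A ⊆ H ∧ BaireMeasurableSet H ∧
      ∀ B : Set X, BaireMeasurableSet B → B ⊆ H \ A → IsMeagre B := by
  set U : Set X := ⋃₀ {V ∈ countableBasis X | IsMeagre (A ∩ V)} with hUdef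
  have hUo : IsOpen U := by
    apply isOpen_sUnion
    rintro V ⟨hV, -⟩
    exact isOpen_of_mem_countableBasis hV
  have hAU : IsMeagre (A ∩ U) := by
    have h1 : A ∩ U = ⋃ V : {V ∈ countableBasis X | IsMeagre (A ∩ V)}, A ∩ (V : Set X) := by
      rw [hUdef, Set.sUnion_eq_iUnion, Set.inter_iUnion]
    rw [h1]
    haveI : Countable {V ∈ countableBasis X | IsMeagre (A ∩ V)} :=
      ((countable_countableBasis X).mono fun V hV => hV.1).to_subtype
    exact isMeagre_iUnion fun V => V.2.2
  refine ⟨Uᶜ ∪ (A ∩ U), ?_, ?_, ?_⟩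
  · intro x hx
    by_cases hxU : x ∈ U
    · exact Or.inr ⟨hx, hxU⟩
    · exact Or.inl hxU
  · exact hUo.baireMeasurableSet.compl.union hAU.baireMeasurableSet
  · intro B hB hBH
    obtain ⟨W, hWo, hBW⟩ := hB.residualEq_isOpen
    have hWB : IsMeagre (W \ B) := by
      have : (W \ B)ᶜ ∈ residual X := by
        filter_upwards [hBW] with x hx
        intro hx2
        have hx3 : B x = W x := hx
        have : x ∈ B := by
          show B x
          rw [hx3]
          exact hx2.1
        exact hx2.2 this
      exact this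
    have hBWm : IsMeagre (B \ W) := by
      have : (B \ W)ᶜ ∈ residual X := by
        filter_upwards [hBW] with x hx
        intro hx2
        have hx3 : B x = W x := hx
        have : x ∈ W := by
          show W x
          rw [← hx3]
          exact hx2.1
        exact hx2.2 this
      exact this
    have hWe : W = ∅ := by
      by_contra hne
      obtain ⟨x, hx⟩ := Set.nonempty_iff_ne_empty.2 hne
      obtain ⟨V, hVb, hxV, hVW⟩ :=
        (isBasis_countableBasis X).exists_subset_of_mem_open hx hWo
      have hAV : IsMeagre (A ∩ V) := by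
        refine hWB.mono ?_
        rintro y ⟨hyA, hyV⟩
        exact ⟨hVW hyV, fun hyB => (hBH hyB).2 hyA⟩
      have hVU : V ⊆ U := fun y hy => ⟨V, ⟨hVb, hAV⟩, hy⟩
      have hVm : IsMeagre V := by
        refine hWB.mono ?_
        intro y hy
        refine ⟨hVW hy, fun hyB => ?_⟩
        rcases (hBH hyB).1 with h | h
        · exact h (hVU hy)
        · exact (hBH hyB).2 h.1
      exact not_isMeagre_of_isOpen (isOpen_of_mem_countableBasis hVb) ⟨x, hxV⟩ hVm
    refine hBWm.mono ?_
    intro y hy
    refine ⟨hy, ?_⟩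
    rw [hWe]
    exact fun h => h

theorem analyticSet_baireMeasurableSet {X : Type*} [TopologicalSpace X] [PolishSpace X]
    {s : Set X} (hs : MeasureTheory.AnalyticSet s) : BaireMeasurableSet s := by
  haveI : BaireSpace X := by
    letI := upgradeIsCompletelyMetrizable X
    infer_instance
  rw [MeasureTheory.AnalyticSet] at hs
  rcases hs with rfl | ⟨f, hf, rfl⟩
  · exact isOpen_empty.baireMeasurableSet
  -- the sets indexed by finite sequences
  set A : List ℕ → Set X := fun l => f '' {z | PiNat.res z l.length = l} with hA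
  choose H₀ hAH₀ hH₀m hH₀ using fun l => exists_hull (A l)
  set H : List ℕ → Set X := fun l => H₀ l ∩ closure (A l) with hH
  have hHm : ∀ l, BaireMeasurableSet (H l) := fun l =>
    (hH₀m l).inter (isClosed_closure.isOpen_compl.baireMeasurableSet.of_compl)
  have hAH : ∀ l, A l ⊆ H l := fun l x hx => ⟨hAH₀ l hx, subset_closure hx⟩
  set Q : List ℕ → Set X := fun l => H l \ ⋃ n, H (n :: l) with hQ
  have hAA : ∀ l, A l ⊆ ⋃ n, A (n :: l) := by
    rintro l x ⟨z, hz, rfl⟩
    rw [Set.mem_iUnion]
    refine ⟨z l.length, z, ?_, rfl⟩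
    show PiNat.res z (z l.length :: l).length = z l.length :: l
    rw [List.length_cons, PiNat.res_succ]
    congr 1
  have hQm : ∀ l, IsMeagre (Q l) := by
    intro l
    apply hH₀ l
    · exact (hHm l).diff (BaireMeasurableSet.iUnion fun n => hHm _)
    · rintro x ⟨hx, hx2⟩
      refine ⟨hx.1, fun hxA => hx2 ?_⟩
      obtain ⟨n, hn⟩ := Set.mem_iUnion.1 (hAA l hxA)
      exact Set.mem_iUnion.2 ⟨n, hAH _ hn⟩
  have hA0 : A [] = Set.range f := by
    rw [hA]
    ext x
    constructor
    · rintro ⟨z, -, rfl⟩
      exact ⟨z, rfl⟩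
    · rintro ⟨z, rfl⟩
      exact ⟨z, rfl, rfl⟩
  have hsub : H [] \ Set.range f ⊆ ⋃ l, Q l := by
    rintro x ⟨hx, hxf⟩
    by_contra hcon
    apply hxf
    have hstep : ∀ l, x ∈ H l → ∃ n, x ∈ H (n :: l) := by
      intro l hl
      by_contra hno
      apply hcon
      refine Set.mem_iUnion.2 ⟨l, hl, fun h => hno (Set.mem_iUnion.1 h)⟩
    choose! g hg using hstep
    set L : ℕ → List ℕ := fun k => Nat.rec [] (fun _ l => g l :: l) k with hL
    have hL0 : L 0 = [] := rfl
    have hLs : ∀ k, L (k + 1) = g (L k) :: L k := fun k => rfl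
    have hLlen : ∀ k, (L k).length = k := by
      intro k
      induction k with
      | zero => rfl
      | succ k ih => rw [hLs, List.length_cons, ih]
    have hLx : ∀ k, x ∈ H (L k) := by
      intro k
      induction k with
      | zero => exact hx
      | succ k ih => rw [hLs]; exact hg _ ih
    set z : ℕ → ℕ := fun k => g (L k) with hz
    have hres : ∀ k, PiNat.res z k = L k := by
      intro k
      induction k with
      | zero => rfl
      | succ k ih => rw [PiNat.res_succ, ih, hLs]
    refine ⟨z, ?_⟩
    by_contra hne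
    obtain ⟨O₁, O₂, hO₁, hO₂, hz₁, hx₂, hdisj⟩ := t2_separation hne
    have hopen : IsOpen (f ⁻¹' O₁) := hO₁.preimage hf
    obtain ⟨_, ⟨y, n, rfl⟩, hzc, hcO⟩ :=
      (PiNat.isTopologicalBasis_cylinders (E := fun _ : ℕ => ℕ)).exists_subset_of_mem_open
        (show z ∈ f ⁻¹' O₁ from hz₁) hopen
    have hmem : x ∈ closure (A (L n)) := (hLx n).2
    obtain ⟨w, hw₂, ⟨v, hv, rfl⟩⟩ := mem_closure_iff.1 hmem O₂ hO₂ hx₂
    have hv' : PiNat.res v n = PiNat.res z n := by
      have := hv
      rw [Set.mem_setOf_eq, hLlen] at this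
      rw [this, hres]
    have hvc : v ∈ PiNat.cylinder y n := by
      rw [PiNat.cylinder_eq_res] at hzc ⊢
      exact hv'.trans hzc
    exact Set.disjoint_left.1 hdisj (hcO hvc) hw₂
  have hmeagre : IsMeagre (H [] \ Set.range f) := (isMeagre_iUnion hQm).mono hsub
  have heq : Set.range f = H [] \ (H [] \ Set.range f) := by
    rw [Set.diff_diff_cancel_left]
    rw [← hA0]
    exact hAH []
  rw [heq]
  exact (hHm []).diff hmeagre.baireMeasurableSet

end MP_c82b80_an
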