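import Mathlib
import Pool.Agent.Lib.MP_c82b80_an.Turb0
import Pool.Agent.Lib.MP_c82b80_an.TurbA

/-!
# JOB TURB-F : orbit sets are Baire measurable

* `orbit_baireMeasurable` : the set of `z` such that `q z` is in the `(V_k g₀)`-orbit of `p z` is
  analytic, so Baire measurable.  Proof: `{(a, b) : (ℕ → ℕ) × (ℕ → ℕ) | a ∘ b = id, b ∘ a = id}` is
  closed in a Polish space, so a Polish space, and it is in bijection with `Perm ℕ`.  For
  every `i i'` the set of `g` with `S.act (g * g₀) i = i'` is open there (finite support of the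
  action: `S.act h i` depends only on the restriction of `h` to `{0..k-1}` for some `k`,
  apply `S.fin i` to `h'⁻¹ * h`).  So `{(z, g) | ∀ i, q z (S.act (g * g₀) i) ↔ p z i}` is Borel in
  a Polish space and its projection is analytic (`MeasurableSet.analyticSet_image`).
-/

open Topology

namespace MP_c82b80_an

/-- The pairs of mutually inverse maps `ℕ → ℕ`. -/
private def turbFSet : Set ((ℕ → ℕ) × (ℕ → ℕ)) :=
  {ab | (∀ n, ab.1 (ab.2 n) = n) ∧ ∀ n, ab.2 (ab.1 n) = n}

private theorem turbF_isClosed_aux :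
    IsClosed {ab : (ℕ → ℕ) × (ℕ → ℕ) | ∀ n, ab.1 (ab.2 n) = n} := by
  rw [← isOpen_compl_iff]
  have h : {ab : (ℕ → ℕ) × (ℕ → ℕ) | ∀ n, ab.1 (ab.2 n) = n}ᶜ =
      ⋃ n : ℕ, ⋃ m : ℕ, ⋃ l : {l : ℕ // l ≠ n},
        {ab : (ℕ → ℕ) × (ℕ → ℕ) | ab.2 n = m ∧ ab.1 m = l} := by
    ext ab
    simp only [Set.mem_compl_iff, Set.mem_ofPred_eq, not_forall, Set.mem_iUnion]
    constructor
    · rintro ⟨n, hn⟩
      exact ⟨n, ab.2 n, ⟨ab.1 (ab.2 n), hn⟩, rfl, rfl⟩
    · rintro ⟨n, m, ⟨l, hl⟩, h1, h2⟩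
      refine ⟨n, ?_⟩
      rw [h1, h2]
      exact hl
  rw [h]
  refine isOpen_iUnion fun n => isOpen_iUnion fun m => isOpen_iUnion fun l => ?_
  refine IsOpen.inter ?_ ?_
  · have hc : Continuous fun ab : (ℕ → ℕ) × (ℕ → ℕ) => ab.2 n :=
      (continuous_apply n).comp continuous_snd
    exact (isOpen_discrete ({m} : Set ℕ)).preimage hc
  · have hc : Continuous fun ab : (ℕ → ℕ) × (ℕ → ℕ) => ab.1 m :=
      (continuous_apply m).comp continuous_fst
    exact (isOpen_discrete ({(l : ℕ)} : Set ℕ)).preimage hc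

private theorem turbF_isClosed : IsClosed turbFSet := by
  have h2 : IsClosed {ab : (ℕ → ℕ) × (ℕ → ℕ) | ∀ n, ab.2 (ab.1 n) = n} :=
    turbF_isClosed_aux.preimage (continuous_swap : Continuous
      (Prod.swap : (ℕ → ℕ) × (ℕ → ℕ) → (ℕ → ℕ) × (ℕ → ℕ)))
  exact turbF_isClosed_aux.inter h2

private def turbFPerm (x : turbFSet) : Equiv.Perm ℕ where
  toFun := x.1.1
  invFun := x.1.2
  left_inv := x.2.2
  right_inv := x.2.1

private theorem turbF_isOpen {ι : Type} (S : SAct ι) (g₀ : Equiv.Perm ℕ) (i i' : ι) :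
    IsOpen {x : turbFSet | S.act (turbFPerm x * g₀) i = i'} := by
  rw [isOpen_iff_mem_nhds]
  intro x hx
  obtain ⟨k, hk⟩ := S.fin (S.act g₀ i)
  have hopen : IsOpen {y : turbFSet | ∀ j ∈ Finset.range k, y.1.1 j = x.1.1 j} := by
    have : {y : turbFSet | ∀ j ∈ Finset.range k, y.1.1 j = x.1.1 j} =
        ⋂ j ∈ Finset.range k, {y : turbFSet | y.1.1 j = x.1.1 j} := by
      ext y; simp
    rw [this]
    refine isOpen_biInter_finset fun j _ => ?_
    have hc : Continuous fun y : turbFSet => y.1.1 j :=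
      (continuous_apply j).comp (continuous_fst.comp continuous_subtype_val)
    exact (isOpen_discrete ({x.1.1 j} : Set ℕ)).preimage hc
  refine Filter.mem_of_superset (hopen.mem_nhds (by intro j _; rfl)) ?_
  intro y hy
  have hfix : ∀ j < k, ((turbFPerm x)⁻¹ * turbFPerm y) j = j := by
    intro j hj
    rw [Equiv.Perm.mul_apply, Equiv.Perm.inv_eq_iff_eq]
    exact hy j (Finset.mem_range.2 hj)
  have h1 := hk _ hfix
  rw [map_mul, Equiv.Perm.mul_apply, map_inv, Equiv.Perm.inv_eq_iff_eq] at h1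
  have hx' : S.act (turbFPerm x * g₀) i = i' := hx
  show S.act (turbFPerm y * g₀) i = i'
  rw [map_mul, Equiv.Perm.mul_apply] at hx' ⊢
  rw [h1, hx']

theorem orbit_baireMeasurable {Z : Type*} [TopologicalSpace Z] [PolishSpace Z]
    [MeasurableSpace Z] [BorelSpace Z] {ι : Type} [Countable ι] (S : SAct ι)
    (p q : Z → ι → Prop) (hp : ∀ i, MeasurableSet {z | p z i})
    (hq : ∀ i, MeasurableSet {z | q z i}) (k : ℕ) (g₀ : Equiv.Perm ℕ) :
    BaireMeasurableSet
      {z | ∃ g : Equiv.Perm ℕ, (∀ j < k, g j = j) ∧ ∀ i, q z (S.act (g * g₀) i) ↔ p z i} := by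
  apply analyticSet_baireMeasurableSet
  have hpol : PolishSpace turbFSet := turbF_isClosed.polishSpace
  let W : Set (Z × turbFSet) := {zx | (∀ j < k, turbFPerm zx.2 j = j) ∧
    ∀ i i', S.act (turbFPerm zx.2 * g₀) i = i' → (q zx.1 i' ↔ p zx.1 i)}
  have hW : MeasurableSet W := by
    have h1 : MeasurableSet {zx : Z × turbFSet | ∀ j < k, turbFPerm zx.2 j = j} := by
      have : {zx : Z × turbFSet | ∀ j < k, turbFPerm zx.2 j = j} =
          ⋂ j : ℕ, ⋂ (_ : j < k), {zx : Z × turbFSet | turbFPerm zx.2 j = j} := by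
        ext; simp
      rw [this]
      refine MeasurableSet.iInter fun j => MeasurableSet.iInter fun _ => ?_
      have hc : Continuous fun y : turbFSet => y.1.1 j :=
        (continuous_apply j).comp (continuous_fst.comp continuous_subtype_val)
      have ho : IsOpen {x : turbFSet | turbFPerm x j = j} :=
        (isOpen_discrete ({j} : Set ℕ)).preimage hc
      exact ho.measurableSet.preimage measurable_snd
    have h2 : MeasurableSet {zx : Z × turbFSet |
        ∀ i i', S.act (turbFPerm zx.2 * g₀) i = i' → (q zx.1 i' ↔ p zx.1 i)} := by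
      have : {zx : Z × turbFSet |
          ∀ i i', S.act (turbFPerm zx.2 * g₀) i = i' → (q zx.1 i' ↔ p zx.1 i)} =
          ⋂ i : ι, ⋂ i' : ι, {zx : Z × turbFSet |
            S.act (turbFPerm zx.2 * g₀) i = i' → (q zx.1 i' ↔ p zx.1 i)} := by
        ext; simp
      rw [this]
      refine MeasurableSet.iInter fun i => MeasurableSet.iInter fun i' => ?_
      have ho : MeasurableSet {zx : Z × turbFSet | S.act (turbFPerm zx.2 * g₀) i = i'} :=
        (turbF_isOpen S g₀ i i').measurableSet.preimage measurable_snd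
      have hq' : MeasurableSet {zx : Z × turbFSet | q zx.1 i'} := (hq i').preimage measurable_fst
      have hp' : MeasurableSet {zx : Z × turbFSet | p zx.1 i} := (hp i).preimage measurable_fst
      have : {zx : Z × turbFSet |
            S.act (turbFPerm zx.2 * g₀) i = i' → (q zx.1 i' ↔ p zx.1 i)} =
          {zx : Z × turbFSet | S.act (turbFPerm zx.2 * g₀) i = i'}ᶜ ∪
          (({zx : Z × turbFSet | q zx.1 i'} ∩ {zx : Z × turbFSet | p zx.1 i}) ∪
           ({zx : Z × turbFSet | q zx.1 i'}ᶜ ∩ {zx : Z × turbFSet | p zx.1 i}ᶜ)) := by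
        ext zx
        simp only [Set.mem_ofPred_eq, Set.mem_union, Set.mem_inter_iff, Set.mem_compl_iff]
        tauto
      rw [this]
      exact ho.compl.union ((hq'.inter hp').union (hq'.compl.inter hp'.compl))
    exact h1.inter h2
  have himg : {z | ∃ g : Equiv.Perm ℕ, (∀ j < k, g j = j) ∧
      ∀ i, q z (S.act (g * g₀) i) ↔ p z i} = Prod.fst '' W := by
    ext z
    constructor
    · rintro ⟨g, hg, h⟩
      refine ⟨(z, ⟨(g, g.symm), ⟨fun n => g.apply_symm_apply n, fun n => g.symm_apply_apply n⟩⟩),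
        ⟨?_, ?_⟩, rfl⟩
      · exact hg
      · rintro i i' rfl
        exact h i
    · rintro ⟨⟨z', x⟩, ⟨h1, h2⟩, rfl⟩
      exact ⟨turbFPerm x, h1, fun i => h2 i _ rfl⟩
  rw [himg]
  exact hW.analyticSet_image measurable_fst

end MP_c82b80_an
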