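import Mathlib
import Pool.Agent.Lib.MP_c82b80_an.TurbB
import Pool.Agent.Lib.MP_c82b80_an.TurbF

/-!
# JOB TURB-C : local orbits

Setting: `V` a separable Banach space, `T : V → (ℕ → ℝ)` continuous linear with dense range,
`f : (ℕ → ℝ) → (ι → Prop)` Borel with `f (x + T v)` in the `Perm ℕ`-orbit of `f x` for all `x, v`.

`local_one`: fix `k`.  Every `g : Perm ℕ` can be written `g = h * g_j` with `h` fixing `0..k-1`
and `g_j` in a countable family (the coset of `g` is determined by `g⁻¹ 0, ..., g⁻¹ (k-1)`).  So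
`X × V` (`X = ℕ → ℝ`) is the union of the countably many sets
`Z_j = {(x, v) | ∃ h fixing 0..k-1, f (x + T v) = (h * g_j) • f x}`, Baire measurable by
`orbit_baireMeasurable` (with `p (x,v) = f x`, `q (x,v) = f (x + T v)`).
Given `O` open nonempty choose `x₀ ∈ O`, an open `O' ∋ x₀` and `η > 0` with `O' + T(ball 0 η) ⊆ O`.
Some `Z_j ∩ (O' × ball 0 η)` is not meagre, so `Z_j` is comeagre in some nonempty open
`U' × ball h₀ ε' ⊆ O' × ball 0 η`.  If `(x, v), (x, v') ∈ Z_j` then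
`S.IsoK k (f (x + T v)) (f (x + T v'))`.  So for comeagre many `(x, v, v')` in
`U' × ball h₀ ε' × ball h₀ ε'` we have this.  Change variables `z = x + T v`, `l = v' - v` (the map
`(x, v, v') ↦ ((z, l), v)` is a homeomorphism of `X × V × V`, use `Homeomorph.residual_map_eq`);
for `(z, l, v)` in `U × ball 0 ε × ball h₀ ε` (with `U` a small convex open neighbourhood of a point
`u' + T h₀`, `ε` small) the point is in the good region, and the relation
`S.IsoK k (f z) (f (z + T l))` does not depend on `v`, so by `kuratowski_ulam` (choose one good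
`v`, the ball is not meagre) it holds for comeagre many `(z, l) ∈ U × ball 0 ε`.

`local_two`: For comeagre many `z` (Kuratowski-Ulam, and the map `(z, l, l') ↦ (z + T l, l')` is
continuous and open, `tendsto_residual_of_isOpenMap`) we have: for comeagre many `(l, l')`, if
`z + T l ∈ U` and `‖l'‖ < ε` then `S.IsoK k (f (z + T l)) (f (z + T (l + l')))`; and for comeagre many
`l`, if `‖l‖ < ε` then `S.IsoK k (f z) (f (z + T l))`.  Fix such a `z ∈ U` and let `W` be the union of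
all open sets `B ⊆ V_z := {l | z + T l ∈ U}` in which `S.IsoK k (f z) (f (z + T l))` holds for comeagre
many `l`.  For any open `B ⊆ V_z` of diameter `< ε` meeting `W`, `B ⊆ W` (two comeagre many points of
`B` are related).  So `W` is open and closed in `V_z`, contains `0`, and `V_z` is convex, so
`W = V_z`; and the property holds for comeagre many `l` in `W` (Lindelöf: second countable).
-/

open Topology Filter

namespace MP_c82b80_an

variable {V : Type} [NormedAddCommGroup V] [NormedSpace ℝ V] [CompleteSpace V]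
  [SecondCountableTopology V] (T : V →L[ℝ] (ℕ → ℝ))
variable {ι : Type} [Countable ι] (S : SAct ι) (f : (ℕ → ℝ) → ι → Prop)

/-- two points in the same coset orbit are related by a permutation fixing `0, ..., k - 1` -/
private theorem turbC_iso {ι : Type} (S : SAct ι) {k : ℕ} {p q q' : ι → Prop} {g₀ : Equiv.Perm ℕ}
    (h : ∃ g : Equiv.Perm ℕ, (∀ j < k, g j = j) ∧ ∀ i, q (S.act (g * g₀) i) ↔ p i)
    (h' : ∃ g : Equiv.Perm ℕ, (∀ j < k, g j = j) ∧ ∀ i, q' (S.act (g * g₀) i) ↔ p i) :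
    S.IsoK k q q' := by
  obtain ⟨g, hg, h⟩ := h
  obtain ⟨g', hg', h'⟩ := h'
  refine ⟨g' * g⁻¹, fun j hj => ?_, fun i => ?_⟩
  · rw [Equiv.Perm.mul_apply]
    have : g⁻¹ j = j := by rw [Equiv.Perm.inv_eq_iff_eq, hg j hj]
    rw [this, hg' j hj]
  · have h1 := h (S.act (g₀⁻¹ * g⁻¹) i)
    have h2 := h' (S.act (g₀⁻¹ * g⁻¹) i)
    rw [← Equiv.Perm.mul_apply, ← map_mul] at h1 h2
    have e1 : g * g₀ * (g₀⁻¹ * g⁻¹) = 1 := by group
    have e2 : g' * g₀ * (g₀⁻¹ * g⁻¹) = g' * g⁻¹ := by group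
    rw [e1, map_one, Equiv.Perm.one_apply] at h1
    rw [e2] at h2
    rw [h1, h2]

/-- countably many cosets of the pointwise stabiliser of `0, ..., k - 1` -/
private theorem turbC_coset (k : ℕ) : ∃ G : (Fin k → ℕ) → Equiv.Perm ℕ,
    ∀ g : Equiv.Perm ℕ, ∃ a, ∃ h : Equiv.Perm ℕ, (∀ j < k, h j = j) ∧ g = h * G a := by
  classical
  refine ⟨fun a => if h : ∃ g : Equiv.Perm ℕ, ∀ j : Fin k, g⁻¹ j = a j then h.choose else 1,
    fun g => ?_⟩
  refine ⟨fun j => g⁻¹ j, ?_⟩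
  have hex : ∃ g' : Equiv.Perm ℕ, ∀ j : Fin k, g'⁻¹ (j : ℕ) = g⁻¹ (j : ℕ) := ⟨g, fun _ => rfl⟩
  simp only [dif_pos hex]
  refine ⟨g * (hex.choose)⁻¹, fun j hj => ?_, by group⟩
  have := hex.choose_spec ⟨j, hj⟩
  simp only at this
  rw [Equiv.Perm.mul_apply, this, ← Equiv.Perm.mul_apply, mul_inv_cancel, Equiv.Perm.one_apply]

/-- a comeagre set meets every nonempty open set -/
private theorem turbC_exists {X : Type*} [TopologicalSpace X] [BaireSpace X] {P : X → Prop}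
    (hP : ∀ᵇ x : X, P x) {O : Set X} (hO : IsOpen O) (hne : O.Nonempty) : ∃ x ∈ O, P x := by
  have hd : Dense {x | P x} := dense_of_mem_residual hP
  obtain ⟨x, hx, hxP⟩ := hd.inter_open_nonempty O hO hne
  exact ⟨x, hx, hxP⟩

/-- the change of variables -/
private theorem turbC_alpha : Tendsto (fun p : ((ℕ → ℝ) × V) × V => (p.1.1 - T p.2, p.2))
    (residual (((ℕ → ℝ) × V) × V)) (residual ((ℕ → ℝ) × V)) := by
  let e : ((ℕ → ℝ) × V) × V ≃ₜ ((ℕ → ℝ) × V) × V :=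
    { toFun := fun p => ((p.1.1 - T p.2, p.1.2), p.2)
      invFun := fun p => ((p.1.1 + T p.2, p.1.2), p.2)
      left_inv := fun p => by simp
      right_inv := fun p => by simp
      continuous_toFun := by fun_prop
      continuous_invFun := by fun_prop }
  have ho : IsOpenMap (Prod.map Prod.fst id : ((ℕ → ℝ) × V) × V → (ℕ → ℝ) × V) :=
    isOpenMap_fst.prodMap IsOpenMap.id
  exact tendsto_residual_of_isOpenMap (f := fun p : ((ℕ → ℝ) × V) × V => (p.1.1 - T p.2, p.2))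
    (by fun_prop) (ho.comp e.isOpenMap)

/-- the change of variables -/
private theorem turbC_beta : Tendsto (fun p : ((ℕ → ℝ) × V) × V => (p.1.1 - T p.2, p.2 + p.1.2))
    (residual (((ℕ → ℝ) × V) × V)) (residual ((ℕ → ℝ) × V)) := by
  let e : ((ℕ → ℝ) × V) × V ≃ₜ ((ℕ → ℝ) × V) × V :=
    { toFun := fun p => ((p.1.1 - T p.2, p.2 + p.1.2), p.2)
      invFun := fun p => ((p.1.1 + T p.2, p.1.2 - p.2), p.2)
      left_inv := fun p => by simp
      right_inv := fun p => by simp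
      continuous_toFun := by fun_prop
      continuous_invFun := by fun_prop }
  have ho : IsOpenMap (Prod.fst : ((ℕ → ℝ) × V) × V → (ℕ → ℝ) × V) := isOpenMap_fst
  exact tendsto_residual_of_isOpenMap
    (f := fun p : ((ℕ → ℝ) × V) × V => (p.1.1 - T p.2, p.2 + p.1.2))
    (by fun_prop) (ho.comp e.isOpenMap)

theorem local_one (hf : ∀ i, MeasurableSet {x | f x i})
    (hinv : ∀ x v, S.Iso (f x) (f (x + T v))) (k : ℕ) (O : Set (ℕ → ℝ)) (hO : IsOpen O)
    (hne : O.Nonempty) :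
    ∃ U ⊆ O, IsOpen U ∧ U.Nonempty ∧ Convex ℝ U ∧ ∃ ε > 0,
      ∀ᵇ p : (ℕ → ℝ) × V, p.1 ∈ U → ‖p.2‖ < ε → S.IsoK k (f p.1) (f (p.1 + T p.2)) := by
  classical
  borelize V
  obtain ⟨x₀, hx₀⟩ := hne
  -- the neighbourhoods `O'` and `ball 0 η`
  have hcont : Continuous (fun p : (ℕ → ℝ) × V => p.1 + T p.2) := by fun_prop
  have hQo : IsOpen {p : (ℕ → ℝ) × V | p.1 + T p.2 ∈ O} := hO.preimage hcont
  have hQne : {p : (ℕ → ℝ) × V | p.1 + T p.2 ∈ O}.Nonempty := ⟨(x₀, 0), by simpa using hx₀⟩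
  set Q : Set ((ℕ → ℝ) × V) := {p | p.1 + T p.2 ∈ O} with hQ
  obtain ⟨G, hG⟩ := turbC_coset k
  let Z : (Fin k → ℕ) → Set ((ℕ → ℝ) × V) := fun a =>
    {p | ∃ g : Equiv.Perm ℕ, (∀ j < k, g j = j) ∧
      ∀ i, f (p.1 + T p.2) (S.act (g * G a) i) ↔ f p.1 i}
  have hZ : ∀ a, BaireMeasurableSet (Z a) := fun a =>
    orbit_baireMeasurable S (fun p : (ℕ → ℝ) × V => f p.1) (fun p => f (p.1 + T p.2))
      (fun i => measurable_fst (hf i)) (fun i => hcont.measurable (hf i)) k (G a)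
  have hZu : ∀ p, ∃ a, p ∈ Z a := fun p => by
    obtain ⟨g, hg⟩ := hinv p.1 p.2
    obtain ⟨a, h, hh, rfl⟩ := hG g
    exact ⟨a, h, hh, hg⟩
  choose W hWo hWZ using fun a => (hZ a).residualEq_isOpen
  have hWZ' : ∀ᵇ p : (ℕ → ℝ) × V, ∀ a, (p ∈ Z a ↔ p ∈ W a) := by
    rw [eventually_countable_forall]
    intro a
    filter_upwards [hWZ a] with p hp
    exact iff_of_eq hp
  obtain ⟨⟨u', h₀⟩, hmem, hiff⟩ := turbC_exists hWZ' hQo hQne
  obtain ⟨a, ha⟩ := hZu (u', h₀)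
  have haW : (u', h₀) ∈ W a := (hiff a).1 ha
  have haO : u' + T h₀ ∈ O := hmem
  have hgood : ∀ᵇ p : (ℕ → ℝ) × V, p ∈ W a → p ∈ Z a := by
    filter_upwards [hWZ'] with p hp
    exact (hp a).2
  have h1 := (turbC_alpha T).eventually hgood
  have h2 := (turbC_beta T).eventually hgood
  -- neighbourhoods
  have hA : ∀ᶠ p : ((ℕ → ℝ) × V) × V in 𝓝 ((u' + T h₀, 0), h₀),
      (p.1.1 - T p.2, p.2) ∈ W a ∧ (p.1.1 - T p.2, p.2 + p.1.2) ∈ W a := by
    have c1 : ContinuousAt (fun p : ((ℕ → ℝ) × V) × V => (p.1.1 - T p.2, p.2))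
      ((u' + T h₀, 0), h₀) := by fun_prop
    have c2 : ContinuousAt (fun p : ((ℕ → ℝ) × V) × V => (p.1.1 - T p.2, p.2 + p.1.2))
      ((u' + T h₀, 0), h₀) := by fun_prop
    refine (c1.eventually ?_).and (c2.eventually ?_)
    · simpa using (hWo a).mem_nhds haW
    · simpa using (hWo a).mem_nhds haW
  rw [nhds_prod_eq, nhds_prod_eq] at hA
  obtain ⟨A1, hA1, N, hN, hAN⟩ := Filter.mem_prod_iff.1 hA
  obtain ⟨U1, hU1, E1, hE1, hUE⟩ := Filter.mem_prod_iff.1 hA1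
  obtain ⟨ε, hε, hεE⟩ := Metric.mem_nhds_iff.1 hE1
  have hU2 : U1 ∩ O ∈ 𝓝 (u' + T h₀) := Filter.inter_mem hU1 (hO.mem_nhds haO)
  obtain ⟨U0, ⟨hU0m, hU0c⟩, hU0sub⟩ :=
    (LocallyConvexSpace.convex_basis (𝕜 := ℝ) (u' + T h₀)).mem_iff.1 hU2
  obtain ⟨U, hUm, hUo, hUc, hUsub⟩ : ∃ U : Set (ℕ → ℝ), u' + T h₀ ∈ U ∧ IsOpen U ∧ Convex ℝ U ∧
      U ⊆ U1 ∩ O :=
    ⟨interior U0, mem_interior_iff_mem_nhds.2 hU0m, isOpen_interior, hU0c.interior,
      interior_subset.trans hU0sub⟩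
  refine ⟨U, fun x hx => (hUsub hx).2, hUo, ⟨_, hUm⟩, hUc, ε, hε, ?_⟩
  have h3 : ∀ᵇ p : ((ℕ → ℝ) × V) × V, p.1.1 ∈ U → ‖p.1.2‖ < ε → p.2 ∈ N →
      S.IsoK k (f p.1.1) (f (p.1.1 + T p.1.2)) := by
    filter_upwards [h1, h2] with p hp1 hp2 hpU hpε hpN
    have hp : ((p.1.1 - T p.2, p.2) ∈ W a ∧ (p.1.1 - T p.2, p.2 + p.1.2) ∈ W a) :=
      hAN (show p ∈ A1 ×ˢ N from ⟨hUE ⟨(hUsub hpU).1, hεE (by simpa using hpε)⟩, hpN⟩)
    have q1 := hp1 hp.1
    have q2 := hp2 hp.2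
    have e1 : p.1.1 - T p.2 + T p.2 = p.1.1 := by abel
    have e2 : p.1.1 - T p.2 + T (p.2 + p.1.2) = p.1.1 + T p.1.2 := by
      rw [map_add]; abel
    have := turbC_iso S (q := f (p.1.1 - T p.2 + T p.2))
      (q' := f (p.1.1 - T p.2 + T (p.2 + p.1.2))) q1 q2
    rwa [e1, e2] at this
  have h4 := kuratowski_ulam h3
  filter_upwards [h4] with q hq hqU hqε
  obtain ⟨v, hv, hvP⟩ := turbC_exists (P := fun v => q.1 ∈ U → ‖q.2‖ < ε → v ∈ N →
      S.IsoK k (f q.1) (f (q.1 + T q.2))) hq (isOpen_interior (s := N))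
    ⟨h₀, mem_interior_iff_mem_nhds.2 hN⟩
  exact hvP hqU hqε (interior_subset hv)

theorem local_two (k : ℕ) {U : Set (ℕ → ℝ)} (hU : IsOpen U) (hUc : Convex ℝ U) {ε : ℝ}
    (hε : 0 < ε)
    (h : ∀ᵇ p : (ℕ → ℝ) × V, p.1 ∈ U → ‖p.2‖ < ε → S.IsoK k (f p.1) (f (p.1 + T p.2))) :
    ∀ᵇ z : ℕ → ℝ, z ∈ U → ∀ᵇ v : V, z + T v ∈ U → S.IsoK k (f z) (f (z + T v)) := by
  classical
  -- pull back along `(z, (l, l')) ↦ (z + T l, l')`
  have h1 : ∀ᵇ p : (ℕ → ℝ) × (V × V), p.1 + T p.2.1 ∈ U → ‖p.2.2‖ < ε →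
      S.IsoK k (f (p.1 + T p.2.1)) (f (p.1 + T p.2.1 + T p.2.2)) := by
    let e : (ℕ → ℝ) × (V × V) ≃ₜ (ℕ → ℝ) × (V × V) :=
      { toFun := fun p => (p.1 + T p.2.1, p.2)
        invFun := fun p => (p.1 - T p.2.1, p.2)
        left_inv := fun p => by simp
        right_inv := fun p => by simp
        continuous_toFun := by fun_prop
        continuous_invFun := by fun_prop }
    have ho : IsOpenMap (Prod.map id Prod.snd : (ℕ → ℝ) × (V × V) → (ℕ → ℝ) × V) :=
      IsOpenMap.id.prodMap isOpenMap_snd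
    have := tendsto_residual_of_isOpenMap
      (f := fun p : (ℕ → ℝ) × (V × V) => (p.1 + T p.2.1, p.2.2))
      (by fun_prop) (ho.comp e.isOpenMap)
    exact this.eventually h
  have h2 := kuratowski_ulam h1
  have h3 := kuratowski_ulam h
  filter_upwards [h2, h3] with z hz2 hz3 hzU
  have hz2' : ∀ᵇ q : V × V, z + T q.1 ∈ U → ‖q.2‖ < ε →
      S.IsoK k (f (z + T q.1)) (f (z + T q.1 + T q.2)) := hz2
  have hz3' : ∀ᵇ l : V, z ∈ U → ‖l‖ < ε → S.IsoK k (f z) (f (z + T l)) := hz3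
  have hz4 := kuratowski_ulam hz2'
  have hcont : Continuous (fun l : V => z + T l) := by fun_prop
  set Vz : Set V := {l | z + T l ∈ U} with hVz
  have hVo : IsOpen Vz := hU.preimage hcont
  have hVc : Convex ℝ Vz := by
    have e : Vz = (T : V →ₗ[ℝ] (ℕ → ℝ)) ⁻¹' ((fun x => z + x) ⁻¹' U) := rfl
    rw [e]
    exact (hUc.translate_preimage_right z).linear_preimage _
  let F : Set (Set V) := {B | IsOpen B ∧ B ⊆ Vz ∧ ∀ᵇ l : V, l ∈ B → S.IsoK k (f z) (f (z + T l))}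
  have hWo : IsOpen (⋃₀ F) := isOpen_sUnion fun B hB => hB.1
  have hWP : ∀ᵇ l : V, l ∈ ⋃₀ F → S.IsoK k (f z) (f (z + T l)) := by
    obtain ⟨F', hF'c, hF'F, hF'e⟩ := TopologicalSpace.isOpen_sUnion_countable F fun B hB => hB.1
    have : ∀ᵇ l : V, ∀ B ∈ F', l ∈ B → S.IsoK k (f z) (f (z + T l)) :=
      (eventually_countable_ball hF'c).2 fun B hB => (hF'F hB).2.2
    filter_upwards [this] with l hl hlF
    rw [← hF'e] at hlF
    obtain ⟨B, hB, hlB⟩ := hlF
    exact hl B hB hlB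
  have h0 : (0 : V) ∈ Vz := by simpa [hVz] using hzU
  have hsub : Vz ⊆ ⋃₀ F := by
    refine hVc.isPreconnected.subset_of_closure_inter_subset hWo ⟨0, h0, ?_⟩ ?_
    · refine ⟨Vz ∩ Metric.ball 0 ε, ⟨hVo.inter Metric.isOpen_ball, Set.inter_subset_left, ?_⟩,
        h0, Metric.mem_ball_self hε⟩
      filter_upwards [hz3'] with l hl hlB
      exact hl hzU (by simpa using hlB.2)
    · rintro l₀ ⟨hl₀c, hl₀V⟩
      set B : Set V := Vz ∩ Metric.ball l₀ (ε / 2) with hB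
      have hBo : IsOpen B := hVo.inter Metric.isOpen_ball
      have hl₀B : l₀ ∈ B := ⟨hl₀V, Metric.mem_ball_self (by linarith)⟩
      have hne : (B ∩ ⋃₀ F).Nonempty := by
        have := mem_closure_iff.1 hl₀c B hBo hl₀B
        exact this
      obtain ⟨l, ⟨hlB, hlF⟩, hl1, hl2⟩ := turbC_exists (hz4.and hWP) (hBo.inter hWo) hne
      have hl1' : ∀ᵇ l' : V, z + T l ∈ U → ‖l'‖ < ε →
          S.IsoK k (f (z + T l)) (f (z + T l + T l')) := hl1
      have hl3 := hl2 hlF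
      have htr : Tendsto (fun l'' : V => l'' - l) (residual V) (residual V) :=
        tendsto_residual_of_isOpenMap (by fun_prop) (Homeomorph.subRight l).isOpenMap
      have hl4 := htr.eventually hl1'
      refine ⟨B, ⟨hBo, Set.inter_subset_left, ?_⟩, hl₀B⟩
      filter_upwards [hl4] with l'' hl'' hl''B
      have hnorm : ‖l'' - l‖ < ε := by
        have d1 := hl''B.2
        have d2 := hlB.2
        rw [Metric.mem_ball] at d1 d2
        rw [← dist_eq_norm]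
        have := dist_triangle_right l'' l l₀
        linarith
      have := hl'' hlB.1 hnorm
      have e : z + T l + T (l'' - l) = z + T l'' := by
        rw [map_sub]; abel
      rw [e] at this
      exact hl3.trans this
  filter_upwards [hWP] with l hl hlV
  exact hl (hsub hlV)

end MP_c82b80_an
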