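import Mathlib

/-!
# JOB TURB-E : l2 as a separable Banach space mapping onto a dense subspace of `ℕ → ℝ`

Take `V = lp (fun _ : ℕ => ℝ) 2`, `T` the coercion to functions; separability: the finitely
supported sequences with rational values are dense (`lp.hasSum_single`).
-/

open Topology

namespace MP_c82b80_an

private theorem turbE_separable :
    TopologicalSpace.SeparableSpace (lp (fun _ : ℕ => ℝ) 2) := by
  have hspan : TopologicalSpace.IsSeparable
      ((Submodule.span ℝ (Set.range (fun n : ℕ => lp.single (E := fun _ : ℕ => ℝ) 2 n (1 : ℝ))) :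
        Submodule ℝ (lp (fun _ : ℕ => ℝ) 2)) : Set (lp (fun _ : ℕ => ℝ) 2)) :=
    TopologicalSpace.IsSeparable.span (Set.countable_range _).isSeparable
  rw [← TopologicalSpace.isSeparable_univ_iff]
  refine hspan.closure.mono ?_
  intro f _
  have hs := lp.hasSum_single (p := 2) (by norm_num) f
  refine mem_closure_of_tendsto hs (Filter.Eventually.of_forall fun s => ?_)
  refine Submodule.sum_mem _ fun i _ => ?_
  have : lp.single (E := fun _ : ℕ => ℝ) 2 i (f i) =
      (f i) • lp.single (E := fun _ : ℕ => ℝ) 2 i (1 : ℝ) := by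
    rw [← lp.single_smul]
    simp
  rw [this]
  exact Submodule.smul_mem _ _ (Submodule.subset_span ⟨i, rfl⟩)

theorem exists_l2 : ∃ (V : Type) (_ : NormedAddCommGroup V) (_ : NormedSpace ℝ V)
    (_ : CompleteSpace V) (_ : SecondCountableTopology V) (T : V →L[ℝ] (ℕ → ℝ)),
    DenseRange T ∧ ∀ v, Summable (fun n => (T v n) ^ 2) := by
  have := turbE_separable
  have : SecondCountableTopology (lp (fun _ : ℕ => ℝ) 2) :=
    UniformSpace.secondCountable_of_separable _
  refine ⟨lp (fun _ : ℕ => ℝ) 2, inferInstance, inferInstance, inferInstance, inferInstance,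
    ContinuousLinearMap.pi fun n => lp.evalCLM ℝ (fun _ : ℕ => ℝ) 2 n, ?_, ?_⟩
  · intro f
    have hlim : Filter.Tendsto (fun n : ℕ =>
        (ContinuousLinearMap.pi fun n => lp.evalCLM ℝ (fun _ : ℕ => ℝ) 2 n :
          lp (fun _ : ℕ => ℝ) 2 →L[ℝ] (ℕ → ℝ))
        (∑ i ∈ Finset.range n, lp.single (E := fun _ : ℕ => ℝ) 2 i (f i)))
        Filter.atTop (𝓝 f) := by
      rw [tendsto_pi_nhds]
      intro j
      refine tendsto_const_nhds.congr' ?_
      filter_upwards [Filter.eventually_gt_atTop j] with n hn
      simp only [ContinuousLinearMap.coe_pi', map_sum, Finset.sum_apply]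
      rw [Finset.sum_eq_single j]
      · simp [lp.evalCLM]
      · intro b _ hb
        simp [lp.evalCLM, hb.symm]
      · intro h
        exact absurd (Finset.mem_range.2 hn) h
    exact mem_closure_of_tendsto hlim (Filter.Eventually.of_forall fun n => ⟨_, rfl⟩)
  · intro v
    have h := (lp.memℓp v).summable (by norm_num)
    simpa [lp.evalCLM] using h

end MP_c82b80_an
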