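import Mathlib
import Pool.Agent.Lib.MP_c82b80_an.TurbC
import Pool.Agent.Lib.MP_c82b80_an.TurbE

/-!
# JOB TURB-D : the l2 translation action is generically ergodic against actions of S_infinity

`generic_ergodic_aux`: the back-and-forth argument.
Let `G_k` be the union of all nonempty open `U` with
`∀ᵇ z, z ∈ U → ∀ᵇ v, z + T v ∈ U → S.IsoK k (f z) (f (z + T v))` (property `P k U`); it is open and
dense by `local_one`, `local_two`; use countably many basic open sets `U` (a smaller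
open set inherits `P k U`).  Let `C₀` be a comeagre set on which `f` is continuous
(`exists_residual_continuousOn`), contained in all `G_k`, and such that for `z ∈ C₀`, every
`k` and every basic open `U` with `P k U` and `z ∈ U`: `∀ᵇ v, z + T v ∈ U → S.IsoK k (f z) (f (z + T v))`.
Let `C_{n+1} = {z ∈ C_n | ∀ᵇ v, z + T v ∈ C_n}` (comeagre: Kuratowski-Ulam and the open map
`(z, v) ↦ z + T v`) and `C = ⋂ C_n`: for `z ∈ C` we have `∀ᵇ v, z + T v ∈ C`.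
Let `x, y ∈ C`.  Construct `x = x₀, x₁, ...` and `y = y₀, y₁, ...` in `C` and permutations
`g_n, h_n` with `f x_n = g_n • f x`, `f y_n = h_n • f y` (that is
`∀ i, f x_n (S.act g_n i) ↔ f x i`): at a stage we have a basic open
`U ∋ x_n, y_n` with `P k U` (start: `U = univ`, `k = 0`, `S.IsoK 0 = S.Iso`).  Let `k' > k` be
larger than all `h_n j, (h_n)⁻¹ j`, `j ≤ n`.  Choose `U' ⊆ U` basic open with
`P k' U'`, `y_n ∈ U'`, and so small that for `z ∈ C ∩ U'` the first `n` coordinates of `f z` and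
`f y_n` agree.  By density of `T V` and Baire there is `v` with `x_{n+1} := x_n + T v ∈ C ∩ U'` and
`S.IsoK k (f x_n) (f x_{n+1})`: so `g_{n+1} = s * g_n` with `s` fixing `0..k-1`.  Then exchange the
roles of `x` and `y` (now `U'`, `k'`).  The sequences `g_n`, `g_n⁻¹`, `h_n`, `h_n⁻¹` converge
pointwise to permutations `g, h`, and `g • f x = h • f y` because every coordinate stabilises
(for `i : ι`, `S.act g_n i` is eventually constant, by finite support).  So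
`f y = (h⁻¹ g) • f x`.
-/

open Topology Filter

namespace MP_c82b80_an

section aux

variable {V : Type} [NormedAddCommGroup V] [NormedSpace ℝ V] [CompleteSpace V]
  [SecondCountableTopology V] (T : V →L[ℝ] (ℕ → ℝ))

omit [CompleteSpace V] in
private theorem TurbD_shift {D : Set (ℕ → ℝ)} (hD : D ∈ residual (ℕ → ℝ)) :
    ∀ᵇ z : ℕ → ℝ, ∀ᵇ v : V, z + T v ∈ D := by
  let e : ((ℕ → ℝ) × V) ≃ₜ ((ℕ → ℝ) × V) :=
    { toFun := fun p => (p.1 + T p.2, p.2)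
      invFun := fun p => (p.1 - T p.2, p.2)
      left_inv := fun p => by simp
      right_inv := fun p => by simp
      continuous_toFun := by fun_prop
      continuous_invFun := by fun_prop }
  have ho : IsOpenMap (fun p : (ℕ → ℝ) × V => p.1 + T p.2) :=
    (isOpenMap_fst.comp e.isOpenMap : IsOpenMap (Prod.fst ∘ e))
  have hc : Continuous (fun p : (ℕ → ℝ) × V => p.1 + T p.2) := by fun_prop
  have h := tendsto_residual_of_isOpenMap hc ho hD
  exact kuratowski_ulam h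

omit [CompleteSpace V] in
private theorem TurbD_inv {D : Set (ℕ → ℝ)} (hD : D ∈ residual (ℕ → ℝ)) :
    ∃ C ⊆ D, C ∈ residual (ℕ → ℝ) ∧ ∀ z ∈ C, ∀ᵇ v : V, z + T v ∈ C := by
  let F : ℕ → Set (ℕ → ℝ) := fun n =>
    Nat.rec D (fun _ E => {z | z ∈ E ∧ ∀ᵇ v : V, z + T v ∈ E}) n
  have hFs : ∀ n, F (n + 1) = {z | z ∈ F n ∧ ∀ᵇ v : V, z + T v ∈ F n} := fun n => rfl
  have hres : ∀ n, F n ∈ residual (ℕ → ℝ) := by
    intro n
    induction n with
    | zero => exact hD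
    | succ n ih =>
      rw [hFs]
      exact Filter.inter_mem ih (TurbD_shift T ih)
  refine ⟨⋂ n, F n, Set.iInter_subset F 0, ?_, ?_⟩
  · exact countable_iInter_mem.2 hres
  · intro z hz
    have h1 : ∀ n, ∀ᵇ v : V, z + T v ∈ F n := fun n => by
      have h2 := Set.mem_iInter.1 hz (n + 1)
      exact h2.2
    have h := eventually_countable_forall.2 h1
    exact h.mono (fun v hv => Set.mem_iInter.2 hv)

/-- The local property on a set `C` of points. -/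
private def TurbD_PT {ι : Type} (S : SAct ι) (f : (ℕ → ℝ) → ι → Prop) (C : Set (ℕ → ℝ)) (m : ℕ)
    (W : Set (ℕ → ℝ)) : Prop :=
  ∀ z ∈ C, z ∈ W → ∀ᵇ v : V, z + T v ∈ W → S.IsoK m (f z) (f (z + T v))

omit [CompleteSpace V] [SecondCountableTopology V] in
private theorem TurbD_PT.mono {ι : Type} {S : SAct ι} {f : (ℕ → ℝ) → ι → Prop}
    {C : Set (ℕ → ℝ)} {m : ℕ} {W W' : Set (ℕ → ℝ)} (h : TurbD_PT T S f C m W) (hW : W' ⊆ W) :
    TurbD_PT T S f C m W' := by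
  intro z hz hzW
  exact (h z hz (hW hzW)).mono fun v hv hvW => hv (hW hvW)

omit [SecondCountableTopology V] in
private theorem TurbD_half (hT : DenseRange T) {ι : Type} (S : SAct ι) (f : (ℕ → ℝ) → ι → Prop)
    (C : Set (ℕ → ℝ)) (hC : ∀ z ∈ C, ∀ᵇ v : V, z + T v ∈ C)
    (hcont : ∀ z ∈ C, ∀ i, ∃ O : Set (ℕ → ℝ), IsOpen O ∧ z ∈ O ∧
      ∀ y ∈ C, y ∈ O → (f y i ↔ f z i))
    (hG : ∀ z ∈ C, ∀ m, ∃ W, IsOpen W ∧ z ∈ W ∧ TurbD_PT T S f C m W)
    {a b : ℕ → ℝ} (ha : a ∈ C) (hb : b ∈ C) {U : Set (ℕ → ℝ)} (hU : IsOpen U) (haU : a ∈ U)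
    (hbU : b ∈ U) (k : ℕ) (hP : TurbD_PT T S f C k U) (m : ℕ) (F : Set ι) (hF : F.Finite) :
    ∃ a' ∈ C, ∃ s : Equiv.Perm ℕ, (∀ j < k, s j = j) ∧ (∀ i, f a' (S.act s i) ↔ f a i) ∧
      ∃ U' ⊆ U, IsOpen U' ∧ b ∈ U' ∧ a' ∈ U' ∧ TurbD_PT T S f C m U' ∧
        ∀ z ∈ C, z ∈ U' → ∀ i ∈ F, (f z i ↔ f b i) := by
  obtain ⟨W, hWo, hbW, hW⟩ := hG b hb m
  choose O hOo hbO hO using hcont b hb
  let U' : Set (ℕ → ℝ) := (U ∩ W) ∩ ⋂ i ∈ F, O i
  have hU'o : IsOpen U' := (hU.inter hWo).inter (hF.isOpen_biInter fun i _ => hOo i)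
  have hbU' : b ∈ U' := ⟨⟨hbU, hbW⟩, Set.mem_iInter₂.2 fun i _ => hbO i⟩
  have hU'U : U' ⊆ U := fun z hz => hz.1.1
  have hU'W : U' ⊆ W := fun z hz => hz.1.2
  have h1 : ∀ᵇ v : V, a + T v ∈ C ∧ (a + T v ∈ U → S.IsoK k (f a) (f (a + T v))) :=
    (hC a ha).and (hP a ha haU)
  have h2 : IsOpen {v : V | a + T v ∈ U'} := hU'o.preimage (by fun_prop)
  have h3 : {v : V | a + T v ∈ U'}.Nonempty := by
    have h4 : IsOpen {w : ℕ → ℝ | a + w ∈ U'} := hU'o.preimage (by fun_prop)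
    obtain ⟨v, hv⟩ := hT.exists_mem_open h4 ⟨b - a, by simpa using hbU'⟩
    exact ⟨v, hv⟩
  obtain ⟨v, hv, hv1⟩ := (dense_of_mem_residual h1).inter_open_nonempty _ h2 h3
  obtain ⟨s, hs, hs'⟩ := hv1.2 (hU'U hv)
  refine ⟨a + T v, hv1.1, s, hs, hs', U', hU'U, hU'o, hbU', hv, hW.mono T hU'W, ?_⟩
  intro z hz hzU i hi
  exact hO i z hz (Set.mem_iInter₂.1 hzU.2 i hi)

end aux

private theorem TurbD_lim (α : ℕ → Equiv.Perm ℕ)
    (h : ∀ n, ∀ j < n, α (n + 1) j = α n j ∧ (α (n + 1))⁻¹ j = (α n)⁻¹ j) :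
    ∃ α' : Equiv.Perm ℕ, ∀ n, ∀ j < n, α n j = α' j ∧ (α n)⁻¹ j = α'⁻¹ j := by
  have hst : ∀ n m, n ≤ m → ∀ j < n, α m j = α n j ∧ (α m)⁻¹ j = (α n)⁻¹ j := by
    intro n m hnm
    induction m, hnm using Nat.le_induction with
    | base => intro j _; exact ⟨rfl, rfl⟩
    | succ m hm ih =>
      intro j hj
      have h1 := h m j (lt_of_lt_of_le hj hm)
      have h2 := ih j hj
      exact ⟨h1.1.trans h2.1, h1.2.trans h2.2⟩
  have key : ∀ n j, j < n → α n j = α (j + 1) j ∧ (α n)⁻¹ j = (α (j + 1))⁻¹ j := by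
    intro n j hj
    exact hst (j + 1) n hj j (Nat.lt_succ_self j)
  let α' : Equiv.Perm ℕ :=
    { toFun := fun j => α (j + 1) j
      invFun := fun j => (α (j + 1))⁻¹ j
      left_inv := fun j => by
        set n := max (j + 1) (α (j + 1) j + 1) with hn
        have h1 := (key n j (lt_of_lt_of_le (Nat.lt_succ_self j) (le_max_left _ _))).1
        have h2 := (key n (α (j + 1) j)
          (lt_of_lt_of_le (Nat.lt_succ_self _) (le_max_right _ _))).2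
        change (α (α (j + 1) j + 1))⁻¹ (α (j + 1) j) = j
        rw [← h2, ← h1]; exact (α n).symm_apply_apply j
      right_inv := fun j => by
        set n := max (j + 1) ((α (j + 1))⁻¹ j + 1) with hn
        have h1 := (key n j (lt_of_lt_of_le (Nat.lt_succ_self j) (le_max_left _ _))).2
        have h2 := (key n ((α (j + 1))⁻¹ j)
          (lt_of_lt_of_le (Nat.lt_succ_self _) (le_max_right _ _))).1
        change α ((α (j + 1))⁻¹ j + 1) ((α (j + 1))⁻¹ j) = j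
        rw [← h2, ← h1]; exact (α n).apply_symm_apply j }
  refine ⟨α', fun n j hj => ?_⟩
  have h1 := key n j hj
  exact ⟨h1.1, h1.2⟩

private theorem TurbD_limAct {ι : Type} (S : SAct ι) (α : ℕ → Equiv.Perm ℕ) (α' : Equiv.Perm ℕ)
    (h : ∀ n, ∀ j < n, α n j = α' j) (i : ι) :
    ∃ N, ∀ n, N ≤ n → S.act (α n) i = S.act α' i := by
  obtain ⟨k, hk⟩ := S.fin i
  refine ⟨k, fun n hn => ?_⟩
  have h1 : S.act (α'⁻¹ * α n) i = i := by
    refine hk _ fun j hj => ?_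
    rw [Equiv.Perm.mul_apply, h n j (lt_of_lt_of_le hj hn)]
    exact α'.symm_apply_apply j
  calc S.act (α n) i = S.act (α' * (α'⁻¹ * α n)) i := by rw [mul_inv_cancel_left]
    _ = S.act α' (S.act (α'⁻¹ * α n) i) := by rw [map_mul, Equiv.Perm.mul_apply]
    _ = S.act α' i := by rw [h1]

private theorem TurbD_bound (g : ℕ → ℕ) (k n : ℕ) : ∃ m, k ≤ m ∧ ∀ j < n, j < m ∧ g j < m := by
  refine ⟨max k (max n ((Finset.range n).sup g + 1)), le_max_left _ _, fun j hj => ⟨?_, ?_⟩⟩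
  · exact lt_of_lt_of_le hj ((le_max_left _ _).trans (le_max_right _ _))
  · refine lt_of_lt_of_le (Nat.lt_succ_of_le ?_) ((le_max_right _ _).trans (le_max_right _ _))
    exact Finset.le_sup (f := g) (Finset.mem_range.2 hj)

theorem generic_ergodic_aux {V : Type} [NormedAddCommGroup V] [NormedSpace ℝ V] [CompleteSpace V]
    [SecondCountableTopology V] (T : V →L[ℝ] (ℕ → ℝ)) (hT : DenseRange T)
    {ι : Type} [Countable ι] (S : SAct ι) (f : (ℕ → ℝ) → ι → Prop)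
    (hf : ∀ i, MeasurableSet {x | f x i})
    (hinv : ∀ x v, S.Iso (f x) (f (x + T v))) :
    ∃ C ∈ residual (ℕ → ℝ), ∀ x ∈ C, ∀ y ∈ C, S.Iso (f x) (f y) := by
  classical
  -- the comeagre set
  obtain ⟨C1, hC1, hC1c⟩ := exists_residual_continuousOn f hf
  let P : ℕ → Set (ℕ → ℝ) → Prop := fun k U =>
    ∀ᵇ z : ℕ → ℝ, z ∈ U → ∀ᵇ v : V, z + T v ∈ U → S.IsoK k (f z) (f (z + T v))
  have hPmono : ∀ k U U', U' ⊆ U → P k U → P k U' := by
    intro k U U' hUU h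
    exact h.mono fun z hz hzU => (hz (hUU hzU)).mono fun v hv hvU => hv (hUU hvU)
  let B := TopologicalSpace.countableBasis (ℕ → ℝ)
  have hB := TopologicalSpace.isBasis_countableBasis (ℕ → ℝ)
  have hBc : B.Countable := TopologicalSpace.countable_countableBasis _
  let G : ℕ → Set (ℕ → ℝ) := fun k => ⋃₀ {U | U ∈ B ∧ P k U}
  have hGres : ∀ k, G k ∈ residual (ℕ → ℝ) := by
    intro k
    refine residual_of_dense_open ?_ ?_
    · exact isOpen_sUnion fun U hU => hB.isOpen hU.1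
    · rw [dense_iff_inter_open]
      intro O hO hOne
      obtain ⟨U, hUO, hUo, ⟨u, hu⟩, hUc, ε, hε, h⟩ := local_one T S f hf hinv k O hO hOne
      have hPU : P k U := local_two T S f k hUo hUc hε h
      obtain ⟨W, hWB, huW, hWU⟩ := hB.exists_subset_of_mem_open hu hUo
      exact ⟨u, hUO hu, W, ⟨hWB, hPmono k U W hWU hPU⟩, huW⟩
  let D2 : Set (ℕ → ℝ) := {z | ∀ k, ∀ U ∈ B, P k U → z ∈ U →
    ∀ᵇ v : V, z + T v ∈ U → S.IsoK k (f z) (f (z + T v))}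
  have hD2 : D2 ∈ residual (ℕ → ℝ) := by
    have h1 : ∀ k, ∀ U ∈ B, ∀ᵇ z : ℕ → ℝ, P k U → z ∈ U →
        ∀ᵇ v : V, z + T v ∈ U → S.IsoK k (f z) (f (z + T v)) := by
      intro k U _
      by_cases hPU : P k U
      · exact hPU.mono fun z hz _ => hz
      · exact Filter.Eventually.of_forall fun z hz => absurd hz hPU
    have h2 : ∀ k, ∀ᵇ z : ℕ → ℝ, ∀ U ∈ B, P k U → z ∈ U →
        ∀ᵇ v : V, z + T v ∈ U → S.IsoK k (f z) (f (z + T v)) := by
      intro k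
      exact (eventually_countable_ball hBc).2 (h1 k)
    exact eventually_countable_forall.2 h2
  have hD : C1 ∩ ((⋂ k, G k) ∩ D2) ∈ residual (ℕ → ℝ) :=
    Filter.inter_mem hC1 (Filter.inter_mem (countable_iInter_mem.2 hGres) hD2)
  obtain ⟨C, hCD, hCres, hC⟩ := TurbD_inv T hD
  have hcont : ∀ z ∈ C, ∀ i, ∃ O : Set (ℕ → ℝ), IsOpen O ∧ z ∈ O ∧
      ∀ y ∈ C, y ∈ O → (f y i ↔ f z i) := by
    intro z hz i
    obtain ⟨O, hO, hzO, h⟩ := hC1c z (hCD hz).1 i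
    exact ⟨O, hO, hzO, fun y hy hyO => h y ⟨(hCD hy).1, hyO⟩⟩
  have hG : ∀ z ∈ C, ∀ m, ∃ W, IsOpen W ∧ z ∈ W ∧ TurbD_PT T S f C m W := by
    intro z hz m
    obtain ⟨W, ⟨hWB, hPW⟩, hzW⟩ := Set.mem_iInter.1 (hCD hz).2.1 m
    exact ⟨W, hB.isOpen hWB, hzW, fun w hw hwW => (hCD hw).2.2 m W hWB hPW hwW⟩
  refine ⟨C, hCres, fun x hx y hy => ?_⟩
  obtain ⟨e, he⟩ := exists_injective_nat ι
  have hfin : ∀ n, {i : ι | e i < n}.Finite := fun n =>
    (Set.finite_lt_nat n).preimage he.injOn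
  -- the states
  let St := {p : (ℕ → ℝ) × (ℕ → ℝ) × Equiv.Perm ℕ × Equiv.Perm ℕ × ℕ × Set (ℕ → ℝ) × ℕ //
    p.1 ∈ C ∧ p.2.1 ∈ C ∧ (∀ i, f p.1 (S.act p.2.2.1 i) ↔ f x i) ∧
    (∀ i, f p.2.1 (S.act p.2.2.2.1 i) ↔ f y i) ∧
    IsOpen p.2.2.2.2.2.1 ∧ p.1 ∈ p.2.2.2.2.2.1 ∧ p.2.1 ∈ p.2.2.2.2.2.1 ∧
    TurbD_PT T S f C p.2.2.2.2.1 p.2.2.2.2.2.1 ∧
    ∀ j < p.2.2.2.2.2.2, j < p.2.2.2.2.1 ∧ p.2.2.1 j < p.2.2.2.2.1}
  have step : ∀ st : St, ∃ st' : St, st'.1.2.2.2.2.2.2 = st.1.2.2.2.2.2.2 + 1 ∧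
      (∀ j < st.1.2.2.2.2.2.2,
        (st'.1.2.2.1 j = st.1.2.2.1 j ∧ (st'.1.2.2.1)⁻¹ j = (st.1.2.2.1)⁻¹ j) ∧
        (st'.1.2.2.2.1 j = st.1.2.2.2.1 j ∧ (st'.1.2.2.2.1)⁻¹ j = (st.1.2.2.2.1)⁻¹ j)) ∧
      ∀ i, e i < st.1.2.2.2.2.2.2 → (f st'.1.1 i ↔ f st'.1.2.1 i) := by
    rintro ⟨⟨a, b, α, β, k, U, n⟩, ha, hb, hα, hβ, hUo, haU, hbU, hPU, hk⟩
    dsimp only at ha hb hα hβ hUo haU hbU hPU hk ⊢
    obtain ⟨m₁, hkm, hm₁⟩ := TurbD_bound β k n
    obtain ⟨a', ha', s, hs, hs', U', hU'U, hU'o, hbU', haU', hPU', hF⟩ :=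
      TurbD_half T hT S f C hC hcont hG ha hb hUo haU hbU k hPU m₁ {i | e i < n} (hfin n)
    obtain ⟨m₂, -, hm₂⟩ := TurbD_bound (⇑(s * α)) 0 (n + 1)
    obtain ⟨b', hb', t, ht, ht', U'', hU''U', hU''o, haU'', hbU'', hPU'', -⟩ :=
      TurbD_half T hT S f C hC hcont hG hb ha' hU'o hbU' haU' m₁ hPU' m₂ ∅ Set.finite_empty
    refine ⟨⟨⟨a', b', s * α, t * β, m₂, U'', n + 1⟩, ha', hb', ?_, ?_, hU''o, haU'', hbU'',
      hPU'', hm₂⟩, rfl, ?_, ?_⟩
    · intro i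
      dsimp only
      rw [map_mul, Equiv.Perm.mul_apply, hs', hα]
    · intro i
      dsimp only
      rw [map_mul, Equiv.Perm.mul_apply, ht', hβ]
    · intro j hj
      dsimp only
      refine ⟨⟨?_, ?_⟩, ?_, ?_⟩
      · rw [Equiv.Perm.mul_apply, hs _ (hk j hj).2]
      · rw [mul_inv_rev, Equiv.Perm.mul_apply]
        congr 1
        rw [Equiv.Perm.inv_eq_iff_eq, hs j (hk j hj).1]
      · rw [Equiv.Perm.mul_apply, ht _ (hm₁ j hj).2]
      · rw [mul_inv_rev, Equiv.Perm.mul_apply]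
        congr 1
        rw [Equiv.Perm.inv_eq_iff_eq, ht j (hm₁ j hj).1]
    · intro i hi
      dsimp only at hi ⊢
      rw [hF a' ha' haU' i hi, hF b' hb' (hU''U' hbU'') i hi]
  choose nxt hn1 hn2 hn3 using step
  have hinit : TurbD_PT T S f C 0 Set.univ := by
    intro z _ _
    exact Filter.Eventually.of_forall fun v _ => (S.isoK_zero _ _).2 (hinv z v)
  let st0 : St := ⟨⟨x, y, 1, 1, 0, Set.univ, 0⟩, hx, hy, fun i => by
      dsimp only; rw [map_one]; rfl, fun i => by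
      dsimp only; rw [map_one]; rfl, isOpen_univ, Set.mem_univ _, Set.mem_univ _, hinit,
    fun j hj => absurd hj (Nat.not_lt_zero j)⟩
  let sq : ℕ → St := fun n => Nat.rec st0 (fun _ st => nxt st) n
  have hsq : ∀ n, sq (n + 1) = nxt (sq n) := fun n => rfl
  have hidx : ∀ n, (sq n).1.2.2.2.2.2.2 = n := by
    intro n
    induction n with
    | zero => rfl
    | succ n ih => rw [hsq, hn1, ih]
  obtain ⟨α', hα'⟩ := TurbD_lim (fun n => (sq n).1.2.2.1) (fun n j hj => by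
    have h := (hn2 (sq n) j (by rw [hidx]; exact hj)).1
    rw [← hsq] at h
    exact h)
  obtain ⟨β', hβ'⟩ := TurbD_lim (fun n => (sq n).1.2.2.2.1) (fun n j hj => by
    have h := (hn2 (sq n) j (by rw [hidx]; exact hj)).2
    rw [← hsq] at h
    exact h)
  refine ⟨β'⁻¹ * α', fun i => ?_⟩
  obtain ⟨N1, hN1⟩ := TurbD_limAct S _ α' (fun n j hj => (hα' n j hj).1) i
  obtain ⟨N2, hN2⟩ := TurbD_limAct S _ β' (fun n j hj => (hβ' n j hj).1) (S.act (β'⁻¹ * α') i)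
  let n := max (max N1 N2) (e (S.act α' i) + 1)
  have hA := (sq (n + 1)).2.2.2.1 i
  have hB' := (sq (n + 1)).2.2.2.2.1 (S.act (β'⁻¹ * α') i)
  have e1 := hN1 (n + 1) (((le_max_left _ _).trans (le_max_left _ _)).trans (Nat.le_succ n))
  have e2 := hN2 (n + 1) (((le_max_right _ _).trans (le_max_left _ _)).trans (Nat.le_succ n))
  rw [e1] at hA
  rw [e2] at hB'
  have e3 : S.act β' (S.act (β'⁻¹ * α') i) = S.act α' i := by
    rw [← Equiv.Perm.mul_apply, ← map_mul, mul_inv_cancel_left]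
  rw [e3] at hB'
  have h3 := hn3 (sq n) (S.act α' i) (by
    rw [hidx]
    exact lt_of_lt_of_le (Nat.lt_succ_self _) (le_max_right _ _))
  rw [← hsq] at h3
  rw [← hB', ← hA, h3]

theorem generic_ergodic {ι : Type} [Countable ι] (S : SAct ι) (f : (ℕ → ℝ) → ι → Prop)
    (hf : ∀ i, MeasurableSet {x | f x i})
    (hinv : ∀ x y : ℕ → ℝ, Summable (fun n => (x n - y n) ^ 2) → S.Iso (f x) (f y)) :
    ∃ C ∈ residual (ℕ → ℝ), ∀ x ∈ C, ∀ y ∈ C, S.Iso (f x) (f y) := by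
  obtain ⟨V, _, _, _, _, T, hT, hs⟩ := exists_l2
  refine generic_ergodic_aux T hT S f hf fun x v => hinv _ _ ?_
  refine (hs v).congr fun n => ?_
  simp

end MP_c82b80_an
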