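import Mathlib
import Pool.Agent.Lib.MP_c82b80_an.Code
import Pool.Agent.Lib.MP_c82b80_an.TurbD

/-!
# A criterion for non-classifiability by countable structures
-/

open Topology

namespace MP_c82b80_an

universe u

theorem not_classifiable {Y : Type u} [MeasurableSpace Y] (E : Y → Y → Prop)
    (m : (ℕ → ℝ) → Y) (hm : Measurable m)
    (h1 : ∀ x y : ℕ → ℝ, Summable (fun n => (x n - y n) ^ 2) → E (m x) (m y))
    (h2 : ∀ᵇ x : ℕ → ℝ, ∀ᵇ y : ℕ → ℝ, ¬ E (m x) (m y)) :
    ¬ ClassifiableByCountableStructures E := by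
  rintro ⟨L, hL, F, hF, hE⟩
  obtain ⟨ι, hι, S, code, hcode, hiso⟩ := exists_code L
  obtain ⟨C, hC, hCC⟩ := generic_ergodic S (fun x => code (F (m x))) (fun i => by
      have h := @Measurable.comp _ _ _ _ _ (structMeasurableSpace L) _ _ hF hm
      exact h (hcode i)) (fun x y hxy => (hiso _ _).2 ((hE _ _).1 (h1 x y hxy)))
  obtain ⟨x, hx1, hx2⟩ := (dense_of_mem_residual (Filter.inter_mem hC h2)).nonempty
  obtain ⟨y, hy1, hy2⟩ := (dense_of_mem_residual (Filter.inter_mem hC hx2)).nonempty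
  exact hy2 ((hE _ _).2 ((hiso _ _).1 (hCC x hx1 y hy1)))

end MP_c82b80_an
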