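import Mathlib

/-!
# JOB GEN : the angle sequences

`ang x n = π/4 + (1/20000) (1 + sin (x n))`; `cos² (ang x n) = 1/2 - (1/2) sin ((1/10000) (1 + sin (x n)))`.
* `ang_adm` : `0 ≤ (1/2) sin u ≤ u/2 ≤ 1e-4` for `u = (1/10000)(1 + sin) ∈ [0, 2e-4]`.
* `ang_summable` : `|ang x n - ang y n| ≤ |x n - y n|`.
* `generic` : put `h x n = 1/2 - cos² (ang x n) = (1/2) sin ((1/10000)(1 + sin (x n))) ≥ 0`, `η = (1/2) sin (1/10000) > 0`.
  For each `m` the set of `x` with `∃ n ≥ m, h x n > η/2` is open and dense in `ℕ → ℝ` (a basic open set restricts finitely many coordinates only;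
  choose another coordinate `n ≥ m` and `x n = π/2`...).  So for generic `x` the set `S` of `n` with `h x n > η/2` is infinite.  For fixed such `x`
  and each `m`: `{y | ∃ n ≥ m, n ∈ S ∧ h y n < η/10}` is open and dense.  For `x`, `y` as such the inequality
  `9/10 * h x n ≤ h y n + ε` with `ε = η/10` fails infinitely often: `0.45 η ≤ 0.2 η` is false.
  (`eventually_residual`, `residual_of_dense_open`, countable intersections: `eventually_countable_forall`.)
-/

open Topology Filter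

namespace MP_c82b80_an

/-- the angle sequences -/
noncomputable def ang (x : ℕ → ℝ) (n : ℕ) : ℝ :=
  Real.pi / 4 + (1 / 20000) * (1 + Real.sin (x n))

theorem ang_continuous : Continuous ang := by
  unfold ang
  fun_prop

private theorem Gen_cos_sq (x : ℕ → ℝ) (n : ℕ) :
    Real.cos (ang x n) ^ 2 = 1 / 2 - Real.sin ((1 / 10000) * (1 + Real.sin (x n))) / 2 := by
  rw [Real.cos_sq]
  have : 2 * ang x n = (1 / 10000) * (1 + Real.sin (x n)) + Real.pi / 2 := by
    unfold ang; ring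
  rw [this, Real.cos_add_pi_div_two]
  ring

private theorem Gen_u_bounds (t : ℝ) :
    0 ≤ (1 / 10000) * (1 + Real.sin t) ∧ (1 / 10000) * (1 + Real.sin t) ≤ 2 / 10000 := by
  have h1 := Real.neg_one_le_sin t
  have h2 := Real.sin_le_one t
  constructor <;> linarith

private theorem Gen_sin_bounds (t : ℝ) :
    0 ≤ Real.sin ((1 / 10000) * (1 + Real.sin t)) ∧
      Real.sin ((1 / 10000) * (1 + Real.sin t)) ≤ 2 / 10000 := by
  obtain ⟨h1, h2⟩ := Gen_u_bounds t
  constructor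
  · exact Real.sin_nonneg_of_nonneg_of_le_pi h1 (by linarith [Real.pi_gt_three])
  · exact (Real.sin_le h1).trans h2

theorem ang_adm (x : ℕ → ℝ) (n : ℕ) :
    Real.cos (ang x n) ^ 2 ≤ 1 / 2 ∧ 1 / 2 - 1 / 10000 ≤ Real.cos (ang x n) ^ 2 := by
  rw [Gen_cos_sq]
  obtain ⟨h1, h2⟩ := Gen_sin_bounds (x n)
  constructor <;> linarith

theorem ang_summable (x y : ℕ → ℝ) (h : Summable (fun n => (x n - y n) ^ 2)) :
    Summable (fun n => (ang x n - ang y n) ^ 2) := by
  refine Summable.of_nonneg_of_le (fun n => sq_nonneg _) (fun n => ?_) h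
  have h1 : |Real.sin (x n) - Real.sin (y n)| ≤ |x n - y n| := by
    have := Real.abs_sin_sub_sin_le (x n) (y n)
    exact this
  have h2 : ang x n - ang y n = (1 / 20000) * (Real.sin (x n) - Real.sin (y n)) := by
    unfold ang; ring
  rw [h2, ← sq_abs, ← sq_abs (x n - y n)]
  apply pow_le_pow_left₀ (abs_nonneg _)
  rw [abs_mul]
  have h3 : |(1 / 20000 : ℝ)| ≤ 1 := by rw [abs_le]; constructor <;> norm_num
  nlinarith [abs_nonneg (Real.sin (x n) - Real.sin (y n))]

/-- a set of sequences given by an open condition on infinitely many coordinates is residual -/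
private theorem Gen_residual (S : Set ℕ) (hS : S.Infinite) (U : Set ℝ) (hU : IsOpen U)
    (hne : U.Nonempty) (m : ℕ) : ∀ᵇ y : ℕ → ℝ, ∃ n ≥ m, n ∈ S ∧ y n ∈ U := by
  have hopen : IsOpen {y : ℕ → ℝ | ∃ n ≥ m, n ∈ S ∧ y n ∈ U} := by
    have : {y : ℕ → ℝ | ∃ n ≥ m, n ∈ S ∧ y n ∈ U} =
        ⋃ n ∈ {n : ℕ | m ≤ n ∧ n ∈ S}, (fun y : ℕ → ℝ => y n) ⁻¹' U := by
      ext y
      simp only [Set.mem_setOf_eq, Set.mem_iUnion, Set.mem_preimage, exists_prop, ge_iff_le,
        and_assoc]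
    rw [this]
    exact isOpen_biUnion fun n _ => hU.preimage (continuous_apply n)
  have hdense : Dense {y : ℕ → ℝ | ∃ n ≥ m, n ∈ S ∧ y n ∈ U} := by
    obtain ⟨u, hu⟩ := hne
    intro y
    rw [mem_closure_iff_nhds]
    intro V hV
    rw [nhds_pi, Filter.mem_pi] at hV
    obtain ⟨I, hI, t, ht, htV⟩ := hV
    obtain ⟨n, hn1, hn2⟩ := (hS.diff (hI.union (Set.finite_lt_nat m))).nonempty
    simp only [Set.mem_union, Set.mem_setOf_eq, not_or, not_lt] at hn2
    refine ⟨Function.update y n u, htV ?_, n, hn2.2, hn1, ?_⟩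
    · intro i hi
      have hne : i ≠ n := by rintro rfl; exact hn2.1 hi
      rw [Function.update_of_ne hne]
      exact mem_of_mem_nhds (ht i)
    · rw [Function.update_self]; exact hu
  exact residual_of_dense_open hopen hdense

theorem generic : ∀ᵇ x : ℕ → ℝ, ∀ᵇ y : ℕ → ℝ,
    ¬ (∀ ε > 0, ∃ n₀ : ℕ, ∀ n ≥ n₀, 9 / 10 * (1 / 2 - Real.cos (ang x n) ^ 2) ≤
      1 / 2 - Real.cos (ang y n) ^ 2 + ε) := by
  set η : ℝ := Real.sin (1 / 10000) with hη
  have hηpos : 0 < η := Real.sin_pos_of_pos_of_lt_pi (by norm_num) (by linarith [Real.pi_gt_three])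
  set g : ℝ → ℝ := fun t => Real.sin ((1 / 10000) * (1 + Real.sin t)) with hg
  have hgc : Continuous g := by fun_prop
  have hx : ∀ᵇ x : ℕ → ℝ, ∀ m : ℕ, ∃ n ≥ m, n ∈ Set.univ ∧ x n ∈ {t | η / 2 < g t} := by
    rw [eventually_countable_forall]
    intro m
    refine Gen_residual Set.univ Set.infinite_univ _ (isOpen_lt continuous_const hgc) ?_ m
    refine ⟨0, ?_⟩
    simp only [Set.mem_setOf_eq, hg, Real.sin_zero, add_zero, mul_one]
    rw [← hη]; linarith
  filter_upwards [hx] with x hx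
  have hSinf : {n : ℕ | η / 2 < g (x n)}.Infinite := by
    rw [Set.infinite_iff_exists_gt]
    intro a
    obtain ⟨n, hn, -, hn2⟩ := hx (a + 1)
    exact ⟨n, hn2, by omega⟩
  have hy : ∀ᵇ y : ℕ → ℝ, ∀ m : ℕ, ∃ n ≥ m, n ∈ {n : ℕ | η / 2 < g (x n)} ∧
      y n ∈ {t | g t < η / 10} := by
    rw [eventually_countable_forall]
    intro m
    refine Gen_residual _ hSinf _ (isOpen_lt hgc continuous_const) ?_ m
    refine ⟨-(Real.pi / 2), ?_⟩
    simp only [Set.mem_setOf_eq, hg, Real.sin_neg, Real.sin_pi_div_two]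
    norm_num
    exact hηpos
  filter_upwards [hy] with y hy hcon
  obtain ⟨n₀, hn₀⟩ := hcon (η / 20) (by positivity)
  obtain ⟨n, hn, hnx, hny⟩ := hy n₀
  have h := hn₀ n hn
  rw [Gen_cos_sq, Gen_cos_sq] at h
  simp only [Set.mem_setOf_eq, hg] at hnx hny
  linarith

end MP_c82b80_an
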