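import Mathlib
import Pool.Agent.Lib.MP_c82b80_an.Tower0

/-!
# JOB GROUP : grouping the qubits of `R` in blocks

Given commuting `ι i : M_2 → B(H)`: put `φc = ι 0` and let `φ n` be the homomorphism of `exists_piHom` for
`fun j : Fin (n + 1) => ι (t n + j)`, `t n = 1 + n (n + 1) / 2` (`t 0 = 1`, `t (n + 1) = t n + (n + 1)`; or
`t n = 1 + ∑ k ∈ range n, (k + 1)`).  `G n = Fin (n + 1) → Fin 2` is the index set.
* commutation : `φ n a` is a linear combination of products of elements `ι i b`, `i ∈ [t n, t n + n]` (`tens_single`), disjoint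
  index sets.
* `gen` : an operator commutes with all `ι i b` iff it commutes with all `φc b`, `φ n a`: `ι (t n + j) b = φ n (tens m)` with `m j = b` and
  `m = 1` elsewhere, and every `i ≥ 1` is `t n + j` for some `n`, `j ≤ n`.
-/

open scoped InnerProductSpace

namespace MP_c82b80_an

universe u

/-- start of the block `n` -/
private def groupStart : ℕ → ℕ
  | 0 => 1
  | n + 1 => groupStart n + (n + 1)

private theorem groupStart_succ (n : ℕ) : groupStart (n + 1) = groupStart n + (n + 1) := rfl

private theorem groupStart_mono : Monotone groupStart :=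
  monotone_nat_of_le_succ fun n => by rw [groupStart_succ]; omega

private theorem groupStart_disj {m n : ℕ} (hmn : m ≠ n) (i : Fin (m + 1)) (j : Fin (n + 1)) :
    groupStart m + i ≠ groupStart n + j := by
  have key : ∀ {m n : ℕ}, m < n → ∀ (i : Fin (m + 1)) (j : Fin (n + 1)),
      groupStart m + i < groupStart n + j := by
    intro m n h i j
    have h1 : groupStart (m + 1) ≤ groupStart n := groupStart_mono h
    rw [groupStart_succ] at h1
    have := i.2
    omega
  rcases lt_or_gt_of_ne hmn with h | h
  · exact (key h i j).ne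
  · exact (key h j i).ne'

private theorem groupStart_zero_ne (n : ℕ) (j : Fin (n + 1)) : 0 ≠ groupStart n + j := by
  have h : groupStart 0 ≤ groupStart n := groupStart_mono (Nat.zero_le n)
  have h0 : groupStart 0 = 1 := rfl
  omega

private theorem groupStart_exists (i : ℕ) :
    i = 0 ∨ ∃ (n : ℕ) (j : Fin (n + 1)), i = groupStart n + j := by
  induction i with
  | zero => exact Or.inl rfl
  | succ i ih =>
    right
    rcases ih with rfl | ⟨n, j, rfl⟩
    · exact ⟨0, 0, rfl⟩
    · by_cases h : (j : ℕ) + 1 < n + 1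
      · exact ⟨n, ⟨j + 1, h⟩, by simp; omega⟩
      · refine ⟨n + 1, 0, ?_⟩
        have := j.2
        rw [groupStart_succ]
        simp
        omega

private theorem group_prod_single {M : Type*} [Monoid M] : ∀ {n : ℕ} (f : Fin n → M) (j : Fin n),
    (∀ i, i ≠ j → f i = 1) → (List.ofFn f).prod = f j
  | 0, _, j, _ => j.elim0
  | n + 1, f, j, h => by
    rw [List.ofFn_succ, List.prod_cons]
    refine Fin.cases ?_ (fun j' => ?_) j |> fun (g : ∀ _ : (∀ i, i ≠ j → f i = 1), _) => g h
    · intro h0
      have : (List.ofFn fun i : Fin n => f i.succ).prod = 1 := by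
        apply List.prod_eq_one
        intro x hx
        rw [List.mem_ofFn] at hx
        obtain ⟨i, rfl⟩ := hx
        exact h0 _ (Fin.succ_ne_zero i)
      rw [this, mul_one]
    · intro h0
      rw [h0 0 (Fin.succ_ne_zero j').symm, one_mul]
      exact group_prod_single (fun i => f i.succ) j' fun i hi => h0 _ fun hh => hi (Fin.succ_injective _ hh)

variable {H : Type u} [NormedAddCommGroup H] [InnerProductSpace ℂ H] [CompleteSpace H]

theorem exists_blockTower {R : VonNeumannAlgebra H} (h : IsHyperfiniteII1 R) :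
    Nonempty (BlockTower R) := by
  obtain ⟨ι, Ω, hcomm, hgen, hΩ, htr, hcyc⟩ := h
  have hex : ∀ n : ℕ, ∃ ρ : Matrix (G n) (G n) ℂ →⋆ₐ[ℂ] (H →L[ℂ] H),
      ∀ m : ∀ _ : Fin (n + 1), Matrix (Fin 2) (Fin 2) ℂ,
        ρ (tens m) = (List.ofFn fun i : Fin (n + 1) => ι (groupStart n + i) (m i)).prod := by
    intro n
    exact exists_piHom (fun _ : Fin (n + 1) => Fin 2) (fun i => ι (groupStart n + i))
      (fun i j hij => hcomm _ _ (fun h => hij (Fin.ext (by omega))))
  choose φ hφ using hex
  -- operators commuting with the generators commute with the blocks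
  have hblock : ∀ (n : ℕ) (x : H →L[ℂ] H),
      (∀ (i : Fin (n + 1)) a, Commute x (ι (groupStart n + i) a)) → ∀ b, Commute x (φ n b) := by
    intro n x hx b
    rw [Matrix.matrix_eq_sum_single b, map_sum]
    refine Commute.sum_right _ _ _ fun y _ => ?_
    rw [map_sum]
    refine Commute.sum_right _ _ _ fun z _ => ?_
    have h1 : Matrix.single y z (b y z) = b y z • Matrix.single y z (1 : ℂ) := by
      rw [Matrix.smul_single, smul_eq_mul, mul_one]
    rw [h1, map_smul]
    refine Commute.smul_right ?_ _
    rw [← tens_single y z, hφ]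
    refine Commute.list_prod_right _ _ ?_
    intro w hw
    rw [List.mem_ofFn] at hw
    obtain ⟨i, rfl⟩ := hw
    exact hx i _
  have hsingle : ∀ (n : ℕ) (j : Fin (n + 1)) (b : Matrix (Fin 2) (Fin 2) ℂ),
      ∃ a, ι (groupStart n + j) b = φ n a := by
    intro n j b
    refine ⟨tens (fun i => if i = j then b else 1), ?_⟩
    rw [hφ, group_prod_single _ j]
    · rw [if_pos rfl]
    · intro i hi
      simp only [if_neg hi, map_one]
  have hcent : Set.centralizer (⋃ i, Set.range (ι i)) =
      Set.centralizer (Set.range (ι 0) ∪ ⋃ n, Set.range (φ n)) := by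
    ext x
    rw [Set.mem_centralizer_iff, Set.mem_centralizer_iff]
    constructor
    · intro hx y hy
      have hx' : ∀ i a, Commute x (ι i a) := fun i a =>
        (hx _ (Set.mem_iUnion.2 ⟨i, a, rfl⟩)).symm
      rcases hy with ⟨a, rfl⟩ | hy
      · exact (hx' 0 a).symm
      · obtain ⟨n, a, rfl⟩ := Set.mem_iUnion.1 hy
        exact (hblock n x (fun i a => hx' _ a) a).symm
    · intro hx y hy
      obtain ⟨i, a, rfl⟩ := Set.mem_iUnion.1 hy
      rcases groupStart_exists i with rfl | ⟨n, j, rfl⟩
      · exact hx _ (Or.inl ⟨a, rfl⟩)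
      · obtain ⟨c, hc⟩ := hsingle n j a
        rw [hc]
        exact hx _ (Or.inr (Set.mem_iUnion.2 ⟨n, c, rfl⟩))
  exact ⟨{
    Ω := Ω
    φc := ι 0
    φ := φ
    commc := fun n a b => hblock n _ (fun i c => hcomm _ _ (groupStart_zero_ne n i) a c) b
    comm := fun m n hmn a b => by
      refine hblock n _ (fun i c => ?_) b
      refine Commute.symm (hblock m _ (fun j d => ?_) a)
      exact hcomm _ _ (groupStart_disj hmn.symm i j) c d
    gen := by rw [hgen, hcent]
    norm_Ω := hΩ
    trace := htr
    cyclic := hcyc }⟩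

end MP_c82b80_an
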