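import Mathlib
import Pool.Agent.Lib.MP_c82b80_an.MasaB

/-!
# The normaliser of the masa: definitions

`Adm a` : `1/2 - 1e-4 ≤ cos² (a n) ≤ 1/2`.
`T.Nml a u` : `u` is a unitary of `R` normalising `A_a = masaAlg a`.
-/

open scoped InnerProductSpace ComplexOrder
open Filter Topology

namespace MP_c82b80_an

universe u

/-- admissible sequences of angles -/
def Adm (a : ℕ → ℝ) : Prop :=
  ∀ n, Real.cos (a n) ^ 2 ≤ 1 / 2 ∧ 1 / 2 - 1 / 10000 ≤ Real.cos (a n) ^ 2

variable {H : Type u} [NormedAddCommGroup H] [InnerProductSpace ℂ H] [CompleteSpace H]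

namespace BlockTower

variable {R : VonNeumannAlgebra H} (T : BlockTower R)

/-- `u` is a unitary of `R` which normalises the masa -/
structure Nml (a : ℕ → ℝ) (u : H →L[ℂ] H) : Prop where
  mem : u ∈ R
  star_mul : star u * u = 1
  mul_star : u * star u = 1
  conj : ∀ x ∈ T.masaAlg a, u * x * star u ∈ T.masaAlg a
  conj' : ∀ x ∈ T.masaAlg a, star u * x * u ∈ T.masaAlg a

end BlockTower

end MP_c82b80_an
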