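import Mathlib
import Pool.Agent.Lib.MP_c82b80_an.Nml0

/-!
# JOB NML-A : the projection `e` commutes with the normaliser of the masa

`corner_zero` (main step): for `u` normalising, `t := e u f = 0`.  Put `α x = u x u*`.
`t x = α x t` for `x ∈ A_a` (`x` commutes with `f`, `α x ∈ A_a` commutes with `e`); so for `h := t t*`:
`h α(x) = t x t* = α(x) h` (use `t* α(x) = x t*`, star of the identity for `x*`), and `α` is onto `A_a`, so
`h ∈ A_a` (`mem_masa_of_comm`); `e h = h`.
Let `Z : G n → ℂ`, `Z v = (-1) ^ (v 0)` (real, `Z² = 1`, sum zero), `d = q a n Z`,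
`b = φ n (w Z w*)` (a self-adjoint unitary).  `t d = t f d = t f b = t b` (`f_mul_q`), and
`n2 (t b - b t) ≤ 2 n2 (t - E N t)` for `n ≥ N` (`n2_comm_tail`, `‖b‖ = 1`) tends to `0`.  So with `c = α d ∈ A_a`:
`n2 (c t - b t) → 0`, hence (`‖t*‖ ≤ 1`) `n2 (c h - b h) → 0`.
On the other hand `c h ∈ A_a`, `c h = e c h`, and (`τ_b_mul`) for `y ∈ A_a` with `e y = y`:
`τ (b y) = cos² (a n) τ (φ n (diagonal Z) y)`: both sides are limits of `E M y = dg a M χ`, `M > n`, with `χ`
supported on `{p | p.1 = 0}` (so `dg a M χ = ρ (kr (single 0 0) ..)` is a true diagonal matrix), and then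
use `w_diag` with `∑ Z = 0`.
`n2 (c h - b h)² = n2 (c h)² + n2 (b h)² - 2 re τ (h b c h)`, `n2 (b h) = n2 h`, `n2 (c h) = n2 h`
(`c`, `b` unitary), `τ (h b c h) = τ (b (c h h)) = cos² (a n) τ (φ n Z c h h)`, of modulus `≤ (1/2) n2 (h)²`.
So `n2 (c h - b h)² ≥ n2 h ²` for all `n`; so `n2 h = 0`, `h = 0`, `t = 0`.
`norm_comm_e` : `e u f = 0` and `f u e = (e u* f)* = 0`.
-/

open scoped InnerProductSpace ComplexOrder
open Filter Topology

namespace MP_c82b80_an

universe u

variable {H : Type u} [NormedAddCommGroup H] [InnerProductSpace ℂ H] [CompleteSpace H]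

namespace BlockTower

variable {R : VonNeumannAlgebra H} (T : BlockTower R)

private theorem NmlA_cor_mul_dmat (a : ℕ → ℝ) (N : ℕ) (χ : I N → ℂ) :
    cor (Matrix.single 0 0 1) * dmat a N χ =
      Matrix.diagonal (fun p => if p.1 = 0 then χ p else 0) := by
  have hU : kr (Matrix.single 0 0 1) 1 * Umat a N = kr (Matrix.single (0 : Fin 2) 0 (1 : ℂ)) 1 := by
    unfold Umat
    rw [Matrix.mul_add, kr_mul, kr_mul, Matrix.single_mul_single_same,
      Matrix.single_mul_single_of_ne _ _ _ _ (by decide)]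
    ext p q
    simp [kr]
  have hU' : kr (Matrix.single 0 0 1) 1 * (Umat a N).conjTranspose =
      kr (Matrix.single (0 : Fin 2) 0 (1 : ℂ)) 1 := by
    unfold Umat
    rw [Matrix.conjTranspose_add, kr_conjTranspose, kr_conjTranspose, Matrix.mul_add, kr_mul,
      kr_mul, Matrix.conjTranspose_single, Matrix.conjTranspose_single, star_one,
      Matrix.single_mul_single_same, Matrix.single_mul_single_of_ne _ _ _ _ (by decide)]
    ext p q
    simp [kr]
  have hD : kr (Matrix.single (0 : Fin 2) 0 (1 : ℂ)) 1 * Matrix.diagonal χ =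
      Matrix.diagonal (fun p : I N => if p.1 = 0 then χ p else 0) := by
    ext p q
    rw [Matrix.mul_diagonal]
    by_cases hpq : p = q
    · subst hpq
      by_cases h0 : p.1 = 0
      · simp [kr, h0]
      · simp [kr, h0, Ne.symm h0]
    · rw [Matrix.diagonal_apply_ne _ hpq]
      have : kr (Matrix.single (0 : Fin 2) 0 (1 : ℂ)) (1 : Matrix (Y N) (Y N) ℂ) p q = 0 := by
        unfold kr
        by_cases h2 : p.2 = q.2
        · have h1 : p.1 ≠ q.1 := fun h1 => hpq (Prod.ext h1 h2)
          have : Matrix.single (0 : Fin 2) 0 (1 : ℂ) p.1 q.1 = 0 := by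
            rw [Matrix.single_apply, if_neg]
            rintro ⟨h3, h4⟩
            exact h1 (h3.symm.trans h4)
          rw [this, zero_mul]
        · rw [Matrix.one_apply_ne h2, mul_zero]
      rw [this, zero_mul]
  have hDc : kr (Matrix.single (0 : Fin 2) 0 (1 : ℂ)) 1 * Matrix.diagonal χ =
      Matrix.diagonal χ * kr (Matrix.single (0 : Fin 2) 0 (1 : ℂ)) 1 := by
    ext p q
    rw [Matrix.mul_diagonal, Matrix.diagonal_mul]
    by_cases hpq : p = q
    · subst hpq
      ring
    · have : kr (Matrix.single (0 : Fin 2) 0 (1 : ℂ)) (1 : Matrix (Y N) (Y N) ℂ) p q = 0 := by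
        unfold kr
        by_cases h2 : p.2 = q.2
        · have h1 : p.1 ≠ q.1 := fun h1 => hpq (Prod.ext h1 h2)
          have : Matrix.single (0 : Fin 2) 0 (1 : ℂ) p.1 q.1 = 0 := by
            rw [Matrix.single_apply, if_neg]
            rintro ⟨h3, h4⟩
            exact h1 (h3.symm.trans h4)
          rw [this, zero_mul]
        · rw [Matrix.one_apply_ne h2, mul_zero]
      rw [this, zero_mul, mul_zero]
  have hcor : (cor (Matrix.single 0 0 1) : Matrix (I N) (I N) ℂ) =
      kr (Matrix.single (0 : Fin 2) 0 (1 : ℂ)) 1 := rfl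
  have hsq : kr (Matrix.single (0 : Fin 2) 0 (1 : ℂ)) (1 : Matrix (Y N) (Y N) ℂ) *
      kr (Matrix.single (0 : Fin 2) 0 (1 : ℂ)) 1 = kr (Matrix.single (0 : Fin 2) 0 (1 : ℂ)) 1 := by
    rw [kr_mul, Matrix.single_mul_single_same]
    simp
  unfold dmat
  rw [hcor]
  calc kr (Matrix.single (0 : Fin 2) 0 (1 : ℂ)) 1 *
        (Umat a N * Matrix.diagonal χ * (Umat a N).conjTranspose)
      = (kr (Matrix.single (0 : Fin 2) 0 (1 : ℂ)) 1 * Umat a N) * Matrix.diagonal χ *
          (Umat a N).conjTranspose := by simp only [Matrix.mul_assoc]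
    _ = kr (Matrix.single (0 : Fin 2) 0 (1 : ℂ)) 1 * Matrix.diagonal χ *
          (Umat a N).conjTranspose := by rw [hU]
    _ = kr (Matrix.single (0 : Fin 2) 0 (1 : ℂ)) 1 * (kr (Matrix.single (0 : Fin 2) 0 (1 : ℂ)) 1 *
          Matrix.diagonal χ) * (Umat a N).conjTranspose := by
        rw [← Matrix.mul_assoc, hsq]
    _ = kr (Matrix.single (0 : Fin 2) 0 (1 : ℂ)) 1 * (Matrix.diagonal χ *
          kr (Matrix.single (0 : Fin 2) 0 (1 : ℂ)) 1) * (Umat a N).conjTranspose := by
        rw [hDc]
    _ = kr (Matrix.single (0 : Fin 2) 0 (1 : ℂ)) 1 * Matrix.diagonal χ *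
          (kr (Matrix.single (0 : Fin 2) 0 (1 : ℂ)) 1 * (Umat a N).conjTranspose) := by
        simp only [Matrix.mul_assoc]
    _ = kr (Matrix.single (0 : Fin 2) 0 (1 : ℂ)) 1 * Matrix.diagonal χ *
          kr (Matrix.single (0 : Fin 2) 0 (1 : ℂ)) 1 := by rw [hU']
    _ = kr (Matrix.single (0 : Fin 2) 0 (1 : ℂ)) 1 * Matrix.diagonal χ := by
        rw [Matrix.mul_assoc, ← hDc, ← Matrix.mul_assoc, hsq]
    _ = _ := hD

private theorem NmlA_coef {a : ℕ → ℝ} {y : H →L[ℂ] H} (hy : y ∈ T.masaAlg a)
    (hey : T.e * y = y) (M : ℕ) :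
    T.coef M y = Matrix.diagonal (fun p => if p.1 = 0 then T.chi a M y p else 0) := by
  have h1 : T.coef M (T.e * y) = cor (Matrix.single 0 0 1) * T.coef M y := by
    unfold e
    rw [← T.ρ_cor (N := M), T.coef_ρ_mul M (T.mem_R_of_masa hy)]
  rw [hey] at h1
  rw [h1, T.coef_eq_dmat hy M, NmlA_cor_mul_dmat]

private theorem NmlA_tau {a : ℕ → ℝ} {y : H →L[ℂ] H} (hy : y ∈ T.masaAlg a)
    (hey : T.e * y = y) (n : ℕ) (A : Matrix (G n) (G n) ℂ) :
    T.τ (T.φ n A * y) =
      (∑ p : I (n + 1), (if p.1 = 0 then T.chi a (n + 1) y p else 0) *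
        A (p.2 (Fin.last n)) (p.2 (Fin.last n))) / Fintype.card (I (n + 1)) := by
  have hyR := T.mem_R_of_masa hy
  rw [T.τ_comm (T.φ_mem n A) hyR]
  have hb : T.φ n A = T.ρ (n + 1) (blk (Fin.last n) A) := (T.ρ_blk (N := n + 1) (Fin.last n) A).symm
  rw [hb, ← T.τ_E_mul (n + 1) hyR]
  unfold E
  rw [← map_mul, T.τ_ρ, NmlA_coef T hy hey]
  congr 1
  rw [Matrix.trace]
  refine Finset.sum_congr rfl fun p _ => ?_
  rw [Matrix.diag_apply, Matrix.diagonal_mul]
  congr 1
  simp [blk, kr]

/-- the trace of `φ_n (w Z w*)` against elements of the corner of the masa -/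
theorem τ_b_mul (a : ℕ → ℝ) {y : H →L[ℂ] H} (hy : y ∈ T.masaAlg a) (hey : T.e * y = y) (n : ℕ)
    (Z : G n → ℂ) (hZ : ∑ v, Z v = 0) :
    T.τ (T.φ n (w n (a n) * Matrix.diagonal Z * (w n (a n)).conjTranspose) * y) =
      (Real.cos (a n) ^ 2 : ℝ) * T.τ (T.φ n (Matrix.diagonal Z) * y) := by
  rw [NmlA_tau T hy hey, NmlA_tau T hy hey, ← mul_div_assoc, Finset.mul_sum]
  congr 1
  refine Finset.sum_congr rfl fun p _ => ?_
  rw [w_diag, hZ, Matrix.diagonal_apply_eq]
  push_cast
  ring

private theorem NmlA_norm_le_one {x : H →L[ℂ] H} (h : star x * x = 1) : ‖x‖ ≤ 1 := by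
  have h1 : ‖star x * x‖ = ‖x‖ * ‖x‖ := CStarRing.norm_star_mul_self
  rw [h] at h1
  have h2 : ‖(1 : H →L[ℂ] H)‖ ≤ 1 := ContinuousLinearMap.norm_id_le
  nlinarith [norm_nonneg x]

/-- the signs on the block `n` -/
private def NmlA_Z (n : ℕ) : G n → ℂ := fun v => if v 0 = 0 then 1 else -1

private theorem NmlA_Z_sum (n : ℕ) : ∑ v, NmlA_Z n v = 0 := by
  have hinv : Function.Involutive
      (fun v : G n => Function.update v 0 (1 - v 0)) := by
    intro v
    have h2 : ∀ x : Fin 2, 1 - (1 - x) = x := by decide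
    funext i
    by_cases hi : i = 0
    · subst hi
      simp [h2]
    · simp [Function.update_of_ne hi]
  have h1 : ∑ v, NmlA_Z n v = ∑ v, NmlA_Z n (Function.update v 0 (1 - v 0)) :=
    (Equiv.sum_comp hinv.toPerm (NmlA_Z n)).symm
  have h2 : ∀ v : G n, NmlA_Z n (Function.update v 0 (1 - v 0)) = -NmlA_Z n v := by
    intro v
    have h3 : ∀ x : Fin 2, (if (1 - x) = 0 then (1 : ℂ) else -1) = -(if x = 0 then 1 else -1) := by
      intro x
      fin_cases x
      · simp
      · simp
    unfold NmlA_Z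
    rw [Function.update_self]
    exact h3 _
  rw [Finset.sum_congr rfl (fun v _ => h2 v), Finset.sum_neg_distrib] at h1
  have h4 : ∑ v, NmlA_Z n v + ∑ v, NmlA_Z n v = 0 := by
    nth_rewrite 1 [h1]
    simp
  have h5 : (2 : ℂ) * ∑ v, NmlA_Z n v = 0 := by rw [two_mul]; exact h4
  exact (mul_eq_zero.1 h5).resolve_left two_ne_zero

private theorem NmlA_Z_conj (n : ℕ) : (fun v => (starRingEnd ℂ) (NmlA_Z n v)) = NmlA_Z n := by
  funext v
  unfold NmlA_Z
  split_ifs <;> simp

private theorem NmlA_Z_sq (n : ℕ) : (fun v => NmlA_Z n v * NmlA_Z n v) = fun _ => 1 := by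
  funext v
  unfold NmlA_Z
  split_ifs <;> simp

private theorem NmlA_diag_star (n : ℕ) :
    (Matrix.diagonal (NmlA_Z n)).conjTranspose = Matrix.diagonal (NmlA_Z n) := by
  rw [Matrix.diagonal_conjTranspose]
  congr 1
  exact NmlA_Z_conj n

private theorem NmlA_diag_sq (n : ℕ) :
    Matrix.diagonal (NmlA_Z n) * Matrix.diagonal (NmlA_Z n) = 1 := by
  rw [Matrix.diagonal_mul_diagonal, NmlA_Z_sq, Matrix.diagonal_one]

theorem corner_zero {a : ℕ → ℝ} (ha : Adm a) {u : H →L[ℂ] H} (hu : T.Nml a u) :
    T.e * u * T.f = 0 := by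
  have hee := T.e_mul_e
  have hff := T.f_mul_f
  have hes := T.star_e
  have hfs := T.star_f
  have heR := T.e_mem
  have hfR := T.f_mem
  have huR := hu.mem
  have hu'R : star u ∈ R := star_mem huR
  have huu := hu.star_mul
  have huu' := hu.mul_star
  set t : H →L[ℂ] H := T.e * u * T.f with ht
  have htR : t ∈ R := mul_mem (mul_mem heR huR) hfR
  have htsR : star t ∈ R := star_mem htR
  have het : T.e * t = t := by rw [ht, ← mul_assoc, ← mul_assoc, hee]
  -- `t x = α x t`
  have hα : ∀ x ∈ T.masaAlg a, t * x = (u * x * star u) * t := by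
    intro x hx
    have h1 : x * T.f = T.f * x := T.masaAlg_comm a x hx T.f (T.f_mem_masa a)
    have h2 : (u * x * star u) * T.e = T.e * (u * x * star u) :=
      T.masaAlg_comm a _ (hu.conj x hx) T.e (T.e_mem_masa a)
    calc t * x = T.e * u * (T.f * x) := by rw [ht, mul_assoc]
      _ = T.e * u * (x * T.f) := by rw [h1]
      _ = T.e * u * x * (star u * u) * T.f := by rw [huu, mul_one]; simp only [mul_assoc]
      _ = (T.e * (u * x * star u)) * u * T.f := by simp only [mul_assoc]
      _ = ((u * x * star u) * T.e) * u * T.f := by rw [h2]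
      _ = (u * x * star u) * t := by rw [ht]; simp only [mul_assoc]
  set h : H →L[ℂ] H := t * star t with hh
  have hhR : h ∈ R := mul_mem htR htsR
  have hhs : star h = h := by rw [hh, star_mul, star_star]
  have heh : T.e * h = h := by rw [hh, ← mul_assoc, het]
  have hmasa : h ∈ T.masaAlg a := by
    refine T.mem_masa_of_comm hhR fun y hy => ?_
    set x : H →L[ℂ] H := star u * y * u with hx
    have hxm : x ∈ T.masaAlg a := hu.conj' y hy
    have hyx : u * x * star u = y := by
      calc u * x * star u = (u * star u) * y * (u * star u) := by rw [hx]; simp only [mul_assoc]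
        _ = y := by rw [huu', one_mul, mul_one]
    have h1 : t * x = y * t := by rw [hα x hxm, hyx]
    have h2 : t * star x = star y * t := by
      have := hα (star x) (star_mem hxm)
      rw [this]
      congr 1
      rw [← hyx]
      simp only [star_mul, star_star, mul_assoc]
    have h3 : star t * y = x * star t := by
      have := congrArg star h2
      simpa [star_mul] using this.symm
    calc h * y = t * (star t * y) := by rw [hh, mul_assoc]
      _ = (t * x) * star t := by rw [h3, ← mul_assoc]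
      _ = y * h := by rw [h1, hh, mul_assoc]
  -- the key inequality
  have key : ∀ n, T.n2 h ^ 2 ≤
      T.n2 ((u * T.q a n (NmlA_Z n) * star u) * h -
        T.φ n (w n (a n) * Matrix.diagonal (NmlA_Z n) * (w n (a n)).conjTranspose) * h) ^ 2 := by
    intro n
    set d : H →L[ℂ] H := T.q a n (NmlA_Z n) with hd
    set B : Matrix (G n) (G n) ℂ :=
      w n (a n) * Matrix.diagonal (NmlA_Z n) * (w n (a n)).conjTranspose with hB
    set b : H →L[ℂ] H := T.φ n B with hb
    set c : H →L[ℂ] H := u * d * star u with hc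
    have hdm : d ∈ T.masaAlg a := T.q_mem a n _
    have hcm : c ∈ T.masaAlg a := hu.conj d hdm
    have hcR : c ∈ R := T.mem_R_of_masa hcm
    have hbR : b ∈ R := T.φ_mem n _
    have hds : star d = d := by rw [hd, T.q_star, NmlA_Z_conj]
    have hdd : d * d = 1 := by rw [hd, T.q_mul, NmlA_Z_sq, T.q_one]
    have hcs : star c = c := by
      rw [hc]; simp only [star_mul, star_star, hds, mul_assoc]
    have hcc : c * c = 1 := by
      calc c * c = u * d * (star u * u) * d * star u := by rw [hc]; simp only [mul_assoc]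
        _ = u * (d * d) * star u := by rw [huu, mul_one]; simp only [mul_assoc]
        _ = 1 := by rw [hdd, mul_one, huu']
    have hBs : B.conjTranspose = B := by
      rw [hB, Matrix.conjTranspose_mul, Matrix.conjTranspose_mul,
        Matrix.conjTranspose_conjTranspose, NmlA_diag_star, Matrix.mul_assoc]
    have hBB : B * B = 1 := by
      calc B * B = w n (a n) * Matrix.diagonal (NmlA_Z n) *
            ((w n (a n)).conjTranspose * w n (a n)) * Matrix.diagonal (NmlA_Z n) *
            (w n (a n)).conjTranspose := by rw [hB]; simp only [Matrix.mul_assoc]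
        _ = w n (a n) * (Matrix.diagonal (NmlA_Z n) * Matrix.diagonal (NmlA_Z n)) *
            (w n (a n)).conjTranspose := by
              rw [star_mul_w, Matrix.mul_one]; simp only [Matrix.mul_assoc]
        _ = 1 := by rw [NmlA_diag_sq, Matrix.mul_one, w_mul_star]
    have hbs : star b = b := by
      rw [hb, ← map_star, Matrix.star_eq_conjTranspose, hBs]
    have hbb : b * b = 1 := by rw [hb, ← map_mul, hBB, map_one]
    have hech : T.e * (c * h * h) = c * h * h := by
      have h1 : T.e * c = c * T.e := T.masaAlg_comm a _ (T.e_mem_masa a) _ hcm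
      calc T.e * (c * h * h) = (T.e * c) * h * h := by simp only [mul_assoc]
        _ = c * (T.e * h) * h := by rw [h1]; simp only [mul_assoc]
        _ = c * h * h := by rw [heh]
    have hchh : c * h * h ∈ T.masaAlg a := mul_mem (mul_mem hcm hmasa) hmasa
    have hτ1 : T.τ (h * b * c * h) =
        (Real.cos (a n) ^ 2 : ℝ) * T.τ (h * T.φ n (Matrix.diagonal (NmlA_Z n)) * c * h) := by
      have e1 : T.τ (h * b * c * h) = T.τ (b * (c * h * h)) := by
        have := T.τ_comm hhR (mul_mem (mul_mem hbR hcR) hhR)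
        simpa [mul_assoc] using this
      have e2 : T.τ (h * T.φ n (Matrix.diagonal (NmlA_Z n)) * c * h) =
          T.τ (T.φ n (Matrix.diagonal (NmlA_Z n)) * (c * h * h)) := by
        have := T.τ_comm hhR (mul_mem (mul_mem (T.φ_mem n (Matrix.diagonal (NmlA_Z n))) hcR) hhR)
        simpa [mul_assoc] using this
      rw [e1, e2, hb, hB, T.τ_b_mul a hchh hech n _ (NmlA_Z_sum n)]
    have hn1 : ‖T.τ (h * T.φ n (Matrix.diagonal (NmlA_Z n)) * c * h)‖ ≤ T.n2 h ^ 2 := by
      set z : H →L[ℂ] H := T.φ n (Matrix.diagonal (NmlA_Z n)) with hz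
      have hzs : star z = z := by
        rw [hz, ← map_star, Matrix.star_eq_conjTranspose, NmlA_diag_star]
      have hzz : z * z = 1 := by rw [hz, ← map_mul, NmlA_diag_sq, map_one]
      have e1 : h * z * c * h = star h * (z * (c * h)) := by rw [hhs]; simp only [mul_assoc]
      rw [e1]
      refine (T.norm_τ_star_mul_le _ _).trans ?_
      have hz1 : star z * z = 1 := by rw [hzs]; exact hzz
      have hc1 : star c * c = 1 := by rw [hcs]; exact hcc
      rw [T.n2_unitary_mul hz1 (c * h), T.n2_unitary_mul hc1 h]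
      exact le_of_eq (sq _).symm
    have hn2 : ‖T.τ (h * b * c * h)‖ ≤ T.n2 h ^ 2 / 2 := by
      rw [hτ1, norm_mul, Complex.norm_real, Real.norm_eq_abs, abs_of_nonneg (sq_nonneg _)]
      have h1 := (ha n).1
      have h2 := sq_nonneg (T.n2 h)
      have h3 := sq_nonneg (Real.cos (a n))
      nlinarith [norm_nonneg (T.τ (h * T.φ n (Matrix.diagonal (NmlA_Z n)) * c * h))]
    have hexp : star (c * h - b * h) * (c * h - b * h) =
        star h * h - star (h * b * c * h) - h * b * c * h + star h * h := by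
      simp only [star_sub, star_mul, hcs, hbs, hhs]
      have e1 : h * c * (c * h) = h * h := by
        rw [mul_assoc, ← mul_assoc c c h, hcc, one_mul]
      have e2 : h * b * (b * h) = h * h := by
        rw [mul_assoc, ← mul_assoc b b h, hbb, one_mul]
      calc (h * c - h * b) * (c * h - b * h)
          = h * c * (c * h) - h * c * (b * h) - h * b * (c * h) + h * b * (b * h) := by
            noncomm_ring
        _ = _ := by rw [e1, e2]; simp only [mul_assoc]
    have hre : T.n2 (c * h - b * h) ^ 2 = 2 * T.n2 h ^ 2 - 2 * (T.τ (h * b * c * h)).re := by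
      have h1 := T.τ_star_mul_self (c * h - b * h)
      rw [hexp, T.τ_add, T.τ_sub, T.τ_sub, T.τ_star, T.τ_star_mul_self] at h1
      have h2 := congrArg Complex.re h1
      simp only [Complex.add_re, Complex.sub_re, Complex.conj_re, Complex.ofReal_re] at h2
      linarith
    rw [hre]
    have h1 := Complex.abs_re_le_norm (T.τ (h * b * c * h))
    have h2 := (abs_le.1 h1).2
    linarith
  -- the commutators tend to zero
  have hlim : Tendsto (fun n => T.n2 ((u * T.q a n (NmlA_Z n) * star u) * h -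
        T.φ n (w n (a n) * Matrix.diagonal (NmlA_Z n) * (w n (a n)).conjTranspose) * h))
        atTop (𝓝 0) := by
    have hbound : ∀ n, T.n2 ((u * T.q a n (NmlA_Z n) * star u) * h -
        T.φ n (w n (a n) * Matrix.diagonal (NmlA_Z n) * (w n (a n)).conjTranspose) * h) ≤
        2 * T.n2 (T.E n t - t) * ‖star t‖ := by
      intro n
      set d : H →L[ℂ] H := T.q a n (NmlA_Z n) with hd
      set B : Matrix (G n) (G n) ℂ :=
        w n (a n) * Matrix.diagonal (NmlA_Z n) * (w n (a n)).conjTranspose with hB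
      set b : H →L[ℂ] H := T.φ n B with hb
      have hbR : b ∈ R := T.φ_mem n _
      have hBs : B.conjTranspose = B := by
        rw [hB, Matrix.conjTranspose_mul, Matrix.conjTranspose_mul,
          Matrix.conjTranspose_conjTranspose, NmlA_diag_star, Matrix.mul_assoc]
      have hBB : B * B = 1 := by
        calc B * B = w n (a n) * Matrix.diagonal (NmlA_Z n) *
              ((w n (a n)).conjTranspose * w n (a n)) * Matrix.diagonal (NmlA_Z n) *
              (w n (a n)).conjTranspose := by rw [hB]; simp only [Matrix.mul_assoc]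
          _ = w n (a n) * (Matrix.diagonal (NmlA_Z n) * Matrix.diagonal (NmlA_Z n)) *
              (w n (a n)).conjTranspose := by
                rw [star_mul_w, Matrix.mul_one]; simp only [Matrix.mul_assoc]
          _ = 1 := by rw [NmlA_diag_sq, Matrix.mul_one, w_mul_star]
      have hbs : star b = b := by
        rw [hb, ← map_star, Matrix.star_eq_conjTranspose, hBs]
      have hbb : b * b = 1 := by rw [hb, ← map_mul, hBB, map_one]
      have hbn : ‖b‖ ≤ 1 := NmlA_norm_le_one (by rw [hbs]; exact hbb)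
      have hdm : d ∈ T.masaAlg a := T.q_mem a n _
      have h1 : (u * d * star u) * t = t * b := by
        rw [← hα d hdm]
        calc t * d = T.e * u * (T.f * d) := by rw [ht, mul_assoc]
          _ = T.e * u * (T.f * b) := by rw [hd, T.f_mul_q]
          _ = t * b := by rw [ht]; simp only [mul_assoc]
      have h2 : (u * d * star u) * h - b * h = (t * b - b * t) * star t := by
        rw [hh, ← mul_assoc, h1, ← mul_assoc, sub_mul]
      rw [h2]
      have h3 : t * b - b * t ∈ R := sub_mem (mul_mem htR hbR) (mul_mem hbR htR)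
      refine (T.n2_mul_le' h3 htsR).trans ?_
      refine mul_le_mul_of_nonneg_right ?_ (norm_nonneg _)
      refine (T.n2_comm_tail (le_refl n) htR B).trans ?_
      rw [T.n2_sub_comm (T.E n t) t]
      have h4 := T.n2_nonneg (t - T.E n t)
      have h5 : 2 * ‖T.φ n B‖ ≤ 2 := by linarith
      exact mul_le_mul_of_nonneg_right h5 h4
    have hz : Tendsto (fun n => 2 * T.n2 (T.E n t - t) * ‖star t‖) atTop (𝓝 0) := by
      have := ((T.tendsto_E htR).const_mul 2).mul_const ‖star t‖
      simpa using this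
    exact squeeze_zero (fun n => T.n2_nonneg _) hbound hz
  have hsq : T.n2 h ^ 2 ≤ 0 := by
    have h1 := hlim.pow 2
    rw [zero_pow two_ne_zero] at h1
    exact ge_of_tendsto' h1 key
  have hn : T.n2 h = 0 := by
    have := sq_nonneg (T.n2 h)
    exact pow_eq_zero_iff two_ne_zero |>.1 (le_antisymm hsq this)
  have hh0 : h = 0 := T.eq_zero_of_n2 hhR hn
  have hnt : ‖t * star t‖ = ‖t‖ * ‖t‖ := CStarRing.norm_self_mul_star
  rw [← hh, hh0, norm_zero] at hnt
  have : ‖t‖ = 0 := by
    rcases mul_eq_zero.1 hnt.symm with h1 | h1 <;> exact h1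
  exact norm_eq_zero.1 this

theorem norm_comm_e {a : ℕ → ℝ} (ha : Adm a) {u : H →L[ℂ] H} (hu : T.Nml a u) :
    u * T.e = T.e * u := by
  have h1 := T.corner_zero ha hu
  have hu' : T.Nml a (star u) := by
    refine ⟨star_mem hu.mem, ?_, ?_, ?_, ?_⟩
    · rw [star_star]; exact hu.mul_star
    · rw [star_star]; exact hu.star_mul
    · intro x hx; rw [star_star]; exact hu.conj' x hx
    · intro x hx; rw [star_star]; exact hu.conj x hx
  have h2 := T.corner_zero ha hu'
  have h3 : T.f * u * T.e = 0 := by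
    have := congrArg star h2
    simpa [star_mul, T.star_e, T.star_f, mul_assoc] using this
  calc u * T.e = (T.e + T.f) * (u * T.e) := by rw [T.e_add_f, one_mul]
    _ = T.e * u * T.e + T.f * u * T.e := by rw [add_mul, mul_assoc, mul_assoc]
    _ = T.e * u * T.e + T.e * u * T.f := by rw [h3, h1]
    _ = T.e * u * (T.e + T.f) := by rw [mul_add]
    _ = T.e * u := by rw [T.e_add_f, mul_one]

end BlockTower

end MP_c82b80_an
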