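import Mathlib
import Pool.Agent.Lib.MP_c82b80_an.NmlA
import Pool.Agent.Lib.MP_c82b80_an.Auto

/-!
# JOB NML-B : projections of the masa commuting with its normaliser

`nml_perm` : for a permutation `π` of `I N` preserving the first coordinate, `P` its matrix, `u = ρ (U P U*)`
normalises `A_a`: `u q a n d u* ∈ A_a` for `n < N` (it is a `dg`: `P diag(χ) P* = diag (χ ∘ π⁻¹)`), for `n ≥ N` `u`
commutes with `q a n d`; and `u e u* = e`.  Then for `x ∈ A_a`: `u* x u` commutes with `e` and all `q a n d` as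
`x` commutes with `u q u* ∈ A_a`.  Same for `π⁻¹`.
`proj_of_comm_nml` : `p` commutes with all these `u`; so `coef N p = U diag(χ) U*`, `χ ∘ π = χ` (all `π` preserving the
first coordinate), so `χ p` depends only on `p.1`: `E N p = α e + β f`, `α = 2 τ (p e)`, `β = 2 τ (p f)`; limit:
`p = α e + β f`, and `p² = p` gives `α, β ∈ {0, 1}`.
`auto_e` : `e` commutes with `Nml a`; `θ` maps `Nml a` onto `Nml b`; so `θ e` is a projection of `A_b` commuting with
`Nml b`; it is not `0`, `1` by injectivity.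
-/

open scoped InnerProductSpace ComplexOrder
open Filter Topology

namespace MP_c82b80_an

universe u

variable {H : Type u} [NormedAddCommGroup H] [InnerProductSpace ℂ H] [CompleteSpace H]

namespace BlockTower

variable {R : VonNeumannAlgebra H} (T : BlockTower R)

/-- entries of the permutation matrix -/
private theorem nmlB_perm_apply {n : Type} [DecidableEq n] (π : Equiv.Perm n) (i j : n) :
    π.permMatrix ℂ i j = if π i = j then 1 else 0 := by
  simp [Equiv.Perm.permMatrix, PEquiv.toMatrix_apply, Equiv.toPEquiv_apply, eq_comm]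

private theorem nmlB_perm_star {n : Type} [DecidableEq n] (π : Equiv.Perm n) :
    (π.permMatrix ℂ).conjTranspose = π⁻¹.permMatrix ℂ := by
  ext i j
  rw [Matrix.conjTranspose_apply, nmlB_perm_apply, nmlB_perm_apply]
  by_cases h : π j = i
  · have h' : π⁻¹ i = j := by rw [← h]; simp
    simp [h, h']
  · have h' : ¬ π⁻¹ i = j := by
      intro e; apply h; rw [← e]; simp
    rw [if_neg h, if_neg h', star_zero]

private theorem nmlB_perm_mul_star {n : Type} [Fintype n] [DecidableEq n] (π : Equiv.Perm n) :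
    π.permMatrix ℂ * (π.permMatrix ℂ).conjTranspose = 1 := by
  ext i j
  rw [Matrix.mul_apply, Finset.sum_eq_single (π i)]
  · rw [Matrix.conjTranspose_apply, nmlB_perm_apply, nmlB_perm_apply]
    by_cases h : i = j
    · subst h; simp
    · have h' : ¬ π j = π i := fun e => h (π.injective e).symm
      simp [h, h']
  · intro k _ hk
    rw [nmlB_perm_apply, if_neg (Ne.symm hk), zero_mul]
  · intro h
    exact absurd (Finset.mem_univ _) h

private theorem nmlB_perm_diag {n : Type} [Fintype n] [DecidableEq n] (π : Equiv.Perm n)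
    (χ : n → ℂ) :
    π.permMatrix ℂ * Matrix.diagonal χ * (π.permMatrix ℂ).conjTranspose
      = Matrix.diagonal (fun i => χ (π i)) := by
  ext i j
  rw [Matrix.mul_apply, Finset.sum_eq_single (π i)]
  · rw [Matrix.conjTranspose_apply, Matrix.mul_diagonal, nmlB_perm_apply, nmlB_perm_apply,
      Matrix.diagonal_apply]
    by_cases h : i = j
    · subst h; simp
    · have h' : ¬ π j = π i := fun e => h (π.injective e).symm
      simp [h, h']
  · intro k _ hk
    rw [Matrix.mul_diagonal, nmlB_perm_apply, if_neg (Ne.symm hk), zero_mul, zero_mul]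
  · intro h
    exact absurd (Finset.mem_univ _) h

/-- the matrix `U P U*` -/
private noncomputable def nmlB_V (a : ℕ → ℝ) (N : ℕ) (π : Equiv.Perm (I N)) :
    Matrix (I N) (I N) ℂ :=
  Umat a N * π.permMatrix ℂ * (Umat a N).conjTranspose

private theorem nmlB_V_star (a : ℕ → ℝ) (N : ℕ) (π : Equiv.Perm (I N)) :
    (nmlB_V a N π).conjTranspose = nmlB_V a N π⁻¹ := by
  unfold nmlB_V
  rw [Matrix.conjTranspose_mul, Matrix.conjTranspose_mul, Matrix.conjTranspose_conjTranspose,
    nmlB_perm_star, Matrix.mul_assoc]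

private theorem nmlB_V_mul_star (a : ℕ → ℝ) (N : ℕ) (π : Equiv.Perm (I N)) :
    nmlB_V a N π * (nmlB_V a N π).conjTranspose = 1 := by
  unfold nmlB_V
  rw [Matrix.conjTranspose_mul, Matrix.conjTranspose_mul, Matrix.conjTranspose_conjTranspose]
  calc Umat a N * π.permMatrix ℂ * (Umat a N).conjTranspose *
        (Umat a N * ((π.permMatrix ℂ).conjTranspose * (Umat a N).conjTranspose))
      = Umat a N * π.permMatrix ℂ * ((Umat a N).conjTranspose * Umat a N) *
        (π.permMatrix ℂ).conjTranspose * (Umat a N).conjTranspose := by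
          simp only [Matrix.mul_assoc]
    _ = Umat a N * (π.permMatrix ℂ * (π.permMatrix ℂ).conjTranspose) *
        (Umat a N).conjTranspose := by
          rw [star_mul_Umat, Matrix.mul_one]; simp only [Matrix.mul_assoc]
    _ = 1 := by rw [nmlB_perm_mul_star, Matrix.mul_one, Umat_mul_star]

private theorem nmlB_V_star_mul (a : ℕ → ℝ) (N : ℕ) (π : Equiv.Perm (I N)) :
    (nmlB_V a N π).conjTranspose * nmlB_V a N π = 1 := by
  have := nmlB_V_mul_star a N π⁻¹
  rwa [nmlB_V_star, inv_inv, ← nmlB_V_star] at this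

private theorem nmlB_V_dmat (a : ℕ → ℝ) (N : ℕ) (π : Equiv.Perm (I N)) (χ : I N → ℂ) :
    nmlB_V a N π * dmat a N χ * (nmlB_V a N π).conjTranspose
      = dmat a N (fun p => χ (π p)) := by
  unfold nmlB_V dmat
  rw [Matrix.conjTranspose_mul, Matrix.conjTranspose_mul, Matrix.conjTranspose_conjTranspose]
  calc Umat a N * π.permMatrix ℂ * (Umat a N).conjTranspose *
        (Umat a N * Matrix.diagonal χ * (Umat a N).conjTranspose) *
        (Umat a N * ((π.permMatrix ℂ).conjTranspose * (Umat a N).conjTranspose))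
      = Umat a N * π.permMatrix ℂ * ((Umat a N).conjTranspose * Umat a N) *
        Matrix.diagonal χ * ((Umat a N).conjTranspose * Umat a N) *
        (π.permMatrix ℂ).conjTranspose * (Umat a N).conjTranspose := by
          simp only [Matrix.mul_assoc]
    _ = Umat a N * (π.permMatrix ℂ * Matrix.diagonal χ * (π.permMatrix ℂ).conjTranspose) *
        (Umat a N).conjTranspose := by
          rw [star_mul_Umat, Matrix.mul_one, Matrix.mul_one]; simp only [Matrix.mul_assoc]
    _ = _ := by rw [nmlB_perm_diag]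

/-- the unitary `u = ρ (U P U*)` -/
private noncomputable def nmlB_u (a : ℕ → ℝ) (N : ℕ) (π : Equiv.Perm (I N)) : H →L[ℂ] H :=
  T.ρ N (nmlB_V a N π)

private theorem nmlB_u_star (a : ℕ → ℝ) (N : ℕ) (π : Equiv.Perm (I N)) :
    star (T.nmlB_u a N π) = T.nmlB_u a N π⁻¹ := by
  unfold nmlB_u
  rw [← map_star, Matrix.star_eq_conjTranspose, nmlB_V_star]

private theorem nmlB_u_mul_star (a : ℕ → ℝ) (N : ℕ) (π : Equiv.Perm (I N)) :
    T.nmlB_u a N π * star (T.nmlB_u a N π) = 1 := by
  unfold nmlB_u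
  rw [← map_star, Matrix.star_eq_conjTranspose, ← map_mul, nmlB_V_mul_star, map_one]

private theorem nmlB_u_star_mul (a : ℕ → ℝ) (N : ℕ) (π : Equiv.Perm (I N)) :
    star (T.nmlB_u a N π) * T.nmlB_u a N π = 1 := by
  unfold nmlB_u
  rw [← map_star, Matrix.star_eq_conjTranspose, ← map_mul, nmlB_V_star_mul, map_one]

private theorem nmlB_u_dg (a : ℕ → ℝ) (N : ℕ) (π : Equiv.Perm (I N)) (χ : I N → ℂ) :
    T.nmlB_u a N π * T.dg a N χ * star (T.nmlB_u a N π) = T.dg a N (fun p => χ (π p)) := by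
  unfold nmlB_u dg
  rw [← map_star, Matrix.star_eq_conjTranspose, ← map_mul, ← map_mul, nmlB_V_dmat]

private theorem nmlB_e_dg (a : ℕ → ℝ) (N : ℕ) :
    T.e = T.dg a N (fun p => if p.1 = 0 then 1 else 0) := by
  have h := T.dg_corner a N (fun i => if i = 0 then 1 else 0)
  simp only [if_true, one_smul, one_ne_zero, if_false, zero_smul, add_zero] at h
  exact h.symm

private theorem nmlB_u_e (a : ℕ → ℝ) (N : ℕ) (π : Equiv.Perm (I N)) (hπ : ∀ p, (π p).1 = p.1) :
    T.nmlB_u a N π * T.e * star (T.nmlB_u a N π) = T.e := by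
  rw [T.nmlB_e_dg a N, nmlB_u_dg]
  simp only [hπ]

private theorem nmlB_u_comm_e (a : ℕ → ℝ) (N : ℕ) (π : Equiv.Perm (I N))
    (hπ : ∀ p, (π p).1 = p.1) :
    T.nmlB_u a N π * T.e = T.e * T.nmlB_u a N π := by
  have h := congrArg (fun z => z * T.nmlB_u a N π) (T.nmlB_u_e a N π hπ)
  simp only [mul_assoc, nmlB_u_star_mul, mul_one] at h
  exact h

private theorem nmlB_u_comm_f (a : ℕ → ℝ) (N : ℕ) (π : Equiv.Perm (I N))
    (hπ : ∀ p, (π p).1 = p.1) :
    T.nmlB_u a N π * T.f = T.f * T.nmlB_u a N π := by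
  have hf : T.f = 1 - T.e := by rw [← T.e_add_f]; abel
  rw [hf, mul_sub, sub_mul, mul_one, one_mul, T.nmlB_u_comm_e a N π hπ]

private theorem nmlB_u_q (a : ℕ → ℝ) (N : ℕ) (π : Equiv.Perm (I N)) (hπ : ∀ p, (π p).1 = p.1)
    (n : ℕ) (d : G n → ℂ) :
    T.nmlB_u a N π * T.q a n d * star (T.nmlB_u a N π) ∈ T.masaAlg a := by
  rcases lt_or_ge n N with h | h
  · rw [T.q_eq_dg a h, nmlB_u_dg]
    exact T.dg_mem _ _ _
  · have hc : T.nmlB_u a N π * T.q a n d = T.q a n d * T.nmlB_u a N π := by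
      have c1 := (T.comm_tail h (nmlB_V a N π) (Matrix.diagonal d)).eq
      have c2 := (T.comm_tail h (nmlB_V a N π)
        (w n (a n) * Matrix.diagonal d * (w n (a n)).conjTranspose)).eq
      have c3 := T.nmlB_u_comm_e a N π hπ
      have c4 := T.nmlB_u_comm_f a N π hπ
      unfold q
      rw [mul_add, add_mul]
      change T.nmlB_u a N π * _ = _ * T.nmlB_u a N π at c1 c2
      rw [← mul_assoc, c3, mul_assoc, c1, ← mul_assoc, ← mul_assoc, c4,
        mul_assoc T.f (T.nmlB_u a N π), c2, ← mul_assoc]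
    rw [hc, mul_assoc, nmlB_u_mul_star, mul_one]
    exact T.q_mem _ _ _

private theorem nmlB_conj (a : ℕ → ℝ) (N : ℕ) (π : Equiv.Perm (I N)) (hπ : ∀ p, (π p).1 = p.1)
    {x : H →L[ℂ] H} (hx : x ∈ T.masaAlg a) :
    T.nmlB_u a N π * x * star (T.nmlB_u a N π) ∈ T.masaAlg a := by
  have hπ' : ∀ p, (π⁻¹ p).1 = p.1 := by
    intro p
    have := hπ (π⁻¹ p)
    have e : π (π⁻¹ p) = p := Equiv.apply_symm_apply π p
    rw [e] at this
    exact this.symm
  -- conjugating back a generator
  have key : ∀ g : H →L[ℂ] H, star (T.nmlB_u a N π) * g * T.nmlB_u a N π ∈ T.masaAlg a →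
      T.nmlB_u a N π * x * star (T.nmlB_u a N π) * g
        = g * (T.nmlB_u a N π * x * star (T.nmlB_u a N π)) := by
    intro g hg
    have hc := T.masaAlg_comm a x hx _ hg
    set u := T.nmlB_u a N π with hu
    have h1 : star u * u = 1 := T.nmlB_u_star_mul a N π
    have h2 : u * star u = 1 := T.nmlB_u_mul_star a N π
    calc u * x * star u * g = u * x * star u * g * (u * star u) := by rw [h2, mul_one]
      _ = u * (x * (star u * g * u)) * star u := by simp only [mul_assoc]
      _ = u * ((star u * g * u) * x) * star u := by rw [hc]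
      _ = (u * star u) * g * (u * x * star u) := by simp only [mul_assoc]
      _ = _ := by rw [h2, one_mul]
  have hinv : ∀ g : H →L[ℂ] H, T.nmlB_u a N π⁻¹ * g * star (T.nmlB_u a N π⁻¹)
      = star (T.nmlB_u a N π) * g * T.nmlB_u a N π := by
    intro g
    rw [nmlB_u_star, inv_inv, ← nmlB_u_star]
  rw [mem_masaAlg_iff]
  refine ⟨?_, ?_, ?_⟩
  · exact mul_mem (mul_mem (T.ρ_mem N _) (T.mem_R_of_masa hx)) (star_mem (T.ρ_mem N _))
  · apply key
    rw [← hinv, T.nmlB_u_e a N π⁻¹ hπ']
    exact T.e_mem_masa a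
  · intro n d
    apply key
    rw [← hinv]
    exact T.nmlB_u_q a N π⁻¹ hπ' n d

theorem nml_perm (a : ℕ → ℝ) (N : ℕ) (π : Equiv.Perm (I N)) (hπ : ∀ p, (π p).1 = p.1) :
    T.Nml a (T.ρ N (Umat a N * π.permMatrix ℂ * (Umat a N).conjTranspose)) := by
  have hπ' : ∀ p, (π⁻¹ p).1 = p.1 := by
    intro p
    have := hπ (π⁻¹ p)
    have e : π (π⁻¹ p) = p := Equiv.apply_symm_apply π p
    rw [e] at this
    exact this.symm
  change T.Nml a (T.nmlB_u a N π)
  refine ⟨T.ρ_mem N _, T.nmlB_u_star_mul a N π, T.nmlB_u_mul_star a N π,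
    fun x hx => T.nmlB_conj a N π hπ hx, fun x hx => ?_⟩
  have := T.nmlB_conj a N π⁻¹ hπ' hx
  rw [nmlB_u_star, inv_inv, ← nmlB_u_star] at this
  exact this

theorem proj_of_comm_nml (a : ℕ → ℝ) {p : H →L[ℂ] H} (hp : p ∈ T.masaAlg a) (hpp : p * p = p)
    (h : ∀ u, T.Nml a u → u * p = p * u) : p = 0 ∨ p = T.e ∨ p = T.f ∨ p = 1 := by
  classical
  have hpR := T.mem_R_of_masa hp
  -- the diagonal function depends only on the first coordinate
  have h1 : ∀ N (i j : I N), i.1 = j.1 → T.chi a N p i = T.chi a N p j := by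
    intro N i j hij
    have hπ : ∀ r : I N, (Equiv.swap i j r).1 = r.1 := by
      intro r
      rcases eq_or_ne r i with h1 | h1
      · subst h1; rw [Equiv.swap_apply_left]; exact hij.symm
      · rcases eq_or_ne r j with h2 | h2
        · subst h2; rw [Equiv.swap_apply_right]; exact hij
        · rw [Equiv.swap_apply_of_ne_of_ne h1 h2]
    have h2 := h _ (T.nml_perm a N (Equiv.swap i j) hπ)
    have h3 := congrArg (T.coef N) h2
    rw [T.coef_ρ_mul N hpR, T.coef_mul_ρ N hpR, T.coef_eq_dmat hp N] at h3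
    change nmlB_V a N (Equiv.swap i j) * _ = _ * nmlB_V a N (Equiv.swap i j) at h3
    have h4 := nmlB_V_dmat a N (Equiv.swap i j) (T.chi a N p)
    rw [h3, Matrix.mul_assoc, nmlB_V_mul_star, Matrix.mul_one] at h4
    have h5 : T.chi a N (T.dg a N (T.chi a N p))
        = T.chi a N (T.dg a N (fun r => T.chi a N p (Equiv.swap i j r))) := by
      unfold dg; rw [← h4]
    rw [chi_dg, chi_dg] at h5
    have h6 := congrFun h5 i
    simp only [Equiv.swap_apply_left] at h6
    exact h6
  -- so the conditional expectation is in the span of `e`, `f`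
  have h2 : ∀ N, T.E N p = (2 * T.τ (p * T.e)) • T.e + (2 * T.τ (p * T.f)) • T.f := by
    intro N
    obtain ⟨y⟩ : Nonempty (Y N) := inferInstance
    have e1 : T.E N p = T.chi a N p (0, y) • T.e + T.chi a N p (1, y) • T.f := by
      rw [T.E_eq_dg hp N, ← T.dg_corner a N (fun i => T.chi a N p (i, y))]
      congr 1
      funext r
      exact h1 N r (r.1, y) rfl
    have e2 : T.τ (p * T.e) = T.chi a N p (0, y) * (1 / 2) := by
      have e3 : T.e = T.ρ N (cor (Matrix.single 0 0 1)) := (T.ρ_cor _).symm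
      rw [e3, ← T.τ_E_mul N hpR, ← e3, e1, add_mul, smul_mul_assoc, smul_mul_assoc, e_mul_e, f_mul_e,
        smul_zero, add_zero, τ_smul, τ_e]
    have e2' : T.τ (p * T.f) = T.chi a N p (1, y) * (1 / 2) := by
      have e3 : T.f = T.ρ N (cor (Matrix.single 1 1 1)) := (T.ρ_cor _).symm
      rw [e3, ← T.τ_E_mul N hpR, ← e3, e1, add_mul, smul_mul_assoc, smul_mul_assoc, f_mul_f, e_mul_f,
        smul_zero, zero_add, τ_smul, τ_f]
    rw [e1, e2, e2']
    congr 2 <;> ring
  set α := 2 * T.τ (p * T.e) with hα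
  set β := 2 * T.τ (p * T.f) with hβ
  have h3 : p = α • T.e + β • T.f := by
    have t1 := T.tendsto_E hpR
    simp_rw [h2] at t1
    have t2 : T.n2 (α • T.e + β • T.f - p) = 0 := tendsto_nhds_unique tendsto_const_nhds t1
    have t3 : α • T.e + β • T.f - p ∈ R := by
      rw [← h2 0]
      exact sub_mem (T.E_mem 0 p) hpR
    exact (sub_eq_zero.1 (T.eq_zero_of_n2 t3 t2)).symm
  have h4 : p * p = (α * α) • T.e + (β * β) • T.f := by
    rw [h3, add_mul, mul_add, mul_add]
    simp only [smul_mul_smul_comm, e_mul_e, e_mul_f, f_mul_e, f_mul_f, smul_zero, add_zero,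
      zero_add]
  rw [hpp] at h4
  have h5 : α = α * α := by
    have e1 : T.τ (p * T.e) = α * (1 / 2) := by rw [hα]; ring
    have e2 : T.τ (p * T.e) = (α * α) * (1 / 2) := by
      conv_lhs => rw [h4]
      rw [add_mul, smul_mul_assoc, smul_mul_assoc, e_mul_e, f_mul_e, smul_zero, add_zero, τ_smul,
        τ_e]
    rw [e1] at e2
    exact mul_right_cancel₀ (by norm_num) e2
  have h6 : β = β * β := by
    have e1 : T.τ (p * T.f) = β * (1 / 2) := by rw [hβ]; ring
    have e2 : T.τ (p * T.f) = (β * β) * (1 / 2) := by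
      conv_lhs => rw [h4]
      rw [add_mul, smul_mul_assoc, smul_mul_assoc, e_mul_f, f_mul_f, smul_zero, zero_add, τ_smul,
        τ_f]
    rw [e1] at e2
    exact mul_right_cancel₀ (by norm_num) e2
  have h7 : α = 0 ∨ α = 1 := by
    have : α * (α - 1) = 0 := by rw [mul_sub, mul_one, ← h5, sub_self]
    rcases mul_eq_zero.1 this with h | h
    · exact Or.inl h
    · exact Or.inr (sub_eq_zero.1 h)
  have h8 : β = 0 ∨ β = 1 := by
    have : β * (β - 1) = 0 := by rw [mul_sub, mul_one, ← h6, sub_self]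
    rcases mul_eq_zero.1 this with h | h
    · exact Or.inl h
    · exact Or.inr (sub_eq_zero.1 h)
  rcases h7 with ha | ha <;> rcases h8 with hb | hb <;> rw [ha, hb] at h3
  · left; rw [h3]; simp
  · right; right; left; rw [h3]; simp
  · right; left; rw [h3]; simp
  · right; right; right; rw [h3, one_smul, one_smul, e_add_f]

theorem auto_e {a b : ℕ → ℝ} (ha : Adm a) (θ : Auto R)
    (hθ : ∀ x ∈ R, x ∈ T.masaAlg a ↔ θ.fwd x ∈ T.masaAlg b) :
    θ.fwd T.e = T.e ∨ θ.fwd T.e = T.f := by
  have heR := T.e_mem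
  have hp : θ.fwd T.e ∈ T.masaAlg b := (hθ _ heR).1 (T.e_mem_masa a)
  have hpp : θ.fwd T.e * θ.fwd T.e = θ.fwd T.e := by
    rw [← θ.map_mul _ heR _ heR, e_mul_e]
  have hcomm : ∀ u, T.Nml b u → u * θ.fwd T.e = θ.fwd T.e * u := by
    intro u hu
    have hvR : θ.bwd u ∈ R := θ.bwd_mem u hu.mem
    have hvf : θ.fwd (θ.bwd u) = u := θ.fwd_bwd u hu.mem
    have hv : T.Nml a (θ.bwd u) := by
      refine ⟨hvR, ?_, ?_, ?_, ?_⟩
      · apply θ.injOn (mul_mem (star_mem hvR) hvR) (one_mem R)
        rw [θ.map_mul _ (star_mem hvR) _ hvR, θ.map_star _ hvR, hvf, hu.star_mul, θ.map_one]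
      · apply θ.injOn (mul_mem hvR (star_mem hvR)) (one_mem R)
        rw [θ.map_mul _ hvR _ (star_mem hvR), θ.map_star _ hvR, hvf, hu.mul_star, θ.map_one]
      · intro x hx
        have hxR := T.mem_R_of_masa hx
        rw [hθ _ (mul_mem (mul_mem hvR hxR) (star_mem hvR)),
          θ.map_mul _ (mul_mem hvR hxR) _ (star_mem hvR), θ.map_mul _ hvR _ hxR,
          θ.map_star _ hvR, hvf]
        exact hu.conj _ ((hθ _ hxR).1 hx)
      · intro x hx
        have hxR := T.mem_R_of_masa hx
        rw [hθ _ (mul_mem (mul_mem (star_mem hvR) hxR) hvR),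
          θ.map_mul _ (mul_mem (star_mem hvR) hxR) _ hvR, θ.map_mul _ (star_mem hvR) _ hxR,
          θ.map_star _ hvR, hvf]
        exact hu.conj' _ ((hθ _ hxR).1 hx)
    have h1 := T.norm_comm_e ha hv
    have h2 := congrArg θ.fwd h1
    rw [θ.map_mul _ hvR _ heR, θ.map_mul _ heR _ hvR, hvf] at h2
    exact h2
  have hhalf : T.τ T.e ≠ 0 := by rw [τ_e]; norm_num
  rcases T.proj_of_comm_nml b hp hpp hcomm with h | h | h | h
  · exfalso
    have : T.e = 0 := θ.injOn heR (zero_mem R) (by rw [h, θ.map_zero])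
    apply hhalf
    rw [this, τ_zero]
  · exact Or.inl h
  · exact Or.inr h
  · exfalso
    have : T.e = 1 := θ.injOn heR (one_mem R) (by rw [h, θ.map_one])
    have h2 := T.τ_e
    rw [this, τ_one] at h2
    norm_num at h2

end BlockTower

end MP_c82b80_an
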