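import Mathlib
import Pool.Agent.Lib.MP_c82b80_an.Norm2

/-!
# JOB PVM : finite partitions of unity and their 2-norm distance

`Pvm R p` : `p v`, `v : V`, are pairwise orthogonal projections of `R` with sum `1`.
`T.D p q = ∑ v, n2 (p v - q v) ^ 2`; `push g p w = ∑ over {v | g v = w} of p v`;
`joint E p (c, v) = E c * p v`.

* `D_eq` : `n2 (p v - q v)² = τ (p v) + τ (q v) - 2 re τ (p v q v)` (`τ_star_mul_self`, `τ_comm`); sums of `τ (p v)` are `1`.
* `re_τ_mul_nonneg` : `τ (p q) = τ ((q p)* (q p)) = n2 (q p)²` for projections.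
* `D_push_le` (data processing) : by `D_eq`, `∑_w τ (push g p w * push g q w)
   = ∑_{v, v', g v = g v'} τ (p v q v') ≥ ∑_v τ (p v q v)`.
* `D_tri` : Minkowski in `ℓ²(V, H)` (e.g. `EuclideanSpace`/`PiLp 2` or `Real.sqrt` of sums:
  `Real.Lp_add_le`, or the norm of the element `(v ↦ (p v - q v) Ω)` of `PiLp 2 (fun _ : V => H)`).
* `D_joint` : `∑ c, n2 (E c * x)² = ∑ c, τ (x* E c x) = n2 x²`.
* `stab_close` : `τ(p S p S*) - τ(q S q S*) = τ((p-q) S p S*) + τ(q S (p-q) S*)`; each is at most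
  `n2 (p - q) * n2 p` (`‖S‖ ≤ 1`, `norm_τ_star_mul_le`, `n2_mul_le`, `n2_mul_le'`, `τ_comm`); Cauchy-Schwarz over `v`,
  `∑ n2 (p v)² = 1`.
-/

open scoped InnerProductSpace
open Filter Topology

namespace MP_c82b80_an

universe u

variable {H : Type u} [NormedAddCommGroup H] [InnerProductSpace ℂ H] [CompleteSpace H]

/-- finite partitions of unity by projections of `R` -/
structure Pvm (R : VonNeumannAlgebra H) {V : Type} [Fintype V] (p : V → H →L[ℂ] H) : Prop where
  mem : ∀ v, p v ∈ R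
  star : ∀ v, star (p v) = p v
  idem : ∀ v, p v * p v = p v
  orth : ∀ v w, v ≠ w → p v * p w = 0
  sum : ∑ v, p v = 1

/-- image of a partition under a map of the labels -/
noncomputable def push {V W : Type} [Fintype V] [DecidableEq W] (g : V → W)
    (p : V → H →L[ℂ] H) (w : W) : H →L[ℂ] H :=
  ∑ v, if g v = w then p v else 0

/-- the family `E c * p v` -/
noncomputable def joint {C V : Type} (E : C → H →L[ℂ] H) (p : V → H →L[ℂ] H) (cv : C × V) :
    H →L[ℂ] H := E cv.1 * p cv.2

theorem push_push {V W X : Type} [Fintype V] [Fintype W] [DecidableEq W] [DecidableEq X]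
    (g : V → W) (h : W → X) (p : V → H →L[ℂ] H) : push h (push g p) = push (h ∘ g) p := by
  funext w
  show ∑ v, (if h v = w then (∑ u, if g u = v then p u else 0) else 0) =
    ∑ u, if h (g u) = w then p u else 0
  have h1 : ∀ v, (if h v = w then (∑ u, if g u = v then p u else 0) else 0) =
      ∑ u, if g u = v then (if h v = w then p u else 0) else 0 := by
    intro v
    by_cases hv : h v = w
    · simp only [if_pos hv]
    · simp only [if_neg hv, ite_self, Finset.sum_const_zero]
  rw [Finset.sum_congr rfl fun v _ => h1 v, Finset.sum_comm]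
  refine Finset.sum_congr rfl fun u _ => ?_
  rw [Finset.sum_ite_eq, if_pos (Finset.mem_univ _)]

variable {R : VonNeumannAlgebra H}

private theorem pvm_star_ite (P : Prop) [Decidable P] (x : H →L[ℂ] H) :
    Star.star (if P then x else 0) = if P then Star.star x else 0 := by
  split_ifs
  · rfl
  · exact star_zero _

open scoped Classical in
private theorem pvm_mul {V : Type} [Fintype V] {p : V → H →L[ℂ] H} (hp : Pvm R p) (v u : V) :
    p v * p u = if v = u then p v else 0 := by
  by_cases h : v = u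
  · subst h
    rw [if_pos rfl, hp.idem]
  · rw [if_neg h, hp.orth v u h]

private theorem pvm_push_mul {V W : Type} [Fintype V] [DecidableEq W] (g : V → W)
    (p q : V → H →L[ℂ] H) (w w' : W) :
    push g p w * push g q w' =
      ∑ v, ∑ u, if g v = w then (if g u = w' then p v * q u else 0) else 0 := by
  unfold push
  rw [Finset.sum_mul]
  refine Finset.sum_congr rfl fun v _ => ?_
  rw [Finset.mul_sum]
  refine Finset.sum_congr rfl fun u _ => ?_
  split_ifs
  · rfl
  · exact mul_zero _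
  · exact zero_mul _
  · exact zero_mul _

private theorem pvm_push_push_mul {V W : Type} [Fintype V] [DecidableEq W] {p : V → H →L[ℂ] H}
    (hp : Pvm R p) (g : V → W) (w w' : W) :
    push g p w * push g p w' = if w = w' then push g p w else 0 := by
  classical
  rw [pvm_push_mul]
  have h1 : ∀ v, (∑ u, if g v = w then (if g u = w' then p v * p u else 0) else 0) =
      if g v = w then (if g v = w' then p v else 0) else 0 := by
    intro v
    have h2 : ∀ u, (if g v = w then (if g u = w' then p v * p u else 0) else 0) =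
        if v = u then (if g v = w then (if g u = w' then p v else 0) else 0) else 0 := by
      intro u
      rw [pvm_mul hp v u]
      by_cases h : v = u
      · simp only [if_pos h]
      · simp only [if_neg h, ite_self]
    rw [Finset.sum_congr rfl fun u _ => h2 u, Finset.sum_ite_eq, if_pos (Finset.mem_univ _)]
  rw [Finset.sum_congr rfl fun v _ => h1 v]
  by_cases hw : w = w'
  · subst hw
    rw [if_pos rfl]
    refine Finset.sum_congr rfl fun v _ => ?_
    split_ifs <;> rfl
  · rw [if_neg hw]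
    refine Finset.sum_eq_zero fun v _ => ?_
    by_cases h3 : g v = w
    · rw [if_pos h3, if_neg (by rw [h3]; exact hw)]
    · rw [if_neg h3]

theorem Pvm.push {V W : Type} [Fintype V] [Fintype W] [DecidableEq W] {p : V → H →L[ℂ] H}
    (hp : Pvm R p) (g : V → W) : Pvm R (push g p) where
  mem w := by
    refine sum_mem fun v _ => ?_
    split_ifs
    · exact hp.mem v
    · exact zero_mem R
  star w := by
    show Star.star (∑ v, if g v = w then p v else 0) = ∑ v, if g v = w then p v else 0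
    rw [star_sum]
    refine Finset.sum_congr rfl fun v _ => ?_
    rw [pvm_star_ite, hp.star]
  idem w := by
    rw [pvm_push_push_mul hp, if_pos rfl]
  orth w w' h := by
    rw [pvm_push_push_mul hp, if_neg h]
  sum := by
    show ∑ w, ∑ v, (if g v = w then p v else 0) = 1
    rw [Finset.sum_comm, ← hp.sum]
    refine Finset.sum_congr rfl fun v _ => ?_
    rw [Finset.sum_ite_eq, if_pos (Finset.mem_univ _)]

theorem Pvm.joint {C V : Type} [Fintype C] [Fintype V] {E : C → H →L[ℂ] H} {p : V → H →L[ℂ] H}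
    (hE : Pvm R E) (hp : Pvm R p) (hc : ∀ c v, E c * p v = p v * E c) : Pvm R (joint E p) := by
  have key : ∀ c v c' v', (E c * p v) * (E c' * p v') = (E c * E c') * (p v * p v') := by
    intro c v c' v'
    rw [mul_assoc, ← mul_assoc (p v), ← hc c' v, mul_assoc (E c') , ← mul_assoc (E c)]
  refine ⟨?_, ?_, ?_, ?_, ?_⟩
  · intro cv
    exact mul_mem (hE.mem _) (hp.mem _)
  · intro cv
    show Star.star (E cv.1 * p cv.2) = E cv.1 * p cv.2
    rw [star_mul, hE.star, hp.star, hc]
  · intro cv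
    show (E cv.1 * p cv.2) * (E cv.1 * p cv.2) = E cv.1 * p cv.2
    rw [key, hE.idem, hp.idem]
  · rintro ⟨c, v⟩ ⟨c', v'⟩ h
    show (E c * p v) * (E c' * p v') = 0
    rw [key]
    by_cases h1 : c = c'
    · have h2 : v ≠ v' := by
        intro h2
        apply h
        rw [h1, h2]
      rw [hp.orth v v' h2, mul_zero]
    · rw [hE.orth c c' h1, zero_mul]
  · show ∑ cv : C × V, E cv.1 * p cv.2 = 1
    rw [Fintype.sum_prod_type]
    have h1 : ∀ c, ∑ v, E c * p v = E c := by
      intro c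
      rw [← Finset.mul_sum, hp.sum, mul_one]
    rw [Finset.sum_congr rfl fun c _ => h1 c, hE.sum]

theorem Pvm.norm_le {V : Type} [Fintype V] {p : V → H →L[ℂ] H} (hp : Pvm R p) (v : V) :
    ‖p v‖ ≤ 1 := by
  have h1 : ‖Star.star (p v) * p v‖ = ‖p v‖ * ‖p v‖ := CStarRing.norm_star_mul_self
  rw [hp.star, hp.idem] at h1
  by_contra h
  push Not at h
  nlinarith

namespace BlockTower

variable (T : BlockTower R)

/-- squared 2-norm distance of families of operators -/
noncomputable def D {V : Type} [Fintype V] (p q : V → H →L[ℂ] H) : ℝ :=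
  ∑ v, T.n2 (p v - q v) ^ 2

theorem D_nonneg {V : Type} [Fintype V] (p q : V → H →L[ℂ] H) : 0 ≤ T.D p q :=
  Finset.sum_nonneg fun _ _ => sq_nonneg _

theorem D_symm {V : Type} [Fintype V] (p q : V → H →L[ℂ] H) : T.D p q = T.D q p :=
  Finset.sum_congr rfl fun v _ => by rw [T.n2_sub_comm]

theorem D_tri {V : Type} [Fintype V] (p q r : V → H →L[ℂ] H) :
    Real.sqrt (T.D p r) ≤ Real.sqrt (T.D p q) + Real.sqrt (T.D q r) := by
  have h1 : T.D p r ≤ ∑ v, (T.n2 (p v - q v) + T.n2 (q v - r v)) ^ 2 := by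
    refine Finset.sum_le_sum fun v _ => ?_
    exact pow_le_pow_left₀ (T.n2_nonneg _) (T.n2_sub_le _ _ _) 2
  refine (Real.sqrt_le_sqrt h1).trans ?_
  have h2 := norm_add_le
    (WithLp.toLp 2 (fun v => T.n2 (p v - q v)) : EuclideanSpace ℝ V)
    (WithLp.toLp 2 (fun v => T.n2 (q v - r v)) : EuclideanSpace ℝ V)
  rw [EuclideanSpace.norm_eq, EuclideanSpace.norm_eq, EuclideanSpace.norm_eq] at h2
  simp only [PiLp.add_apply, Real.norm_eq_abs, sq_abs] at h2
  exact h2

theorem re_τ_mul_nonneg {p q : H →L[ℂ] H} (hp : p ∈ R) (hq : q ∈ R) (hps : star p = p)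
    (hpp : p * p = p) (hqs : star q = q) (hqq : q * q = q) : 0 ≤ (T.τ (p * q)).re := by
  have h1 : T.τ (p * q) = T.τ (star (q * p) * (q * p)) := by
    rw [star_mul, hps, hqs]
    have e1 : p * q * (q * p) = p * q * p := by
      rw [mul_assoc, ← mul_assoc q, hqq, mul_assoc]
    have e2 : T.τ (p * (p * q)) = T.τ ((p * q) * p) := T.τ_comm hp (mul_mem hp hq)
    rw [e1, ← e2, ← mul_assoc, hpp]
  rw [h1, T.τ_star_mul_self, Complex.ofReal_re]
  exact sq_nonneg _

/-- `τ (p q r) ≤ τ (p q)` for commuting projections `p`, `q` and a projection `r` -/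
theorem re_τ_mul_mul_le {p q r : H →L[ℂ] H} (hp : p ∈ R) (hq : q ∈ R) (hr : r ∈ R)
    (hps : star p = p) (hpp : p * p = p) (hqs : star q = q) (hqq : q * q = q)
    (hrs : star r = r) (hrr : r * r = r) (hpq : p * q = q * p) :
    (T.τ (p * q * r)).re ≤ (T.τ (p * q)).re := by
  have h1 := T.re_τ_mul_nonneg (p := p * q) (q := 1 - r) (mul_mem hp hq)
    (sub_mem (one_mem R) hr) (by rw [star_mul, hps, hqs, hpq])
    (by rw [mul_assoc, ← mul_assoc q, ← hpq, mul_assoc p q q, hqq, ← mul_assoc, hpp])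
    (by rw [star_sub, star_one, hrs])
    (by rw [sub_mul, mul_sub, mul_sub, one_mul, one_mul, mul_one, hrr, sub_self, sub_zero])
  rw [mul_sub, mul_one, T.τ_sub, Complex.sub_re] at h1
  linarith

private theorem pvm_n2_sq {p : H →L[ℂ] H} (hps : star p = p) (hpp : p * p = p) :
    ((T.n2 p ^ 2 : ℝ) : ℂ) = T.τ p := by
  rw [← T.τ_star_mul_self, hps, hpp]

theorem Pvm_sum_n2 {V : Type} [Fintype V] {p : V → H →L[ℂ] H} (hp : Pvm R p) :
    ∑ v, T.n2 (p v) ^ 2 = 1 := by
  have h1 : ((∑ v, T.n2 (p v) ^ 2 : ℝ) : ℂ) = 1 := by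
    rw [Complex.ofReal_sum, Finset.sum_congr rfl fun v _ => T.pvm_n2_sq (hp.star v) (hp.idem v),
      ← T.τ_sum, hp.sum, T.τ_one]
  exact_mod_cast h1

theorem D_eq {V : Type} [Fintype V] {p q : V → H →L[ℂ] H} (hp : Pvm R p) (hq : Pvm R q) :
    T.D p q = 2 - 2 * ∑ v, (T.τ (p v * q v)).re := by
  have h1 : ∀ v, T.n2 (p v - q v) ^ 2 =
      T.n2 (p v) ^ 2 + T.n2 (q v) ^ 2 - 2 * (T.τ (p v * q v)).re := by
    intro v
    have e1 : ((T.n2 (p v - q v) ^ 2 : ℝ) : ℂ) =
        ((T.n2 (p v) ^ 2 : ℝ) : ℂ) + ((T.n2 (q v) ^ 2 : ℝ) : ℂ) - 2 * T.τ (p v * q v) := by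
      rw [← T.τ_star_mul_self, T.pvm_n2_sq (hp.star v) (hp.idem v),
        T.pvm_n2_sq (hq.star v) (hq.idem v), star_sub, hp.star, hq.star, sub_mul, mul_sub,
        mul_sub, hp.idem, hq.idem, T.τ_sub, T.τ_sub, T.τ_sub, T.τ_comm (hq.mem v) (hp.mem v)]
      ring
    have e2 := congrArg Complex.re e1
    simp only [Complex.ofReal_re, Complex.add_re, Complex.sub_re, Complex.mul_re,
      Complex.re_ofNat, Complex.im_ofNat, zero_mul, sub_zero] at e2
    exact e2
  unfold D
  rw [Finset.sum_congr rfl fun v _ => h1 v, Finset.sum_sub_distrib, Finset.sum_add_distrib,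
    T.Pvm_sum_n2 hp, T.Pvm_sum_n2 hq, ← Finset.mul_sum]
  norm_num

theorem D_push_le {V W : Type} [Fintype V] [Fintype W] [DecidableEq W]
    {p q : V → H →L[ℂ] H} (hp : Pvm R p) (hq : Pvm R q) (g : V → W) :
    T.D (push g p) (push g q) ≤ T.D p q := by
  rw [T.D_eq (hp.push g) (hq.push g), T.D_eq hp hq]
  have h1 : ∑ w, (T.τ (push g p w * push g q w)).re =
      ∑ v, ∑ u, if g v = g u then (T.τ (p v * q u)).re else 0 := by
    have e1 : ∀ w, (T.τ (push g p w * push g q w)).re =
        ∑ v, ∑ u, if g v = w then (if g u = w then (T.τ (p v * q u)).re else 0) else 0 := by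
      intro w
      rw [pvm_push_mul, T.τ_sum, Complex.re_sum]
      refine Finset.sum_congr rfl fun v _ => ?_
      rw [T.τ_sum, Complex.re_sum]
      refine Finset.sum_congr rfl fun u _ => ?_
      split_ifs
      · rfl
      · rw [T.τ_zero, Complex.zero_re]
      · rw [T.τ_zero, Complex.zero_re]
    rw [Finset.sum_congr rfl fun w _ => e1 w, Finset.sum_comm]
    refine Finset.sum_congr rfl fun v _ => ?_
    rw [Finset.sum_comm]
    refine Finset.sum_congr rfl fun u _ => ?_
    rw [Finset.sum_ite_eq, if_pos (Finset.mem_univ _)]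
    by_cases h : g u = g v
    · rw [if_pos h, if_pos h.symm]
    · rw [if_neg h, if_neg fun h' => h h'.symm]
  have h2 : ∑ v, (T.τ (p v * q v)).re ≤
      ∑ v, ∑ u, if g v = g u then (T.τ (p v * q u)).re else 0 := by
    refine Finset.sum_le_sum fun v _ => ?_
    have h3 : ∀ u ∈ Finset.univ, 0 ≤ if g v = g u then (T.τ (p v * q u)).re else 0 := by
      intro u _
      split_ifs
      · exact T.re_τ_mul_nonneg (hp.mem v) (hq.mem u) (hp.star v) (hp.idem v) (hq.star u)
          (hq.idem u)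
      · exact le_rfl
    have h4 := Finset.single_le_sum h3 (Finset.mem_univ v)
    rw [if_pos rfl] at h4
    exact h4
  rw [h1]
  linarith

theorem D_joint {C V : Type} [Fintype C] [Fintype V] {E : C → H →L[ℂ] H} (hE : Pvm R E)
    (p q : V → H →L[ℂ] H) : T.D (joint E p) (joint E q) = T.D p q := by
  have h1 : ∀ x : H →L[ℂ] H, ∑ c, T.n2 (E c * x) ^ 2 = T.n2 x ^ 2 := by
    intro x
    have e1 : ((∑ c, T.n2 (E c * x) ^ 2 : ℝ) : ℂ) = ((T.n2 x ^ 2 : ℝ) : ℂ) := by
      rw [Complex.ofReal_sum, ← T.τ_star_mul_self]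
      have e2 : ∀ c, ((T.n2 (E c * x) ^ 2 : ℝ) : ℂ) = T.τ (star x * (E c * x)) := by
        intro c
        rw [← T.τ_star_mul_self, star_mul, hE.star, mul_assoc, ← mul_assoc (E c) (E c), hE.idem]
      rw [Finset.sum_congr rfl fun c _ => e2 c, ← T.τ_sum, ← Finset.mul_sum, ← Finset.sum_mul,
        hE.sum, one_mul]
    exact_mod_cast e1
  unfold D
  rw [Fintype.sum_prod_type, Finset.sum_comm]
  refine Finset.sum_congr rfl fun v _ => ?_
  rw [← h1 (p v - q v)]
  refine Finset.sum_congr rfl fun c _ => ?_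
  show T.n2 (E c * p v - E c * q v) ^ 2 = T.n2 (E c * (p v - q v)) ^ 2
  rw [mul_sub]

theorem stab_close {V : Type} [Fintype V] {p q : V → H →L[ℂ] H} (hp : Pvm R p) (hq : Pvm R q)
    {S : H →L[ℂ] H} (hS : S ∈ R) (hS1 : ‖S‖ ≤ 1) :
    ‖∑ v, T.τ (p v * S * p v * star S) - ∑ v, T.τ (q v * S * q v * star S)‖ ≤
      2 * Real.sqrt (T.D p q) := by
  have hS2 : ‖star S‖ ≤ 1 := by rwa [norm_star]
  have hS' : star S ∈ R := star_mem hS
  -- conjugation by `S` does not increase the 2-norm
  have hconj : ∀ x ∈ R, T.n2 (S * x * star S) ≤ T.n2 x := by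
    intro x hx
    have e1 := T.n2_mul_le' (mul_mem hS hx) hS'
    have e2 := T.n2_mul_le S x
    have e3 := T.n2_nonneg x
    have e4 := T.n2_nonneg (S * x)
    have e5 : T.n2 (S * x) ≤ T.n2 x := by nlinarith
    nlinarith [norm_nonneg (star S)]
  have hd : ∀ v, p v - q v ∈ R := fun v => sub_mem (hp.mem v) (hq.mem v)
  have hterm : ∀ v, ‖T.τ (p v * S * p v * star S) - T.τ (q v * S * q v * star S)‖ ≤
      T.n2 (p v - q v) * T.n2 (p v) + T.n2 (p v - q v) * T.n2 (q v) := by
    intro v
    have e1 : T.τ (p v * S * p v * star S) - T.τ (q v * S * q v * star S) =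
        T.τ (star (p v - q v) * (S * p v * star S)) +
          T.τ (star (q v) * (S * (p v - q v) * star S)) := by
      rw [← T.τ_sub, ← T.τ_add, star_sub, hp.star, hq.star]
      congr 1
      noncomm_ring
    rw [e1]
    refine (norm_add_le _ _).trans (add_le_add ?_ ?_)
    · refine (T.norm_τ_star_mul_le _ _).trans ?_
      exact mul_le_mul_of_nonneg_left (hconj _ (hp.mem v)) (T.n2_nonneg _)
    · refine (T.norm_τ_star_mul_le _ _).trans ?_
      rw [mul_comm]
      exact mul_le_mul_of_nonneg_right (hconj _ (hd v)) (T.n2_nonneg _)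
  rw [← Finset.sum_sub_distrib]
  refine (norm_sum_le _ _).trans ((Finset.sum_le_sum fun v _ => hterm v).trans ?_)
  rw [Finset.sum_add_distrib]
  have c1 := Real.sum_mul_le_sqrt_mul_sqrt Finset.univ (fun v => T.n2 (p v - q v))
    (fun v => T.n2 (p v))
  have c2 := Real.sum_mul_le_sqrt_mul_sqrt Finset.univ (fun v => T.n2 (p v - q v))
    (fun v => T.n2 (q v))
  simp only [T.Pvm_sum_n2 hp, T.Pvm_sum_n2 hq, Real.sqrt_one, mul_one] at c1 c2
  have e : Real.sqrt (T.D p q) = Real.sqrt (∑ v, T.n2 (p v - q v) ^ 2) := rfl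
  rw [e]
  linarith

end BlockTower

end MP_c82b80_an
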