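import Mathlib
import Pool.Agent.Lib.MP_c82b80_an.MasaB
import Pool.Agent.Lib.MP_c82b80_an.Pvm

/-!
# JOB STAB-0 : the basic partitions of unity in the masas

* `T.Q a n v = q a n (1_{v})`, `v : G n` : the projections of the block `n` of the masa.
* `T.ec c` : `e` for `c = 0`, `f` for `c = 1`.
* `T.QQ a n (c, v) = ec c * Q a n v`.
* `T.PL a N L v = dg a N (1_{L = v})` for `L : I N → V`.

Everything is a computation with `dg` (`dg_mul`, `dg_star`, `dg_sum`, `τ_dg`, `n2_dg_sq`, `q_eq_dg`, `dg_corner`):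
* `QQ_eq_dg` : `QQ a n (c, v) = dg a N (1_{p.1 = c, p.2 n = v})`, `n < N`.
* `τ_QQ`, `τ_QQ_QQ` : count (the blocks are independent and uniform).
* `D_PL` : `n2 (dg χ)² = ∑ |χ|² / card`; for every `p` with `L p ≠ L' p` two of the functions differ by one.
* `prob_I` : the uniform probability on `I N = Fin 2 × Y N` is the mean of the two corners.
-/

open scoped InnerProductSpace ComplexOrder
open Filter Topology

namespace MP_c82b80_an

universe u

open scoped Classical in
private theorem stab0_prob_def {X : Type} [Fintype X] (P : X → Prop) :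
    prob P = (∑ x, if P x then (1 : ℝ) else 0) / Fintype.card X := rfl

private theorem stab0_prob_congr {X : Type} [Fintype X] {P Q : X → Prop} (h : ∀ x, P x ↔ Q x) :
    prob P = prob Q := by
  have : P = Q := funext fun x => propext (h x)
  rw [this]

private theorem stab0_prob_false {X : Type} [Fintype X] {P : X → Prop} (h : ∀ x, ¬ P x) :
    prob P = 0 := by
  classical
  rw [stab0_prob_def, Finset.sum_eq_zero fun x _ => if_neg (h x), zero_div]

private theorem stab0_prob_eq {X : Type} [Fintype X] (v : X) :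
    prob (fun u : X => u = v) = 1 / Fintype.card X := by
  classical
  rw [stab0_prob_def, Finset.sum_ite_eq', if_pos (Finset.mem_univ v)]

private theorem stab0_card_Y_pos (N : ℕ) : (0 : ℝ) < Fintype.card (Y N) := by
  have : 0 < Fintype.card (Y N) := Fintype.card_pos
  exact_mod_cast this

private theorem stab0_split {N : ℕ} (n : Fin N) (f : G n → ℝ)
    (g : (∀ j : {j : Fin N // j ≠ n}, G (j : Fin N)) → ℝ) :
    ∑ y : Y N, f (y n) * g (fun j => y j) = (∑ u, f u) * ∑ z, g z := by
  rw [Finset.sum_mul_sum, ← Fintype.sum_prod_type']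
  exact Fintype.sum_equiv (Equiv.piSplitAt n fun i : Fin N => G i) _ _ fun y => rfl

theorem prob_I {N : ℕ} (P : I N → Prop) :
    2 * prob P = prob (fun y : Y N => P (0, y)) + prob (fun y : Y N => P (1, y)) := by
  classical
  have h := stab0_card_Y_pos N
  rw [stab0_prob_def, stab0_prob_def, stab0_prob_def, card_I, Fintype.sum_prod_type,
    Fin.sum_univ_two]
  push_cast
  field_simp

theorem prob_Y_block {N : ℕ} (n : Fin N) (P : G n → Prop) :
    prob (fun y : Y N => P (y n)) = prob P := by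
  classical
  have h := stab0_card_Y_pos N
  have h1 := stab0_split n (fun u => if P u then (1 : ℝ) else 0) (fun _ => 1)
  have h2 := stab0_split n (fun _ => (1 : ℝ)) (fun _ => 1)
  simp only [mul_one, Finset.sum_const, Finset.card_univ, nsmul_eq_mul] at h1 h2
  have h3 : (0 : ℝ) < Fintype.card (G n) := by
    have : 0 < Fintype.card (G n) := Fintype.card_pos
    exact_mod_cast this
  rw [stab0_prob_def, stab0_prob_def, div_eq_div_iff h.ne' h3.ne', h1, h2]
  ring

/-- independence of two blocks -/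
private theorem stab0_indep {N : ℕ} {n l : Fin N} (h : l ≠ n) (P : G n → Prop) (Q : G l → Prop) :
    prob (fun y : Y N => P (y n) ∧ Q (y l)) = prob P * prob Q := by
  classical
  have hY := stab0_card_Y_pos N
  have h1 := stab0_split n (fun u => if P u then (1 : ℝ) else 0)
    (fun z => if Q (z ⟨l, h⟩) then (1 : ℝ) else 0)
  have h2 := stab0_split n (fun _ => (1 : ℝ)) (fun z => if Q (z ⟨l, h⟩) then (1 : ℝ) else 0)
  simp only [one_mul, Finset.sum_const, Finset.card_univ, nsmul_eq_mul, mul_one] at h2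
  have h3 : (0 : ℝ) < Fintype.card (G n) := by
    have : 0 < Fintype.card (G n) := Fintype.card_pos
    exact_mod_cast this
  have h4 : prob (fun y : Y N => P (y n) ∧ Q (y l)) =
      (∑ u, if P u then (1 : ℝ) else 0) *
        (∑ z : (∀ j : {j : Fin N // j ≠ n}, G (j : Fin N)), if Q (z ⟨l, h⟩) then (1 : ℝ) else 0) /
          Fintype.card (Y N) := by
    rw [stab0_prob_def, ← h1]
    congr 1
    refine Finset.sum_congr rfl fun y _ => ?_
    by_cases hP : P (y n) <;> by_cases hQ : Q (y l) <;> simp [hP, hQ]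
  have h5 : prob Q = (Fintype.card (G n) : ℝ) *
      (∑ z : (∀ j : {j : Fin N // j ≠ n}, G (j : Fin N)), if Q (z ⟨l, h⟩) then (1 : ℝ) else 0) /
          Fintype.card (Y N) := by
    rw [← prob_Y_block l Q, stab0_prob_def, ← h2]
  rw [h4, h5, stab0_prob_def P]
  field_simp

variable {H : Type u} [NormedAddCommGroup H] [InnerProductSpace ℂ H] [CompleteSpace H]

namespace BlockTower

variable {R : VonNeumannAlgebra H} (T : BlockTower R)

/-- the projections of the block `n` of the masa -/
noncomputable def Q (a : ℕ → ℝ) (n : ℕ) (v : G n) : H →L[ℂ] H :=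
  T.q a n (fun u => if u = v then 1 else 0)

/-- the two projections of the corner -/
noncomputable def ec (c : Fin 2) : H →L[ℂ] H := if c = 0 then T.e else T.f

/-- the projections of the corner and of the block `n` of the masa -/
noncomputable def QQ (a : ℕ → ℝ) (n : ℕ) : Fin 2 × G n → H →L[ℂ] H := joint T.ec (T.Q a n)

/-- the partition of unity of the stage `N` given by a function -/
noncomputable def PL {V : Type} [DecidableEq V] (a : ℕ → ℝ) (N : ℕ) (L : I N → V) (v : V) :
    H →L[ℂ] H := T.dg a N (fun p => if L p = v then 1 else 0)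

private theorem stab0_dg_zero (a : ℕ → ℝ) (N : ℕ) : T.dg a N (fun _ => 0) = 0 := by
  have h := T.dg_smul a N 0 (fun _ => 0)
  rw [zero_smul] at h
  simpa using h

private theorem stab0_τ_dg (a : ℕ → ℝ) (N : ℕ) (P : I N → Prop) [DecidablePred P] :
    T.τ (T.dg a N (fun p => if P p then 1 else 0)) = (prob P : ℝ) := by
  rw [T.τ_dg, stab0_prob_def]
  push_cast
  congr 1
  refine Finset.sum_congr rfl fun p _ => ?_
  by_cases h : P p
  · rw [if_pos h, if_pos h, Complex.ofReal_one]
  · rw [if_neg h, if_neg h, Complex.ofReal_zero]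

private theorem stab0_dg_and (a : ℕ → ℝ) (N : ℕ) (P Q : I N → Prop) [DecidablePred P]
    [DecidablePred Q] :
    T.dg a N (fun p => if P p then 1 else 0) * T.dg a N (fun p => if Q p then 1 else 0) =
      T.dg a N (fun p => if P p ∧ Q p then 1 else 0) := by
  rw [T.dg_mul]
  congr 1
  funext p
  by_cases hP : P p <;> by_cases hQ : Q p <;> simp [hP, hQ]

private theorem stab0_ec_eq (a : ℕ → ℝ) (N : ℕ) (c : Fin 2) :
    T.ec c = T.dg a N (fun p => if p.1 = c then 1 else 0) := by
  rw [T.dg_corner a N (fun c' => if c' = c then 1 else 0)]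
  unfold ec
  by_cases h : c = 0
  · subst h
    simp
  · have h1 : c = 1 := by
      fin_cases c
      · exact absurd rfl h
      · rfl
    subst h1
    simp

private theorem stab0_Q_eq (a : ℕ → ℝ) {n N : ℕ} (h : n < N) (v : G n) :
    T.Q a n v = T.dg a N (fun p => if p.2 ⟨n, h⟩ = v then 1 else 0) :=
  T.q_eq_dg a h _

theorem pvm_ec : Pvm R T.ec where
  mem c := by
    unfold ec
    split_ifs
    · exact T.e_mem
    · exact T.f_mem
  star c := by
    unfold ec
    split_ifs
    · exact T.star_e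
    · exact T.star_f
  idem c := by
    unfold ec
    split_ifs
    · exact T.e_mul_e
    · exact T.f_mul_f
  orth c c' h := by
    unfold ec
    split_ifs with h1 h2 h2
    · exact absurd (h1.trans h2.symm) h
    · exact T.e_mul_f
    · exact T.f_mul_e
    · exfalso
      apply h
      fin_cases c
      · exact absurd rfl h1
      · fin_cases c'
        · exact absurd rfl h2
        · rfl
  sum := by
    rw [Fin.sum_univ_two]
    unfold ec
    rw [if_pos rfl, if_neg (by decide), T.e_add_f]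

theorem ec_mem (a : ℕ → ℝ) (c : Fin 2) : T.ec c ∈ T.masaAlg a := by
  unfold ec
  split_ifs
  · exact T.e_mem_masa a
  · exact T.f_mem_masa a

theorem Q_mem (a : ℕ → ℝ) (n : ℕ) (v : G n) : T.Q a n v ∈ T.masaAlg a := T.q_mem _ _ _

private theorem stab0_pvm_PL {V : Type} [Fintype V] [DecidableEq V] (a : ℕ → ℝ) (N : ℕ)
    (L : I N → V) : Pvm R (T.PL a N L) where
  mem v := T.dg_mem_R _ _ _
  star v := by
    unfold PL
    rw [T.dg_star]
    congr 1
    funext p
    split_ifs
    · exact map_one _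
    · exact map_zero _
  idem v := by
    unfold PL
    rw [T.dg_mul]
    congr 1
    funext p
    split_ifs
    · exact mul_one _
    · exact mul_zero _
  orth v w h := by
    unfold PL
    rw [T.dg_mul]
    have h1 : (fun p : I N => (if L p = v then (1 : ℂ) else 0) * (if L p = w then 1 else 0)) =
        fun _ => 0 := by
      funext p
      by_cases h2 : L p = v
      · rw [if_neg (fun h3 : L p = w => h (h2.symm.trans h3)), mul_zero]
      · rw [if_neg h2, zero_mul]
    rw [h1, T.stab0_dg_zero]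
  sum := by
    unfold PL
    rw [← T.dg_sum]
    have h1 : (fun p : I N => ∑ v, if L p = v then (1 : ℂ) else 0) = fun _ => 1 := by
      funext p
      rw [Finset.sum_ite_eq, if_pos (Finset.mem_univ _)]
    rw [h1, T.dg_one]

theorem pvm_Q (a : ℕ → ℝ) (n : ℕ) : Pvm R (T.Q a n) := by
  have h1 : T.Q a n = T.PL a (n + 1) (fun p => p.2 ⟨n, Nat.lt_succ_self n⟩) := by
    funext v
    exact T.stab0_Q_eq a (Nat.lt_succ_self n) v
  rw [h1]
  exact T.stab0_pvm_PL _ _ _

theorem QQ_mem (a : ℕ → ℝ) (n : ℕ) (cv : Fin 2 × G n) : T.QQ a n cv ∈ T.masaAlg a :=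
  mul_mem (T.ec_mem a _) (T.Q_mem a _ _)

theorem pvm_QQ (a : ℕ → ℝ) (n : ℕ) : Pvm R (T.QQ a n) :=
  Pvm.joint T.pvm_ec (T.pvm_Q a n) fun c v =>
    T.masaAlg_comm a _ (T.ec_mem a c) _ (T.Q_mem a n v)

theorem PL_mem {V : Type} [DecidableEq V] (a : ℕ → ℝ) (N : ℕ) (L : I N → V) (v : V) :
    T.PL a N L v ∈ T.masaAlg a := T.dg_mem _ _ _

theorem pvm_PL {V : Type} [Fintype V] [DecidableEq V] (a : ℕ → ℝ) (N : ℕ) (L : I N → V) :
    Pvm R (T.PL a N L) := T.stab0_pvm_PL a N L

theorem D_PL {V : Type} [Fintype V] [DecidableEq V] (a : ℕ → ℝ) (N : ℕ) (L L' : I N → V) :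
    T.D (T.PL a N L) (T.PL a N L') = 2 * prob (fun p : I N => L p ≠ L' p) := by
  unfold D PL
  have h1 : ∀ v, T.n2 (T.dg a N (fun p => if L p = v then 1 else 0) -
      T.dg a N (fun p => if L' p = v then 1 else 0)) ^ 2 =
      (∑ p, ‖(if L p = v then (1 : ℂ) else 0) - (if L' p = v then 1 else 0)‖ ^ 2) /
        Fintype.card (I N) := by
    intro v
    rw [← T.dg_sub, T.n2_dg_sq]
  rw [Finset.sum_congr rfl fun v _ => h1 v, ← Finset.sum_div, Finset.sum_comm, stab0_prob_def,
    ← mul_div_assoc, Finset.mul_sum]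
  congr 1
  refine Finset.sum_congr rfl fun p _ => ?_
  by_cases h : L p = L' p
  · rw [if_neg (not_not.2 h), mul_zero]
    refine Finset.sum_eq_zero fun v _ => ?_
    rw [h, sub_self, norm_zero]
    norm_num
  · rw [if_pos h]
    have h2 : ∀ v, ‖(if L p = v then (1 : ℂ) else 0) - (if L' p = v then 1 else 0)‖ ^ 2 =
        (if L p = v then (1 : ℝ) else 0) + (if L' p = v then 1 else 0) := by
      intro v
      by_cases h3 : L p = v
      · have h4 : ¬ L' p = v := fun h4 => h (h3.trans h4.symm)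
        rw [if_pos h3, if_neg h4, if_pos h3, if_neg h4, sub_zero, norm_one]
        norm_num
      · rw [if_neg h3, if_neg h3]
        split_ifs
        · rw [zero_sub, norm_neg, norm_one]
          norm_num
        · rw [sub_zero, norm_zero]
          norm_num
    rw [Finset.sum_congr rfl fun v _ => h2 v, Finset.sum_add_distrib, Finset.sum_ite_eq,
      Finset.sum_ite_eq, if_pos (Finset.mem_univ _), if_pos (Finset.mem_univ _)]
    norm_num

private theorem stab0_QQ_eq (a : ℕ → ℝ) {n N : ℕ} (h : n < N) (cv : Fin 2 × G n) :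
    T.QQ a n cv = T.dg a N (fun p => if p.1 = cv.1 ∧ p.2 ⟨n, h⟩ = cv.2 then 1 else 0) := by
  show T.ec cv.1 * T.Q a n cv.2 = _
  rw [T.stab0_ec_eq a N, T.stab0_Q_eq a h, T.stab0_dg_and]

theorem push_QQ {V : Type} [Fintype V] [DecidableEq V] (a : ℕ → ℝ) (N : ℕ) (n : Fin N)
    (m : Fin 2 × G n → V) :
    push m (T.QQ a n) = T.PL a N (fun p => m (p.1, p.2 n)) := by
  funext v
  show ∑ cv, (if m cv = v then T.QQ a n cv else 0) = T.dg a N (fun p => if m (p.1, p.2 n) = v then 1 else 0)
  have h1 : ∀ cv : Fin 2 × G n, (if m cv = v then T.QQ a n cv else 0) =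
      T.dg a N (fun p => if m cv = v then (if (p.1, p.2 n) = cv then 1 else 0) else 0) := by
    intro cv
    by_cases h : m cv = v
    · simp only [if_pos h]
      rw [T.stab0_QQ_eq a n.2]
      congr 1
      funext p
      have e : (p.1 = cv.1 ∧ p.2 ⟨(n : ℕ), n.2⟩ = cv.2) ↔ (p.1, p.2 n) = cv := by
        rw [Prod.ext_iff]
      by_cases h2 : (p.1, p.2 n) = cv
      · rw [if_pos h2, if_pos (e.2 h2)]
      · rw [if_neg h2, if_neg fun h3 => h2 (e.1 h3)]
    · simp only [if_neg h]
      rw [T.stab0_dg_zero]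
  rw [Finset.sum_congr rfl fun cv _ => h1 cv, ← T.dg_sum]
  congr 1
  funext p
  have h2 : ∀ cv : Fin 2 × G n, (if m cv = v then (if (p.1, p.2 n) = cv then (1 : ℂ) else 0) else 0) =
      if (p.1, p.2 n) = cv then (if m cv = v then 1 else 0) else 0 := by
    intro cv
    split_ifs <;> rfl
  rw [Finset.sum_congr rfl fun cv _ => h2 cv, Finset.sum_ite_eq, if_pos (Finset.mem_univ _)]

theorem τ_Q (a : ℕ → ℝ) (n : ℕ) (v : G n) : T.τ (T.Q a n v) = 1 / Fintype.card (G n) := by
  rw [T.stab0_Q_eq a (Nat.lt_succ_self n), T.stab0_τ_dg]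
  have h1 := prob_I (N := n + 1) (fun p => p.2 ⟨n, Nat.lt_succ_self n⟩ = v)
  have h2 := prob_Y_block (N := n + 1) ⟨n, Nat.lt_succ_self n⟩ (fun u => u = v)
  have h3 := stab0_prob_eq v
  have h4 : prob (fun p : I (n + 1) => p.2 ⟨n, Nat.lt_succ_self n⟩ = v) =
      1 / Fintype.card (G n) := by
    simp only at h1 h2
    rw [h2] at h1
    rw [← h3]
    linarith
  rw [h4]
  push_cast
  rfl

private theorem stab0_prob_corner {N : ℕ} (c : Fin 2) (P : I N → Prop) :
    2 * prob (fun p : I N => p.1 = c ∧ P p) = prob (fun y : Y N => P (c, y)) := by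
  rw [prob_I]
  by_cases h : c = 0
  · subst h
    rw [stab0_prob_false (P := fun y : Y N => ((1 : Fin 2), y).1 = 0 ∧ P (1, y))
      (fun y hy => absurd (show (1 : Fin 2) = 0 from hy.1) (by decide)), add_zero]
    exact stab0_prob_congr fun y => ⟨fun hy => hy.2, fun hy => ⟨rfl, hy⟩⟩
  · have h1 : c = 1 := by
      fin_cases c
      · exact absurd rfl h
      · rfl
    subst h1
    rw [stab0_prob_false (P := fun y : Y N => ((0 : Fin 2), y).1 = 1 ∧ P (0, y))
      (fun y hy => absurd (show (0 : Fin 2) = 1 from hy.1) (by decide)), zero_add]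
    exact stab0_prob_congr fun y => ⟨fun hy => hy.2, fun hy => ⟨rfl, hy⟩⟩

theorem τ_ec_Q (a : ℕ → ℝ) (n : ℕ) (c : Fin 2) (v : G n) :
    T.τ (T.ec c * T.Q a n v) = 1 / (2 * Fintype.card (G n)) := by
  rw [T.stab0_ec_eq a (n + 1), T.stab0_Q_eq a (Nat.lt_succ_self n), T.stab0_dg_and, T.stab0_τ_dg]
  have h1 := stab0_prob_corner (N := n + 1) c (fun p => p.2 ⟨n, Nat.lt_succ_self n⟩ = v)
  have h2 := prob_Y_block (N := n + 1) ⟨n, Nat.lt_succ_self n⟩ (fun u => u = v)
  have h3 := stab0_prob_eq v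
  have h4 : prob (fun p : I (n + 1) => p.1 = c ∧ p.2 ⟨n, Nat.lt_succ_self n⟩ = v) =
      1 / (2 * Fintype.card (G n)) := by
    simp only at h1 h2
    rw [h2, h3] at h1
    rw [one_div, mul_inv, ← one_div (Fintype.card (G n) : ℝ)]
    linarith
  rw [h4]
  push_cast
  rfl

theorem τ_Q_QQ (a : ℕ → ℝ) {n l : ℕ} (h : n ≠ l) (v : G n) (cw : Fin 2 × G l) :
    T.τ (T.Q a n v * T.QQ a l cw) = 1 / (2 * Fintype.card (G n) * Fintype.card (G l)) := by
  have hn : n < max n l + 1 := Nat.lt_succ_of_le (le_max_left n l)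
  have hl : l < max n l + 1 := Nat.lt_succ_of_le (le_max_right n l)
  rw [T.stab0_Q_eq a hn, T.stab0_QQ_eq a hl, T.stab0_dg_and, T.stab0_τ_dg]
  have h1 := stab0_prob_corner (N := max n l + 1) cw.1
    (fun p => p.2 ⟨n, hn⟩ = v ∧ p.2 ⟨l, hl⟩ = cw.2)
  have hne : (⟨l, hl⟩ : Fin (max n l + 1)) ≠ ⟨n, hn⟩ := fun h' => h (Fin.mk.inj_iff.1 h').symm
  have h2 := stab0_indep hne (fun u => u = v) (fun u => u = cw.2)
  have h4 : prob (fun p : I (max n l + 1) =>
      p.2 ⟨n, hn⟩ = v ∧ p.1 = cw.1 ∧ p.2 ⟨l, hl⟩ = cw.2) =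
      1 / (2 * Fintype.card (G n) * Fintype.card (G l)) := by
    rw [stab0_prob_eq, stab0_prob_eq] at h2
    simp only at h1 h2
    rw [h2] at h1
    rw [stab0_prob_congr (Q := fun p : I (max n l + 1) =>
      p.1 = cw.1 ∧ p.2 ⟨n, hn⟩ = v ∧ p.2 ⟨l, hl⟩ = cw.2) (fun p => by tauto)]
    rw [one_div, mul_inv, mul_inv, ← one_div (Fintype.card (G n) : ℝ),
      ← one_div (Fintype.card (G l) : ℝ)]
    linarith
  rw [h4]
  push_cast
  rfl

/-- the distribution of `L` in a corner -/
theorem τ_ec_PL {V : Type} [Fintype V] [DecidableEq V] (a : ℕ → ℝ) (N : ℕ) (L : I N → V)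
    (c : Fin 2) (v : V) :
    2 * T.τ (T.ec c * T.PL a N L v) = (prob (fun y : Y N => L (c, y) = v) : ℝ) := by
  unfold PL
  rw [T.stab0_ec_eq a N, T.stab0_dg_and, T.stab0_τ_dg,
    ← stab0_prob_corner c (fun p : I N => L p = v)]
  push_cast
  rfl

end BlockTower

end MP_c82b80_an
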