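import Mathlib
import Pool.Agent.Lib.MP_c82b80_an.Stab0

/-!
# JOB STAB-1 : the asymptotic value of the stability

`stab_asymp`.  First case: `S = e S f` (`S S* = e`, `S* S = f`: `S` is a partial isometry; `(1-e) S = 0` as its
`S S*` part vanishes).  With `P v = φ n (E_vv)`, `Q' v = φ n (w E_vv w*)`, `w = w n (b n)`:
`Q b n v * S = e Q v S = P v S`, `S * Q v = S f Q v = S Q' v` (`e_mul_q`, `f_mul_q`).  So the sum is
`∑ τ (P v S Q' v S*)`.  Let `S₀ = E N S`, `N ≤ n`, which commutes with the block `n`.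
`|τ (P v S Q' v (S - S₀)*)| ≤ n2 (P v S Q' v) n2 (P v (S - S₀) Q' v)` (insert `P v = P v P v`, trace) and
`∑ v n2 (P v X Q' v)² ≤ ∑ v n2 (P v X)² = n2 X²`, so by Cauchy-Schwarz
`|∑ τ (P v S Q' v S*) - ∑ τ (P v S Q' v S₀*)| ≤ n2 S n2 (S - S₀)`.
`Q' v S₀* = S₀* Q' v`.  `|τ (P v S (S - S₀)* Q' v)| ≤ n2 (P v S) n2 (Q' v (S - S₀))`, sum `≤ n2 S n2 (S - S₀)`.  So
up to `2 n2 (S - E N S)` the sum is `∑ τ (P v S S* Q' v) = τ (e ∑ Q' v P v) = (1/2) (1/k) ∑_v (w E_vv w* E_vv).trace`
`= (1/2) (1/k) ∑_v ‖w v v‖² = (1/2) (cos² + (1 - cos²)/k)` (`τ_mul_tail`, `w_norm_sq`).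
The second case is the same with `e`, `f` exchanged (`Q v S = Q' v S`, `S Q v = S P v`).
-/

open scoped InnerProductSpace ComplexOrder
open Filter Topology

namespace MP_c82b80_an

universe u

variable {H : Type u} [NormedAddCommGroup H] [InnerProductSpace ℂ H] [CompleteSpace H]

/-- the limit value -/
noncomputable def kap (b : ℕ → ℝ) (n : ℕ) : ℝ :=
  Real.cos (b n) ^ 2 + (1 - Real.cos (b n) ^ 2) / Fintype.card (G n)

/-- the diagonal matrix units of the block `n` -/
private noncomputable def mP (n : ℕ) (v : G n) : Matrix (G n) (G n) ℂ :=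
  Matrix.diagonal (fun u => if u = v then 1 else 0)

/-- the rotated diagonal matrix units of the block `n` -/
private noncomputable def mQ (b : ℕ → ℝ) (n : ℕ) (v : G n) : Matrix (G n) (G n) ℂ :=
  w n (b n) * mP n v * (w n (b n)).conjTranspose

private theorem mP_conj (n : ℕ) (v : G n) : (mP n v).conjTranspose = mP n v := by
  rw [mP, Matrix.diagonal_conjTranspose]
  congr 1
  funext u
  by_cases h : u = v <;> simp [h]

private theorem mP_mul_self (n : ℕ) (v : G n) : mP n v * mP n v = mP n v := by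
  rw [mP, Matrix.diagonal_mul_diagonal]
  congr 1
  funext u
  by_cases h : u = v <;> simp [h]

private theorem mP_mul (n : ℕ) {v v' : G n} (hne : v ≠ v') : mP n v * mP n v' = 0 := by
  rw [mP, mP, Matrix.diagonal_mul_diagonal, ← Matrix.diagonal_zero]
  congr 1
  funext u
  by_cases h : u = v
  · subst h; simp [hne]
  · simp [h]

private theorem mP_sum (n : ℕ) : ∑ v, mP n v = 1 := by
  ext u u'
  rw [Matrix.sum_apply]
  by_cases h : u = u'
  · subst h
    simp [mP]
  · simp [mP, h]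

private theorem mQ_conj (b : ℕ → ℝ) (n : ℕ) (v : G n) :
    (mQ b n v).conjTranspose = mQ b n v := by
  rw [mQ, Matrix.conjTranspose_mul, Matrix.conjTranspose_mul, Matrix.conjTranspose_conjTranspose,
    mP_conj, mul_assoc]

private theorem mQ_mul' (b : ℕ → ℝ) (n : ℕ) (v v' : G n) :
    mQ b n v * mQ b n v' = w n (b n) * (mP n v * mP n v') * (w n (b n)).conjTranspose := by
  unfold mQ
  calc w n (b n) * mP n v * (w n (b n)).conjTranspose *
        (w n (b n) * mP n v' * (w n (b n)).conjTranspose)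
      = w n (b n) * mP n v * ((w n (b n)).conjTranspose * w n (b n)) * mP n v' *
        (w n (b n)).conjTranspose := by simp only [mul_assoc]
    _ = _ := by rw [star_mul_w, mul_one]; simp only [mul_assoc]

private theorem mQ_sum (b : ℕ → ℝ) (n : ℕ) : ∑ v, mQ b n v = 1 := by
  unfold mQ
  rw [← Finset.sum_mul, ← Finset.mul_sum, mP_sum, mul_one, w_mul_star]

private theorem trace_PQ (b : ℕ → ℝ) (n : ℕ) (v : G n) :
    (mP n v * mQ b n v).trace = (kap b n : ℂ) := by
  rw [mP, Matrix.trace]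
  simp only [Matrix.diag_apply, Matrix.diagonal_mul]
  rw [Finset.sum_eq_single v]
  · rw [if_pos rfl, one_mul, mQ, mP, w_diag]
    simp [kap]
  · intro u _ hu
    simp [hu]
  · intro h
    exact absurd (Finset.mem_univ v) h

namespace BlockTower

variable {R : VonNeumannAlgebra H} (T : BlockTower R)

private theorem pvm_of (n : ℕ) (m : G n → Matrix (G n) (G n) ℂ)
    (h1 : ∀ v, (m v).conjTranspose = m v) (h2 : ∀ v, m v * m v = m v)
    (h3 : ∀ v v', v ≠ v' → m v * m v' = 0) (h4 : ∑ v, m v = 1) :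
    Pvm R (fun v => T.φ n (m v)) where
  mem v := T.φ_mem n _
  star v := by
    show star (T.φ n (m v)) = T.φ n (m v)
    rw [← map_star, Matrix.star_eq_conjTranspose, h1]
  idem v := by
    show T.φ n (m v) * T.φ n (m v) = T.φ n (m v)
    rw [← map_mul, h2]
  orth v v' hne := by
    show T.φ n (m v) * T.φ n (m v') = 0
    rw [← map_mul, h3 v v' hne, map_zero]
  sum := by rw [← map_sum, h4, map_one]

private theorem pvm_P (n : ℕ) : Pvm R (fun v => T.φ n (mP n v)) :=
  T.pvm_of n (mP n) (mP_conj n) (mP_mul_self n) (fun _ _ h => mP_mul n h) (mP_sum n)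

private theorem pvm_Q' (b : ℕ → ℝ) (n : ℕ) : Pvm R (fun v => T.φ n (mQ b n v)) :=
  T.pvm_of n (mQ b n) (mQ_conj b n)
    (fun v => by rw [mQ_mul', mP_mul_self]; rfl)
    (fun v v' h => by rw [mQ_mul', mP_mul n h, mul_zero, zero_mul]) (mQ_sum b n)

private theorem sum_n2_mul {V : Type} [Fintype V] {X : V → H →L[ℂ] H} (hX : Pvm R X)
    (Y : H →L[ℂ] H) : ∑ v, T.n2 (X v * Y) ^ 2 = T.n2 Y ^ 2 := by
  have h : ∀ v, ((T.n2 (X v * Y) ^ 2 : ℝ) : ℂ) = T.τ (star Y * X v * Y) := by
    intro v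
    rw [← T.τ_star_mul_self, star_mul, hX.star v]
    congr 1
    calc star Y * X v * (X v * Y) = star Y * (X v * X v) * Y := by simp only [mul_assoc]
      _ = _ := by rw [hX.idem v]
  have h2 : ((∑ v, T.n2 (X v * Y) ^ 2 : ℝ) : ℂ) = ((T.n2 Y ^ 2 : ℝ) : ℂ) := by
    rw [Complex.ofReal_sum]
    simp only [h]
    rw [← T.τ_sum, ← Finset.sum_mul, ← Finset.mul_sum, hX.sum, mul_one, T.τ_star_mul_self]
  exact_mod_cast h2

private theorem sum_n2_mul' {V : Type} [Fintype V] {X : V → H →L[ℂ] H} (hX : Pvm R X)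
    {Y : H →L[ℂ] H} (hY : Y ∈ R) : ∑ v, T.n2 (Y * X v) ^ 2 = T.n2 Y ^ 2 := by
  have h : ∀ v, T.n2 (Y * X v) = T.n2 (X v * star Y) := by
    intro v
    rw [← T.n2_star (R.mul_mem hY (hX.mem v)), star_mul, hX.star v]
  simp only [h]
  rw [T.sum_n2_mul hX, T.n2_star hY]

private theorem key {V : Type} [Fintype V] {X Z : V → H →L[ℂ] H} (hX : Pvm R X)
    (hZ : Pvm R Z) {S S0 : H →L[ℂ] H} (hS : S ∈ R) (hS0 : S0 ∈ R)
    (hc : ∀ v, Z v * star S0 = star S0 * Z v) :
    ‖∑ v, T.τ (X v * S * Z v * star S) - ∑ v, T.τ (X v * S * star S * Z v)‖ ≤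
      2 * T.n2 S * T.n2 (S - S0) := by
  have hD : S - S0 ∈ R := sub_mem hS hS0
  have hDs : star (S - S0) ∈ R := star_mem hD
  set D := S - S0 with hDdef
  set C : V → H →L[ℂ] H := fun v => Z v * star D - star D * Z v with hC
  have hCR : ∀ v, C v ∈ R := fun v =>
    sub_mem (R.mul_mem (hZ.mem v) hDs) (R.mul_mem hDs (hZ.mem v))
  have h1 : ∀ v, T.τ (X v * S * Z v * star S) - T.τ (X v * S * star S * Z v) =
      T.τ (X v * S * C v) := by
    intro v
    rw [← T.τ_sub]
    congr 1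
    have : C v = Z v * star S - star S * Z v := by
      simp only [hC, hDdef, star_sub, mul_sub, sub_mul, hc v]
      abel
    rw [this, mul_sub]
    simp only [mul_assoc]
  rw [← Finset.sum_sub_distrib]
  simp only [h1]
  have h2 : ∀ v, ‖T.τ (X v * S * C v)‖ ≤ T.n2 (X v * S) * T.n2 (C v * X v) := by
    intro v
    have e1 : T.τ (X v * S * C v) = T.τ (star (star (X v * S)) * (C v * X v)) := by
      have : X v * S * C v = X v * (X v * S * C v) := by
        rw [← mul_assoc, ← mul_assoc, hX.idem v]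
      rw [this, T.τ_comm (hX.mem v) (R.mul_mem (R.mul_mem (hX.mem v) hS) (hCR v)), star_star]
      simp only [mul_assoc]
    rw [e1]
    refine (T.norm_τ_star_mul_le _ _).trans ?_
    rw [T.n2_star (R.mul_mem (hX.mem v) hS)]
  have h3 : ∀ v, T.n2 (C v * X v) ^ 2 ≤ 2 * T.n2 (star D * X v) ^ 2 + 2 * T.n2 (star D * Z v) ^ 2 := by
    intro v
    have e1 : C v * X v = Z v * (star D * X v) + -(star D * Z v * X v) := by
      simp only [hC, sub_mul, mul_assoc]
      abel
    have e2 : T.n2 (C v * X v) ≤ T.n2 (star D * X v) + T.n2 (star D * Z v) := by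
      rw [e1]
      refine (T.n2_add_le _ _).trans (add_le_add ?_ ?_)
      · refine (T.n2_mul_le _ _).trans ?_
        exact mul_le_of_le_one_left (T.n2_nonneg _) (hZ.norm_le v)
      · rw [T.n2_neg]
        refine (T.n2_mul_le' (R.mul_mem hDs (hZ.mem v)) (hX.mem v)).trans ?_
        exact mul_le_of_le_one_right (T.n2_nonneg _) (hX.norm_le v)
    have := T.n2_nonneg (C v * X v)
    nlinarith [sq_nonneg (T.n2 (star D * X v) - T.n2 (star D * Z v)),
      T.n2_nonneg (star D * X v), T.n2_nonneg (star D * Z v)]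
  have h4 : ∑ v, T.n2 (C v * X v) ^ 2 ≤ (2 * T.n2 D) ^ 2 := by
    calc ∑ v, T.n2 (C v * X v) ^ 2
        ≤ ∑ v, (2 * T.n2 (star D * X v) ^ 2 + 2 * T.n2 (star D * Z v) ^ 2) :=
          Finset.sum_le_sum fun v _ => h3 v
      _ = (2 * T.n2 D) ^ 2 := by
          rw [Finset.sum_add_distrib, ← Finset.mul_sum, ← Finset.mul_sum, T.sum_n2_mul' hX hDs,
            T.sum_n2_mul' hZ hDs, T.n2_star hD]
          ring
  calc ‖∑ v, T.τ (X v * S * C v)‖ ≤ ∑ v, ‖T.τ (X v * S * C v)‖ := norm_sum_le _ _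
    _ ≤ ∑ v, T.n2 (X v * S) * T.n2 (C v * X v) := Finset.sum_le_sum fun v _ => h2 v
    _ ≤ Real.sqrt (∑ v, T.n2 (X v * S) ^ 2) * Real.sqrt (∑ v, T.n2 (C v * X v) ^ 2) :=
        Real.sum_mul_le_sqrt_mul_sqrt _ _ _
    _ ≤ T.n2 S * (2 * T.n2 D) := by
        rw [T.sum_n2_mul hX, Real.sqrt_sq (T.n2_nonneg _)]
        refine mul_le_mul_of_nonneg_left ?_ (T.n2_nonneg _)
        rw [← Real.sqrt_sq (by positivity [T.n2_nonneg D] : 0 ≤ 2 * T.n2 D)]
        exact Real.sqrt_le_sqrt h4
    _ = 2 * T.n2 S * T.n2 D := by ring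

private theorem left_of_mul_star {S p : H →L[ℂ] H} (hp : p * p = p) (hps : star p = p)
    (h : S * star S = p) : p * S = S := by
  have hX : (S - p * S) * star (S - p * S) = 0 := by
    have : (S - p * S) * star (S - p * S) =
        S * star S - S * star S * p - p * (S * star S) + p * (S * star S) * p := by
      rw [star_sub, star_mul, hps]
      noncomm_ring
    rw [this, h, hp, hp]
    abel
  have := CStarRing.mul_star_self_eq_zero_iff (S - p * S)
  exact (sub_eq_zero.1 (this.1 hX)).symm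

private theorem right_of_star_mul {S p : H →L[ℂ] H} (hp : p * p = p) (hps : star p = p)
    (h : star S * S = p) : S * p = S := by
  have h' : star S * star (star S) = p := by rw [star_star]; exact h
  have := left_of_mul_star hp hps h'
  have h2 := congrArg star this
  rw [star_mul, star_star, hps] at h2
  exact h2

private theorem Q_def (b : ℕ → ℝ) (n : ℕ) (v : G n) :
    T.Q b n v = T.e * T.φ n (mP n v) + T.f * T.φ n (mQ b n v) := rfl

private theorem comm_e (n : ℕ) (m : Matrix (G n) (G n) ℂ) : T.e * T.φ n m = T.φ n m * T.e :=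
  T.commc n _ _

private theorem comm_f (n : ℕ) (m : Matrix (G n) (G n) ℂ) : T.f * T.φ n m = T.φ n m * T.f :=
  T.commc n _ _

private theorem τ_e_mul (n : ℕ) (m : Matrix (G n) (G n) ℂ) :
    T.τ (T.e * T.φ n m) = 1 / 2 * (m.trace / Fintype.card (G n)) := by
  rw [T.τ_mul_φ T.e_mem (fun a => T.commc n _ a), τ_e]

private theorem τ_f_mul (n : ℕ) (m : Matrix (G n) (G n) ℂ) :
    T.τ (T.f * T.φ n m) = 1 / 2 * (m.trace / Fintype.card (G n)) := by
  rw [T.τ_mul_φ T.f_mem (fun a => T.commc n _ a), τ_f]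

private theorem n2_le_one {S : H →L[ℂ] H} (h : T.τ (star S * S) = 1 / 2) : T.n2 S ≤ 1 := by
  rw [T.τ_star_mul_self] at h
  have h' : T.n2 S ^ 2 = 1 / 2 := by
    apply Complex.ofReal_injective
    rw [h]
    push_cast
    rfl
  nlinarith [T.n2_nonneg S]

private theorem bound (b : ℕ → ℝ) {S : H →L[ℂ] H} (hS : S ∈ R)
    (h : (S * star S = T.e ∧ star S * S = T.f) ∨ (S * star S = T.f ∧ star S * S = T.e)) (n : ℕ) :
    ‖2 * ∑ v, T.τ (T.Q b n v * S * T.Q b n v * star S) - (kap b n : ℂ)‖ ≤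
      4 * T.n2 (T.E n S - S) := by
  have hk : (Fintype.card (G n) : ℂ) ≠ 0 := by exact_mod_cast Fintype.card_ne_zero
  have hE : ∀ m, T.φ n m * star (T.E n S) = star (T.E n S) * T.φ n m := by
    intro m
    have h1 : star (T.E n S) = T.ρ n (T.coef n S).conjTranspose := by
      rw [BlockTower.E, ← map_star, Matrix.star_eq_conjTranspose]
    rw [h1]
    exact (T.comm_tail le_rfl _ _).eq.symm
  -- the common conclusion
  have main : ∀ (X Z : G n → H →L[ℂ] H), Pvm R X → Pvm R Z →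
      (∀ v, Z v * star (T.E n S) = star (T.E n S) * Z v) →
      (∀ v, T.Q b n v * S * T.Q b n v * star S = X v * S * Z v * star S) →
      (∑ v, T.τ (X v * S * star S * Z v) = 1 / 2 * (kap b n : ℂ)) → T.n2 S ≤ 1 →
      ‖2 * ∑ v, T.τ (T.Q b n v * S * T.Q b n v * star S) - (kap b n : ℂ)‖ ≤
        4 * T.n2 (T.E n S - S) := by
    intro X Z hX hZ hc hQ hsum hn
    have hkey := T.key hX hZ hS (T.E_mem n S) hc
    simp only [hQ]
    have e1 : 2 * ∑ v, T.τ (X v * S * Z v * star S) - (kap b n : ℂ) =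
        2 * (∑ v, T.τ (X v * S * Z v * star S) - ∑ v, T.τ (X v * S * star S * Z v)) := by
      rw [hsum]; ring
    rw [e1, norm_mul, Complex.norm_ofNat, T.n2_sub_comm (T.E n S) S]
    have hn' := T.n2_nonneg (S - T.E n S)
    nlinarith [mul_le_mul_of_nonneg_right hn hn']
  rcases h with ⟨h1, h2⟩ | ⟨h1, h2⟩
  · have hl : T.e * S = S := left_of_mul_star T.e_mul_e T.star_e h1
    have hr : S * T.f = S := right_of_star_mul T.f_mul_f T.star_f h2
    have hfl : T.f * S = 0 := by rw [← hl, ← mul_assoc, T.f_mul_e, zero_mul]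
    have hre : S * T.e = 0 := by rw [← hr, mul_assoc, T.f_mul_e, mul_zero]
    refine main _ _ (T.pvm_P n) (T.pvm_Q' b n) (fun v => hE _) ?_ ?_ ?_
    · intro v
      have a1 : T.Q b n v * S = T.φ n (mP n v) * S := by
        rw [Q_def, add_mul, comm_e, comm_f, mul_assoc, mul_assoc, hl, hfl, mul_zero, add_zero]
      have a2 : S * T.Q b n v = S * T.φ n (mQ b n v) := by
        rw [Q_def, mul_add, ← mul_assoc, ← mul_assoc, hre, hr, zero_mul, zero_add]
      rw [a1, mul_assoc (T.φ n (mP n v)) S (T.Q b n v), a2, ← mul_assoc]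
    · have : ∀ v, T.τ (T.φ n (mP n v) * S * star S * T.φ n (mQ b n v)) =
          1 / 2 * ((kap b n : ℂ) / Fintype.card (G n)) := by
        intro v
        rw [mul_assoc (T.φ n (mP n v)) S (star S), h1, ← comm_e, mul_assoc, ← map_mul, τ_e_mul,
          trace_PQ]
      simp only [this]
      rw [Finset.sum_const, Finset.card_univ, nsmul_eq_mul]
      field_simp
    · apply T.n2_le_one
      rw [h2, τ_f]
  · have hl : T.f * S = S := left_of_mul_star T.f_mul_f T.star_f h1
    have hr : S * T.e = S := right_of_star_mul T.e_mul_e T.star_e h2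
    have hfl : T.e * S = 0 := by rw [← hl, ← mul_assoc, T.e_mul_f, zero_mul]
    have hre : S * T.f = 0 := by rw [← hr, mul_assoc, T.e_mul_f, mul_zero]
    refine main _ _ (T.pvm_Q' b n) (T.pvm_P n) (fun v => hE _) ?_ ?_ ?_
    · intro v
      have a1 : T.Q b n v * S = T.φ n (mQ b n v) * S := by
        rw [Q_def, add_mul, comm_e, comm_f, mul_assoc, mul_assoc, hl, hfl, mul_zero, zero_add]
      have a2 : S * T.Q b n v = S * T.φ n (mP n v) := by
        rw [Q_def, mul_add, ← mul_assoc, ← mul_assoc, hre, hr, zero_mul, add_zero]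
      rw [a1, mul_assoc (T.φ n (mQ b n v)) S (T.Q b n v), a2, ← mul_assoc]
    · have : ∀ v, T.τ (T.φ n (mQ b n v) * S * star S * T.φ n (mP n v)) =
          1 / 2 * ((kap b n : ℂ) / Fintype.card (G n)) := by
        intro v
        rw [mul_assoc (T.φ n (mQ b n v)) S (star S), h1, ← comm_f, mul_assoc, ← map_mul, τ_f_mul,
          Matrix.trace_mul_comm, trace_PQ]
      simp only [this]
      rw [Finset.sum_const, Finset.card_univ, nsmul_eq_mul]
      field_simp
    · apply T.n2_le_one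
      rw [h2, τ_e]

theorem stab_asymp (b : ℕ → ℝ) {S : H →L[ℂ] H} (hS : S ∈ R)
    (h : (S * star S = T.e ∧ star S * S = T.f) ∨ (S * star S = T.f ∧ star S * S = T.e)) :
    Tendsto (fun n => ‖2 * ∑ v, T.τ (T.Q b n v * S * T.Q b n v * star S) - (kap b n : ℂ)‖)
      atTop (𝓝 0) := by
  have h0 : Tendsto (fun n => 4 * T.n2 (T.E n S - S)) atTop (𝓝 0) := by
    have := (T.tendsto_E hS).const_mul 4
    simpa using this
  exact squeeze_zero (fun n => norm_nonneg _) (fun n => T.bound b hS h n) h0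

end BlockTower

end MP_c82b80_an
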