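import Mathlib
import Pool.Agent.Lib.MP_c82b80_an.Stab0

/-!
# JOB STAB-2 : rounding a partition of unity of the masa at a finite stage, and the trace formula

`exists_round`.  `E N (j v) = dg a N (χ v)`, `χ v = chi a N (j v)`, `0 ≤ χ v p` (`chi_nonneg`, `j v = (j v)* (j v)`),
`∑ v χ v p = 1` (`chi_sum`, `chi_one`).  Let `L p` be a `v` with `χ v p` maximal, `m p = χ (L p) p`.
`∑ v |χ v p - 1_{L p = v}|² = ∑ v (χ v p)² - 2 m p + 1 ≤ 2 (1 - ∑ v (χ v p)²)`.

`stab_PL`.  `PL a N L v = ρ (kr (single 0 0) (diag J_v) + kr (single 1 1) (W diag(K_v) Wᴴ))`, `J_v = 1_{L (0, ·) = v}`,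
`K_v = 1_{L (1, ·) = v}`; `s = ρ (kr (single 0 1) 1)`.  The product `PL v * s * PL v * s*` is
`ρ (kr (single 0 0) (diag J_v * W * diag K_v * Wᴴ))`, whose `τ` is
`(1 / card (I N)) ∑_y J_v y ∑_z ‖W y z‖² K_v z`; `W_norm_sq`, `card_I`; sum over `v`.
-/

open scoped InnerProductSpace ComplexOrder
open Filter Topology

namespace MP_c82b80_an

universe u

/-- rounding a probability vector to its most likely value -/
theorem stab2_round_aux {V : Type} [Fintype V] [DecidableEq V] [Nonempty V] (c : V → ℝ)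
    (h0 : ∀ v, 0 ≤ c v) (h1 : ∑ v, c v = 1) :
    ∃ v₀ : V, ∑ v, (c v - (if v₀ = v then 1 else 0)) ^ 2 ≤ 2 * (1 - ∑ v, c v ^ 2) := by
  obtain ⟨v₀, hv₀⟩ := Finite.exists_max c
  refine ⟨v₀, ?_⟩
  have hm1 : c v₀ ≤ 1 := by
    rw [← h1]
    exact Finset.single_le_sum (f := c) (fun v _ => h0 v) (Finset.mem_univ v₀)
  have hs : ∑ v, c v ^ 2 ≤ c v₀ := by
    calc ∑ v, c v ^ 2 ≤ ∑ v, c v₀ * c v :=
          Finset.sum_le_sum fun v _ => by nlinarith [hv₀ v, h0 v]
      _ = c v₀ := by rw [← Finset.mul_sum, h1, mul_one]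
  have he : ∑ v, (c v - (if v₀ = v then 1 else 0)) ^ 2 = ∑ v, c v ^ 2 - 2 * c v₀ + 1 := by
    have : ∀ v, (c v - (if v₀ = v then (1 : ℝ) else 0)) ^ 2 =
        c v ^ 2 - 2 * (if v₀ = v then c v else 0) + (if v₀ = v then 1 else 0) := by
      intro v
      split_ifs <;> ring
    simp only [this, Finset.sum_add_distrib, Finset.sum_sub_distrib, ← Finset.mul_sum]
    simp
  rw [he]
  linarith

theorem stab2_kr_add_right' {A B : Type} (a : Matrix A A ℂ) (b b' : Matrix B B ℂ) :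
    kr a (b + b') = kr a b + kr a b' := by
  ext p q
  simp [kr, mul_add]

theorem stab2_kr_add_left' {A B : Type} (a a' : Matrix A A ℂ) (b : Matrix B B ℂ) :
    kr (a + a') b = kr a b + kr a' b := by
  ext p q
  simp [kr, add_mul]

theorem stab2_kr_zero_left' {A B : Type} (b : Matrix B B ℂ) : kr (0 : Matrix A A ℂ) b = 0 := by
  ext p q
  simp [kr]

theorem stab2_diagonal_eq_kr {N : ℕ} (χ : I N → ℂ) :
    Matrix.diagonal χ = kr (Matrix.single 0 0 1) (Matrix.diagonal fun y => χ (0, y)) +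
      kr (Matrix.single 1 1 1) (Matrix.diagonal fun y => χ (1, y)) := by
  ext ⟨c, y⟩ ⟨d, z⟩
  fin_cases c <;> fin_cases d <;>
    simp [kr, Matrix.diagonal_apply, Prod.ext_iff]

theorem stab2_dmat_eq_kr (a : ℕ → ℝ) (N : ℕ) (χ : I N → ℂ) :
    dmat a N χ = kr (Matrix.single 0 0 1) (Matrix.diagonal fun y => χ (0, y)) +
      kr (Matrix.single 1 1 1)
        (W a N * (Matrix.diagonal fun y => χ (1, y)) * (W a N).conjTranspose) := by
  unfold dmat Umat
  rw [stab2_diagonal_eq_kr, Matrix.conjTranspose_add, kr_conjTranspose, kr_conjTranspose]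
  simp only [add_mul, mul_add, kr_mul, Matrix.conjTranspose_single]
  simp [stab2_kr_zero_left']

theorem stab2_trace_aux (a : ℕ → ℝ) (N : ℕ) (χ χ' : I N → ℂ) :
    (dmat a N χ * cor (Matrix.single 0 1 1) * dmat a N χ' *
      (cor (Matrix.single 0 1 1)).conjTranspose).trace =
      ∑ y, ∑ z, (‖W a N y z‖ ^ 2 : ℝ) * (χ (0, y) * χ' (1, z)) := by
  rw [stab2_dmat_eq_kr, stab2_dmat_eq_kr]
  unfold cor
  rw [kr_conjTranspose]
  simp only [add_mul, mul_add, kr_mul, Matrix.conjTranspose_single]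
  simp only [Matrix.single_mul_single_same, ne_eq, one_ne_zero, not_false_eq_true,
    Matrix.single_mul_single_of_ne, Matrix.zero_mul, stab2_kr_zero_left', zero_add, add_zero, mul_one,
    star_one, Matrix.conjTranspose_one]
  rw [kr_trace, Matrix.trace_single_eq_same, one_mul, Matrix.trace]
  refine Finset.sum_congr rfl fun y _ => ?_
  rw [Matrix.diag_apply, Matrix.diagonal_mul, Matrix.mul_apply, Finset.mul_sum]
  refine Finset.sum_congr rfl fun z _ => ?_
  rw [Matrix.mul_diagonal, Matrix.conjTranspose_apply]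
  have : ((‖W a N y z‖ ^ 2 : ℝ) : ℂ) = W a N y z * star (W a N y z) := by
    rw [Complex.star_def, Complex.mul_conj, Complex.normSq_eq_norm_sq]
  rw [this]
  ring

variable {H : Type u} [NormedAddCommGroup H] [InnerProductSpace ℂ H] [CompleteSpace H]

namespace BlockTower

variable {R : VonNeumannAlgebra H} (T : BlockTower R)

theorem exists_round (a : ℕ → ℝ) {V : Type} [Fintype V] [DecidableEq V] [Nonempty V]
    {j : V → H →L[ℂ] H} (hj : Pvm R j) (hA : ∀ v, j v ∈ T.masaAlg a) {ε : ℝ} (hε : 0 < ε) :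
    ∃ N₀ : ℕ, ∀ N ≥ N₀, ∃ L : I N → V, T.D j (T.PL a N L) < ε := by
  have hlim : Tendsto (fun N => 6 * ∑ v, T.n2 (T.E N (j v) - j v) ^ 2) atTop (𝓝 0) := by
    have : Tendsto (fun N => 6 * ∑ v, T.n2 (T.E N (j v) - j v) ^ 2) atTop
        (𝓝 (6 * ∑ _v : V, (0 : ℝ) ^ 2)) :=
      (tendsto_finsetSum _ fun v _ => (T.tendsto_E (hj.mem v)).pow 2).const_mul 6
    simpa using this
  obtain ⟨N₀, hN₀⟩ := (hlim.eventually (gt_mem_nhds hε)).exists_forall_of_atTop
  refine ⟨N₀, fun N hN => ?_⟩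
  have hδ := hN₀ N hN
  -- the real numbers `c v p`
  set c : I N → V → ℝ := fun p v => (T.chi a N (j v) p).re with hc
  have hjj : ∀ v, star (j v) * j v = j v := fun v => by rw [hj.star, hj.idem]
  have hχ0 : ∀ v p, 0 ≤ T.chi a N (j v) p := fun v p => by
    have := T.chi_nonneg a N (hj.mem v) p
    rwa [hjj] at this
  have hχ : ∀ v p, T.chi a N (j v) p = (c p v : ℂ) := fun v p => by
    have := (Complex.le_def.1 (hχ0 v p)).2
    apply Complex.ext
    · simp [hc]
    · simpa using this.symm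
  have hc0 : ∀ p v, 0 ≤ c p v := fun p v => (Complex.le_def.1 (hχ0 v p)).1
  have hc1 : ∀ p, ∑ v, c p v = 1 := fun p => by
    have h := T.chi_sum a N Finset.univ j p
    rw [hj.sum, T.chi_one] at h
    have h' := congrArg Complex.re h
    simpa [hc] using h'.symm
  choose L hL using fun p => stab2_round_aux (c p) (hc0 p) (hc1 p)
  refine ⟨L, lt_of_le_of_lt ?_ hδ⟩
  -- n2 of E (j v)
  have hE : ∀ v, T.E N (j v) = T.dg a N (fun p => (c p v : ℂ)) := fun v => by
    rw [T.E_eq_dg (hA v) N]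
    congr 1
    funext p
    exact hχ v p
  have hEn : ∀ v, T.n2 (T.E N (j v)) ^ 2 = (∑ p, c p v ^ 2) / Fintype.card (I N) := fun v => by
    rw [hE, T.n2_dg_sq]
    congr 1
    refine Finset.sum_congr rfl fun p _ => ?_
    rw [Complex.norm_real, Real.norm_eq_abs, sq_abs]
  have hdiff : ∀ v, T.n2 (T.E N (j v) - T.PL a N L v) ^ 2 =
      (∑ p, (c p v - (if L p = v then 1 else 0)) ^ 2) / Fintype.card (I N) := fun v => by
    rw [hE]
    unfold PL
    rw [← T.dg_sub, T.n2_dg_sq]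
    congr 1
    refine Finset.sum_congr rfl fun p _ => ?_
    have : ((c p v : ℂ) - (if L p = v then 1 else 0)) =
        ((c p v - (if L p = v then 1 else 0) : ℝ) : ℂ) := by
      split_ifs <;> simp
    rw [this, Complex.norm_real, Real.norm_eq_abs, sq_abs]
  have hcard : (0 : ℝ) < Fintype.card (I N) := by
    exact_mod_cast Fintype.card_pos
  -- the sum of the n2 of E (j v)
  have hsumE : ∑ v, T.n2 (T.E N (j v)) ^ 2 = 1 - ∑ v, T.n2 (T.E N (j v) - j v) ^ 2 := by
    have h1 := T.Pvm_sum_n2 hj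
    rw [← h1, eq_sub_iff_add_eq, ← Finset.sum_add_distrib]
    refine Finset.sum_congr rfl fun v _ => ?_
    rw [T.n2_sq_eq N (hj.mem v), T.n2_sub_comm (T.E N (j v)) (j v)]
  have hsumD : ∑ v, T.n2 (T.E N (j v) - T.PL a N L v) ^ 2 ≤
      2 * ∑ v, T.n2 (T.E N (j v) - j v) ^ 2 := by
    have h2 : ∑ v, T.n2 (T.E N (j v) - T.PL a N L v) ^ 2 ≤
        2 * (1 - ∑ v, T.n2 (T.E N (j v)) ^ 2) := by
      simp only [hdiff, hEn]
      rw [← Finset.sum_div, ← Finset.sum_div, Finset.sum_comm, Finset.sum_comm (s := Finset.univ)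
        (t := Finset.univ) (f := fun v p => c p v ^ 2)]
      have h3 : ∑ p, ∑ v, (c p v - (if L p = v then (1 : ℝ) else 0)) ^ 2 ≤
          ∑ p, 2 * (1 - ∑ v, c p v ^ 2) := Finset.sum_le_sum fun p _ => hL p
      have h4 : ∑ p : I N, 2 * (1 - ∑ v, c p v ^ 2) =
          2 * (Fintype.card (I N) - ∑ p, ∑ v, c p v ^ 2) := by
        rw [← Finset.mul_sum, Finset.sum_sub_distrib]
        simp
      rw [div_le_iff₀ hcard]
      have h5 : 2 * (1 - (∑ p, ∑ v, c p v ^ 2) / (Fintype.card (I N) : ℝ)) *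
          (Fintype.card (I N) : ℝ) = 2 * (Fintype.card (I N) - ∑ p, ∑ v, c p v ^ 2) := by
        field_simp
      rw [h5, ← h4]
      exact h3
    rw [hsumE] at h2
    linarith
  unfold D
  have h6 : ∀ v, T.n2 (j v - T.PL a N L v) ^ 2 ≤
      2 * T.n2 (T.E N (j v) - j v) ^ 2 + 2 * T.n2 (T.E N (j v) - T.PL a N L v) ^ 2 := fun v => by
    have h7 := T.n2_sub_le (j v) (T.E N (j v)) (T.PL a N L v)
    rw [T.n2_sub_comm (j v) (T.E N (j v))] at h7
    have h8 := T.n2_nonneg (j v - T.PL a N L v)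
    nlinarith [sq_nonneg (T.n2 (T.E N (j v) - j v) - T.n2 (T.E N (j v) - T.PL a N L v))]
  calc ∑ v, T.n2 (j v - T.PL a N L v) ^ 2
      ≤ ∑ v, (2 * T.n2 (T.E N (j v) - j v) ^ 2 +
          2 * T.n2 (T.E N (j v) - T.PL a N L v) ^ 2) := Finset.sum_le_sum fun v _ => h6 v
    _ = 2 * ∑ v, T.n2 (T.E N (j v) - j v) ^ 2 +
          2 * ∑ v, T.n2 (T.E N (j v) - T.PL a N L v) ^ 2 := by
        rw [Finset.sum_add_distrib, Finset.mul_sum, Finset.mul_sum]
    _ ≤ 6 * ∑ v, T.n2 (T.E N (j v) - j v) ^ 2 := by linarith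

theorem stab_PL (a : ℕ → ℝ) (N : ℕ) {V : Type} [Fintype V] [DecidableEq V] (L : I N → V) :
    2 * ∑ v, T.τ (T.PL a N L v * T.s * T.PL a N L v * star T.s) =
      ((stab (A := fun i : Fin N => G i) (fun i => Real.cos (a i) ^ 2)
        (fun y => L (0, y)) (fun y => L (1, y)) : ℝ) : ℂ) := by
  have hs : T.s = T.ρ N (cor (Matrix.single 0 1 1)) := (T.ρ_cor _).symm
  have h1 : ∀ v, T.τ (T.PL a N L v * T.s * T.PL a N L v * star T.s) =
      (∑ y, ∑ z, (‖W a N y z‖ ^ 2 : ℝ) * ((if L (0, y) = v then (1 : ℂ) else 0) *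
        (if L (1, z) = v then (1 : ℂ) else 0))) / Fintype.card (I N) := fun v => by
    unfold PL dg
    rw [hs, ← map_star, Matrix.star_eq_conjTranspose, ← map_mul, ← map_mul, ← map_mul, T.τ_ρ,
      stab2_trace_aux]
  simp only [h1]
  rw [← Finset.sum_div, Finset.sum_comm]
  have hY : (Fintype.card (Y N) : ℂ) ≠ 0 := by
    exact_mod_cast Fintype.card_ne_zero
  have h2 : ∀ y : Y N, ∑ v, ∑ z, ((‖W a N y z‖ ^ 2 : ℝ) : ℂ) *
      ((if L (0, y) = v then (1 : ℂ) else 0) * (if L (1, z) = v then (1 : ℂ) else 0)) =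
      ((∑ z, ker (A := fun i : Fin N => G i) (fun i => Real.cos (a i) ^ 2) y z *
        (@ite ℝ (L (0, y) = L (1, z)) (Classical.propDecidable _) 1 0) : ℝ) : ℂ) := fun y => by
    rw [Finset.sum_comm, Complex.ofReal_sum]
    refine Finset.sum_congr rfl fun z _ => ?_
    rw [← Finset.mul_sum, W_norm_sq, Complex.ofReal_mul]
    congr 1
    by_cases h : L (0, y) = L (1, z)
    · simp [h]
    · simp [h]
  rw [Finset.sum_congr rfl fun y _ => h2 y, card_I]
  unfold stab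
  rw [Complex.ofReal_div, Complex.ofReal_sum]
  push_cast
  field_simp

end BlockTower

end MP_c82b80_an
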