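import Mathlib
import Pool.Agent.Lib.MP_c82b80_an.NmlB
import Pool.Agent.Lib.MP_c82b80_an.Stab1
import Pool.Agent.Lib.MP_c82b80_an.Stab2
import Pool.Agent.Lib.MP_c82b80_an.Comb3

/-!
# Matching of the blocks under an automorphism which maps one masa onto another
-/

open scoped InnerProductSpace ComplexOrder
open Filter Topology

namespace MP_c82b80_an

universe u

variable {H : Type u} [NormedAddCommGroup H] [InnerProductSpace ℂ H] [CompleteSpace H]
variable {R : VonNeumannAlgebra H}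

theorem Pvm.map {V : Type} [Fintype V] {p : V → H →L[ℂ] H} (hp : Pvm R p) (θ : Auto R) :
    Pvm R (fun v => θ.fwd (p v)) where
  mem v := θ.fwd_mem _ (hp.mem v)
  star v := by rw [← θ.map_star _ (hp.mem v), hp.star v]
  idem v := by rw [← θ.map_mul _ (hp.mem v) _ (hp.mem v), hp.idem v]
  orth v w h := by rw [← θ.map_mul _ (hp.mem v) _ (hp.mem w), hp.orth v w h, θ.map_zero]
  sum := by rw [← θ.map_sum _ hp.mem, hp.sum, θ.map_one]

theorem col_empty_eq {N : ℕ} {A : Fin N → Type} [∀ i, Fintype (A i)] {V : Type} [Fintype V]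
    (K : (∀ i, A i) → V) : col ∅ K = ∑ v, prob (fun y => K y = v) ^ 2 := by
  classical
  have h1 : ∀ y z : ∀ i, A i, (if K y = K (mix ∅ y z) then (1 : ℝ) else 0) =
      ∑ v, (if K y = v then (1 : ℝ) else 0) * (if K z = v then (1 : ℝ) else 0) := by
    intro y z
    have : mix ∅ y z = z := by
      funext i
      simp [mix]
    rw [this, Finset.sum_eq_single (K y)]
    · by_cases h : K y = K z
      · simp [h]
      · simp [h, Ne.symm h]
    · intro v _ hv
      simp [Ne.symm hv]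
    · simp
  unfold col prob
  simp_rw [h1, div_pow]
  rw [← Finset.sum_div]
  congr 1
  calc ∑ y, ∑ z, ∑ v, (if K y = v then (1 : ℝ) else 0) * (if K z = v then (1 : ℝ) else 0)
      = ∑ y, ∑ v, ∑ z, (if K y = v then (1 : ℝ) else 0) * (if K z = v then (1 : ℝ) else 0) := by
        refine Finset.sum_congr rfl fun y _ => Finset.sum_comm
    _ = ∑ v, ∑ y, ∑ z, (if K y = v then (1 : ℝ) else 0) * (if K z = v then (1 : ℝ) else 0) :=
        Finset.sum_comm
    _ = ∑ v, (∑ y, if K y = v then (1 : ℝ) else 0) ^ 2 := by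
        refine Finset.sum_congr rfl fun v _ => ?_
        rw [sq, Finset.sum_mul_sum]

theorem prob_nonneg' {X : Type} [Fintype X] (P : X → Prop) : 0 ≤ prob P := by
  unfold prob
  refine div_nonneg (Finset.sum_nonneg fun y _ => ?_) (Nat.cast_nonneg _)
  split <;> norm_num

theorem sum_prob_eq {X V : Type} [Fintype X] [Nonempty X] [Fintype V] (K : X → V) :
    ∑ v, prob (fun y => K y = v) = 1 := by
  classical
  unfold prob
  rw [← Finset.sum_div, Finset.sum_comm]
  have : ∀ y : X, ∑ v, (if K y = v then (1 : ℝ) else 0) = 1 := by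
    intro y
    rw [Finset.sum_eq_single (K y)] <;> simp +contextual [eq_comm]
  simp_rw [this]
  simp

theorem col_empty_le {N : ℕ} {A : Fin N → Type} [∀ i, Fintype (A i)] [∀ i, Nonempty (A i)]
    {V : Type} [Fintype V]
    (K : (∀ i, A i) → V) {c : ℝ} (h : ∀ v, prob (fun y => K y = v) ≤ c) : col ∅ K ≤ c := by
  rw [col_empty_eq]
  calc ∑ v, prob (fun y => K y = v) ^ 2 ≤ ∑ v, c * prob (fun y => K y = v) := by
        refine Finset.sum_le_sum fun v _ => ?_
        rw [sq]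
        exact mul_le_mul_of_nonneg_right (h v) (prob_nonneg' _)
    _ = c := by rw [← Finset.mul_sum, sum_prob_eq, mul_one]

namespace BlockTower

variable (T : BlockTower R)

theorem fwd_f (θ : Auto R) : θ.fwd T.f = 1 - θ.fwd T.e := by
  have : T.f = 1 - T.e := by rw [← T.e_add_f]; abel
  rw [this, θ.map_sub (one_mem R) T.e_mem, θ.map_one]

theorem one_sub_e : 1 - T.e = T.f := by rw [← T.e_add_f]; abel

theorem one_sub_f : 1 - T.f = T.e := by rw [← T.e_add_f]; abel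

/-- an automorphism as in `auto_e` permutes the corner projections -/
theorem exists_perm {a b : ℕ → ℝ} (ha : Adm a) (θ : Auto R)
    (hθ : ∀ x ∈ R, x ∈ T.masaAlg a ↔ θ.fwd x ∈ T.masaAlg b) :
    ∃ σ : Equiv.Perm (Fin 2), ∀ c, θ.fwd (T.ec c) = T.ec (σ c) := by
  rcases T.auto_e ha θ hθ with h | h
  · refine ⟨1, fun c => ?_⟩
    fin_cases c
    · simp [ec, h]
    · simp [ec, T.fwd_f, h, T.one_sub_e]
  · refine ⟨Equiv.swap 0 1, fun c => ?_⟩
    fin_cases c
    · simp [ec, h]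
    · simp [ec, T.fwd_f, h, T.one_sub_f]


/-- expansion of the agreement with a pushed forward partition -/
theorem sum_τ_push {V W : Type} [Fintype V] [Fintype W] [DecidableEq W] (p : W → H →L[ℂ] H)
    (m : V → W) (q : V → H →L[ℂ] H) :
    ∑ w, T.τ (p w * push m q w) = ∑ v, T.τ (p (m v) * q v) := by
  have h1 : ∀ w, T.τ (p w * push m q w) = ∑ v, if m v = w then T.τ (p w * q v) else 0 := by
    intro w
    unfold push
    rw [Finset.mul_sum, T.τ_sum]
    refine Finset.sum_congr rfl fun v _ => ?_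
    split
    · rfl
    · rw [mul_zero, T.τ_zero]
  simp_rw [h1]
  rw [Finset.sum_comm]
  refine Finset.sum_congr rfl fun v _ => ?_
  rw [Finset.sum_ite_eq]
  simp

theorem card_G_pos (n : ℕ) : (0 : ℝ) < Fintype.card (G n) := by
  exact_mod_cast Fintype.card_pos

theorem two_le_card_G (n : ℕ) : (2 : ℝ) ≤ Fintype.card (G n) := by
  rw [card_G]
  push_cast
  rw [pow_succ]
  have : (1 : ℝ) ≤ 2 ^ n := one_le_pow₀ (by norm_num)
  linarith

/-- blocks with different numbers are independent -/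
theorem indep (b : ℕ → ℝ) {n l : ℕ} (h : n ≠ l) (g : Fin 2 × G l → G n) :
    ∑ v, (T.τ (T.Q b n v * push g (T.QQ b l) v)).re = 1 / Fintype.card (G n) := by
  have h1 : ∑ v, (T.τ (T.Q b n v * push g (T.QQ b l) v)).re =
      (∑ v, T.τ (T.Q b n v * push g (T.QQ b l) v)).re := by
    rw [Complex.re_sum]
  rw [h1, T.sum_τ_push]
  simp_rw [T.τ_Q_QQ b h]
  rw [Finset.sum_const, Finset.card_univ, Fintype.card_prod, Fintype.card_fin]
  have hl := (card_G_pos l).ne'
  have hn := (card_G_pos n).ne'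
  have h2 : ((2 * Fintype.card (G l)) • (1 / (2 * (Fintype.card (G n) : ℂ) * Fintype.card (G l))) : ℂ) =
      ((1 / (Fintype.card (G n) : ℝ) : ℝ) : ℂ) := by
    have hl' : (Fintype.card (G l) : ℂ) ≠ 0 := by exact_mod_cast hl
    have hn' : (Fintype.card (G n) : ℂ) ≠ 0 := by exact_mod_cast hn
    rw [nsmul_eq_mul]
    push_cast
    field_simp
  rw [h2, Complex.ofReal_re]

theorem τ_ec_bwd_Q {b : ℕ → ℝ} (θ : Auto R) {σ : Equiv.Perm (Fin 2)}
    (hσ : ∀ c, θ.fwd (T.ec c) = T.ec (σ c)) (n : ℕ) (v : G n) (c : Fin 2) :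
    T.τ (T.ec c * θ.bwd (T.Q b n v)) = 1 / (2 * Fintype.card (G n)) := by
  have hQ : T.Q b n v ∈ R := (T.pvm_Q b n).mem v
  have hc : T.ec c ∈ R := T.pvm_ec.mem c
  rw [← Auto.τ_fwd T θ (mul_mem hc (θ.bwd_mem _ hQ)), θ.map_mul _ hc _ (θ.bwd_mem _ hQ),
    θ.fwd_bwd _ hQ, hσ, T.τ_ec_Q]

/-- comparison of the sizes of the blocks -/
theorem size_le {a b : ℕ → ℝ} (θ : Auto R)
    (hθ : ∀ x ∈ R, x ∈ T.masaAlg a ↔ θ.fwd x ∈ T.masaAlg b)
    {σ : Equiv.Perm (Fin 2)} (hσ : ∀ c, θ.fwd (T.ec c) = T.ec (σ c)) {n i : ℕ}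
    (m : Fin 2 × G i → G n)
    (h : T.D (fun v => θ.bwd (T.Q b n v)) (push m (T.QQ a i)) ≤ 11 / 100) : n ≤ i := by
  have hj : Pvm R (fun v => θ.bwd (T.Q b n v)) := (T.pvm_Q b n).map θ.symm
  have hq : Pvm R (push m (T.QQ a i)) := (T.pvm_QQ a i).push m
  rw [T.D_eq hj hq] at h
  have h1 : ∑ v, (T.τ (θ.bwd (T.Q b n v) * push m (T.QQ a i) v)).re =
      ∑ cu : Fin 2 × G i, (T.τ (θ.bwd (T.Q b n (m cu)) * T.QQ a i cu)).re := by
    rw [← Complex.re_sum, T.sum_τ_push (fun v => θ.bwd (T.Q b n v)), Complex.re_sum]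
  rw [h1, Fintype.sum_prod_type, Fin.sum_univ_two] at h
  have hjm : ∀ v, θ.bwd (T.Q b n v) ∈ T.masaAlg a := fun v => by
    rw [hθ _ (hj.mem v), θ.fwd_bwd _ ((T.pvm_Q b n).mem v)]
    exact T.Q_mem b n v
  have h2 : ∑ u : G i, (T.τ (θ.bwd (T.Q b n (m (0, u))) * T.QQ a i (0, u))).re ≤
      Fintype.card (G i) * (1 / (2 * Fintype.card (G n))) := by
    have : ∀ u : G i, (T.τ (θ.bwd (T.Q b n (m (0, u))) * T.QQ a i (0, u))).re ≤
        1 / (2 * Fintype.card (G n)) := by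
      intro u
      have e1 := T.re_τ_mul_mul_le (hj.mem (m (0, u))) (T.pvm_ec.mem 0) ((T.pvm_Q a i).mem u)
        (hj.star _) (hj.idem _) (T.pvm_ec.star 0) (T.pvm_ec.idem 0) ((T.pvm_Q a i).star u)
        ((T.pvm_Q a i).idem u) (T.masaAlg_comm a _ (hjm _) _ (T.ec_mem a 0))
      have e2 : T.QQ a i (0, u) = T.ec 0 * T.Q a i u := rfl
      rw [e2, ← mul_assoc]
      refine e1.trans ?_
      rw [T.masaAlg_comm a _ (hjm _) _ (T.ec_mem a 0), T.τ_ec_bwd_Q θ hσ]
      have : (1 / (2 * (Fintype.card (G n) : ℂ)) : ℂ) = ((1 / (2 * (Fintype.card (G n) : ℝ)) : ℝ) : ℂ) := by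
        push_cast; rfl
      rw [this, Complex.ofReal_re]
    refine (Finset.sum_le_sum fun u _ => this u).trans ?_
    rw [Finset.sum_const, Finset.card_univ, nsmul_eq_mul]
  have h3 : ∑ u : G i, (T.τ (θ.bwd (T.Q b n (m (1, u))) * T.QQ a i (1, u))).re ≤ 1 / 2 := by
    have : ∀ u : G i, (T.τ (θ.bwd (T.Q b n (m (1, u))) * T.QQ a i (1, u))).re ≤
        1 / (2 * Fintype.card (G i)) := by
      intro u
      have hc := T.masaAlg_comm a _ (T.ec_mem a 1) _ (T.Q_mem a i u)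
      have e1 := T.re_τ_mul_mul_le (T.pvm_ec.mem 1) ((T.pvm_Q a i).mem u) (hj.mem (m (1, u)))
        (T.pvm_ec.star 1) (T.pvm_ec.idem 1) ((T.pvm_Q a i).star u)
        ((T.pvm_Q a i).idem u) (hj.star _) (hj.idem _) hc
      have e2 : T.QQ a i (1, u) = T.ec 1 * T.Q a i u := rfl
      rw [e2, T.τ_comm (hj.mem _) (mul_mem (T.pvm_ec.mem 1) ((T.pvm_Q a i).mem u))]
      refine e1.trans ?_
      rw [T.τ_ec_Q]
      have : (1 / (2 * (Fintype.card (G i) : ℂ)) : ℂ) = ((1 / (2 * (Fintype.card (G i) : ℝ)) : ℝ) : ℂ) := by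
        push_cast; rfl
      rw [this, Complex.ofReal_re]
    refine (Finset.sum_le_sum fun u _ => this u).trans ?_
    rw [Finset.sum_const, Finset.card_univ, nsmul_eq_mul]
    have := (card_G_pos i).ne'
    field_simp
    exact le_rfl
  by_contra hlt
  push Not at hlt
  have h4 : (Fintype.card (G i) : ℝ) ≤ Fintype.card (G n) / 2 := by
    rw [card_G, card_G]
    push_cast
    rw [pow_succ (2 : ℝ) n, mul_div_assoc, div_self (two_ne_zero), mul_one]
    exact pow_le_pow_right₀ (by norm_num) hlt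
  have h5 : (Fintype.card (G i) : ℝ) * (1 / (2 * Fintype.card (G n))) ≤ 1 / 4 := by
    have hn := card_G_pos n
    rw [mul_one_div, div_le_iff₀ (by positivity)]
    linarith
  linarith

/-- composition of two matchings -/
theorem chain {a b : ℕ → ℝ} (θ : Auto R)
    {σ : Equiv.Perm (Fin 2)} (hσ : ∀ c, θ.fwd (T.ec c) = T.ec (σ c)) {n i l : ℕ}
    (m : Fin 2 × G i → G n) (m' : Fin 2 × G l → G i)
    (h : T.D (fun v => θ.bwd (T.Q b n v)) (push m (T.QQ a i)) ≤ 11 / 100)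
    (h' : T.D (fun u => θ.fwd (T.Q a i u)) (push m' (T.QQ b l)) ≤ 11 / 100) : n = l := by
  by_contra hnl
  have hQa := T.pvm_Q a i
  have hQQ := T.pvm_QQ a i
  have hQb := T.pvm_Q b n
  have hQQl := T.pvm_QQ b l
  -- step A
  have hA : T.D (T.Q b n) (push m (fun cu => θ.fwd (T.QQ a i cu))) ≤ 11 / 100 := by
    refine le_trans (le_of_eq ?_) h
    unfold D
    refine Finset.sum_congr rfl fun v _ => ?_
    have e1 : θ.bwd (T.Q b n v) ∈ R := θ.bwd_mem _ (hQb.mem v)
    have e2 : push m (T.QQ a i) v ∈ R := (hQQ.push m).mem v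
    rw [← Auto.n2_fwd T θ (sub_mem e1 e2), θ.map_sub e1 e2, θ.fwd_bwd _ (hQb.mem v)]
    congr 3
    unfold push
    rw [θ.map_sum]
    · refine Finset.sum_congr rfl fun cu _ => ?_
      split
      · rfl
      · rw [θ.map_zero]
    · intro cu
      split
      · exact hQQ.mem cu
      · exact zero_mem R
  -- step B
  have hE : Pvm R (fun c => θ.fwd (T.ec c)) := T.pvm_ec.map θ
  have hB : T.D (joint (fun c => θ.fwd (T.ec c)) (fun u => θ.fwd (T.Q a i u)))
      (joint (fun c => θ.fwd (T.ec c)) (push m' (T.QQ b l))) ≤ 11 / 100 := by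
    rw [T.D_joint hE]
    exact h'
  have hB1 : joint (fun c => θ.fwd (T.ec c)) (fun u => θ.fwd (T.Q a i u)) =
      fun cu => θ.fwd (T.QQ a i cu) := by
    funext cu
    unfold QQ joint
    rw [θ.map_mul _ (T.pvm_ec.mem _) _ (hQa.mem _)]
  have hB2 : joint (fun c => θ.fwd (T.ec c)) (push m' (T.QQ b l)) =
      push (fun dw => (σ.symm dw.1, m' dw)) (T.QQ b l) := by
    funext cu
    unfold joint push
    rw [Finset.mul_sum]
    refine Finset.sum_congr rfl fun dw _ => ?_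
    simp only [hσ]
    by_cases h1 : m' dw = cu.2
    · by_cases h2 : σ.symm dw.1 = cu.1
      · rw [if_pos h1, if_pos (Prod.ext h2 h1)]
        have : σ cu.1 = dw.1 := by rw [← h2]; simp
        rw [this]
        change T.ec dw.1 * (T.ec dw.1 * T.Q b l dw.2) = T.ec dw.1 * T.Q b l dw.2
        rw [← mul_assoc, T.pvm_ec.idem]
      · rw [if_pos h1, if_neg (fun h3 => h2 (congrArg Prod.fst h3))]
        have : σ cu.1 ≠ dw.1 := fun h3 => h2 (by rw [← h3]; simp)
        change T.ec (σ cu.1) * (T.ec dw.1 * T.Q b l dw.2) = 0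
        rw [← mul_assoc, T.pvm_ec.orth _ _ this, zero_mul]
    · rw [if_neg h1, if_neg (fun h3 => h1 (congrArg Prod.snd h3)), mul_zero]
  rw [hB1, hB2] at hB
  -- composition
  have hC : T.D (push m (fun cu => θ.fwd (T.QQ a i cu)))
      (push m (push (fun dw => (σ.symm dw.1, m' dw)) (T.QQ b l))) ≤ 11 / 100 :=
    (T.D_push_le (hQQ.map θ) (hQQl.push _) m).trans hB
  rw [push_push] at hC
  have hD := T.D_tri (T.Q b n) (push m (fun cu => θ.fwd (T.QQ a i cu)))
    (push (m ∘ fun dw => (σ.symm dw.1, m' dw)) (T.QQ b l))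
  have hs1 := Real.sqrt_le_sqrt hA
  have hs2 := Real.sqrt_le_sqrt hC
  have hs3 : Real.sqrt (T.D (T.Q b n)
      (push (m ∘ fun dw => (σ.symm dw.1, m' dw)) (T.QQ b l))) ≤ 2 * Real.sqrt (11 / 100) := by
    linarith
  have hs4 : T.D (T.Q b n)
      (push (m ∘ fun dw => (σ.symm dw.1, m' dw)) (T.QQ b l)) ≤ 44 / 100 := by
    rw [Real.sqrt_le_left (by positivity)] at hs3
    refine hs3.trans (le_of_eq ?_)
    rw [mul_pow, Real.sq_sqrt (by norm_num)]
    norm_num
  rw [T.D_eq hQb (hQQl.push _), T.indep b hnl] at hs4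
  have hk := two_le_card_G n
  have : 1 / (Fintype.card (G n) : ℝ) ≤ 1 / 2 := by
    rw [div_le_div_iff₀ (by linarith) (by norm_num)]
    linarith
  linarith


theorem norm_s_le : ‖T.s‖ ≤ 1 := by
  have h1 : ‖T.s‖ * ‖T.s‖ = ‖T.e‖ := by
    rw [← CStarRing.norm_self_mul_star, T.s_mul_star]
  have h2 : ‖T.e‖ ≤ 1 := by
    have := T.pvm_ec.norm_le 0
    simpa [ec] using this
  nlinarith [norm_nonneg T.s]

/-- the main estimate for one block -/
theorem key {a b : ℕ → ℝ} (ha : Adm a) (hb : Adm b) (θ : Auto R)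
    (hθ : ∀ x ∈ R, x ∈ T.masaAlg a ↔ θ.fwd x ∈ T.masaAlg b) {ε : ℝ} (hε : 0 < ε) :
    ∃ n₀ : ℕ, ∀ n ≥ n₀, ∃ (i : ℕ) (m : Fin 2 × G i → G n),
      T.D (fun v => θ.bwd (T.Q b n v)) (push m (T.QQ a i)) ≤ 11 / 100 ∧
      (i = n → 9 / 10 * (1 / 2 - Real.cos (a n) ^ 2) ≤ 1 / 2 - Real.cos (b n) ^ 2 + ε) := by
  obtain ⟨σ, hσ⟩ := T.exists_perm ha θ hθ
  -- the image of `s`
  set S : H →L[ℂ] H := θ.fwd T.s with hS
  have hSR : S ∈ R := θ.fwd_mem _ T.s_mem
  have hS1 : S * star S = θ.fwd T.e := by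
    rw [hS, ← θ.map_star _ T.s_mem, ← θ.map_mul _ T.s_mem _ (star_mem T.s_mem), T.s_mul_star]
  have hS2 : star S * S = θ.fwd T.f := by
    rw [hS, ← θ.map_star _ T.s_mem, ← θ.map_mul _ (star_mem T.s_mem) _ T.s_mem, T.star_mul_s]
  have hScases : (S * star S = T.e ∧ star S * S = T.f) ∨ (S * star S = T.f ∧ star S * S = T.e) := by
    rw [hS1, hS2]
    rcases T.auto_e ha θ hθ with h | h
    · left
      exact ⟨h, by rw [T.fwd_f, h, T.one_sub_e]⟩
    · right
      exact ⟨h, by rw [T.fwd_f, h, T.one_sub_f]⟩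
  have hlim := T.stab_asymp b hSR hScases
  set δ : ℝ := min (ε / 8) (1 / 10000000) with hδ
  have hδ0 : 0 < δ := lt_min (by positivity) (by norm_num)
  have hδ1 : δ ≤ ε / 8 := min_le_left _ _
  have hδ2 : δ ≤ 1 / 10000000 := min_le_right _ _
  have hev1 : ∀ᶠ n in atTop,
      ‖2 * ∑ v, T.τ (T.Q b n v * S * T.Q b n v * star S) - (kap b n : ℂ)‖ < δ :=
    hlim.eventually_lt_const hδ0
  have hcard : Tendsto (fun n : ℕ => 1 / (Fintype.card (G n) : ℝ)) atTop (𝓝 0) := by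
    have h1 : Tendsto (fun n : ℕ => ((1 / 2 : ℝ)) ^ (n + 1)) atTop (𝓝 0) :=
      (tendsto_pow_atTop_nhds_zero_of_lt_one (by norm_num) (by norm_num)).comp
        (tendsto_add_atTop_nat 1)
    refine h1.congr fun n => ?_
    rw [card_G]
    push_cast
    rw [one_div_pow]
  have hev2 : ∀ᶠ n in atTop, 1 / (Fintype.card (G n) : ℝ) < δ := hcard.eventually_lt_const hδ0
  obtain ⟨n₀, hn₀⟩ := eventually_atTop.1 (hev1.and hev2)
  refine ⟨n₀, fun n hn => ?_⟩
  obtain ⟨h1, h2⟩ := hn₀ n hn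
  -- the partition `j`
  have hQb := T.pvm_Q b n
  have hj : Pvm R (fun v => θ.bwd (T.Q b n v)) := hQb.map θ.symm
  have hjm : ∀ v, θ.bwd (T.Q b n v) ∈ T.masaAlg a := fun v => by
    rw [hθ _ (hj.mem v), θ.fwd_bwd _ (hQb.mem v)]
    exact T.Q_mem b n v
  obtain ⟨N, hN⟩ := T.exists_round a hj hjm (ε := δ ^ 2) (by positivity)
  obtain ⟨L, hL⟩ := hN N le_rfl
  have hPL := T.pvm_PL a N L
  have hsq : Real.sqrt (T.D (fun v => θ.bwd (T.Q b n v)) (T.PL a N L)) ≤ δ := by
    rw [Real.sqrt_le_left hδ0.le]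
    exact hL.le
  -- the stability
  set lam : Fin N → ℝ := fun i => Real.cos (a i) ^ 2 with hlam
  set J : Y N → G n := fun y => L (0, y) with hJ
  set K : Y N → G n := fun y => L (1, y) with hK
  have hst : |stab (A := fun i : Fin N => G i) lam J K - kap b n| ≤ 5 * δ := by
    have e1 := T.stab_close hj hPL T.s_mem T.norm_s_le
    have e2 := T.stab_PL a N L
    have e3 : ∀ v, T.τ (θ.bwd (T.Q b n v) * T.s * θ.bwd (T.Q b n v) * star T.s) =
        T.τ (T.Q b n v * S * T.Q b n v * star S) := by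
      intro v
      have hjv := hj.mem v
      have m1 := mul_mem hjv T.s_mem
      have m2 := mul_mem m1 hjv
      have m3 := mul_mem m2 (star_mem T.s_mem)
      rw [← Auto.τ_fwd T θ m3, θ.map_mul _ m2 _ (star_mem T.s_mem), θ.map_mul _ m1 _ hjv,
        θ.map_mul _ hjv _ T.s_mem, θ.fwd_bwd _ (hQb.mem v), θ.map_star _ T.s_mem]
    simp_rw [e3] at e1
    have e4 : ((stab (A := fun i : Fin N => G i) lam J K - kap b n : ℝ) : ℂ) =
        (2 * ∑ v, T.τ (T.Q b n v * S * T.Q b n v * star S) - (kap b n : ℂ)) -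
        2 * (∑ v, T.τ (T.Q b n v * S * T.Q b n v * star S) -
          ∑ v, T.τ (T.PL a N L v * T.s * T.PL a N L v * star T.s)) := by
      push_cast
      rw [← e2]
      ring
    rw [← Real.norm_eq_abs, ← Complex.norm_real, e4]
    refine (norm_sub_le _ _).trans ?_
    rw [norm_mul]
    have : ‖(2 : ℂ)‖ = 2 := by norm_num
    rw [this]
    linarith
  have hkap : Real.cos (b n) ^ 2 ≤ kap b n := by
    unfold kap
    have h3 : 0 ≤ (1 - Real.cos (b n) ^ 2) / (Fintype.card (G n) : ℝ) :=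
      div_nonneg (by nlinarith [Real.sin_sq_add_cos_sq (b n), sq_nonneg (Real.sin (b n))])
        (Nat.cast_nonneg _)
    linarith
  -- the distribution
  have hdist : ∀ (c : Fin 2) (v : G n), prob (fun y : Y N => L (c, y) = v) ≤ 3 * δ := by
    intro c v
    have e1 := T.τ_ec_PL a N L c v
    have e2 := T.τ_ec_bwd_Q (b := b) θ hσ n v c
    have e3 : (prob (fun y : Y N => L (c, y) = v) - 1 / (Fintype.card (G n)) : ℝ) ≤ 2 * δ := by
      have e4 : ((prob (fun y : Y N => L (c, y) = v) - 1 / (Fintype.card (G n)) : ℝ) : ℂ) =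
          2 * T.τ (T.ec c * (T.PL a N L v - θ.bwd (T.Q b n v))) := by
        rw [mul_sub, T.τ_sub, mul_sub, e1, e2]
        push_cast
        have : (Fintype.card (G n) : ℂ) ≠ 0 := by exact_mod_cast (card_G_pos n).ne'
        field_simp
      refine (le_abs_self _).trans ?_
      rw [← Real.norm_eq_abs, ← Complex.norm_real, e4, norm_mul]
      have e5 : ‖(2 : ℂ)‖ = 2 := by norm_num
      rw [e5]
      have e6 : ‖T.τ (T.ec c * (T.PL a N L v - θ.bwd (T.Q b n v)))‖ ≤ δ := by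
        refine (T.norm_τ_le _).trans ((T.n2_mul_le _ _).trans ?_)
        have e7 : T.n2 (T.PL a N L v - θ.bwd (T.Q b n v)) ≤ δ := by
          have e8 : T.n2 (T.PL a N L v - θ.bwd (T.Q b n v)) ^ 2 ≤ δ ^ 2 := by
            refine le_trans ?_ hL.le
            rw [T.n2_sub_comm]
            unfold D
            exact Finset.single_le_sum (f := fun v => T.n2 (θ.bwd (T.Q b n v) - T.PL a N L v) ^ 2)
              (fun v _ => sq_nonneg _) (Finset.mem_univ v)
          exact le_of_sq_le_sq e8 hδ0.le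
        have e9 := T.pvm_ec.norm_le c
        have e10 := T.n2_nonneg (T.PL a N L v - θ.bwd (T.Q b n v))
        calc ‖T.ec c‖ * T.n2 (T.PL a N L v - θ.bwd (T.Q b n v))
            ≤ 1 * T.n2 (T.PL a N L v - θ.bwd (T.Q b n v)) := mul_le_mul_of_nonneg_right e9 e10
          _ ≤ δ := by rw [one_mul]; exact e7
      linarith
    linarith
  have hcolJ : col (A := fun i : Fin N => G i) ∅ J ≤ 3 * δ := col_empty_le J (hdist 0)
  have hcolK : col (A := fun i : Fin N => G i) ∅ K ≤ 3 * δ := col_empty_le K (hdist 1)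
  have hstl : kap b n - 5 * δ ≤ stab (A := fun i : Fin N => G i) lam J K := by
    have := (abs_le.1 hst).1
    linarith
  have hlam0 : ∀ i, 0 ≤ lam i := fun i => sq_nonneg _
  have hlam1 : ∀ i, lam i ≤ 1 / 2 := fun i => (ha i).1
  obtain ⟨i, mJ, mK, hmJ, hmK⟩ := dictator (A := fun i : Fin N => G i) lam hlam0 hlam1 J K
    (by have := (hb n).2; linarith) (by linarith) (by linarith)
  refine ⟨i, fun cu => if cu.1 = 0 then mJ cu.2 else mK cu.2, ?_, ?_⟩
  · rw [T.push_QQ a N i]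
    have e1 := T.D_PL a N L (fun p => if p.1 = 0 then mJ (p.2 i) else mK (p.2 i))
    rw [prob_I] at e1
    have e2 : T.D (T.PL a N L) (T.PL a N (fun p => if p.1 = 0 then mJ (p.2 i) else mK (p.2 i))) ≤
        1 / 10 := by
      rw [e1]
      simp only [if_true, one_ne_zero, if_false]
      linarith
    have e3 := T.D_tri (fun v => θ.bwd (T.Q b n v)) (T.PL a N L)
      (T.PL a N (fun p => if p.1 = 0 then mJ (p.2 i) else mK (p.2 i)))
    have e4 := Real.sqrt_le_sqrt e2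
    have e5 : Real.sqrt (T.D (fun v => θ.bwd (T.Q b n v))
        (T.PL a N (fun p => if p.1 = 0 then mJ (p.2 i) else mK (p.2 i)))) ≤
        δ + Real.sqrt (1 / 10) := by linarith
    rw [Real.sqrt_le_left (by positivity)] at e5
    refine e5.trans ?_
    have e6 : Real.sqrt (1 / 10) ≤ 1 := by
      rw [Real.sqrt_le_left (by norm_num)]
      norm_num
    have e7 : Real.sqrt (1 / 10) ^ 2 = 1 / 10 := Real.sq_sqrt (by norm_num)
    have e8 := Real.sqrt_nonneg (1 / 10)
    nlinarith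
  · intro hin
    have e1 := dictator_bound (A := fun i : Fin N => G i) lam hlam0 hlam1 J K (c := 3 * δ)
      (by linarith) hcolJ hcolK i mJ mK hmJ hmK
    have e2 : lam i = Real.cos (a n) ^ 2 := by rw [hlam, ← hin]
    rw [e2] at e1
    linarith

/-- **Main estimate**: matching of the parameters. -/
theorem match_ineq {a b : ℕ → ℝ} (ha : Adm a) (hb : Adm b) (θ : Auto R)
    (hθ : ∀ x ∈ R, x ∈ T.masaAlg a ↔ θ.fwd x ∈ T.masaAlg b) {ε : ℝ} (hε : 0 < ε) :
    ∃ n₀ : ℕ, ∀ n ≥ n₀,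
      9 / 10 * (1 / 2 - Real.cos (a n) ^ 2) ≤ 1 / 2 - Real.cos (b n) ^ 2 + ε := by
  have hθ' : ∀ x ∈ R, x ∈ T.masaAlg b ↔ θ.symm.fwd x ∈ T.masaAlg a := by
    intro x hx
    have := hθ (θ.bwd x) (θ.bwd_mem x hx)
    rw [θ.fwd_bwd x hx] at this
    exact this.symm
  obtain ⟨σ, hσ⟩ := T.exists_perm ha θ hθ
  obtain ⟨σ', hσ'⟩ := T.exists_perm hb θ.symm hθ'
  obtain ⟨n₁, h1⟩ := T.key ha hb θ hθ hε
  obtain ⟨n₂, h2⟩ := T.key hb ha θ.symm hθ' hε
  refine ⟨max n₁ n₂, fun n hn => ?_⟩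
  obtain ⟨i, m, hm, hi⟩ := h1 n (le_trans (le_max_left _ _) hn)
  have hni : n ≤ i := T.size_le θ hθ hσ m hm
  obtain ⟨l, m', hm', -⟩ := h2 i ((le_max_right _ _).trans (hn.trans hni))
  have hil : i ≤ l := T.size_le θ.symm hθ' hσ' m' hm'
  have hnl : n = l := T.chain θ hσ m m' hm hm'
  exact hi (by omega)

end BlockTower

end MP_c82b80_an
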