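import Mathlib
import Pool.Agent.Lib.MP_c82b80_an.MasaB

/-!
# JOB MEAS : `a ↦ A_a` is Borel for the Effros structure

`isOpen_hit` : let `T.masa a ∈ S`, `S` given by `n, ξ, η, c, r`: there is `x ∈ A_a`, `‖x‖ ≤ 1`, with
`‖⟪ξ i, x (η i)⟫ - c i‖ < r` for all `i`.  As `E N x → x` strongly (`tendsto_E_apply`) the same holds for `E N x = dg a N χ` for some `N`
(`E_eq_dg`), and `‖E N x‖ ≤ 1` (`norm_E_le`).  For every `a'`: `dg a' N χ ∈ A_{a'}` (`dg_mem`), `‖dg a' N χ‖ = ‖dg a N χ‖` (they are conjugate by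
the unitary `ρ (Umat a' N * (Umat a N)ᴴ)`), and `a' ↦ ⟪ξ, dg a' N χ η⟫` is continuous: the entries of `dmat a' N χ` are continuous
(`W_continuous`) and `ρ N` is linear on a finite dimensional space (`ρ N x = ∑ x p q • ρ N (single p q 1)`).
`measurable_masa` : `measurable_generateFrom`, open sets of `ℕ → ℝ` are measurable (`IsOpen.measurableSet`,
`Pi.opensMeasurableSpace`).
-/

open scoped InnerProductSpace ComplexOrder
open Filter Topology

namespace MP_c82b80_an

universe u

variable {H : Type u} [NormedAddCommGroup H] [InnerProductSpace ℂ H] [CompleteSpace H]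

namespace BlockTower

variable {R : VonNeumannAlgebra H} (T : BlockTower R)

private theorem Meas_Umat_continuous (N : ℕ) : Continuous (fun a : ℕ → ℝ => Umat a N) := by
  refine continuous_matrix fun p q => ?_
  have h : (fun a : ℕ → ℝ => Umat a N p q) = fun a : ℕ → ℝ =>
      kr (Matrix.single (0 : Fin 2) 0 (1 : ℂ)) (1 : Matrix (Y N) (Y N) ℂ) p q +
        Matrix.single (1 : Fin 2) 1 (1 : ℂ) p.1 q.1 * W a N p.2 q.2 := by
    funext a
    rfl
  rw [h]
  exact continuous_const.add (continuous_const.mul (W_continuous N p.2 q.2))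

private theorem Meas_dmat_continuous (N : ℕ) (χ : I N → ℂ) :
    Continuous (fun a : ℕ → ℝ => dmat a N χ) := by
  unfold dmat
  exact ((Meas_Umat_continuous N).matrix_mul continuous_const).matrix_mul
    (Meas_Umat_continuous N).matrix_conjTranspose

private theorem Meas_dg_continuous (N : ℕ) (χ : I N → ℂ) (ξ η : H) :
    Continuous (fun a : ℕ → ℝ => ⟪ξ, T.dg a N χ η⟫_ℂ) := by
  let L : Matrix (I N) (I N) ℂ →ₗ[ℂ] ℂ :=
    { toFun := fun x => ⟪ξ, T.ρ N x η⟫_ℂ
      map_add' := fun x y => by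
        rw [map_add, _root_.add_apply, inner_add_right]
      map_smul' := fun c x => by
        rw [map_smul, _root_.smul_apply, inner_smul_right]
        rfl }
  have hL : Continuous L := L.continuous_of_finiteDimensional
  exact hL.comp (Meas_dmat_continuous N χ)

private theorem Meas_norm_ρ_le {N : ℕ} {V : Matrix (I N) (I N) ℂ} (h : V.conjTranspose * V = 1) :
    ‖T.ρ N V‖ ≤ 1 := by
  have h1 : ‖star (T.ρ N V) * T.ρ N V‖ = ‖T.ρ N V‖ * ‖T.ρ N V‖ :=
    CStarRing.norm_star_mul_self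
  have h2 : star (T.ρ N V) * T.ρ N V = 1 := by
    rw [← map_star, ← map_mul, Matrix.star_eq_conjTranspose, h, map_one]
  rw [h2] at h1
  have h3 : ‖(1 : H →L[ℂ] H)‖ ≤ 1 := ContinuousLinearMap.norm_id_le
  nlinarith [norm_nonneg (T.ρ N V)]

private theorem Meas_norm_dg_le (a b : ℕ → ℝ) (N : ℕ) (χ : I N → ℂ) :
    ‖T.dg b N χ‖ ≤ ‖T.dg a N χ‖ := by
  set V : Matrix (I N) (I N) ℂ := Umat b N * (Umat a N).conjTranspose with hV
  have hVs : V.conjTranspose = Umat a N * (Umat b N).conjTranspose := by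
    rw [hV, Matrix.conjTranspose_mul, Matrix.conjTranspose_conjTranspose]
  have h1 : V.conjTranspose * V = 1 := by
    rw [hVs, hV]
    calc Umat a N * (Umat b N).conjTranspose * (Umat b N * (Umat a N).conjTranspose)
        = Umat a N * ((Umat b N).conjTranspose * Umat b N) * (Umat a N).conjTranspose := by
          simp only [Matrix.mul_assoc]
      _ = 1 := by rw [star_mul_Umat, Matrix.mul_one, Umat_mul_star]
  have h2 : V.conjTranspose.conjTranspose * V.conjTranspose = 1 := by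
    rw [Matrix.conjTranspose_conjTranspose, hVs, hV]
    calc Umat b N * (Umat a N).conjTranspose * (Umat a N * (Umat b N).conjTranspose)
        = Umat b N * ((Umat a N).conjTranspose * Umat a N) * (Umat b N).conjTranspose := by
          simp only [Matrix.mul_assoc]
      _ = 1 := by rw [star_mul_Umat, Matrix.mul_one, Umat_mul_star]
  have h3 : dmat b N χ = V * dmat a N χ * V.conjTranspose := by
    rw [hVs, hV]
    unfold dmat
    calc Umat b N * Matrix.diagonal χ * (Umat b N).conjTranspose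
        = Umat b N * ((Umat a N).conjTranspose * Umat a N) * Matrix.diagonal χ *
          ((Umat a N).conjTranspose * Umat a N) * (Umat b N).conjTranspose := by
          rw [star_mul_Umat, Matrix.mul_one, Matrix.mul_one]
      _ = _ := by simp only [Matrix.mul_assoc]
  unfold dg
  rw [h3, map_mul, map_mul]
  calc ‖T.ρ N V * T.ρ N (dmat a N χ) * T.ρ N V.conjTranspose‖
      ≤ ‖T.ρ N V * T.ρ N (dmat a N χ)‖ * ‖T.ρ N V.conjTranspose‖ := norm_mul_le _ _
    _ ≤ (‖T.ρ N V‖ * ‖T.ρ N (dmat a N χ)‖) * ‖T.ρ N V.conjTranspose‖ :=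
        mul_le_mul_of_nonneg_right (norm_mul_le _ _) (norm_nonneg _)
    _ ≤ (1 * ‖T.ρ N (dmat a N χ)‖) * 1 := by
        refine mul_le_mul ?_ (T.Meas_norm_ρ_le h2) (norm_nonneg _) ?_
        · exact mul_le_mul_of_nonneg_right (T.Meas_norm_ρ_le h1) (norm_nonneg _)
        · positivity
    _ = ‖T.ρ N (dmat a N χ)‖ := by rw [one_mul, mul_one]

theorem isOpen_hit {S : Set (Masa R)} (hS : S ∈ effrosGen R) :
    IsOpen {a : ℕ → ℝ | T.masa a ∈ S} := by
  obtain ⟨n, ξ, η, c, r, rfl⟩ := hS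
  rw [isOpen_iff_mem_nhds]
  rintro a ⟨x, hx, hx1, hxr⟩
  have hxm : x ∈ T.masaAlg a := hx
  have hxR : x ∈ R := T.mem_R_of_masa hxm
  have hev : ∀ᶠ N in atTop, ∀ i, ‖⟪ξ i, T.E N x (η i)⟫_ℂ - c i‖ < r := by
    rw [eventually_all]
    intro i
    have h1 : Tendsto (fun N => ‖⟪ξ i, T.E N x (η i)⟫_ℂ - c i‖) atTop
        (𝓝 ‖⟪ξ i, x (η i)⟫_ℂ - c i‖) :=
      ((tendsto_const_nhds.inner (T.tendsto_E_apply hxR (η i))).sub_const (c i)).norm
    exact h1.eventually_lt_const (hxr i)
  obtain ⟨N, hN⟩ := hev.exists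
  rw [T.E_eq_dg hxm N] at hN
  have hn1 : ‖T.dg a N (T.chi a N x)‖ ≤ 1 := by
    rw [← T.E_eq_dg hxm N]
    exact (T.norm_E_le N hxR).trans hx1
  have hopen : IsOpen {b : ℕ → ℝ | ∀ i, ‖⟪ξ i, T.dg b N (T.chi a N x) (η i)⟫_ℂ - c i‖ < r} := by
    rw [Set.ofPred_forall]
    refine isOpen_iInter_of_finite fun i => ?_
    exact isOpen_lt (((T.Meas_dg_continuous N _ (ξ i) (η i)).sub continuous_const).norm)
      continuous_const
  refine Filter.mem_of_superset (hopen.mem_nhds hN) fun b hb => ?_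
  exact ⟨T.dg b N (T.chi a N x), T.dg_mem b N _,
    (T.Meas_norm_dg_le a b N _).trans hn1, hb⟩

theorem measurable_masa {g : (ℕ → ℝ) → (ℕ → ℝ)} (hg : Continuous g) :
    Measurable (fun x : ℕ → ℝ => T.masa (g x)) := by
  refine measurable_generateFrom fun S hS => ?_
  exact ((T.isOpen_hit hS).preimage hg).measurableSet

end BlockTower

end MP_c82b80_an
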