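import Mathlib
import Pool.Agent.Lib.MP_c82b80_an.Match
import Pool.Agent.Lib.MP_c82b80_an.Conj
import Pool.Agent.Lib.MP_c82b80_an.Meas
import Pool.Agent.Lib.MP_c82b80_an.Group
import Pool.Agent.Lib.MP_c82b80_an.Gen
import Pool.Agent.Lib.MP_c82b80_an.Crit

/-!
# Conjugacy of masas is not classifiable by countable structures
-/

open scoped InnerProductSpace
open Filter Topology

namespace MP_c82b80_an

universe u

theorem not_classifiable_masaConj {H : Type u} [NormedAddCommGroup H] [InnerProductSpace ℂ H]
    [CompleteSpace H] (R : VonNeumannAlgebra H) (hR : IsHyperfiniteII1 R) :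
    ¬ ClassifiableByCountableStructures (MasaConj R) := by
  obtain ⟨T⟩ := exists_blockTower hR
  refine not_classifiable (MasaConj R) (fun x => T.masa (ang x)) (T.measurable_masa ang_continuous)
    (fun x y hxy => T.conj_of_summable _ _ (ang_summable x y hxy)) ?_
  refine generic.mono fun x hx => hx.mono fun y hy hconj => hy ?_
  obtain ⟨θ, hθ⟩ := exists_auto hconj
  intro ε hε
  exact T.match_ineq (ang_adm x) (ang_adm y) θ hθ hε

end MP_c82b80_an
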