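import Mathlib
import Pool.Agent.Lib.MP_c82b80_an.Defs

/-!
# JOB MODEL : the hyperfinite II_1 factor exists (in the form of `IsHyperfiniteII1`)

Let `K` be the group of pairs `(A, B)` of finitely supported functions from `ℕ` to `ZMod 2`, with the
bicharacter `s (A, B) (C, D) = (-1) ^ (B . C)`, and `H = ℓ²(K, ℂ)`.  The twisted left and right
translations `lam k δ_j = s k j δ_(j + k)`, `rho k δ_j = s j k δ_(j + k)` commute with each other,
`lam k * lam l = s k l • lam (k + l)`, `star (lam k) = s k k • lam k`, and the same for `rho`.
`lam (δ_i, 0)`, `lam (0, δ_i)` are anticommuting symmetries, so they define a unital star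
homomorphism of the `2 x 2` matrices.  `R` is the double commutant of all of them; `rho k` is in
its commutant.  For `x ∈ R` we get `(star x Ω) k = s k k * conj ((x Ω) k)`, hence
`⟪Ω, (x * y) Ω⟫ = ∑ s k k * (x Ω) k * (y Ω) k` is symmetric in `x` and `y`.
-/

open scoped InnerProductSpace ComplexConjugate

namespace MP_c82b80_an

section pauli

variable {A : Type*} [Ring A] [StarRing A] [Algebra ℂ A] [StarModule ℂ A]

/-- The matrix units built from two anticommuting symmetries. -/
private noncomputable def model_e (x z : A) (M : Matrix (Fin 2) (Fin 2) ℂ) : A :=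
  M 0 0 • ((1 / 2 : ℂ) • (1 + z)) + M 0 1 • ((1 / 2 : ℂ) • (x * (1 - z))) +
    M 1 0 • ((1 / 2 : ℂ) • (x * (1 + z))) + M 1 1 • ((1 / 2 : ℂ) • (1 - z))

private noncomputable def model_hom (x z : A) (hx : x * x = 1) (hz : z * z = 1)
    (hxz : z * x = -(x * z)) (hxs : star x = x) (hzs : star z = z) :
    Matrix (Fin 2) (Fin 2) ℂ →⋆ₐ[ℂ] A :=
  { AlgHom.ofLinearMap
      { toFun := model_e x z
        map_add' := by
          intro M N
          simp only [model_e, Matrix.add_apply]
          module
        map_smul' := by
          intro c M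
          simp only [model_e, Matrix.smul_apply, RingHom.id_apply, smul_eq_mul]
          module }
      (by
        change model_e x z 1 = 1
        simp only [model_e, Matrix.one_apply_eq]
        rw [Matrix.one_apply_ne (by decide : (0 : Fin 2) ≠ 1),
          Matrix.one_apply_ne (by decide : (1 : Fin 2) ≠ 0)]
        module)
      (by
        intro M N
        have h1 : (1 + z) * (1 + z) = (2 : ℂ) • (1 + z) := by
          rw [mul_add, add_mul, add_mul, one_mul, mul_one, one_mul, hz, two_smul]
          abel
        have h2 : (1 + z) * (1 - z) = 0 := by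
          rw [mul_sub, add_mul, add_mul, one_mul, mul_one, one_mul, hz]
          abel
        have h3 : (1 - z) * (1 + z) = 0 := by
          rw [mul_add, sub_mul, sub_mul, one_mul, mul_one, one_mul, hz]
          abel
        have h4 : (1 - z) * (1 - z) = (2 : ℂ) • (1 - z) := by
          rw [mul_sub, sub_mul, sub_mul, one_mul, mul_one, one_mul, hz, two_smul]
          abel
        have h5 : (1 + z) * x = x * (1 - z) := by
          rw [add_mul, mul_sub, hxz, one_mul, mul_one, sub_eq_add_neg]
        have h6 : (1 - z) * x = x * (1 + z) := by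
          rw [sub_mul, mul_add, hxz, one_mul, mul_one, sub_neg_eq_add]
        have h7 : ∀ a b : A, (x * a) * (x * b) = x * (a * x) * b := by
          intro a b
          simp only [mul_assoc]
        have h8 : ∀ b : A, x * (x * b) = b := by
          intro b
          rw [← mul_assoc, hx, one_mul]
        have k1 : (x * (1 - z)) * (x * (1 - z)) = 0 := by
          rw [h7, h6, h8, h2]
        have k2 : (x * (1 - z)) * (x * (1 + z)) = (2 : ℂ) • (1 + z) := by
          rw [h7, h6, h8, h1]
        have k3 : (x * (1 + z)) * (x * (1 - z)) = (2 : ℂ) • (1 - z) := by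
          rw [h7, h5, h8, h4]
        have k4 : (x * (1 + z)) * (x * (1 + z)) = 0 := by
          rw [h7, h5, h8, h3]
        have k5 : (1 + z) * (x * (1 - z)) = (2 : ℂ) • (x * (1 - z)) := by
          rw [← mul_assoc, h5, mul_assoc, h4, mul_smul_comm]
        have k6 : (1 + z) * (x * (1 + z)) = 0 := by
          rw [← mul_assoc, h5, mul_assoc, h3, mul_zero]
        have k7 : (1 - z) * (x * (1 - z)) = 0 := by
          rw [← mul_assoc, h6, mul_assoc, h2, mul_zero]
        have k8 : (1 - z) * (x * (1 + z)) = (2 : ℂ) • (x * (1 + z)) := by
          rw [← mul_assoc, h6, mul_assoc, h1, mul_smul_comm]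
        have k9 : (x * (1 - z)) * (1 + z) = 0 := by rw [mul_assoc, h3, mul_zero]
        have k10 : (x * (1 - z)) * (1 - z) = (2 : ℂ) • (x * (1 - z)) := by
          rw [mul_assoc, h4, mul_smul_comm]
        have k11 : (x * (1 + z)) * (1 + z) = (2 : ℂ) • (x * (1 + z)) := by
          rw [mul_assoc, h1, mul_smul_comm]
        have k12 : (x * (1 + z)) * (1 - z) = 0 := by rw [mul_assoc, h2, mul_zero]
        change model_e x z (M * N) = model_e x z M * model_e x z N
        have e1 : ∀ a b c d a' b' c' d' : A, (a + b + c + d) * (a' + b' + c' + d') =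
            a * a' + a * b' + a * c' + a * d' + (b * a' + b * b' + b * c' + b * d') +
            (c * a' + c * b' + c * c' + c * d') + (d * a' + d * b' + d * c' + d * d') := by
          intro a b c d a' b' c' d'
          noncomm_ring
        simp only [model_e, Matrix.mul_apply, Fin.sum_univ_two, e1, smul_smul, smul_mul_smul_comm,
          h1, h2, h3, h4, k1, k2, k3, k4, k5, k6, k7, k8, k9, k10, k11, k12, smul_zero]
        module) with
    map_star' := by
      intro M
      change model_e x z (star M) = star (model_e x z M)
      have h5 : (1 + z) * x = x * (1 - z) := by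
        rw [add_mul, mul_sub, hxz, one_mul, mul_one, sub_eq_add_neg]
      have h6 : (1 - z) * x = x * (1 + z) := by
        rw [sub_mul, mul_add, hxz, one_mul, mul_one, sub_neg_eq_add]
      have h9 : star (1 / 2 : ℂ) = 1 / 2 := by simp
      simp only [model_e, Matrix.star_apply, star_add, star_smul, star_mul, star_sub, star_one,
        hxs, hzs, h5, h6, h9]
      module }

private theorem model_hom_apply (x z : A) (hx : x * x = 1) (hz : z * z = 1)
    (hxz : z * x = -(x * z)) (hxs : star x = x) (hzs : star z = z)
    (M : Matrix (Fin 2) (Fin 2) ℂ) :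
    model_hom x z hx hz hxz hxs hzs M = model_e x z M := rfl

end pauli

section group

/-- The index group. -/
private abbrev ModelK : Type := (ℕ →₀ ZMod 2) × (ℕ →₀ ZMod 2)

private noncomputable instance modelK_dec : DecidableEq ModelK := Classical.decEq _

private theorem model_add_self (k : ModelK) : k + k = 0 := ZModModule.add_self k

private theorem model_add_add (j k : ModelK) : j + k + k = j := by
  rw [add_assoc, model_add_self, add_zero]

/-- The sign. -/
private def model_sg (a : ZMod 2) : ℂ := if a = 0 then 1 else -1

private theorem model_sg_zero : model_sg 0 = 1 := by simp [model_sg]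

private theorem model_sg_add (a b : ZMod 2) :
    model_sg (a + b) = model_sg a * model_sg b := by
  have : ∀ a b : ZMod 2, (if a + b = 0 then (1 : ℤ) else -1) =
      (if a = 0 then 1 else -1) * (if b = 0 then 1 else -1) := by decide
  have h := congrArg (Int.cast : ℤ → ℂ) (this a b)
  push_cast at h
  exact h

private theorem model_sg_sq (a : ZMod 2) : model_sg a * model_sg a = 1 := by
  unfold model_sg
  split_ifs <;> norm_num

private theorem model_sg_norm (a : ZMod 2) : ‖model_sg a‖ = 1 := by
  unfold model_sg
  split_ifs <;> simp

private theorem model_sg_conj (a : ZMod 2) : conj (model_sg a) = model_sg a := by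
  unfold model_sg
  split_ifs <;> simp

private noncomputable def model_bt (b c : ℕ →₀ ZMod 2) : ZMod 2 := b.sum fun i v => v * c i

private theorem model_bt_add_left (b b' c : ℕ →₀ ZMod 2) :
    model_bt (b + b') c = model_bt b c + model_bt b' c := by
  unfold model_bt
  rw [Finsupp.sum_add_index' (by simp) (by intro i u v; ring)]

private theorem model_bt_add_right (b c c' : ℕ →₀ ZMod 2) :
    model_bt b (c + c') = model_bt b c + model_bt b c' := by
  unfold model_bt
  rw [← Finsupp.sum_add]
  refine Finsupp.sum_congr fun i _ => ?_
  rw [Finsupp.add_apply, mul_add]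

private theorem model_bt_single (i : ℕ) (c : ℕ →₀ ZMod 2) :
    model_bt (Finsupp.single i 1) c = c i := by
  unfold model_bt
  rw [Finsupp.sum_single_index (by simp), one_mul]

private theorem model_bt_zero_left (c : ℕ →₀ ZMod 2) : model_bt 0 c = 0 := by
  simp [model_bt]

/-- The bicharacter. -/
private noncomputable def model_s (k l : ModelK) : ℂ := model_sg (model_bt k.2 l.1)

private theorem model_s_add_left (k k' l : ModelK) :
    model_s (k + k') l = model_s k l * model_s k' l := by
  unfold model_s
  rw [Prod.snd_add, model_bt_add_left, model_sg_add]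

private theorem model_s_add_right (k l l' : ModelK) :
    model_s k (l + l') = model_s k l * model_s k l' := by
  unfold model_s
  rw [Prod.fst_add, model_bt_add_right, model_sg_add]

private theorem model_s_sq (k l : ModelK) : model_s k l * model_s k l = 1 := model_sg_sq _

private theorem model_s_norm (k l : ModelK) : ‖model_s k l‖ = 1 := model_sg_norm _

private theorem model_s_conj (k l : ModelK) : conj (model_s k l) = model_s k l :=
  model_sg_conj _

private theorem model_s_zero_left (l : ModelK) : model_s 0 l = 1 := by
  unfold model_s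
  rw [Prod.snd_zero, model_bt_zero_left, model_sg_zero]

end group

section ops

/-- The Hilbert space. -/
private abbrev ModelH : Type := lp (fun _ : ModelK => ℂ) 2

private theorem model_memlp (a : ModelK → ℂ) (ha : ∀ j, ‖a j‖ = 1) (k : ModelK) (f : ModelH) :
    Memℓp (fun j => a j * f (j + k)) 2 := by
  have h2 : (0 : ℝ) < (2 : ENNReal).toReal := by norm_num
  rw [memℓp_gen_iff h2]
  have h := (memℓp_gen_iff h2).1 (lp.memℓp f)
  have h3 := (Equiv.addRight k).summable_iff.2 h
  refine h3.congr fun j => ?_
  rw [norm_mul, ha, one_mul]
  rfl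

private noncomputable def model_W (a : ModelK → ℂ) (ha : ∀ j, ‖a j‖ = 1) (k : ModelK) :
    ModelH →L[ℂ] ModelH :=
  LinearMap.mkContinuous
    { toFun := fun f => ⟨fun j => a j * f (j + k), model_memlp a ha k f⟩
      map_add' := by
        intro f g
        ext j
        change a j * (f (j + k) + g (j + k)) = a j * f (j + k) + a j * g (j + k)
        ring
      map_smul' := by
        intro c f
        ext j
        change a j * (c * f (j + k)) = c * (a j * f (j + k))
        ring } 1 (by
      intro f
      rw [one_mul]
      have h2 : (0 : ℝ) < (2 : ENNReal).toReal := by norm_num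
      refine le_of_eq ?_
      rw [lp.norm_eq_tsum_rpow h2, lp.norm_eq_tsum_rpow h2]
      congr 1
      rw [← (Equiv.addRight k).tsum_eq fun j => ‖f j‖ ^ (2 : ENNReal).toReal]
      refine tsum_congr fun j => ?_
      change ‖a j * f (j + k)‖ ^ _ = ‖f (j + k)‖ ^ _
      rw [norm_mul, ha, one_mul])

private theorem model_W_apply (a : ModelK → ℂ) (ha : ∀ j, ‖a j‖ = 1) (k : ModelK) (f : ModelH)
    (j : ModelK) : model_W a ha k f j = a j * f (j + k) := rfl

private theorem model_W_star (a : ModelK → ℂ) (ha : ∀ j, ‖a j‖ = 1) (k : ModelK)
    (hb : ∀ j, ‖conj (a (j + k))‖ = 1) :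
    star (model_W a ha k) = model_W (fun j => conj (a (j + k))) hb k := by
  rw [ContinuousLinearMap.star_eq_adjoint]
  symm
  rw [ContinuousLinearMap.eq_adjoint_iff]
  intro f g
  rw [lp.inner_eq_tsum, lp.inner_eq_tsum,
    ← (Equiv.addRight k).tsum_eq fun j => inner ℂ (f j) (model_W a ha k g j)]
  refine tsum_congr fun j => ?_
  change inner ℂ (conj (a (j + k)) * f (j + k)) (g j) =
    inner ℂ (f (j + k)) (a (j + k) * g (j + k + k))
  rw [model_add_add]
  simp only [RCLike.inner_apply, map_mul, RCLike.conj_conj]
  ring

private noncomputable def model_lam (k : ModelK) : ModelH →L[ℂ] ModelH :=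
  model_W (fun j => model_s k (j + k)) (fun _ => model_s_norm _ _) k

private noncomputable def model_rho (k : ModelK) : ModelH →L[ℂ] ModelH :=
  model_W (fun j => model_s (j + k) k) (fun _ => model_s_norm _ _) k

private theorem model_lam_apply (k : ModelK) (f : ModelH) (j : ModelK) :
    model_lam k f j = model_s k (j + k) * f (j + k) := rfl

private theorem model_rho_apply (k : ModelK) (f : ModelH) (j : ModelK) :
    model_rho k f j = model_s (j + k) k * f (j + k) := rfl

private theorem model_lam_mul (k l : ModelK) :
    model_lam k * model_lam l = model_s k l • model_lam (k + l) := by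
  ext f j
  change model_s k (j + k) * (model_s l (j + k + l) * f (j + k + l)) =
    model_s k l * (model_s (k + l) (j + (k + l)) * f (j + (k + l)))
  rw [← add_assoc]
  simp only [model_s_add_left, model_s_add_right]
  linear_combination (-1 : ℂ) * (model_s k j * model_s k k * model_s l j * model_s l k *
    model_s l l * f (j + k + l)) * model_s_sq k l

private theorem model_lam_rho (k l : ModelK) :
    model_lam k * model_rho l = model_rho l * model_lam k := by
  ext f j
  change model_s k (j + k) * (model_s (j + k + l) l * f (j + k + l)) =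
    model_s (j + l) l * (model_s k (j + l + k) * f (j + l + k))
  rw [add_right_comm j l k]
  simp only [model_s_add_left, model_s_add_right]
  ring

private theorem model_lam_zero : model_lam 0 = 1 := by
  ext f j
  change model_s 0 (j + 0) * f (j + 0) = f j
  rw [model_s_zero_left, one_mul, add_zero]

private theorem model_lam_star (k : ModelK) :
    star (model_lam k) = model_s k k • model_lam k := by
  unfold model_lam
  rw [model_W_star _ _ _ fun j => by rw [RCLike.norm_conj]; exact model_s_norm _ _]
  ext f j
  change conj (model_s k (j + k + k)) * f (j + k) = model_s k k * (model_s k (j + k) * f (j + k))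
  rw [model_add_add, model_s_conj, model_s_add_right]
  linear_combination (-1 : ℂ) * (model_s k j * f (j + k)) * model_s_sq k k

private theorem model_rho_star (k : ModelK) :
    star (model_rho k) = model_s k k • model_rho k := by
  unfold model_rho
  rw [model_W_star _ _ _ fun j => by rw [RCLike.norm_conj]; exact model_s_norm _ _]
  ext f j
  change conj (model_s (j + k + k) k) * f (j + k) = model_s k k * (model_s (j + k) k * f (j + k))
  rw [model_add_add, model_s_conj, model_s_add_left]
  linear_combination (-1 : ℂ) * (model_s j k * f (j + k)) * model_s_sq k k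

/-- The basis vectors. -/
private noncomputable def model_d (k : ModelK) : ModelH := lp.single 2 k 1

private theorem model_d_apply (k j : ModelK) : model_d k j = if j = k then 1 else 0 := by
  unfold model_d
  rw [lp.single_apply, Pi.single_apply]

private theorem model_inner_d (k : ModelK) (f : ModelH) : ⟪model_d k, f⟫_ℂ = f k := by
  unfold model_d
  rw [lp.inner_single_left]
  simp

private theorem model_eq_iff (j k : ModelK) : j + k = 0 ↔ j = k := by
  constructor
  · intro h
    rw [← model_add_add j k, h, zero_add]
  · rintro rfl
    exact model_add_self j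

private theorem model_rho_d (k : ModelK) : model_rho k (model_d 0) = model_d k := by
  ext j
  rw [model_rho_apply, model_d_apply, model_d_apply]
  by_cases h : j = k
  · rw [if_pos ((model_eq_iff j k).2 h), if_pos h, (model_eq_iff j k).2 h, model_s_zero_left,
      one_mul]
  · rw [if_neg (fun e => h ((model_eq_iff j k).1 e)), if_neg h, mul_zero]

private theorem model_s_zero_right (k : ModelK) : model_s k 0 = 1 := by
  have h := model_s_add_right k 0 0
  rw [add_zero] at h
  have h1 := model_s_sq k 0
  rw [← h] at h1
  exact h1

private theorem model_lam_d (k : ModelK) : model_lam k (model_d 0) = model_d k := by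
  ext j
  rw [model_lam_apply, model_d_apply, model_d_apply]
  by_cases h : j = k
  · rw [if_pos ((model_eq_iff j k).2 h), if_pos h, (model_eq_iff j k).2 h, model_s_zero_right,
      one_mul]
  · rw [if_neg (fun e => h ((model_eq_iff j k).1 e)), if_neg h, mul_zero]

end ops

section final

private noncomputable def model_x (i : ℕ) : ModelK := (Finsupp.single i 1, 0)

private noncomputable def model_z (i : ℕ) : ModelK := (0, Finsupp.single i 1)

private theorem model_s_x (i : ℕ) (l : ModelK) : model_s (model_x i) l = 1 := by
  unfold model_s model_x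
  rw [model_bt_zero_left, model_sg_zero]

private theorem model_s_z (i : ℕ) (l : ModelK) : model_s (model_z i) l = model_sg (l.1 i) := by
  unfold model_s model_z
  rw [model_bt_single]

private theorem model_s_zx_self (i : ℕ) : model_s (model_z i) (model_x i) = -1 := by
  rw [model_s_z, model_x, Finsupp.single_eq_same]
  simp [model_sg]

private theorem model_s_zz (i j : ℕ) : model_s (model_z i) (model_z j) = 1 := by
  rw [model_s_z, model_z, Finsupp.zero_apply, model_sg_zero]

private theorem model_s_zx_ne {i j : ℕ} (h : i ≠ j) : model_s (model_z i) (model_x j) = 1 := by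
  rw [model_s_z, model_x, Finsupp.single_eq_of_ne h, model_sg_zero]

private theorem model_lam_comm {k l : ModelK} (h : model_s k l = model_s l k) :
    model_lam k * model_lam l = model_lam l * model_lam k := by
  rw [model_lam_mul, model_lam_mul, h, add_comm]

private theorem model_xx (i : ℕ) : model_lam (model_x i) * model_lam (model_x i) = 1 := by
  rw [model_lam_mul, model_s_x, model_add_self, model_lam_zero, one_smul]

private theorem model_zz (i : ℕ) : model_lam (model_z i) * model_lam (model_z i) = 1 := by
  rw [model_lam_mul, model_s_zz, model_add_self, model_lam_zero, one_smul]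

private theorem model_zx (i : ℕ) : model_lam (model_z i) * model_lam (model_x i) =
    -(model_lam (model_x i) * model_lam (model_z i)) := by
  rw [model_lam_mul, model_lam_mul, model_s_zx_self, model_s_x, add_comm, one_smul, neg_one_smul]

private theorem model_xs (i : ℕ) : star (model_lam (model_x i)) = model_lam (model_x i) := by
  rw [model_lam_star, model_s_x, one_smul]

private theorem model_zs (i : ℕ) : star (model_lam (model_z i)) = model_lam (model_z i) := by
  rw [model_lam_star, model_s_zz, one_smul]

private noncomputable def model_iota (i : ℕ) :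
    Matrix (Fin 2) (Fin 2) ℂ →⋆ₐ[ℂ] (ModelH →L[ℂ] ModelH) :=
  model_hom (model_lam (model_x i)) (model_lam (model_z i)) (model_xx i) (model_zz i) (model_zx i)
    (model_xs i) (model_zs i)

private theorem model_e_comm {x z T : ModelH →L[ℂ] ModelH} (hx : T * x = x * T)
    (hz : T * z = z * T) (M : Matrix (Fin 2) (Fin 2) ℂ) :
    T * model_e x z M = model_e x z M * T := by
  unfold model_e
  have h1 : T * (1 + z) = (1 + z) * T := by rw [mul_add, add_mul, hz, mul_one, one_mul]
  have h2 : T * (1 - z) = (1 - z) * T := by rw [mul_sub, sub_mul, hz, mul_one, one_mul]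
  have h3 : T * (x * (1 + z)) = (x * (1 + z)) * T := by
    rw [← mul_assoc, hx, mul_assoc, h1, mul_assoc]
  have h4 : T * (x * (1 - z)) = (x * (1 - z)) * T := by
    rw [← mul_assoc, hx, mul_assoc, h2, mul_assoc]
  simp only [mul_add T (_ + _), mul_add T (_ • _), add_mul (_ + _) _ T, add_mul (_ • _) _ T,
    mul_smul_comm, smul_mul_assoc, h1, h2, h3, h4]

private theorem model_iota_comm {T : ModelH →L[ℂ] ModelH} {i : ℕ}
    (hx : T * model_lam (model_x i) = model_lam (model_x i) * T)
    (hz : T * model_lam (model_z i) = model_lam (model_z i) * T) (M : Matrix (Fin 2) (Fin 2) ℂ) :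
    T * model_iota i M = model_iota i M * T :=
  model_e_comm hx hz M

private theorem model_iota_x (i : ℕ) :
    model_iota i !![0, 1; 1, 0] = model_lam (model_x i) := by
  change model_e _ _ _ = _
  unfold model_e
  have h1 : (!![0, 1; 1, 0] : Matrix (Fin 2) (Fin 2) ℂ) 0 0 = 0 := rfl
  have h2 : (!![0, 1; 1, 0] : Matrix (Fin 2) (Fin 2) ℂ) 0 1 = 1 := rfl
  have h3 : (!![0, 1; 1, 0] : Matrix (Fin 2) (Fin 2) ℂ) 1 0 = 1 := rfl
  have h4 : (!![0, 1; 1, 0] : Matrix (Fin 2) (Fin 2) ℂ) 1 1 = 0 := rfl
  rw [h1, h2, h3, h4, mul_add, mul_sub, mul_one]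
  module

private theorem model_iota_z (i : ℕ) :
    model_iota i !![1, 0; 0, -1] = model_lam (model_z i) := by
  change model_e _ _ _ = _
  unfold model_e
  have h1 : (!![1, 0; 0, -1] : Matrix (Fin 2) (Fin 2) ℂ) 0 0 = 1 := rfl
  have h2 : (!![1, 0; 0, -1] : Matrix (Fin 2) (Fin 2) ℂ) 0 1 = 0 := rfl
  have h3 : (!![1, 0; 0, -1] : Matrix (Fin 2) (Fin 2) ℂ) 1 0 = 0 := rfl
  have h4 : (!![1, 0; 0, -1] : Matrix (Fin 2) (Fin 2) ℂ) 1 1 = -1 := rfl
  rw [h1, h2, h3, h4]
  module

/-- The generating set. -/
private def model_S : Set (ModelH →L[ℂ] ModelH) := ⋃ i, Set.range (model_iota i)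

private theorem model_S_star {T : ModelH →L[ℂ] ModelH} (h : T ∈ model_S) : star T ∈ model_S := by
  obtain ⟨i, M, rfl⟩ := Set.mem_iUnion.1 h
  exact Set.mem_iUnion.2 ⟨i, star M, map_star _ _⟩

private theorem model_C_star {T : ModelH →L[ℂ] ModelH} (h : T ∈ Set.centralizer model_S) :
    star T ∈ Set.centralizer model_S := by
  intro U hU
  have h1 := h (star U) (model_S_star hU)
  have h2 := congrArg star h1
  rw [star_mul, star_mul, star_star] at h2
  exact h2.symm

private theorem model_C_union :
    Set.centralizer model_S ∪ star (Set.centralizer model_S) = Set.centralizer model_S := by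
  refine Set.union_eq_left.2 fun T hT => ?_
  have := model_C_star (Set.mem_star.1 hT)
  rwa [star_star] at this

/-- The algebra. -/
private noncomputable def model_R : VonNeumannAlgebra ModelH where
  toStarSubalgebra := StarSubalgebra.centralizer ℂ (Set.centralizer model_S)
  centralizer_centralizer' := by
    change Set.centralizer (Set.centralizer (Set.centralizer
      (Set.centralizer model_S ∪ star (Set.centralizer model_S)))) = Set.centralizer
      (Set.centralizer model_S ∪ star (Set.centralizer model_S))
    exact Set.centralizer_centralizer_centralizer _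

private theorem model_R_coe : (model_R : Set (ModelH →L[ℂ] ModelH)) =
    Set.centralizer (Set.centralizer model_S) := by
  change Set.centralizer (Set.centralizer model_S ∪ star (Set.centralizer model_S)) = _
  rw [model_C_union]

private theorem model_rho_mem (k : ModelK) : model_rho k ∈ Set.centralizer model_S := by
  intro U hU
  obtain ⟨i, M, rfl⟩ := Set.mem_iUnion.1 hU
  exact (model_iota_comm (model_lam_rho _ _).symm (model_lam_rho _ _).symm M).symm

private theorem model_R_rho {T : ModelH →L[ℂ] ModelH} (hT : T ∈ model_R) (k : ModelK) :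
    T * model_rho k = model_rho k * T := by
  have h : T ∈ (model_R : Set (ModelH →L[ℂ] ModelH)) := hT
  rw [model_R_coe] at h
  exact (h _ (model_rho_mem k)).symm

private theorem model_lam_mem (k : ModelK) : model_lam k ∈ model_R := by
  have hS : ∀ T ∈ model_S, T ∈ model_R := by
    intro T hT
    change T ∈ (model_R : Set (ModelH →L[ℂ] ModelH))
    rw [model_R_coe]
    exact Set.subset_centralizer_centralizer hT
  have hx : ∀ i, model_lam (model_x i) ∈ model_R := fun i =>
    hS _ (Set.mem_iUnion.2 ⟨i, _, model_iota_x i⟩)
  have hz : ∀ i, model_lam (model_z i) ∈ model_R := fun i =>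
    hS _ (Set.mem_iUnion.2 ⟨i, _, model_iota_z i⟩)
  have hsmul : ∀ (c : ℂ) (T : ModelH →L[ℂ] ModelH), T ∈ model_R → c • T ∈ model_R :=
    fun c T hT => model_R.toStarSubalgebra.smul_mem hT c
  have hadd : ∀ k l, model_lam k ∈ model_R → model_lam l ∈ model_R →
      model_lam (k + l) ∈ model_R := by
    intro k l hk hl
    have h1 := hsmul (model_s k l) _ (mul_mem hk hl)
    rw [model_lam_mul, smul_smul, model_s_sq, one_smul] at h1
    exact h1
  have h0 : model_lam 0 ∈ model_R := by
    rw [model_lam_zero]
    exact one_mem _
  have h1 : ∀ b : ℕ →₀ ZMod 2, model_lam (b, 0) ∈ model_R := by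
    intro b
    induction b using Finsupp.induction_linear with
    | zero => exact h0
    | add f g hf hg =>
      have := hadd _ _ hf hg
      rwa [Prod.mk_add_mk, add_zero] at this
    | single i v =>
      have hv : v = 0 ∨ v = 1 := by revert v; decide
      rcases hv with rfl | rfl
      · rw [Finsupp.single_zero]
        exact h0
      · exact hx i
  have h2 : ∀ b : ℕ →₀ ZMod 2, model_lam (0, b) ∈ model_R := by
    intro b
    induction b using Finsupp.induction_linear with
    | zero => exact h0
    | add f g hf hg =>
      have := hadd _ _ hf hg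
      rwa [Prod.mk_add_mk, add_zero] at this
    | single i v =>
      have hv : v = 0 ∨ v = 1 := by revert v; decide
      rcases hv with rfl | rfl
      · rw [Finsupp.single_zero]
        exact h0
      · exact hz i
  have := hadd _ _ (h1 k.1) (h2 k.2)
  rwa [Prod.mk_add_mk, add_zero, zero_add] at this

private theorem model_star_apply {T : ModelH →L[ℂ] ModelH} (hT : T ∈ model_R) (k : ModelK) :
    (star T) (model_d 0) k = model_s k k * conj (T (model_d 0) k) := by
  rw [← model_inner_d k ((star T) (model_d 0)), ContinuousLinearMap.star_eq_adjoint,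
    ContinuousLinearMap.adjoint_inner_right, ← model_rho_d k]
  have h1 : T (model_rho k (model_d 0)) = model_rho k (T (model_d 0)) :=
    congrArg (fun U : ModelH →L[ℂ] ModelH => U (model_d 0)) (model_R_rho hT k)
  rw [h1, ← ContinuousLinearMap.adjoint_inner_right, ← ContinuousLinearMap.star_eq_adjoint,
    model_rho_star]
  have h2 : (model_s k k • model_rho k) (model_d 0) = model_s k k • model_d k := by
    rw [← model_rho_d k]
    rfl
  rw [h2, inner_smul_right, ← inner_conj_symm, model_inner_d]

private theorem model_trace {x y : ModelH →L[ℂ] ModelH} (hx : x ∈ model_R) :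
    ⟪model_d 0, (x * y) (model_d 0)⟫_ℂ =
      ∑' k, model_s k k * (x (model_d 0) k) * (y (model_d 0) k) := by
  have h1 : (x * y) (model_d 0) = x (y (model_d 0)) := rfl
  rw [h1, ← ContinuousLinearMap.adjoint_inner_left, ← ContinuousLinearMap.star_eq_adjoint,
    lp.inner_eq_tsum]
  refine tsum_congr fun k => ?_
  rw [model_star_apply hx, RCLike.inner_apply, map_mul, RCLike.conj_conj, model_s_conj]
  ring

private theorem model_dense : Dense {ξ : ModelH | ∃ x ∈ model_R, x (model_d 0) = ξ} := by
  let b : HilbertBasis ModelK ℂ ModelH := HilbertBasis.ofRepr (LinearIsometryEquiv.refl ℂ ModelH)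
  have hb : ∀ k, b k = model_d k := by
    intro k
    rw [← b.repr_symm_single]
    rfl
  have h1 := b.dense_span
  rw [← Submodule.dense_iff_topologicalClosure_eq_top] at h1
  refine h1.mono ?_
  let P : Submodule ℂ ModelH :=
    { carrier := {ξ : ModelH | ∃ x ∈ model_R, x (model_d 0) = ξ}
      add_mem' := by
        rintro _ _ ⟨x, hx, rfl⟩ ⟨y, hy, rfl⟩
        exact ⟨x + y, add_mem hx hy, rfl⟩
      zero_mem' := ⟨0, zero_mem _, rfl⟩
      smul_mem' := by
        rintro c _ ⟨x, hx, rfl⟩
        exact ⟨c • x, model_R.toStarSubalgebra.smul_mem hx c, rfl⟩ }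
  have h2 : Submodule.span ℂ (Set.range b) ≤ P := by
    rw [Submodule.span_le]
    rintro _ ⟨k, rfl⟩
    exact ⟨model_lam k, model_lam_mem k, by rw [model_lam_d, hb]⟩
  exact h2

private theorem model_comm {i j : ℕ} (hij : i ≠ j) (a b : Matrix (Fin 2) (Fin 2) ℂ) :
    Commute (model_iota i a) (model_iota j b) := by
  have h1 : ∀ T : ModelH →L[ℂ] ModelH,
      T * model_lam (model_x i) = model_lam (model_x i) * T →
      T * model_lam (model_z i) = model_lam (model_z i) * T →
      model_iota i a * T = T * model_iota i a := fun T hx hz =>
    (model_iota_comm hx hz a).symm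
  refine model_iota_comm (h1 _ ?_ ?_) (h1 _ ?_ ?_) b
  · exact model_lam_comm (by rw [model_s_x, model_s_x])
  · exact model_lam_comm (by rw [model_s_x, model_s_zx_ne hij])
  · exact model_lam_comm (by rw [model_s_x, model_s_zx_ne hij.symm])
  · exact model_lam_comm (by rw [model_s_zz, model_s_zz])

private theorem model_norm_d : ‖model_d 0‖ = 1 := by
  unfold model_d
  rw [lp.norm_single (by norm_num), norm_one]

private theorem model_tr : ∀ x ∈ model_R, ∀ y ∈ model_R,
    ⟪model_d 0, (x * y) (model_d 0)⟫_ℂ = ⟪model_d 0, (y * x) (model_d 0)⟫_ℂ := by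
  intro x hx y hy
  rw [model_trace hx, model_trace hy]
  exact tsum_congr fun k => by ring

private theorem model_final : IsHyperfiniteII1 model_R :=
  ⟨model_iota, model_d 0, fun _ _ hij a b => model_comm hij a b, model_R_coe, model_norm_d,
    model_tr, model_dense⟩

end final

theorem exists_hyperfiniteII1 :
    ∃ (H : Type) (_ : NormedAddCommGroup H) (_ : InnerProductSpace ℂ H) (_ : CompleteSpace H)
      (R : VonNeumannAlgebra H), IsHyperfiniteII1 R :=
  ⟨ModelH, _, _, _, model_R, model_final⟩

end MP_c82b80_an
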