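import Mathlib
import Pool.Agent.Lib.MP_c82b80_an.Stmt
import Pool.Agent.Lib.MP_c82b80_an.Main

/-!
# Transfer of the main theorem to the notions of `Stmt.lean`
-/

open scoped InnerProductSpace
open Filter Topology

namespace MP_c82b80_an

universe u

variable {H : Type u} [NormedAddCommGroup H] [InnerProductSpace ℂ H] [CompleteSpace H]

theorem opCommutant_eq (S : Set (H →L[ℂ] H)) : opCommutant S = Set.centralizer S := by
  ext y
  exact Iff.rfl

theorem isHyperfinite_iff (R : VonNeumannAlgebra H) : IsHyperfinite R ↔ IsHyperfiniteII1 R := by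
  constructor
  · rintro ⟨ι, Ω, h1, h2, h3, h4, h5⟩
    refine ⟨ι, Ω, fun i j hij a b => h1 i j hij a b, ?_, h3, h4, ?_⟩
    · have e1 : {x : H →L[ℂ] H | ∃ i a, x = (ι i).app a} =
          ⋃ i, Set.range (fun a => (ι i).app a) := by
        ext x
        simp only [Set.mem_setOf_eq, Set.mem_iUnion, Set.mem_range]
        exact ⟨fun ⟨i, a, h⟩ => ⟨i, a, h.symm⟩, fun ⟨i, a, h⟩ => ⟨i, a, h.symm⟩⟩
      rw [opCommutant_eq, opCommutant_eq, e1] at h2
      exact h2
    · convert h5 using 3 with ξ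
      refine exists_congr fun x => and_congr_right fun _ => eq_comm
  · rintro ⟨ι, Ω, h1, h2, h3, h4, h5⟩
    refine ⟨ι, Ω, fun i j hij a b => h1 i j hij a b, ?_, h3, h4, ?_⟩
    · have e1 : {x : H →L[ℂ] H | ∃ i, ∃ a, x = M2Rep.app (ι i) a} =
          ⋃ i, Set.range (ι i) := by
        ext x
        simp only [Set.mem_setOf_eq, Set.mem_iUnion, Set.mem_range]
        exact ⟨fun ⟨i, a, h⟩ => ⟨i, a, h.symm⟩, fun ⟨i, a, h⟩ => ⟨i, a, h.symm⟩⟩
      rw [opCommutant_eq, opCommutant_eq]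
      refine Eq.trans h2 ?_
      congr 2
      exact e1.symm
    · convert h5 using 3 with ξ
      refine exists_congr fun x => and_congr_right fun _ => eq_comm

theorem isStarAlg_coe (A : StarSubalgebra ℂ (H →L[ℂ] H)) : IsStarAlg (A : Set (H →L[ℂ] H)) where
  one := one_mem A
  add x hx y hy := add_mem hx hy
  mul x hx y hy := mul_mem hx hy
  smul c x hx := A.smul_mem hx c
  adj x hx := star_mem hx

/-- a set with `IsStarAlg` as a star subalgebra -/
noncomputable def IsStarAlg.toAlg {S : Set (H →L[ℂ] H)} (h : IsStarAlg S) :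
    StarSubalgebra ℂ (H →L[ℂ] H) where
  carrier := S
  mul_mem' hx hy := h.mul _ hx _ hy
  one_mem' := h.one
  add_mem' hx hy := h.add _ hx _ hy
  zero_mem' := by
    have := h.smul 0 _ h.one
    have e : opSmul (0 : ℂ) (opOne : Op H) = 0 := zero_smul ℂ _
    rwa [e] at this
  algebraMap_mem' c := by
    have := h.smul c _ h.one
    have e : opSmul c (opOne : Op H) = algebraMap ℂ (H →L[ℂ] H) c :=
      (Algebra.algebraMap_eq_smul_one c).symm
    rwa [e] at this
  star_mem' hx := h.adj _ hx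

/-- the masa as a set -/
def toMasaOf {R : VonNeumannAlgebra H} (A : Masa R) : MasaOf R where
  carrier := (A.alg : Set (H →L[ℂ] H))
  starAlg := isStarAlg_coe A.alg
  sub x hx := A.le hx
  comm x hx y hy := A.comm x hx y hy
  maximal B hB hBR hBc hAB := by
    have := A.maximal hB.toAlg (fun x hx => hBR hx) (fun x hx y hy => hBc x hx y hy)
      (fun x hx => hAB hx)
    rw [← this]
    rfl

theorem measurable_toMasaOf (R : VonNeumannAlgebra H) :
    Measurable (toMasaOf : Masa R → MasaOf R) := by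
  refine measurable_generateFrom ?_
  rintro S ⟨n, ξ, η, c, r, rfl⟩
  refine MeasurableSpace.measurableSet_generateFrom ?_
  exact ⟨n, ξ, η, c, r, rfl⟩

theorem auto_isAut {R : VonNeumannAlgebra H} (θ : Auto R) : IsAut R θ.fwd where
  bij := by
    refine ⟨fun x hx => θ.fwd_mem x hx, fun x hx y hy h => θ.injOn hx hy h, fun y hy => ?_⟩
    exact ⟨θ.bwd y, θ.bwd_mem y hy, θ.fwd_bwd y hy⟩
  add := θ.map_add
  mul := θ.map_mul
  smul := θ.map_smul
  adj := θ.map_star

theorem IsAut.exists_auto {R : VonNeumannAlgebra H} {θ : (H →L[ℂ] H) → (H →L[ℂ] H)}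
    (h : IsAut R θ) : ∃ θ' : Auto R, θ'.fwd = θ := by
  have hinj := h.bij.injOn
  have hinv : ∀ y ∈ R, ∃ x ∈ R, θ x = y := fun y hy => h.bij.surjOn hy
  classical
  let inv : (H →L[ℂ] H) → (H →L[ℂ] H) := fun y => if hy : y ∈ R then (hinv y hy).choose else 0
  have inv_mem : ∀ y ∈ R, inv y ∈ R := fun y hy => by
    simp only [inv, dif_pos hy]
    exact (hinv y hy).choose_spec.1
  have fwd_inv : ∀ y ∈ R, θ (inv y) = y := fun y hy => by
    simp only [inv, dif_pos hy]
    exact (hinv y hy).choose_spec.2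
  have fwd_mem : ∀ x ∈ R, θ x ∈ R := fun x hx => h.bij.mapsTo hx
  have hmul : ∀ x ∈ R, ∀ y ∈ R, θ (x * y) = θ x * θ y := h.mul
  refine ⟨{ fwd := θ, bwd := inv, fwd_mem := fwd_mem, bwd_mem := inv_mem,
            bwd_fwd := fun x hx => hinj (inv_mem _ (fwd_mem x hx)) hx (fwd_inv _ (fwd_mem x hx)),
            fwd_bwd := fwd_inv, map_add := h.add, map_mul := hmul, map_smul := h.smul,
            map_one := ?_, map_star := h.adj }, rfl⟩
  have h1 : (1 : H →L[ℂ] H) ∈ R := one_mem R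
  have h2 := hmul (inv 1) (inv_mem 1 h1) 1 h1
  rw [mul_one, fwd_inv 1 h1, one_mul] at h2
  exact h2.symm

theorem conjugate_iff {R : VonNeumannAlgebra H} (A B : Masa R) :
    Conjugate R (toMasaOf A) (toMasaOf B) ↔
      ∃ θ : Auto R, ∀ x ∈ R, x ∈ A.alg ↔ θ.fwd x ∈ B.alg := by
  constructor
  · rintro ⟨θ, hθ, him⟩
    obtain ⟨θ', rfl⟩ := hθ.exists_auto
    refine ⟨θ', fun x hx => ?_⟩
    have him' : θ'.fwd '' (A.alg : Set (H →L[ℂ] H)) = (B.alg : Set (H →L[ℂ] H)) := him
    constructor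
    · intro hxA
      have : θ'.fwd x ∈ θ'.fwd '' (A.alg : Set (H →L[ℂ] H)) := ⟨x, hxA, rfl⟩
      rwa [him'] at this
    · intro hxB
      have : θ'.fwd x ∈ θ'.fwd '' (A.alg : Set (H →L[ℂ] H)) := by rw [him']; exact hxB
      obtain ⟨y, hy, hyx⟩ := this
      have := θ'.injOn (A.le hy) hx hyx
      rw [← this]
      exact hy
  · rintro ⟨θ, hθ⟩
    refine ⟨θ.fwd, auto_isAut θ, ?_⟩
    change θ.fwd '' (A.alg : Set (H →L[ℂ] H)) = (B.alg : Set (H →L[ℂ] H))
    ext y
    constructor
    · rintro ⟨x, hx, rfl⟩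
      exact (hθ x (A.le hx)).1 hx
    · intro hy
      have hyR : y ∈ R := B.le hy
      refine ⟨θ.bwd y, ?_, θ.fwd_bwd y hyR⟩
      refine (hθ _ (θ.bwd_mem y hyR)).2 ?_
      rw [θ.fwd_bwd y hyR]
      exact hy

theorem not_classifiable_conjugate (R : VonNeumannAlgebra H) (hR : IsHyperfinite R) :
    ¬ ClassifiableByCountableStructures (Conjugate R) := by
  obtain ⟨T⟩ := exists_blockTower ((isHyperfinite_iff R).1 hR)
  refine not_classifiable (Conjugate R) (fun x => toMasaOf (T.masa (ang x)))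
    ((measurable_toMasaOf R).comp (T.measurable_masa ang_continuous))
    (fun x y hxy => ?_) ?_
  · exact (conjugate_iff _ _).2
      (exists_auto (T.conj_of_summable _ _ (ang_summable x y hxy)))
  · refine generic.mono fun x hx => hx.mono fun y hy hconj => hy ?_
    obtain ⟨θ, hθ⟩ := (conjugate_iff _ _).1 hconj
    intro ε hε
    exact T.match_ineq (ang_adm x) (ang_adm y) θ hθ hε

end MP_c82b80_an
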